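import Pool.Agent.SAPF.Poly

/-!
The two arcs of a polygon (interface between the geometric modules and the main estimate).
-/

namespace Pool.Agent.SAPF

/-- `a` and `b` are the two arcs, from a leftmost to a rightmost vertex, of the polygon `v` -/
structure IsArcs (n : ℕ) (v : ZMod (2 * n) → ℤ × ℤ) (i : ZMod (2 * n)) (a b : Word) : Prop where
  bra : IsBr (Dir.E :: a)
  brb : IsBr (Dir.E :: b)
  Xa : X a = width v
  Xb : X b = width v
  Yab : Y a = Y b
  len : a.length + b.length = 2 * n
  eq : v = rot i (loop (2 * n) (a ++ rv b))

end Pool.Agent.SAPF
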