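import Pool.Agent.SAPF.ArcDef

/-!
Every polygon is, up to re-rooting, made of two bridges (with an initial step to the right) that
join a leftmost vertex to a rightmost vertex.
-/

namespace Pool.Agent.SAPF

/-- direction of a unit step -/
def dirOf (p : ℤ × ℤ) : Dir :=
  if p = (1, 0) then Dir.E else if p = (0, 1) then Dir.N else if p = (-1, 0) then Dir.W else Dir.S

lemma dirOf_spec {p : ℤ × ℤ} (h : p ∈ ({(1, 0), (0, 1), (-1, 0), (0, -1)} : Set (ℤ × ℤ))) :
    ((dirOf p).dx, (dirOf p).dy) = p := by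
  simp only [Set.mem_insert_iff, Set.mem_singleton_iff] at h
  rcases h with rfl | rfl | rfl | rfl <;> simp [dirOf, Dir.dx, Dir.dy]

/-- the first `k` steps of `v` -/
def stepsW {m : ℕ} (v : ZMod m → ℤ × ℤ) (k : ℕ) : Word :=
  (List.range k).map (fun j : ℕ => dirOf (v ((j : ZMod m) + 1) - v (j : ZMod m)))

@[simp] lemma length_stepsW {m : ℕ} (v : ZMod m → ℤ × ℤ) (k : ℕ) : (stepsW v k).length = k := by
  simp [stepsW]

lemma stepsW_take {m : ℕ} (v : ZMod m → ℤ × ℤ) {j k : ℕ} (h : j ≤ k) :
    (stepsW v k).take j = stepsW v j := by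
  simp [stepsW, ← List.map_take, List.take_range, min_eq_left h]

lemma XY_stepsW {m : ℕ} {v : ZMod m → ℤ × ℤ} (hv : IsSAP m v) (k : ℕ) :
    (X (stepsW v k), Y (stepsW v k)) = v (k : ZMod m) := by
  induction k with
  | zero => simp [stepsW, hv.1]
  | succ k ih =>
    obtain ⟨D, hD⟩ : ∃ D, D = dirOf (v ((k : ZMod m) + 1) - v (k : ZMod m)) := ⟨_, rfl⟩
    have h1 : stepsW v (k + 1) = stepsW v k ++ [D] := by
      rw [hD]
      simp [stepsW, List.range_succ]
    have h2 := dirOf_spec (hv.2.2 (k : ZMod m))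
    rw [← hD] at h2
    have h3 : v (((k + 1 : ℕ)) : ZMod m) =
        v (k : ZMod m) + (v ((k : ZMod m) + 1) - v (k : ZMod m)) := by
      push_cast; abel
    rw [h1, X_append, Y_append, h3, ← h2, ← ih]
    simp

lemma X_stepsW {m : ℕ} {v : ZMod m → ℤ × ℤ} (hv : IsSAP m v) (k : ℕ) :
    X (stepsW v k) = (v (k : ZMod m)).1 := by
  rw [← XY_stepsW hv k]
lemma Y_stepsW {m : ℕ} {v : ZMod m → ℤ × ℤ} (hv : IsSAP m v) (k : ℕ) :
    Y (stepsW v k) = (v (k : ZMod m)).2 := by
  rw [← XY_stepsW hv k]

/-- a factor of the word of steps -/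
lemma infix_stepsW {m : ℕ} {v : ZMod m → ℤ × ℤ} (hv : IsSAP m v) {p t q : Word} {k : ℕ}
    (h : p ++ t ++ q = stepsW v k) : v ((p.length + t.length : ℕ) : ZMod m) =
      v (p.length : ZMod m) + (X t, Y t) := by
  have hl : p.length + t.length ≤ k := by
    have := congrArg List.length h
    simp at this
    omega
  have h1 : p = stepsW v p.length := by
    rw [← stepsW_take v (j := p.length) (k := k) (by omega), ← h]
    simp
  have h2 : p ++ t = stepsW v (p.length + t.length) := by
    rw [← stepsW_take v (j := p.length + t.length) (k := k) hl, ← h, ← List.length_append,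
      List.take_left' rfl]
  rw [← XY_stepsW hv, ← h2, ← XY_stepsW hv, ← h1, X_append, Y_append]
  rfl

lemma zmod_cast_inj {m i j : ℕ} (hi : i ≤ j) (hj : j ≤ m) (h : (i : ZMod m) = (j : ZMod m)) :
    i = j ∨ (i = 0 ∧ j = m) := by
  rw [ZMod.natCast_eq_natCast_iff] at h
  have h1 : m ∣ j - i := (Nat.modEq_iff_dvd' hi).1 h
  rcases Nat.eq_zero_or_pos (j - i) with h0 | h0
  · left; omega
  · right
    have := Nat.le_of_dvd h0 h1
    omega

/-- a polygon is not contained in a vertical line -/
lemma exists_ne_zero {m : ℕ} (hm : 4 ≤ m) {v : ZMod m → ℤ × ℤ} (hv : IsSAP m v) :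
    ∃ j, (v j).1 ≠ 0 := by
  have : NeZero m := ⟨by omega⟩
  by_contra hcon
  push Not at hcon
  obtain ⟨j, -, hj⟩ := Finset.exists_max_image (Finset.univ : Finset (ZMod m)) (fun i => (v i).2)
    ⟨0, Finset.mem_univ _⟩
  have key : ∀ i : ZMod m, (v (i + 1)).2 - (v i).2 = 1 ∨ (v (i + 1)).2 - (v i).2 = -1 := by
    intro i
    have h := hv.2.2 i
    simp only [Set.mem_insert_iff, Set.mem_singleton_iff, Prod.ext_iff, Prod.fst_sub, Prod.snd_sub,
      hcon] at h
    omega
  have h1 : (v (j + 1)).2 = (v j).2 - 1 := by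
    have := key j
    have := hj (j + 1) (Finset.mem_univ _)
    omega
  have h2 : (v (j - 1)).2 = (v j).2 - 1 := by
    have h3 := key (j - 1)
    rw [sub_add_cancel] at h3
    have := hj (j - 1) (Finset.mem_univ _)
    omega
  have h3 : v (j + 1) = v (j - 1) := by
    apply Prod.ext
    · rw [hcon, hcon]
    · rw [h1, h2]
  have h4 := hv.2.1 h3
  have h5 : ((2 : ℕ) : ZMod m) = ((0 : ℕ) : ZMod m) := by
    have h6 : (j + 1) - (j - 1) = 0 := by rw [h4, sub_self]
    have h7 : (2 : ZMod m) = (j + 1) - (j - 1) := by ring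
    push_cast
    rw [h7, h6]
  rcases zmod_cast_inj (m := m) (i := 0) (j := 2) (by omega) (by omega) h5.symm with h | h <;> omega

lemma IsSAP.rot {m : ℕ} {v : ZMod m → ℤ × ℤ} (hv : IsSAP m v) (i : ZMod m) :
    IsSAP m (rot i v) := by
  refine ⟨by simp [SAPF.rot], ?_, ?_⟩
  · intro j k hjk
    have h1 : v (j + i) = v (k + i) := by
      simpa [SAPF.rot] using hjk
    simpa using hv.2.1 h1
  · intro j
    have h1 := hv.2.2 (j + i)
    have h2 : SAPF.rot i v (j + 1) - SAPF.rot i v j = v (j + i + 1) - v (j + i) := by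
      have : j + 1 + i = j + i + 1 := by ring
      simp [SAPF.rot, this]
    rw [h2]
    exact h1

lemma width_rot {m : ℕ} (v : ZMod m → ℤ × ℤ) (i : ZMod m) : width (rot i v) = width v := by
  unfold width
  congr 1
  ext d
  constructor
  · rintro ⟨j, k, h⟩
    exact ⟨j + i, k + i, by simpa [SAPF.rot] using h⟩
  · rintro ⟨j, k, h⟩
    exact ⟨j - i, k - i, by simpa [SAPF.rot] using h⟩

/-- bridges from one-sided bounds -/
lemma isBr_cons_of {a : Word} (hs : SAW a) (h0 : ∀ t, t <+: a → 0 ≤ X t)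
    (h1 : ∀ t, t <+: a → X t ≤ X a) : IsBr (Dir.E :: a) := by
  have hpos : ∀ {u : Word}, u <+: Dir.E :: a → u ≠ [] → 0 < X u := by
    intro u hu hne
    rcases List.prefix_cons_iff.1 hu with h | ⟨t, rfl, ht⟩
    · exact absurd h hne
    · have := h0 t ht
      rw [X_cons]
      have h2 : Dir.E.dx = 1 := rfl
      omega
  refine ⟨?_, hpos, ?_⟩
  · intro t ht hx hy
    rcases List.infix_cons_iff.1 ht with h | h
    · by_contra hne
      have := hpos h hne
      omega
    · exact hs t h hx hy
  · intro t ht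
    rcases List.suffix_cons_iff.1 ht with h | h
    · rw [h]
      exact (hpos (List.prefix_refl _) (by simp)).le
    · obtain ⟨s, rfl⟩ := h
      have := h1 s (List.prefix_append s t)
      rw [X_append] at this
      omega

lemma exists_arcs_left {n : ℕ} (hn : 2 ≤ n) {v : ZMod (2 * n) → ℤ × ℤ} (hv : IsSAP (2 * n) v)
    (hpos : ∀ j, 0 ≤ (v j).1) :
    ∃ a b, IsBr (Dir.E :: a) ∧ IsBr (Dir.E :: b) ∧ X a = width v ∧ X b = width v ∧ Y a = Y b ∧
      a.length + b.length = 2 * n ∧ v = loop (2 * n) (a ++ rv b) := by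
  have : NeZero (2 * n) := ⟨by omega⟩
  obtain ⟨j, -, hj⟩ := Finset.exists_max_image (Finset.univ : Finset (ZMod (2 * n)))
    (fun i => (v i).1) ⟨0, Finset.mem_univ _⟩
  have hmax : ∀ i, (v i).1 ≤ (v j).1 := fun i => hj i (Finset.mem_univ _)
  have hjpos : 0 < (v j).1 := by
    obtain ⟨i, hi⟩ := exists_ne_zero (by omega) hv
    have := hpos i
    have := hmax i
    omega
  set k := j.val with hk
  have hkm : k < 2 * n := ZMod.val_lt j
  have hkj : ((k : ℕ) : ZMod (2 * n)) = j := ZMod.natCast_zmod_val j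
  have hk0 : 0 < k := by
    rcases Nat.eq_zero_or_pos k with h | h
    · exfalso
      rw [h] at hkj
      simp at hkj
      rw [← hkj, hv.1] at hjpos
      simp at hjpos
    · exact h
  have hwidth : width v = (v j).1 := by
    unfold width
    refine IsGreatest.csSup_eq ⟨⟨j, 0, by rw [hv.1]; simp⟩, ?_⟩
    rintro d ⟨i, i', rfl⟩
    have := hmax i
    have := hpos i'
    omega
  set w := stepsW v (2 * n) with hw
  have hwlen : w.length = 2 * n := length_stepsW v _
  set a := w.take k with ha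
  set c := w.drop k with hc
  have hac : a ++ c = w := List.take_append_drop k w
  have ha' : a = stepsW v k := stepsW_take v hkm.le
  have hal : a.length = k := by rw [ha', length_stepsW]
  have hcl : c.length = 2 * n - k := by rw [hc, List.length_drop, hwlen]
  have hXa : X a = (v j).1 := by rw [ha', X_stepsW hv, hkj]
  have hYa : Y a = (v j).2 := by rw [ha', Y_stepsW hv, hkj]
  have hXw : X w = 0 := by
    rw [hw, X_stepsW hv, ZMod.natCast_self, hv.1]; rfl
  have hYw : Y w = 0 := by
    rw [hw, Y_stepsW hv, ZMod.natCast_self, hv.1]; rfl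
  have hXc : X c = -(v j).1 := by
    have := X_append a c
    rw [hac, hXw] at this
    omega
  have hYc : Y c = -(v j).2 := by
    have := Y_append a c
    rw [hac, hYw] at this
    omega
  -- beginnings of `w`
  have hpre : ∀ t, t <+: w → X t = (v (t.length : ZMod (2 * n))).1 := by
    rintro t ⟨s, hs⟩
    have h := infix_stepsW hv (p := []) (t := t) (q := s) (k := 2 * n) (by simpa using hs)
    simp only [List.length_nil, Nat.cast_zero, hv.1, zero_add] at h
    rw [h]
  have hpa : ∀ t, t <+: a → 0 ≤ X t ∧ X t ≤ X a := by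
    intro t ht
    have h1 := hpre t (ht.trans (by rw [← hac]; exact List.prefix_append a c))
    rw [h1, hXa]
    exact ⟨hpos _, hmax _⟩
  have hsa : SAW a := by
    rintro t ⟨p, q, hpq⟩ hx hy
    have hl : p.length + t.length ≤ k := by
      have := congrArg List.length hpq
      simp [hal] at this
      omega
    have h := infix_stepsW hv (p := p) (t := t) (q := q ++ c) (k := 2 * n) (by
      rw [← List.append_assoc, hpq, hac])
    rw [hx, hy] at h
    rw [show ((0 : ℤ), (0 : ℤ)) = 0 from rfl, add_zero] at h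
    have h2 := hv.2.1 h
    rcases zmod_cast_inj (by omega) (by omega) h2.symm with h3 | h3
    · exact List.length_eq_zero_iff.1 (by omega)
    · omega
  have hsc : SAW c := by
    rintro t ⟨p, q, hpq⟩ hx hy
    have h := infix_stepsW hv (p := a ++ p) (t := t) (q := q) (k := 2 * n) (by
      rw [List.append_assoc, List.append_assoc, ← List.append_assoc p, hpq, hac])
    have hl : (a ++ p).length + t.length ≤ 2 * n := by
      have := congrArg List.length hpq
      simp [hcl] at this
      simp [hal]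
      omega
    rw [hx, hy] at h
    rw [show ((0 : ℤ), (0 : ℤ)) = 0 from rfl, add_zero] at h
    have h2 := hv.2.1 h
    rcases zmod_cast_inj (by omega) (by omega) h2.symm with h3 | h3
    · exact List.length_eq_zero_iff.1 (by omega)
    · exfalso
      have := h3.1
      simp [hal] at this
      omega
  refine ⟨a, rv c, isBr_cons_of hsa (fun t ht => (hpa t ht).1) (fun t ht => (hpa t ht).2),
    isBr_cons_of hsc.rv ?_ ?_, ?_, ?_, ?_, ?_, ?_⟩
  · -- beginnings of `rv c`
    intro t ht
    obtain ⟨s, hs⟩ := prefix_rv.1 ht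
    have h1 := hpre (a ++ s) ⟨rv t, by rw [List.append_assoc, hs, hac]⟩
    have h2 := hpos ((a ++ s).length : ZMod (2 * n))
    have h3 := congrArg X hs
    rw [X_append, X_rv, hXc] at h3
    rw [X_append, hXa] at h1
    omega
  · intro t ht
    obtain ⟨s, hs⟩ := prefix_rv.1 ht
    have h1 := hpre (a ++ s) ⟨rv t, by rw [List.append_assoc, hs, hac]⟩
    have h2 := hmax ((a ++ s).length : ZMod (2 * n))
    have h3 := congrArg X hs
    rw [X_append, X_rv, hXc] at h3
    rw [X_append, hXa] at h1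
    rw [X_rv, hXc]
    omega
  · rw [hXa, hwidth]
  · rw [X_rv, hXc, hwidth]; ring
  · rw [Y_rv, hYc, hYa]; ring
  · rw [length_rv, hal, hcl]; omega
  · rw [rv_rv, hac]
    funext i
    have h1 : i.val ≤ 2 * n := (ZMod.val_lt i).le
    unfold loop
    rw [hw, stepsW_take v h1, XY_stepsW hv, ZMod.natCast_zmod_val]

theorem exists_arcs {n : ℕ} (hn : 2 ≤ n) {v : ZMod (2 * n) → ℤ × ℤ} (hv : IsSAP (2 * n) v) :
    ∃ i a b, IsArcs n v i a b := by
  have : NeZero (2 * n) := ⟨by omega⟩
  obtain ⟨j, -, hj⟩ := Finset.exists_min_image (Finset.univ : Finset (ZMod (2 * n)))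
    (fun i => (v i).1) ⟨0, Finset.mem_univ _⟩
  have hmin : ∀ i, (v j).1 ≤ (v i).1 := fun i => hj i (Finset.mem_univ _)
  obtain ⟨a, b, h1, h2, h3, h4, h5, h6, h7⟩ := exists_arcs_left hn (hv.rot j) (by
    intro i
    have := hmin (i + j)
    simp [SAPF.rot]
    omega)
  refine ⟨-j, a, b, h1, h2, ?_, ?_, h5, h6, ?_⟩
  · rw [h3, width_rot]
  · rw [h4, width_rot]
  · rw [← h7]
    funext i
    simp [SAPF.rot, hv.1]

end Pool.Agent.SAPF
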