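import Pool.Agent.SAPF.ArcDef

/-!
Area of the polygon in terms of the two arcs: number of edges of the arcs above a unit square,
upper bound by the heights, lower bound by the far flippable pieces.
-/

namespace Pool.Agent.SAPF

/-! ### counting horizontal edges -/

/-- number of horizontal edges with the property `P` -/
def cN (w : Word) (P : ℤ × ℤ → Prop) [DecidablePred P] : ℕ := (hEdges w).countP (fun p => decide (P p))

lemma cN_nil (P : ℤ × ℤ → Prop) [DecidablePred P] : cN [] P = 0 := rfl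

lemma cN_congr {w : Word} {P Q : ℤ × ℤ → Prop} [DecidablePred P] [DecidablePred Q]
    (h : ∀ p, P p ↔ Q p) : cN w P = cN w Q := by
  unfold cN
  refine List.countP_congr ?_
  intro p _
  simp [h p]

lemma cN_cons (d : Dir) (w : Word) (P : ℤ × ℤ → Prop) [DecidablePred P] :
    cN (d :: w) P = (if d = Dir.E ∧ P (0, 0) then 1 else 0) + (if d = Dir.W ∧ P (-1, 0) then 1 else 0)
      + cN w (fun p => P (p.1 + d.dx, p.2 + d.dy)) := by
  unfold cN
  rw [hEdges, List.countP_append, List.countP_map]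
  have h1 : List.countP ((fun p => decide (P p)) ∘ fun p : ℤ × ℤ => (p.1 + d.dx, p.2 + d.dy)) (hEdges w)
      = List.countP (fun p => decide (P (p.1 + d.dx, p.2 + d.dy))) (hEdges w) := rfl
  rw [h1]
  congr 1
  cases d <;> simp [List.countP_cons]

lemma cN_append (u v : Word) (P : ℤ × ℤ → Prop) [DecidablePred P] :
    cN (u ++ v) P = cN u P + cN v (fun p => P (p.1 + X u, p.2 + Y u)) := by
  induction u generalizing P with
  | nil => simp [cN_nil]
  | cons d u ih =>
    rw [List.cons_append, cN_cons, cN_cons, ih]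
    have : cN v (fun p : ℤ × ℤ => P (p.1 + X u + d.dx, p.2 + Y u + d.dy))
        = cN v (fun p => P (p.1 + X (d :: u), p.2 + Y (d :: u))) := by
      refine cN_congr fun p => ?_
      rw [X_cons, Y_cons, add_comm d.dx, add_comm d.dy, add_assoc, add_assoc]
    simp only at this ⊢
    rw [this]
    ring

lemma cN_rv (w : Word) (P : ℤ × ℤ → Prop) [DecidablePred P] :
    cN (rv w) (fun p => P (p.1 + X w, p.2 + Y w)) = cN w P := by
  induction w generalizing P with
  | nil => simp [cN_nil]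
  | cons d w ih =>
    have h0 : rv (d :: w) = rv w ++ [d.op] := by simp [rv]
    rw [h0, cN_append, cN_cons d w]
    have h1 : cN (rv w) (fun p => P (p.1 + X (d :: w), p.2 + Y (d :: w)))
        = cN w (fun p => P (p.1 + d.dx, p.2 + d.dy)) := by
      rw [← ih (fun p => P (p.1 + d.dx, p.2 + d.dy))]
      refine cN_congr fun p => ?_
      rw [X_cons, Y_cons]
      simp only
      rw [add_comm d.dx, add_comm d.dy, add_assoc, add_assoc]
    rw [h1]
    have h2 : cN [d.op] (fun p => P (p.1 + X (rv w) + X (d :: w), p.2 + Y (rv w) + Y (d :: w)))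
        = (if d = Dir.E ∧ P (0, 0) then 1 else 0) + (if d = Dir.W ∧ P (-1, 0) then 1 else 0) := by
      rw [cN_cons, cN_nil, X_rv, Y_rv, X_cons, Y_cons]
      have e0 : ∀ z : ℤ, -1 + -z + (1 + z) = 0 := fun z => by ring
      cases d <;> simp [Dir.op, Dir.dx, Dir.dy, e0]
    rw [h2]; ring

/-- edges of a word and its beginnings -/
lemma exists_of_mem_hEdges {w : Word} {p : ℤ × ℤ} (h : p ∈ hEdges w) :
    (∃ t, t ++ [Dir.E] <+: w ∧ p = (X t, Y t)) ∨ (∃ t, t ++ [Dir.W] <+: w ∧ p = (X t - 1, Y t)) := by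
  induction w generalizing p with
  | nil => simp [hEdges] at h
  | cons d w ih =>
    rw [hEdges, List.mem_append] at h
    rcases h with h | h
    · cases d
      · simp at h
        left; exact ⟨[], by simp, by simp [h]⟩
      · simp at h
      · simp at h
        right; exact ⟨[], by simp, by simp [h]⟩
      · simp at h
    · rw [List.mem_map] at h
      obtain ⟨q, hq, hqp⟩ := h
      rcases ih hq with ⟨t, ht, hqt⟩ | ⟨t, ht, hqt⟩
      · left
        refine ⟨d :: t, ?_, ?_⟩
        · rw [List.cons_append]; exact (List.cons_prefix_cons).2 ⟨rfl, ht⟩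
        · rw [← hqp, hqt, X_cons, Y_cons]
          simp only [Prod.mk.injEq]
          constructor <;> ring
      · right
        refine ⟨d :: t, ?_, ?_⟩
        · rw [List.cons_append]; exact (List.cons_prefix_cons).2 ⟨rfl, ht⟩
        · rw [← hqp, hqt, X_cons, Y_cons]
          simp only [Prod.mk.injEq]
          constructor <;> ring

lemma hEdges_fst {w : Word} {lo hi : ℤ} (h : ∀ t, t <+: w → lo ≤ X t ∧ X t ≤ hi) {p : ℤ × ℤ}
    (hp : p ∈ hEdges w) : lo ≤ p.1 ∧ p.1 < hi := by
  rcases exists_of_mem_hEdges hp with ⟨t, ht, rfl⟩ | ⟨t, ht, rfl⟩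
  · have h1 := h _ ht
    have h2 := h _ ((List.prefix_append t _).trans ht)
    simp [Dir.dx] at h1 h2 ⊢
    omega
  · have h1 := h _ ht
    have h2 := h _ ((List.prefix_append t _).trans ht)
    simp [Dir.dx] at h1 h2 ⊢
    omega

lemma hEdges_snd {w : Word} {H : ℤ} (h : ∀ t, t <+: w → |Y t| ≤ H) {p : ℤ × ℤ}
    (hp : p ∈ hEdges w) : |p.2| ≤ H := by
  rcases exists_of_mem_hEdges hp with ⟨t, ht, rfl⟩ | ⟨t, ht, rfl⟩
  · exact h _ ((List.prefix_append t _).trans ht)
  · exact h _ ((List.prefix_append t _).trans ht)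

lemma cN_eq_zero {w : Word} {P : ℤ × ℤ → Prop} [DecidablePred P] (h : ∀ p ∈ hEdges w, ¬ P p) :
    cN w P = 0 := by
  unfold cN
  rw [List.countP_eq_zero]
  intro p hp
  simpa using h p hp

lemma exists_of_cN_pos {w : Word} {P : ℤ × ℤ → Prop} [DecidablePred P] (h : cN w P ≠ 0) :
    ∃ p ∈ hEdges w, P p := by
  by_contra hc
  push Not at hc
  exact h (cN_eq_zero hc)

lemma cN_split (w : Word) (x y : ℤ) :
    cN w (fun p => p.1 = x) = cN w (fun p => p.1 = x ∧ y < p.2) + cN w (fun p => p.1 = x ∧ p.2 ≤ y) := by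
  unfold cN
  induction hEdges w with
  | nil => simp
  | cons a l ih =>
    simp only [List.countP_cons, ih]
    by_cases h1 : a.1 = x
    · rcases lt_or_ge y a.2 with h2 | h2
      · simp [h1, h2, not_le.2 h2]; omega
      · simp [h1, h2, not_lt.2 h2]; omega
    · simp [h1]

/-- parity of the number of edges in a column -/
lemma cN_parity (w : Word) (x : ℤ) :
    (cN w (fun p => p.1 = x)) % 2 = if (0 ≤ x ∧ x < X w) ∨ (X w ≤ x ∧ x < 0) then 1 else 0 := by
  induction w generalizing x with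
  | nil =>
    rw [cN_nil, X_nil, if_neg (by omega)]
  | cons d w ih =>
    have h1 : cN w (fun p => (p.1 + d.dx, p.2 + d.dy).1 = x) = cN w (fun p => p.1 = x - d.dx) := by
      refine cN_congr fun p => ?_
      constructor <;> intro h <;> simp only at h ⊢ <;> omega
    rw [cN_cons, h1, X_cons, Nat.add_mod, ih]
    cases d
    · simp only [Dir.dx, true_and, reduceCtorEq, false_and, if_false]
      split_ifs <;> first | rfl | (exfalso; omega)
    · simp only [Dir.dx, reduceCtorEq, false_and, if_false]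
      split_ifs <;> first | rfl | (exfalso; omega)
    · simp only [Dir.dx, true_and, reduceCtorEq, false_and, if_false]
      split_ifs <;> first | rfl | (exfalso; omega)
    · simp only [Dir.dx, reduceCtorEq, false_and, if_false]
      split_ifs <;> first | rfl | (exfalso; omega)

/-! ### edges of the polygon above a square -/

lemma card_idx (w : Word) (x y : ℤ) :
    ((Finset.range w.length).filter (fun k => Y (w.take k) = Y (w.take (k + 1)) ∧
      min (X (w.take k)) (X (w.take (k + 1))) = x ∧ y < Y (w.take k))).card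
      = cN w (fun p => p.1 = x ∧ y < p.2) := by
  induction w generalizing x y with
  | nil => simp [cN_nil]
  | cons d w ih =>
    rw [Finset.card_filter, List.length_cons, Finset.sum_range_succ']
    rw [cN_cons]
    have h1 : cN w (fun p => (p.1 + d.dx, p.2 + d.dy).1 = x ∧ y < (p.1 + d.dx, p.2 + d.dy).2)
        = cN w (fun p => p.1 = x - d.dx ∧ y - d.dy < p.2) := by
      refine cN_congr fun p => ?_
      constructor <;> intro h <;> simp only at h ⊢ <;> constructor <;> omega
    rw [h1, ← ih, Finset.card_filter, add_comm]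
    congr 1
    · simp only [List.take_zero, zero_add, List.take_succ_cons, X_cons, Y_cons, X_nil, Y_nil]
      cases d
      · simp [Dir.dx, Dir.dy, eq_comm]
      · simp [Dir.dx, Dir.dy]
      · simp [Dir.dx, Dir.dy, eq_comm]
      · simp [Dir.dx, Dir.dy]
    · refine Finset.sum_congr rfl fun k _ => ?_
      simp only [List.take_succ_cons, X_cons, Y_cons]
      congr 1
      rw [min_add_add_left, eq_iff_iff]
      constructor
      · rintro ⟨h2, h3, h4⟩
        exact ⟨by omega, by omega, by omega⟩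
      · rintro ⟨h2, h3, h4⟩
        exact ⟨by omega, by omega, by omega⟩

lemma loop_succ {m : ℕ} [NeZero m] {w : Word} (hm : w.length = m) (hX : X w = 0) (hY : Y w = 0)
    (j : ZMod m) : loop m w (j + 1) = (X (w.take (j.val + 1)), Y (w.take (j.val + 1))) := by
  have hj := ZMod.val_lt j
  have hv : (j + 1).val = (j.val + 1) % m := by
    rw [ZMod.val_add, ZMod.val_one_eq_one_mod]
    simp
  rcases Nat.lt_or_ge (j.val + 1) m with h | h
  · rw [loop, hv, Nat.mod_eq_of_lt h]
  · have h1 : j.val + 1 = m := by omega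
    rw [loop, hv, h1, Nat.mod_self, List.take_zero, ← hm, List.take_length, hX, hY, X_nil, Y_nil]

lemma above_ncard {m : ℕ} [NeZero m] {w : Word} (hm : w.length = m) (hX : X w = 0) (hY : Y w = 0)
    (c : ℤ × ℤ) : (above (loop m w) c).ncard = cN w (fun p => p.1 = c.1 ∧ c.2 < p.2) := by
  classical
  rw [← card_idx, ← Set.ncard_coe_finset]
  rw [← Set.ncard_image_of_injective (above (loop m w) c) (ZMod.val_injective m)]
  congr 1
  ext k
  simp only [Set.mem_image, Finset.coe_filter, Finset.mem_range, Set.mem_ofPred_eq]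
  constructor
  · rintro ⟨j, hj, rfl⟩
    rw [above, Set.mem_ofPred_eq, loop_succ hm hX hY] at hj
    exact ⟨by rw [hm]; exact ZMod.val_lt j, hj⟩
  · rintro ⟨hk, hc⟩
    rw [hm] at hk
    have hv : ((k : ℕ) : ZMod m).val = k := ZMod.val_cast_of_lt hk
    refine ⟨(k : ZMod m), ?_, hv⟩
    rw [above, Set.mem_ofPred_eq, loop_succ hm hX hY]
    simp only [loop, hv]
    exact hc

lemma area_rot {m : ℕ} [NeZero m] (i : ZMod m) (v : ZMod m → ℤ × ℤ) : area (rot i v) = area v := by
  have h1 : ∀ c : ℤ × ℤ, (above (rot i v) c).ncard = (above v (c + v i)).ncard := by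
    intro c
    rw [← Set.ncard_image_of_injective (above (rot i v) c) (Equiv.addRight i).injective]
    congr 1
    ext k
    simp only [Set.mem_image, above, Set.mem_ofPred_eq, rot, Equiv.coe_addRight, Prod.fst_sub,
      Prod.snd_sub, Prod.fst_add, Prod.snd_add]
    constructor
    · rintro ⟨j, hj, rfl⟩
      have h2 : j + 1 + i = j + i + 1 := by ring
      rw [h2] at hj
      refine ⟨by omega, by omega, by omega⟩
    · rintro hk
      refine ⟨k - i, ?_, by ring⟩
      have h2 : k - i + 1 + i = k + 1 := by ring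
      rw [h2, sub_add_cancel]
      refine ⟨by omega, by omega, by omega⟩
  unfold area
  rw [← Set.ncard_image_of_injective {c | Odd (above (rot i v) c).ncard}
    (Equiv.addRight (v i)).injective]
  congr 1
  ext c
  simp only [Set.mem_image, Set.mem_ofPred_eq, h1, Equiv.coe_addRight]
  constructor
  · rintro ⟨c', hc', rfl⟩; exact hc'
  · intro hc
    exact ⟨c - v i, by rwa [sub_add_cancel], by ring⟩

/-- squares (shifted by one to the right) enclosed by the arcs -/
def Od (A B : Word) : Set (ℤ × ℤ) :=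
  {c | Odd (cN A (fun p => p.1 = c.1 ∧ c.2 < p.2) + cN B (fun p => p.1 = c.1 ∧ c.2 < p.2))}

lemma cN_cons_E (w : Word) (c : ℤ × ℤ) : cN (Dir.E :: w) (fun p => p.1 = c.1 + 1 ∧ c.2 < p.2)
    = (if c.1 + 1 = 0 ∧ c.2 < 0 then 1 else 0) + cN w (fun p => p.1 = c.1 ∧ c.2 < p.2) := by
  rw [cN_cons]
  have h1 : cN w (fun p => (p.1 + Dir.E.dx, p.2 + Dir.E.dy).1 = c.1 + 1 ∧
      c.2 < (p.1 + Dir.E.dx, p.2 + Dir.E.dy).2) = cN w (fun p => p.1 = c.1 ∧ c.2 < p.2) := by
    refine cN_congr fun p => ?_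
    simp only [Dir.dx, Dir.dy]
    constructor <;> intro h <;> constructor <;> omega
  rw [h1]
  simp [eq_comm]

theorem area_eq {n : ℕ} (hn : 2 ≤ n) {v : ZMod (2 * n) → ℤ × ℤ} {i : ZMod (2 * n)} {a b : Word}
    (h : IsArcs n v i a b) : area v = (Od (Dir.E :: a) (Dir.E :: b)).ncard := by
  have : NeZero (2 * n) := ⟨by omega⟩
  have hX : X (a ++ rv b) = 0 := by rw [X_append, X_rv, h.Xa, h.Xb]; ring
  have hY : Y (a ++ rv b) = 0 := by rw [Y_append, Y_rv, h.Yab]; ring
  have hl : (a ++ rv b).length = 2 * n := by rw [List.length_append, length_rv, h.len]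
  rw [h.eq, area_rot]
  unfold area
  have h1 : ∀ c : ℤ × ℤ, (above (loop (2 * n) (a ++ rv b)) c).ncard
      = cN a (fun p => p.1 = c.1 ∧ c.2 < p.2) + cN b (fun p => p.1 = c.1 ∧ c.2 < p.2) := by
    intro c
    rw [above_ncard hl hX hY, cN_append, ← cN_rv b]
    congr 1
    refine cN_congr fun p => ?_
    rw [h.Xa, h.Xb, h.Yab]
  have hinj : Function.Injective (fun c : ℤ × ℤ => (c.1 + 1, c.2)) := by
    intro c c' hcc
    simp only [Prod.mk.injEq, add_left_inj] at hcc
    exact Prod.ext hcc.1 hcc.2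
  rw [← Set.ncard_image_of_injective {c | Odd (above (loop (2 * n) (a ++ rv b)) c).ncard} hinj]
  congr 1
  have key : ∀ c : ℤ × ℤ, (c.1 + 1, c.2) ∈ Od (Dir.E :: a) (Dir.E :: b) ↔
      Odd (above (loop (2 * n) (a ++ rv b)) c).ncard := by
    intro c
    rw [Od, Set.mem_ofPred_eq, h1]
    simp only
    rw [cN_cons_E, cN_cons_E]
    split_ifs
    · rw [Nat.odd_iff, Nat.odd_iff]; omega
    · simp
  ext c
  simp only [Set.mem_image, Set.mem_ofPred_eq]
  constructor
  · rintro ⟨c', hc', rfl⟩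
    exact (key c').2 hc'
  · intro hc
    refine ⟨(c.1 - 1, c.2), (key _).1 ?_, ?_⟩
    · simpa using hc
    · simp

/-! ### the upper bound -/

lemma prefix_bounds {w : Word} (h : IsBr (Dir.E :: w)) {t : Word} (ht : t <+: w) :
    0 ≤ X t ∧ X t ≤ X w := by
  have h1 : Dir.E :: t <+: Dir.E :: w := (List.cons_prefix_cons).2 ⟨rfl, ht⟩
  have h2 := h.pos h1 (by simp)
  have h3 := h.le h1
  simp [Dir.dx] at h2 h3
  omega

theorem area_le {n : ℕ} (hn : 2 ≤ n) {v : ZMod (2 * n) → ℤ × ℤ} {i : ZMod (2 * n)} {a b : Word}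
    (h : IsArcs n v i a b) {H : ℕ} (ha : ∀ t, t <+: a → |Y t| ≤ H) (hb : ∀ t, t <+: b → |Y t| ≤ H) :
    (area v : ℤ) ≤ width v * (2 * H) := by
  classical
  have : NeZero (2 * n) := ⟨by omega⟩
  have hX : X (a ++ rv b) = 0 := by rw [X_append, X_rv, h.Xa, h.Xb]; ring
  have hY : Y (a ++ rv b) = 0 := by rw [Y_append, Y_rv, h.Yab]; ring
  have hl : (a ++ rv b).length = 2 * n := by rw [List.length_append, length_rv, h.len]
  have hW : 0 ≤ width v := by
    rw [← h.Xa]
    have := h.bra.pos (u := [Dir.E]) (by simp) (by simp)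
    have h2 := h.bra.le (u := [Dir.E]) (by simp)
    simp [Dir.dx] at h2
    exact h2
  have h1 : ∀ c : ℤ × ℤ, (above (loop (2 * n) (a ++ rv b)) c).ncard
      = cN a (fun p => p.1 = c.1 ∧ c.2 < p.2) + cN b (fun p => p.1 = c.1 ∧ c.2 < p.2) := by
    intro c
    rw [above_ncard hl hX hY, cN_append, ← cN_rv b]
    congr 1
    refine cN_congr fun p => ?_
    rw [h.Xa, h.Xb, h.Yab]
  have hsub : {c : ℤ × ℤ | Odd (above (loop (2 * n) (a ++ rv b)) c).ncard} ⊆
      ↑(Finset.Ico (0 : ℤ) (width v) ×ˢ Finset.Ico (-(H : ℤ)) (H : ℤ)) := by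
    intro c hc
    rw [Set.mem_ofPred_eq, h1] at hc
    have e1 : ∃ p, (p ∈ hEdges a ∨ p ∈ hEdges b) ∧ p.1 = c.1 ∧ c.2 < p.2 := by
      by_cases h0 : cN a (fun p => p.1 = c.1 ∧ c.2 < p.2) = 0
      · have h2 : cN b (fun p => p.1 = c.1 ∧ c.2 < p.2) ≠ 0 := by
          intro h3; rw [h0, h3] at hc; simp at hc
        obtain ⟨p, hp, hp'⟩ := exists_of_cN_pos h2
        exact ⟨p, Or.inr hp, hp'⟩
      · obtain ⟨p, hp, hp'⟩ := exists_of_cN_pos h0
        exact ⟨p, Or.inl hp, hp'⟩
    have e2 : ∃ p, (p ∈ hEdges a ∨ p ∈ hEdges b) ∧ p.1 = c.1 ∧ p.2 ≤ c.2 := by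
      have q1 := cN_parity a c.1
      have q2 := cN_parity b c.1
      rw [h.Xa] at q1
      rw [h.Xb] at q2
      have q3 : cN a (fun p => p.1 = c.1) % 2 = cN b (fun p => p.1 = c.1) % 2 := by rw [q1, q2]
      rw [cN_split a c.1 c.2, cN_split b c.1 c.2] at q3
      rw [Nat.odd_iff] at hc
      by_cases h0 : cN a (fun p => p.1 = c.1 ∧ p.2 ≤ c.2) = 0
      · have h2 : cN b (fun p => p.1 = c.1 ∧ p.2 ≤ c.2) ≠ 0 := by
          intro h3
          omega
        obtain ⟨p, hp, hp'⟩ := exists_of_cN_pos h2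
        exact ⟨p, Or.inr hp, hp'⟩
      · obtain ⟨p, hp, hp'⟩ := exists_of_cN_pos h0
        exact ⟨p, Or.inl hp, hp'⟩
    have fs : ∀ p, (p ∈ hEdges a ∨ p ∈ hEdges b) → (0 ≤ p.1 ∧ p.1 < width v) ∧ |p.2| ≤ H := by
      intro p hp
      rcases hp with hp | hp
      · refine ⟨hEdges_fst (fun t ht => ?_) hp, hEdges_snd ha hp⟩
        have := prefix_bounds h.bra ht
        rwa [h.Xa] at this
      · refine ⟨hEdges_fst (fun t ht => ?_) hp, hEdges_snd hb hp⟩
        have := prefix_bounds h.brb ht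
        rwa [h.Xb] at this
    obtain ⟨p, hp, hp1, hp2⟩ := e1
    obtain ⟨q, hq, hq1, hq2⟩ := e2
    obtain ⟨f1, f2⟩ := fs p hp
    obtain ⟨g1, g2⟩ := fs q hq
    rw [abs_le] at f2 g2
    simp only [Finset.coe_product, Finset.coe_Ico, Set.mem_prod, Set.mem_Ico]
    omega
  have hcard := Set.ncard_le_ncard hsub (Finset.finite_toSet _)
  rw [Set.ncard_coe_finset, Finset.card_product, Int.card_Ico, Int.card_Ico] at hcard
  have harea : area v = Set.ncard {c : ℤ × ℤ | Odd (above (loop (2 * n) (a ++ rv b)) c).ncard} := by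
    conv_lhs => rw [h.eq, area_rot]
    rfl
  rw [harea]
  have hcard' : ((Set.ncard {c : ℤ × ℤ | Odd (above (loop (2 * n) (a ++ rv b)) c).ncard} : ℕ) : ℤ)
      ≤ (((width v - 0).toNat * ((H : ℤ) - -(H : ℤ)).toNat : ℕ) : ℤ) := by exact_mod_cast hcard
  refine hcard'.trans ?_
  push_cast
  rw [Int.toNat_of_nonneg (by omega), Int.toNat_of_nonneg (by omega)]
  nlinarith

/-! ### the lower bound -/

lemma bridge_col {w : Word} (h : IsBr w) {x : ℤ} (hx : x < 0 ∨ X w ≤ x)
    (Q : ℤ × ℤ → Prop) [DecidablePred Q] (hQ : ∀ p, Q p → p.1 = x) : cN w Q = 0 := by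
  refine cN_eq_zero fun p hp hq => ?_
  have h1 := hEdges_fst (lo := 0) (hi := X w) (fun t ht => ⟨h.nonneg ht, h.le ht⟩) hp
  have h2 := hQ p hq
  omega

lemma cN_Flp {p : Word} (hp : Flp p) (y : ℤ) :
    cN p (fun q => q.1 = 0 ∧ y < q.2) = if y < 0 then 1 else 0 := by
  rcases hp with rfl | rfl
  · simp [cN_cons, cN_nil]
  · simp [cN_cons, cN_nil]

lemma X_Flp {p : Word} (hp : Flp p) : X p = 1 := by
  rcases hp with rfl | rfl <;> simp [Dir.dx]

/-- edges of the bridge `B` in the column of a flippable piece -/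
lemma cN_piece {pre p post : Word} (h1 : IsBr pre) (hp : Flp p) (h3 : IsBr post) (y : ℤ) :
    cN (pre ++ (p ++ post)) (fun q => q.1 = X pre ∧ y < q.2) = if y < Y pre then 1 else 0 := by
  rw [cN_append, cN_append, bridge_col h1 (x := X pre) (Or.inr le_rfl) _ (fun q hq => hq.1)]
  rw [bridge_col h3 (x := -1) (Or.inl (by norm_num)) _ (fun q hq => by
    have := hq.1
    rw [X_Flp hp] at this
    simp only at this
    omega)]
  have h2 : cN p (fun q => (q.1 + X pre, q.2 + Y pre).1 = X pre ∧ y < (q.1 + X pre, q.2 + Y pre).2)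
      = cN p (fun q => q.1 = 0 ∧ y - Y pre < q.2) := by
    refine cN_congr fun q => ?_
    simp only
    constructor <;> intro h <;> constructor <;> omega
  have h4 := cN_Flp hp (y - Y pre)
  rw [← h2] at h4
  simp only [zero_add, add_zero] at h4 ⊢
  rw [h4]
  split_ifs <;> first | rfl | (exfalso; omega)

lemma mem_colH {w : Word} {x y : ℤ} : y ∈ colH w x ↔ (x, y) ∈ hEdges w := by
  unfold colH
  simp only [List.mem_toFinset, List.mem_map, List.mem_filter, decide_eq_true_eq]
  constructor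
  · rintro ⟨⟨a, b⟩, ⟨ha, rfl⟩, rfl⟩; exact ha
  · intro h; exact ⟨(x, y), ⟨h, rfl⟩, rfl⟩

/-- far columns: the number of edges above is constant on a window -/
lemma cN_window {A : Word} {x y : ℤ} {r : ℕ} (hfar : ∀ d ∈ colH A x, (r : ℤ) ≤ |y - d|)
    {z : ℤ} (hz1 : y - r ≤ z) (hz2 : z < y + r) :
    cN A (fun p => p.1 = x ∧ z < p.2) = cN A (fun p => p.1 = x ∧ y < p.2) := by
  unfold cN
  refine List.countP_congr ?_
  intro p hp
  simp only [decide_eq_true_eq]
  constructor
  · rintro ⟨h1, h2⟩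
    refine ⟨h1, ?_⟩
    have := hfar p.2 (mem_colH.2 (by rw [← h1]; exact hp))
    rcases abs_cases (y - p.2) with ⟨e, _⟩ | ⟨e, _⟩ <;> omega
  · rintro ⟨h1, h2⟩
    refine ⟨h1, ?_⟩
    have := hfar p.2 (mem_colH.2 (by rw [← h1]; exact hp))
    rcases abs_cases (y - p.2) with ⟨e, _⟩ | ⟨e, _⟩ <;> omega

lemma column_bound {A B : Word} {x y : ℤ} {r : ℕ} (hfar : ∀ d ∈ colH A x, (r : ℤ) ≤ |y - d|)
    (hB : ∀ z, cN B (fun q => q.1 = x ∧ z < q.2) = if z < y then 1 else 0) :
    ∃ s : Finset (ℤ × ℤ), s.card = r ∧ ∀ c ∈ s, c ∈ Od A B ∧ c.1 = x := by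
  rcases Nat.even_or_odd (cN A (fun p => p.1 = x ∧ y < p.2)) with he | ho
  · refine ⟨(Finset.Ico (y - r) y).map ⟨fun z => (x, z), fun z z' h => (Prod.ext_iff.1 h).2⟩, ?_, ?_⟩
    · rw [Finset.card_map, Int.card_Ico]; simp
    · intro c hc
      rw [Finset.mem_map] at hc
      obtain ⟨z, hz, rfl⟩ := hc
      rw [Finset.mem_Ico] at hz
      refine ⟨?_, rfl⟩
      rw [Od, Set.mem_ofPred_eq]
      simp only [Function.Embedding.coeFn_mk]
      rw [cN_window hfar (z := z) (by omega) (by omega), hB, if_pos hz.2]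
      exact he.add_one
  · refine ⟨(Finset.Ico y (y + r)).map ⟨fun z => (x, z), fun z z' h => (Prod.ext_iff.1 h).2⟩, ?_, ?_⟩
    · rw [Finset.card_map, Int.card_Ico]; simp
    · intro c hc
      rw [Finset.mem_map] at hc
      obtain ⟨z, hz, rfl⟩ := hc
      rw [Finset.mem_Ico] at hz
      refine ⟨?_, rfl⟩
      rw [Od, Set.mem_ofPred_eq]
      simp only [Function.Embedding.coeFn_mk]
      rw [cN_window hfar (z := z) (by omega) (by omega), hB, if_neg (by omega), add_zero]
      exact ho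

lemma isBr_flatten_aux {ps : List Word} (hp : AllIrr ps) : IsBr ps.flatten := by
  induction ps with
  | nil => exact isBr_nil
  | cons p ps ih =>
    rw [List.flatten_cons]
    exact (hp p (by simp)).br.append (ih fun q hq => hp q (by simp [hq]))

lemma exists_far_finset {A B : Word} {r : ℕ} (ps : List Word) (hps : AllIrr ps) (pre : Word)
    (hpre : IsBr pre) (hB : B = pre ++ ps.flatten) :
    ∃ s : Finset (ℤ × ℤ), s.card = r * farP r (colH A) (X pre) (Y pre) ps ∧
      ∀ c ∈ s, c ∈ Od A B ∧ X pre ≤ c.1 := by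
  classical
  induction ps generalizing pre with
  | nil => exact ⟨∅, by simp [farP], by simp⟩
  | cons p ps ih =>
    have hpI := hps p (by simp)
    have hpos : 0 < X p := hpI.br.pos (List.prefix_refl p) hpI.ne
    obtain ⟨s, hs, hs'⟩ := ih (fun q hq => hps q (by simp [hq])) (pre ++ p) (hpre.append hpI.br)
      (by rw [hB, List.flatten_cons, List.append_assoc])
    rw [X_append, Y_append] at hs
    rw [X_append] at hs'
    rw [farP]
    by_cases hc : Flp p ∧ ∀ d ∈ colH A (X pre), (r : ℤ) ≤ |Y pre - d|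
    · obtain ⟨t, ht, ht'⟩ := column_bound (A := A) (B := B) hc.2 (fun z => by
        rw [hB, List.flatten_cons]
        exact cN_piece hpre hc.1 (isBr_flatten_aux fun q hq => hps q (by simp [hq])) z)
      refine ⟨t ∪ s, ?_, ?_⟩
      · rw [Finset.card_union_of_disjoint, ht, hs, if_pos hc]
        · ring
        · rw [Finset.disjoint_left]
          intro c hc1 hc2
          have h1 := (ht' c hc1).2
          have h2 := (hs' c hc2).2
          omega
      · intro c hc1
        rw [Finset.mem_union] at hc1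
        rcases hc1 with hc1 | hc1
        · exact ⟨(ht' c hc1).1, (ht' c hc1).2.ge⟩
        · have := hs' c hc1
          exact ⟨this.1, by omega⟩
    · refine ⟨s, ?_, ?_⟩
      · rw [hs, if_neg hc, zero_add]
      · intro c hc1
        have := hs' c hc1
        exact ⟨this.1, by omega⟩

lemma Od_finite (A B : Word) (hAB : X A = X B) : (Od A B).Finite := by
  classical
  -- heights and columns of edges are bounded by the lengths
  have fs : ∀ w : Word, ∀ p ∈ hEdges w, (-(w.length : ℤ) ≤ p.1 ∧ p.1 < w.length + 1) ∧ |p.2| ≤ w.length := by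
    intro w p hp
    constructor
    · refine hEdges_fst (lo := -(w.length : ℤ)) (hi := w.length) (fun t ht => ?_) hp |>.imp id
        (fun h => by omega)
      have h1 := abs_X_le t
      have h2 : (t.length : ℤ) ≤ w.length := by exact_mod_cast ht.length_le
      rw [abs_le] at h1
      omega
    · refine hEdges_snd (fun t ht => ?_) hp
      have h1 := abs_Y_le t
      have h2 : (t.length : ℤ) ≤ w.length := by exact_mod_cast ht.length_le
      omega
  set M : ℤ := A.length + B.length with hM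
  refine Set.Finite.subset (Finset.finite_toSet (Finset.Icc (-M) (M + 1) ×ˢ Finset.Icc (-M) M)) ?_
  intro c hc
  rw [Od, Set.mem_ofPred_eq] at hc
  have e1 : ∃ p, (p ∈ hEdges A ∨ p ∈ hEdges B) ∧ p.1 = c.1 ∧ c.2 < p.2 := by
    by_cases h0 : cN A (fun p => p.1 = c.1 ∧ c.2 < p.2) = 0
    · have h2 : cN B (fun p => p.1 = c.1 ∧ c.2 < p.2) ≠ 0 := by
        intro h3; rw [h0, h3] at hc; simp at hc
      obtain ⟨p, hp, hp'⟩ := exists_of_cN_pos h2
      exact ⟨p, Or.inr hp, hp'⟩
    · obtain ⟨p, hp, hp'⟩ := exists_of_cN_pos h0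
      exact ⟨p, Or.inl hp, hp'⟩
  have e2 : ∃ p, (p ∈ hEdges A ∨ p ∈ hEdges B) ∧ p.1 = c.1 ∧ p.2 ≤ c.2 := by
    have q1 := cN_parity A c.1
    have q2 := cN_parity B c.1
    rw [hAB] at q1
    have q3 : cN A (fun p => p.1 = c.1) % 2 = cN B (fun p => p.1 = c.1) % 2 := by rw [q1, q2]
    rw [cN_split A c.1 c.2, cN_split B c.1 c.2] at q3
    rw [Nat.odd_iff] at hc
    by_cases h0 : cN A (fun p => p.1 = c.1 ∧ p.2 ≤ c.2) = 0
    · have h2 : cN B (fun p => p.1 = c.1 ∧ p.2 ≤ c.2) ≠ 0 := by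
        intro h3
        omega
      obtain ⟨p, hp, hp'⟩ := exists_of_cN_pos h2
      exact ⟨p, Or.inr hp, hp'⟩
    · obtain ⟨p, hp, hp'⟩ := exists_of_cN_pos h0
      exact ⟨p, Or.inl hp, hp'⟩
  have fs' : ∀ p, (p ∈ hEdges A ∨ p ∈ hEdges B) → (-M ≤ p.1 ∧ p.1 ≤ M + 1) ∧ |p.2| ≤ M := by
    intro p hp
    rcases hp with hp | hp
    · have := fs A p hp
      have hB : (0 : ℤ) ≤ B.length := by positivity
      rw [hM]; constructor
      · constructor <;> omega
      · omega
    · have := fs B p hp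
      have hA : (0 : ℤ) ≤ A.length := by positivity
      rw [hM]; constructor
      · constructor <;> omega
      · omega
  obtain ⟨p, hp, hp1, hp2⟩ := e1
  obtain ⟨q, hq, hq1, hq2⟩ := e2
  obtain ⟨f1, f2⟩ := fs' p hp
  obtain ⟨g1, g2⟩ := fs' q hq
  rw [abs_le] at f2 g2
  simp only [Finset.coe_product, Finset.coe_Icc, Set.mem_prod, Set.mem_Icc]
  omega

lemma Od_comm (A B : Word) : Od A B = Od B A := by
  ext c
  simp only [Od, Set.mem_ofPred_eq, add_comm]

lemma farP_le_ncard {A B : Word} (hAB : X A = X B) {r : ℕ} {ps : List Word} (hps : AllIrr ps)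
    (hB : ps.flatten = B) : r * farP r (colH A) 0 0 ps ≤ (Od A B).ncard := by
  obtain ⟨s, hs, hs'⟩ := exists_far_finset (A := A) (B := B) (r := r) ps hps [] isBr_nil
    (by simp [hB])
  rw [X_nil, Y_nil] at hs
  rw [← hs, ← Set.ncard_coe_finset]
  exact Set.ncard_le_ncard (fun c hc => (hs' c (by exact_mod_cast hc)).1) (Od_finite A B hAB)

theorem le_area_b {n : ℕ} (hn : 2 ≤ n) {v : ZMod (2 * n) → ℤ × ℤ} {i : ZMod (2 * n)} {a b : Word}
    (h : IsArcs n v i a b) {r : ℕ} (_hr : 1 ≤ r) {ps : List Word} (hps : AllIrr ps)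
    (hb : ps.flatten = Dir.E :: b) : r * farP r (colH (Dir.E :: a)) 0 0 ps ≤ area v := by
  rw [area_eq hn h]
  exact farP_le_ncard (by rw [X_cons, X_cons, h.Xa, h.Xb]) hps hb

theorem le_area_a {n : ℕ} (hn : 2 ≤ n) {v : ZMod (2 * n) → ℤ × ℤ} {i : ZMod (2 * n)} {a b : Word}
    (h : IsArcs n v i a b) {r : ℕ} (_hr : 1 ≤ r) {ps : List Word} (hps : AllIrr ps)
    (ha : ps.flatten = Dir.E :: a) : r * farP r (colH (Dir.E :: b)) 0 0 ps ≤ area v := by
  rw [area_eq hn h, Od_comm]
  exact farP_le_ncard (by rw [X_cons, X_cons, h.Xa, h.Xb]) hps ha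

end Pool.Agent.SAPF
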