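import Mathlib

/-!
Stretched self-avoiding polygons: words, self-avoiding words, bridges, masses of languages.
-/

namespace Pool.Agent.SAPF

open scoped ENNReal

/-- unit steps of the square lattice -/
inductive Dir : Type
  | E | N | W | S
  deriving DecidableEq

instance : Fintype Dir := ⟨{Dir.E, Dir.N, Dir.W, Dir.S}, fun d => by cases d <;> simp⟩

namespace Dir
/-- horizontal component -/
def dx : Dir → ℤ
  | E => 1
  | N => 0
  | W => -1
  | S => 0
/-- vertical component -/
def dy : Dir → ℤ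
  | E => 0
  | N => 1
  | W => 0
  | S => -1
/-- left-right mirror -/
def mx : Dir → Dir
  | E => W
  | N => N
  | W => E
  | S => S
/-- up-down mirror -/
def my : Dir → Dir
  | E => E
  | N => S
  | W => W
  | S => N
/-- opposite step -/
def op : Dir → Dir
  | E => W
  | N => S
  | W => E
  | S => N
end Dir

/-- a walk, as a word of steps -/
abbrev Word := List Dir

/-- horizontal displacement -/
def X (w : Word) : ℤ := (w.map Dir.dx).sum
/-- vertical displacement -/
def Y (w : Word) : ℤ := (w.map Dir.dy).sum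

@[simp] lemma X_nil : X [] = 0 := rfl
@[simp] lemma Y_nil : Y [] = 0 := rfl
@[simp] lemma X_cons (d : Dir) (w : Word) : X (d :: w) = d.dx + X w := by simp [X]
@[simp] lemma Y_cons (d : Dir) (w : Word) : Y (d :: w) = d.dy + Y w := by simp [Y]
@[simp] lemma X_append (u v : Word) : X (u ++ v) = X u + X v := by simp [X]
@[simp] lemma Y_append (u v : Word) : Y (u ++ v) = Y u + Y v := by simp [Y]

lemma abs_dx_le (d : Dir) : |d.dx| ≤ 1 := by cases d <;> simp [Dir.dx]
lemma abs_dy_le (d : Dir) : |d.dy| ≤ 1 := by cases d <;> simp [Dir.dy]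
lemma dx_le (d : Dir) : d.dx ≤ 1 := by cases d <;> simp [Dir.dx]
lemma neg_le_dx (d : Dir) : -1 ≤ d.dx := by cases d <;> simp [Dir.dx]

lemma abs_X_le (w : Word) : |X w| ≤ w.length := by
  induction w with
  | nil => simp
  | cons d w ih =>
    have h := abs_dx_le d
    rw [X_cons, List.length_cons]
    push_cast
    exact (abs_add_le _ _).trans (by linarith)

lemma abs_Y_le (w : Word) : |Y w| ≤ w.length := by
  induction w with
  | nil => simp
  | cons d w ih =>
    have h := abs_dy_le d
    rw [Y_cons, List.length_cons]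
    push_cast
    exact (abs_add_le _ _).trans (by linarith)

@[simp] lemma X_replicate_E (n : ℕ) : X (List.replicate n Dir.E) = n := by
  simp [X, Dir.dx]
@[simp] lemma Y_replicate_E (n : ℕ) : Y (List.replicate n Dir.E) = 0 := by
  simp [Y, Dir.dy]

/-! ### mirrors -/

/-- left-right mirror image -/
def flipX (w : Word) : Word := w.map Dir.mx
/-- up-down mirror image -/
def flipY (w : Word) : Word := w.map Dir.my
/-- the reversed walk -/
def rv (w : Word) : Word := (w.map Dir.op).reverse

@[simp] lemma mx_mx (d : Dir) : d.mx.mx = d := by cases d <;> rfl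
@[simp] lemma my_my (d : Dir) : d.my.my = d := by cases d <;> rfl
@[simp] lemma op_op (d : Dir) : d.op.op = d := by cases d <;> rfl
@[simp] lemma dx_mx (d : Dir) : d.mx.dx = -d.dx := by cases d <;> rfl
@[simp] lemma dy_mx (d : Dir) : d.mx.dy = d.dy := by cases d <;> rfl
@[simp] lemma dx_my (d : Dir) : d.my.dx = d.dx := by cases d <;> rfl
@[simp] lemma dy_my (d : Dir) : d.my.dy = -d.dy := by cases d <;> rfl
@[simp] lemma dx_op (d : Dir) : d.op.dx = -d.dx := by cases d <;> rfl
@[simp] lemma dy_op (d : Dir) : d.op.dy = -d.dy := by cases d <;> rfl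

@[simp] lemma flipX_flipX (w : Word) : flipX (flipX w) = w := by
  simp [flipX, Function.comp_def]
@[simp] lemma flipY_flipY (w : Word) : flipY (flipY w) = w := by
  simp [flipY, Function.comp_def]
@[simp] lemma rv_rv (w : Word) : rv (rv w) = w := by
  simp [rv, Function.comp_def]
@[simp] lemma flipX_nil : flipX [] = [] := rfl
@[simp] lemma flipY_nil : flipY [] = [] := rfl
@[simp] lemma rv_nil : rv [] = [] := rfl
@[simp] lemma flipX_append (u v : Word) : flipX (u ++ v) = flipX u ++ flipX v := by simp [flipX]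
@[simp] lemma flipY_append (u v : Word) : flipY (u ++ v) = flipY u ++ flipY v := by simp [flipY]
@[simp] lemma rv_append (u v : Word) : rv (u ++ v) = rv v ++ rv u := by simp [rv]
@[simp] lemma length_flipX (w : Word) : (flipX w).length = w.length := by simp [flipX]
@[simp] lemma length_flipY (w : Word) : (flipY w).length = w.length := by simp [flipY]
@[simp] lemma length_rv (w : Word) : (rv w).length = w.length := by simp [rv]

@[simp] lemma X_flipX (w : Word) : X (flipX w) = -X w := by
  induction w with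
  | nil => simp
  | cons d w ih =>
    have : flipX (d :: w) = d.mx :: flipX w := rfl
    rw [this, X_cons, X_cons, ih, dx_mx]; ring
@[simp] lemma Y_flipX (w : Word) : Y (flipX w) = Y w := by
  induction w with
  | nil => simp
  | cons d w ih =>
    have : flipX (d :: w) = d.mx :: flipX w := rfl
    rw [this, Y_cons, Y_cons, ih, dy_mx]
@[simp] lemma X_flipY (w : Word) : X (flipY w) = X w := by
  induction w with
  | nil => simp
  | cons d w ih =>
    have : flipY (d :: w) = d.my :: flipY w := rfl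
    rw [this, X_cons, X_cons, ih, dx_my]
@[simp] lemma Y_flipY (w : Word) : Y (flipY w) = -Y w := by
  induction w with
  | nil => simp
  | cons d w ih =>
    have : flipY (d :: w) = d.my :: flipY w := rfl
    rw [this, Y_cons, Y_cons, ih, dy_my]; ring
@[simp] lemma X_rv (w : Word) : X (rv w) = -X w := by
  induction w with
  | nil => simp
  | cons d w ih =>
    have : rv (d :: w) = rv w ++ [d.op] := by simp [rv]
    rw [this, X_append, ih, X_cons, X_cons, dx_op, X_nil]; ring
@[simp] lemma Y_rv (w : Word) : Y (rv w) = -Y w := by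
  induction w with
  | nil => simp
  | cons d w ih =>
    have : rv (d :: w) = rv w ++ [d.op] := by simp [rv]
    rw [this, Y_append, ih, Y_cons, Y_cons, dy_op, Y_nil]; ring

lemma flipX_eq_nil {w : Word} : flipX w = [] ↔ w = [] := by simp [flipX]
lemma flipY_eq_nil {w : Word} : flipY w = [] ↔ w = [] := by simp [flipY]
lemma rv_eq_nil {w : Word} : rv w = [] ↔ w = [] := by simp [rv]

lemma prefix_flipX {u w : Word} : u <+: flipX w ↔ flipX u <+: w := by
  constructor
  · rintro ⟨t, ht⟩
    refine ⟨flipX t, ?_⟩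
    rw [← flipX_append, ht, flipX_flipX]
  · rintro ⟨t, ht⟩
    refine ⟨flipX t, ?_⟩
    rw [← ht]; simp
lemma suffix_flipX {u w : Word} : u <:+ flipX w ↔ flipX u <:+ w := by
  constructor
  · rintro ⟨t, ht⟩
    refine ⟨flipX t, ?_⟩
    rw [← flipX_append, ht, flipX_flipX]
  · rintro ⟨t, ht⟩
    refine ⟨flipX t, ?_⟩
    rw [← ht]; simp
lemma infix_flipX {u w : Word} : u <:+: flipX w ↔ flipX u <:+: w := by
  constructor
  · rintro ⟨s, t, ht⟩
    refine ⟨flipX s, flipX t, ?_⟩
    rw [← flipX_append, ← flipX_append, ht, flipX_flipX]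
  · rintro ⟨s, t, ht⟩
    refine ⟨flipX s, flipX t, ?_⟩
    rw [← ht]; simp
lemma prefix_flipY {u w : Word} : u <+: flipY w ↔ flipY u <+: w := by
  constructor
  · rintro ⟨t, ht⟩
    refine ⟨flipY t, ?_⟩
    rw [← flipY_append, ht, flipY_flipY]
  · rintro ⟨t, ht⟩
    refine ⟨flipY t, ?_⟩
    rw [← ht]; simp
lemma suffix_flipY {u w : Word} : u <:+ flipY w ↔ flipY u <:+ w := by
  constructor
  · rintro ⟨t, ht⟩
    refine ⟨flipY t, ?_⟩
    rw [← flipY_append, ht, flipY_flipY]
  · rintro ⟨t, ht⟩
    refine ⟨flipY t, ?_⟩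
    rw [← ht]; simp
lemma infix_flipY {u w : Word} : u <:+: flipY w ↔ flipY u <:+: w := by
  constructor
  · rintro ⟨s, t, ht⟩
    refine ⟨flipY s, flipY t, ?_⟩
    rw [← flipY_append, ← flipY_append, ht, flipY_flipY]
  · rintro ⟨s, t, ht⟩
    refine ⟨flipY s, flipY t, ?_⟩
    rw [← ht]; simp
lemma prefix_rv {u w : Word} : u <+: rv w ↔ rv u <:+ w := by
  constructor
  · rintro ⟨t, ht⟩
    refine ⟨rv t, ?_⟩
    rw [← rv_append, ht, rv_rv]
  · rintro ⟨t, ht⟩
    refine ⟨rv t, ?_⟩
    rw [← ht]; simp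
lemma suffix_rv {u w : Word} : u <:+ rv w ↔ rv u <+: w := by
  constructor
  · rintro ⟨t, ht⟩
    refine ⟨rv t, ?_⟩
    rw [← rv_append, ht, rv_rv]
  · rintro ⟨t, ht⟩
    refine ⟨rv t, ?_⟩
    rw [← ht]; simp
lemma infix_rv {u w : Word} : u <:+: rv w ↔ rv u <:+: w := by
  constructor
  · rintro ⟨s, t, ht⟩
    refine ⟨rv t, rv s, ?_⟩
    have := congrArg rv ht
    simpa using this
  · rintro ⟨s, t, ht⟩
    refine ⟨rv t, rv s, ?_⟩
    rw [← ht]; simp

/-! ### self-avoiding words and bridges -/

/-- self-avoiding: no nonempty factor has zero displacement -/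
def SAW (w : Word) : Prop := ∀ t, t <:+: w → X t = 0 → Y t = 0 → t = []

lemma SAW.factor {w t : Word} (h : SAW w) (ht : t <:+: w) : SAW t :=
  fun s hs => h s (hs.trans ht)

lemma SAW.left {u v : Word} (h : SAW (u ++ v)) : SAW u :=
  h.factor (List.prefix_append u v).isInfix
lemma SAW.right {u v : Word} (h : SAW (u ++ v)) : SAW v :=
  h.factor (List.suffix_append u v).isInfix

lemma SAW_nil : SAW [] := fun _ ht _ _ => List.infix_nil.1 ht

lemma SAW.flipX {w : Word} (h : SAW w) : SAW (flipX w) := by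
  intro t ht hx hy
  have := h _ (infix_flipX.1 ht) (by simpa using hx) (by simpa using hy)
  exact flipX_eq_nil.1 this
lemma SAW.flipY {w : Word} (h : SAW w) : SAW (flipY w) := by
  intro t ht hx hy
  have := h _ (infix_flipY.1 ht) (by simpa using hx) (by simpa using hy)
  exact flipY_eq_nil.1 this
lemma SAW.rv {w : Word} (h : SAW w) : SAW (rv w) := by
  intro t ht hx hy
  have := h _ (infix_rv.1 ht) (by simpa using hx) (by simpa using hy)
  exact rv_eq_nil.1 this

/-- A factor of a concatenation. -/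
lemma infix_append_cases {t u v : Word} (h : t <:+: u ++ v) :
    t <:+: u ∨ t <:+: v ∨ ∃ a b, a <:+ u ∧ b <+: v ∧ a ≠ [] ∧ b ≠ [] ∧ t = a ++ b := by
  obtain ⟨p, q, hpq⟩ := h
  -- p ++ t ++ q = u ++ v
  rw [List.append_assoc] at hpq
  rcases List.append_eq_append_iff.1 hpq with ⟨c, hu, hc⟩ | ⟨c, hp, hv⟩
  · -- u = p ++ c, t ++ q = c ++ v
    rcases List.append_eq_append_iff.1 hc with ⟨e, hc', hq⟩ | ⟨e, ht, hv⟩
    · -- c = t ++ e
      left
      exact ⟨p, e, by rw [hu, hc', List.append_assoc]⟩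
    · -- t = c ++ e, v = e ++ q
      rcases eq_or_ne c [] with hc0 | hc0
      · right; left
        refine ⟨[], q, ?_⟩
        simp [ht, hc0, hv]
      · rcases eq_or_ne e [] with he0 | he0
        · left
          refine ⟨p, [], ?_⟩
          simp [ht, he0, hu]
        · right; right
          exact ⟨c, e, ⟨p, hu.symm⟩, ⟨q, hv.symm⟩, hc0, he0, ht⟩
  · -- p = u ++ c, v = c ++ (t ++ q)
    right; left
    exact ⟨c, q, by rw [hv, List.append_assoc]⟩

/-- bridges: all nonempty beginnings go strictly to the right of the start, and no vertex is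
to the right of the last one -/
structure IsBr (w : Word) : Prop where
  saw : SAW w
  pos : ∀ {u : Word}, u <+: w → u ≠ [] → 0 < X u
  suf : ∀ {v : Word}, v <:+ w → 0 ≤ X v

/-- the set of bridges -/
def Br : Set Word := {w | IsBr w}

namespace IsBr
variable {u v w : Word}
lemma X_nonneg (h : IsBr w) : 0 ≤ X w := h.suf (List.suffix_refl w)
lemma nonneg (h : IsBr w) (hu : u <+: w) : 0 ≤ X u := by
  rcases eq_or_ne u [] with h0 | h0
  · simp [h0]
  · exact (h.pos hu h0).le
lemma le (h : IsBr w) (hu : u <+: w) : X u ≤ X w := by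
  obtain ⟨t, rfl⟩ := hu
  have := h.suf (List.suffix_append u t)
  simp; exact this
end IsBr

lemma isBr_nil : IsBr ([] : Word) := by
  refine ⟨SAW_nil, ?_, ?_⟩
  · intro u hu h0; exact absurd (List.prefix_nil.1 hu) h0
  · intro v hv; rw [List.suffix_nil.1 hv]; simp

/-- Beginnings of a concatenation. -/
lemma prefix_append_cases {t u v : Word} (h : t <+: u ++ v) :
    t <+: u ∨ ∃ b, b <+: v ∧ b ≠ [] ∧ t = u ++ b := by
  obtain ⟨q, hq⟩ := h
  rcases List.append_eq_append_iff.1 hq with ⟨c, hu, hc⟩ | ⟨c, ht, hv⟩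
  · left; exact ⟨c, hu.symm⟩
  · rcases eq_or_ne c [] with h0 | h0
    · left; rw [ht, h0]; simp
    · right; exact ⟨c, ⟨q, hv.symm⟩, h0, ht⟩

lemma suffix_append_cases {t u v : Word} (h : t <:+ u ++ v) :
    t <:+ v ∨ ∃ b, b <:+ u ∧ b ≠ [] ∧ t = b ++ v := by
  obtain ⟨q, hq⟩ := h
  rcases List.append_eq_append_iff.1 hq with ⟨c, hu, ht⟩ | ⟨c, hq', hv⟩
  · rcases eq_or_ne c [] with h0 | h0
    · left; rw [ht, h0]; simp
    · right; exact ⟨c, ⟨q, hu.symm⟩, h0, ht⟩
  · left; exact ⟨c, hv.symm⟩

lemma IsBr.append {u v : Word} (hu : IsBr u) (hv : IsBr v) : IsBr (u ++ v) := by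
  refine ⟨?_, ?_, ?_⟩
  · intro t ht hx hy
    rcases infix_append_cases ht with h | h | ⟨a, b, ha, hb, ha0, hb0, rfl⟩
    · exact hu.1 t h hx hy
    · exact hv.1 t h hx hy
    · exfalso
      have h1 := hu.suf ha
      have h2 := hv.pos hb hb0
      rw [X_append] at hx
      omega
  · intro t ht h0
    rcases prefix_append_cases ht with h | ⟨b, hb, hb0, rfl⟩
    · exact hu.pos h h0
    · have h1 := hu.X_nonneg
      have h2 := hv.pos hb hb0
      rw [X_append]; omega
  · intro t ht
    rcases suffix_append_cases ht with h | ⟨b, hb, hb0, rfl⟩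
    · exact hv.suf h
    · have h1 := hu.suf hb
      have h2 := hv.X_nonneg
      rw [X_append]; omega

lemma IsBr.flipY {w : Word} (h : IsBr w) : IsBr (flipY w) := by
  refine ⟨h.1.flipY, ?_, ?_⟩
  · intro u hu h0
    have := h.pos (prefix_flipY.1 hu) (by rwa [Ne, flipY_eq_nil])
    simpa using this
  · intro v hv
    have := h.suf (suffix_flipY.1 hv)
    simpa using this

/-- A beginning of a bridge is a bridge as soon as its endpoint is rightmost. -/
lemma IsBr.of_prefix {u v : Word} (h : IsBr (u ++ v)) (hs : ∀ t, t <:+ u → 0 ≤ X t) : IsBr u :=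
  ⟨h.1.left, fun ht h0 => h.pos (ht.trans (List.prefix_append u v)) h0, fun ht => hs _ ht⟩
lemma IsBr.of_suffix {u v : Word} (h : IsBr (u ++ v)) (hp : ∀ t, t <+: v → t ≠ [] → 0 < X t) :
    IsBr v :=
  ⟨h.1.right, fun ht h0 => hp _ ht h0, fun ht => h.suf (ht.trans (List.suffix_append u v))⟩

lemma eq_nil_or_singleton_of_prefix {t : Word} {d : Dir} (h : t <+: [d]) :
    t = [] ∨ t = [d] := by
  rcases eq_or_ne t [] with h0 | h0
  · exact Or.inl h0
  · right
    have hl : t.length ≤ 1 := by simpa using h.length_le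
    have h1 := List.length_pos_iff.2 h0
    exact h.eq_of_length (by simp; omega)

lemma isBr_singleton_E : IsBr [Dir.E] := by
  refine ⟨?_, ?_, ?_⟩
  · intro t ht hx hy
    obtain ⟨p, q, hpq⟩ := ht
    rcases eq_or_ne t [] with h0 | h0
    · exact h0
    · exfalso
      have h1 := List.length_pos_iff.2 h0
      have h2 := congrArg List.length hpq
      simp at h2
      have hp : p = [] := List.length_eq_zero_iff.1 (by omega)
      have hq : q = [] := List.length_eq_zero_iff.1 (by omega)
      rw [hp, hq] at hpq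
      simp at hpq
      rw [hpq] at hx; simp [Dir.dx] at hx
  · intro u hu h0
    rcases eq_nil_or_singleton_of_prefix hu with h | h
    · exact absurd h h0
    · rw [h]; simp [Dir.dx]
  · intro v hv
    obtain ⟨p, hp⟩ := hv
    rcases eq_or_ne v [] with h0 | h0
    · simp [h0]
    · have h1 := List.length_pos_iff.2 h0
      have h2 := congrArg List.length hp
      simp at h2
      have hp0 : p = [] := List.length_eq_zero_iff.1 (by omega)
      rw [hp0] at hp
      simp at hp
      rw [hp]; simp [Dir.dx]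

lemma isBr_replicate_E (n : ℕ) : IsBr (List.replicate n Dir.E) := by
  induction n with
  | zero => exact isBr_nil
  | succ n ih =>
    have : List.replicate (n + 1) Dir.E = [Dir.E] ++ List.replicate n Dir.E := by
      simp [List.replicate_succ]
    rw [this]
    exact isBr_singleton_E.append ih

/-! ### choosing beginnings -/

lemma exists_longest_prefix (w : Word) (P : Word → Prop) (h : P []) :
    ∃ u v, w = u ++ v ∧ P u ∧ ∀ t, t <+: v → t ≠ [] → ¬ P (u ++ t) := by
  classical
  induction w using List.reverseRecOn with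
  | nil =>
    exact ⟨[], [], rfl, h, fun t ht h0 => absurd (List.prefix_nil.1 ht) h0⟩
  | append_singleton w d ih =>
    by_cases hw : P (w ++ [d])
    · exact ⟨w ++ [d], [], by simp, hw, fun t ht h0 => absurd (List.prefix_nil.1 ht) h0⟩
    · obtain ⟨u, v, rfl, hu, hv⟩ := ih
      refine ⟨u, v ++ [d], by simp, hu, ?_⟩
      intro t ht h0
      rcases prefix_append_cases ht with h1 | ⟨b, hb, hb0, rfl⟩
      · exact hv t h1 h0
      · have hb1 : b = [d] := by
          have hl : b.length ≤ 1 := by simpa using hb.length_le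
          have h1 : b.length = 1 := by
            have := List.length_pos_iff.2 hb0
            omega
          exact hb.eq_of_length (by simp [h1])
        rw [hb1, ← List.append_assoc]; exact hw

lemma exists_shortest_prefix (w : Word) (P : Word → Prop) (h : ∃ u, u <+: w ∧ P u) :
    ∃ u v, w = u ++ v ∧ P u ∧ ∀ t, t <+: u → t ≠ u → ¬ P t := by
  classical
  induction w using List.reverseRecOn with
  | nil =>
    obtain ⟨u, hu, hP⟩ := h
    rw [List.prefix_nil.1 hu] at hP
    exact ⟨[], [], rfl, hP, fun t ht h0 => absurd (List.prefix_nil.1 ht) h0⟩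
  | append_singleton w d ih =>
    by_cases hw : ∃ u, u <+: w ∧ P u
    · obtain ⟨u, v, rfl, hu, hv⟩ := ih hw
      exact ⟨u, v ++ [d], by simp, hu, hv⟩
    · obtain ⟨u, hu, hP⟩ := h
      have hu' : u = w ++ [d] := by
        rcases prefix_append_cases hu with h1 | ⟨b, hb, hb0, rfl⟩
        · exact absurd ⟨u, h1, hP⟩ hw
        · have hb1 : b = [d] := by
            have hl : b.length ≤ 1 := by simpa using hb.length_le
            have h1 : b.length = 1 := by
              have := List.length_pos_iff.2 hb0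
              omega
            exact hb.eq_of_length (by simp [h1])
          rw [hb1]
      refine ⟨w ++ [d], [], by simp, hu' ▸ hP, ?_⟩
      intro t ht h0 hPt
      rcases prefix_append_cases ht with h1 | ⟨b, hb, hb0, rfl⟩
      · exact hw ⟨t, h1, hPt⟩
      · have hb1 : b = [d] := by
          have hl : b.length ≤ 1 := by simpa using hb.length_le
          have h1 : b.length = 1 := by
            have := List.length_pos_iff.2 hb0
            omega
          exact hb.eq_of_length (by simp [h1])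
        exact h0 (by rw [hb1])

/-- two beginnings of one word are comparable -/
lemma prefix_comparable {a b w : Word} (ha : a <+: w) (hb : b <+: w) : a <+: b ∨ b <+: a :=
  List.prefix_or_prefix_of_prefix ha hb

/-- discrete intermediate value: shortest beginning reaching horizontal level at least `m` -/
lemma exists_first_ge (w : Word) (m : ℤ) (hm : 0 < m) (h : ∃ u, u <+: w ∧ m ≤ X u) :
    ∃ u v, w = u ++ v ∧ X u = m ∧ ∀ t, t <+: u → t ≠ u → X t < m := by
  obtain ⟨u, v, rfl, hu, hv⟩ := exists_shortest_prefix w (fun u => m ≤ X u) h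
  refine ⟨u, v, rfl, ?_, fun t ht h0 => not_le.1 (hv t ht h0)⟩
  rcases List.eq_nil_or_concat u with h0 | ⟨u', d, hud⟩
  · rw [h0] at hu; simp at hu; omega
  · have hud' : u = u' ++ [d] := by simpa using hud
    have h1 := hv u' (by rw [hud']; exact List.prefix_append u' [d]) (by rw [hud']; simp)
    have h2 := dx_le d
    rw [hud'] at hu ⊢
    simp at hu h1 ⊢
    omega

/-- longest beginning with horizontal level at most `m`, if the word ends beyond `m` -/
lemma exists_last_le (w : Word) (m : ℤ) (hm : 0 ≤ m) (h : m < X w) :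
    ∃ u v, w = u ++ v ∧ X u = m ∧ ∀ t, t <+: v → t ≠ [] → 0 < X t := by
  obtain ⟨u, v, rfl, hu, hv⟩ := exists_longest_prefix w (fun u => X u ≤ m) (by simpa using hm)
  have key : X u = m := by
    rcases v with _ | ⟨d, v⟩
    · simp at h; omega
    · have h1 := hv [d] (by simp) (by simp)
      have h2 := dx_le d
      simp at h1
      omega
  refine ⟨u, v, rfl, key, ?_⟩
  intro t ht h0
  have := hv t ht h0
  simp at this
  omega

/-! ### masses -/

/-- total weight of a set -/
noncomputable def mass {α : Type*} (φ : α → ℝ≥0∞) (A : Set α) : ℝ≥0∞ := ∑' a : A, φ a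

section mass
variable {α β : Type*} {φ ψ : α → ℝ≥0∞} {A B : Set α}

lemma mass_eq_indicator (φ : α → ℝ≥0∞) (A : Set α) : mass φ A = ∑' a, A.indicator φ a :=
  tsum_subtype A φ

lemma mass_mono (h : A ⊆ B) : mass φ A ≤ mass φ B := by
  rw [mass_eq_indicator, mass_eq_indicator]
  exact ENNReal.tsum_le_tsum fun a => Set.indicator_le_indicator_of_subset h (fun _ => zero_le) a

lemma mass_mono_fun (h : ∀ a ∈ A, φ a ≤ ψ a) : mass φ A ≤ mass ψ A :=
  ENNReal.tsum_le_tsum fun a => h a.1 a.2

lemma mass_congr (h : ∀ a ∈ A, φ a = ψ a) : mass φ A = mass ψ A :=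
  tsum_congr fun a => h a.1 a.2

@[simp] lemma mass_empty : mass φ (∅ : Set α) = 0 := by
  rw [mass_eq_indicator]; simp

@[simp] lemma mass_singleton (a : α) : mass φ {a} = φ a := by
  rw [mass]
  exact tsum_singleton a φ

lemma mass_add (φ ψ : α → ℝ≥0∞) (A : Set α) :
    mass (fun a => φ a + ψ a) A = mass φ A + mass ψ A :=
  ENNReal.tsum_add

lemma mass_const_mul (c : ℝ≥0∞) (φ : α → ℝ≥0∞) (A : Set α) :
    mass (fun a => c * φ a) A = c * mass φ A :=
  ENNReal.tsum_mul_left

lemma mass_union_le (φ : α → ℝ≥0∞) (A B : Set α) :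
    mass φ (A ∪ B) ≤ mass φ A + mass φ B :=
  ENNReal.tsum_union_le φ A B

lemma mass_iUnion_le {ι : Type*} (φ : α → ℝ≥0∞) (A : ι → Set α) :
    mass φ (⋃ i, A i) ≤ ∑' i, mass φ (A i) :=
  ENNReal.tsum_iUnion_le_tsum φ A

/-- comparison through a partial inverse -/
lemma mass_le_of_section {φ : α → ℝ≥0∞} {ψ : β → ℝ≥0∞} {A : Set α} {B : Set β} (g : β → α)
    (h : ∀ a ∈ A, ∃ b ∈ B, g b = a ∧ φ a ≤ ψ b) : mass φ A ≤ mass ψ B := by
  classical
  choose s hs hg hle using h
  let i : A → B := fun a => ⟨s a.1 a.2, hs a.1 a.2⟩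
  have hi : Function.Injective i := by
    intro a b hab
    have h1 : s a.1 a.2 = s b.1 b.2 := congrArg Subtype.val hab
    have h2 : g (s a.1 a.2) = g (s b.1 b.2) := congrArg g h1
    rw [hg, hg] at h2
    exact Subtype.ext h2
  calc mass φ A = ∑' a : A, φ a := rfl
    _ ≤ ∑' a : A, ψ (i a) := ENNReal.tsum_le_tsum fun a => hle a.1 a.2
    _ ≤ ∑' b : B, ψ b := ENNReal.tsum_comp_le_tsum_of_injective hi fun b : B => ψ b

/-- comparison through an injection -/
lemma mass_le_of_injOn {φ : α → ℝ≥0∞} {ψ : β → ℝ≥0∞} {A : Set α} {B : Set β} (f : α → β)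
    (hf : Set.InjOn f A) (hm : Set.MapsTo f A B) (h : ∀ a ∈ A, φ a ≤ ψ (f a)) :
    mass φ A ≤ mass ψ B := by
  let i : A → B := fun a => ⟨f a.1, hm a.2⟩
  have hi : Function.Injective i := by
    intro a b hab
    exact Subtype.ext (hf a.2 b.2 (congrArg Subtype.val hab))
  calc mass φ A = ∑' a : A, φ a := rfl
    _ ≤ ∑' a : A, ψ (i a) := ENNReal.tsum_le_tsum fun a => h a.1 a.2
    _ ≤ ∑' b : B, ψ b := ENNReal.tsum_comp_le_tsum_of_injective hi fun b : B => ψ b

lemma mass_prod (φ : α → ℝ≥0∞) (ψ : β → ℝ≥0∞) (A : Set α) (B : Set β) :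
    mass (fun p : α × β => φ p.1 * ψ p.2) (A ×ˢ B) = mass φ A * mass ψ B := by
  rw [mass_eq_indicator, mass_eq_indicator, mass_eq_indicator, ENNReal.tsum_prod']
  rw [← ENNReal.tsum_mul_right]
  refine tsum_congr fun a => ?_
  rw [← ENNReal.tsum_mul_left]
  refine tsum_congr fun b => ?_
  by_cases ha : a ∈ A <;> by_cases hb : b ∈ B <;> simp [ha, hb]

lemma mass_le_of_finset {M : ℝ≥0∞} (h : ∀ s : Finset α, (↑s : Set α) ⊆ A → ∑ a ∈ s, φ a ≤ M) :
    mass φ A ≤ M := by
  classical
  rw [mass, ENNReal.tsum_eq_iSup_sum]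
  refine iSup_le fun s => ?_
  have := h (s.map (Function.Embedding.subtype _)) (by
    intro a ha
    simp at ha
    exact ha.1)
  simpa using this

lemma sum_le_mass {s : Finset α} (h : (↑s : Set α) ⊆ A) : ∑ a ∈ s, φ a ≤ mass φ A := by
  classical
  calc ∑ a ∈ s, φ a = ∑ a ∈ s, A.indicator φ a :=
        Finset.sum_congr rfl fun a ha => by rw [Set.indicator_of_mem (h ha)]
    _ ≤ ∑' a, A.indicator φ a := ENNReal.sum_le_tsum s
    _ = mass φ A := (mass_eq_indicator φ A).symm

lemma le_mass {a : α} (h : a ∈ A) : φ a ≤ mass φ A := by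
  have := sum_le_mass (φ := φ) (A := A) (s := {a}) (by simpa using h)
  simpa using this

lemma mass_lt_top_of_finite (hA : A.Finite) (h : ∀ a ∈ A, φ a ≠ ∞) : mass φ A ≠ ∞ := by
  classical
  have := hA.fintype
  rw [mass, tsum_fintype]
  exact ENNReal.sum_ne_top.2 fun a _ => h a.1 a.2

end mass

/-- if every word of `A` is a product of a word of `B` and a word of `C` -/
lemma mass_le_mul {φ φ₁ φ₂ : Word → ℝ≥0∞} {A B C : Set Word}
    (hφ : ∀ u ∈ B, ∀ v ∈ C, φ (u ++ v) ≤ φ₁ u * φ₂ v)
    (h : ∀ w ∈ A, ∃ u ∈ B, ∃ v ∈ C, w = u ++ v) : mass φ A ≤ mass φ₁ B * mass φ₂ C := by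
  rw [← mass_prod]
  refine mass_le_of_section (fun p : Word × Word => p.1 ++ p.2) ?_
  intro w hw
  obtain ⟨u, hu, v, hv, rfl⟩ := h w hw
  exact ⟨(u, v), ⟨hu, hv⟩, rfl, hφ u hu v hv⟩

/-! ### exponential weights -/

/-- weight `exp (-u * length + c * X + θ * Y)` -/
noncomputable def ex (u c θ : ℝ) (w : Word) : ℝ≥0∞ :=
  ENNReal.ofReal (Real.exp (-u * w.length + c * X w + θ * Y w))

lemma ex_append (u c θ : ℝ) (v w : Word) : ex u c θ (v ++ w) = ex u c θ v * ex u c θ w := by
  unfold ex
  rw [← ENNReal.ofReal_mul (Real.exp_pos _).le, ← Real.exp_add]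
  congr 2
  push_cast [List.length_append, X_append, Y_append]
  ring

@[simp] lemma ex_nil (u c θ : ℝ) : ex u c θ [] = 1 := by simp [ex]

lemma ex_pos (u c θ : ℝ) (w : Word) : 0 < ex u c θ w := by
  unfold ex; exact ENNReal.ofReal_pos.2 (Real.exp_pos _)
lemma ex_ne_top (u c θ : ℝ) (w : Word) : ex u c θ w ≠ ∞ := ENNReal.ofReal_ne_top

lemma ex_flipY (u c θ : ℝ) (w : Word) : ex u c θ (flipY w) = ex u c (-θ) w := by
  unfold ex; congr 2; push_cast [length_flipY, X_flipY, Y_flipY]; ring
lemma ex_flipX (u c θ : ℝ) (w : Word) : ex u c θ (flipX w) = ex u (-c) θ w := by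
  unfold ex; congr 2; push_cast [length_flipX, X_flipX, Y_flipX]; ring
lemma ex_rv (u c θ : ℝ) (w : Word) : ex u c θ (rv w) = ex u (-c) (-θ) w := by
  unfold ex; congr 2; push_cast [length_rv, X_rv, Y_rv]; ring

/-- total weight of self-avoiding walks -/
noncomputable def chi (u : ℝ) : ℝ≥0∞ := mass (ex u 0 0) {w | SAW w}

/-- bridges of span `s` -/
def BrS (s : ℤ) : Set Word := {w | IsBr w ∧ X w = s}

/-- irreducible bridges -/
structure IsIrr (w : Word) : Prop where
  br : IsBr w
  ne : w ≠ []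
  irr : ∀ {u v : Word}, w = u ++ v → IsBr u → IsBr v → u = [] ∨ v = []

/-- the set of irreducible bridges -/
def Irr : Set Word := {w | IsIrr w}

end Pool.Agent.SAPF
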