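import Pool.Agent.SAPF.Poly

/-!
Explicit self-avoiding polygons built from two bridges: up the left side, along the first bridge,
down the right side, and back along the second bridge.
-/

namespace Pool.Agent.SAPF

@[simp] lemma X_replicate_N (n : ℕ) : X (List.replicate n Dir.N) = 0 := by
  simp [X, Dir.dx]
@[simp] lemma Y_replicate_N (n : ℕ) : Y (List.replicate n Dir.N) = n := by
  simp [Y, Dir.dy]
@[simp] lemma X_replicate_S (n : ℕ) : X (List.replicate n Dir.S) = 0 := by
  simp [X, Dir.dx]
@[simp] lemma Y_replicate_S (n : ℕ) : Y (List.replicate n Dir.S) = -n := by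
  simp [Y, Dir.dy]

lemma prefix_replicate {n : ℕ} {d : Dir} {t : Word} (h : t <+: List.replicate n d) :
    ∃ i ≤ n, t = List.replicate i d := by
  obtain ⟨s, hs⟩ := h
  have hl := congrArg List.length hs
  simp at hl
  refine ⟨t.length, by omega, ?_⟩
  rw [List.eq_replicate_iff]
  refine ⟨rfl, fun b hb => ?_⟩
  have : b ∈ List.replicate n d := by rw [← hs]; exact List.mem_append_left _ hb
  exact List.eq_of_mem_replicate this

/-- beginnings of a self-avoiding word are determined by their endpoints -/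
lemma SAW.prefix_eq {w p q : Word} (h : SAW w) (hp : p <+: w) (hq : q <+: w) (hx : X p = X q)
    (hy : Y p = Y q) : p = q := by
  rcases prefix_comparable hp hq with hpq | hpq
  · obtain ⟨t, rfl⟩ := hpq
    have ht : t = [] := by
      apply h t
      · obtain ⟨s, hs⟩ := hq
        exact ⟨p, s, hs⟩
      · simp at hx; exact hx
      · simp at hy; exact hy
    simp [ht]
  · obtain ⟨t, rfl⟩ := hpq
    have ht : t = [] := by
      apply h t
      · obtain ⟨s, hs⟩ := hp
        exact ⟨q, s, hs⟩
      · simp at hx; exact hx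
      · simp at hy; exact hy
    simp [ht]

/-- the closed word: up the left side, along `P`, down the right side, back along `Q` -/
def bw (k : ℕ) (P Q : Word) : Word :=
  List.replicate k Dir.N ++ P ++ [Dir.E] ++ List.replicate k Dir.S ++ rv (Q ++ [Dir.E])

lemma length_bw (k : ℕ) (P Q : Word) : (bw k P Q).length = P.length + Q.length + 2 * k + 2 := by
  simp [bw]
  omega

lemma X_bw (k : ℕ) {P Q : Word} (hX : X P = X Q) : X (bw k P Q) = 0 := by
  simp [bw, Dir.dx]
  omega

lemma Y_bw (k : ℕ) {P Q : Word} (hP : Y P = 0) (hQ : Y Q = 0) : Y (bw k P Q) = 0 := by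
  simp [bw, Dir.dy, hP, hQ]

/-- the beginnings of the closed word -/
lemma prefix_bw {k : ℕ} {P Q t : Word} (h : t <+: bw k P Q) (hne : t.length < (bw k P Q).length) :
    (∃ i ≤ k, t = List.replicate i Dir.N) ∨
    (∃ p, p <+: P ∧ p ≠ [] ∧ t = List.replicate k Dir.N ++ p) ∨
    (∃ i ≤ k, t = List.replicate k Dir.N ++ P ++ [Dir.E] ++ List.replicate i Dir.S) ∨
    (∃ q q', q ++ q' = Q ∧ q ≠ [] ∧ t = List.replicate k Dir.N ++ P ++ [Dir.E] ++
      List.replicate k Dir.S ++ ([Dir.W] ++ rv q')) := by
  unfold bw at h hne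
  rcases prefix_append_cases h with h | ⟨b, hb, hb0, rfl⟩
  · rcases prefix_append_cases h with h | ⟨b, hb, hb0, rfl⟩
    · rcases prefix_append_cases h with h | ⟨b, hb, hb0, rfl⟩
      · rcases prefix_append_cases h with h | ⟨b, hb, hb0, rfl⟩
        · left
          exact prefix_replicate h
        · right; left
          exact ⟨b, hb, hb0, rfl⟩
      · right; right; left
        rcases eq_nil_or_singleton_of_prefix hb with h0 | h0
        · exact absurd h0 hb0
        · exact ⟨0, Nat.zero_le k, by simp [h0]⟩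
    · right; right; left
      obtain ⟨i, hi, rfl⟩ := prefix_replicate hb
      exact ⟨i, hi, rfl⟩
  · right; right; right
    have hrv : rv (Q ++ [Dir.E]) = [Dir.W] ++ rv Q := by simp [rv, Dir.op]
    have hlen : b.length < (rv (Q ++ [Dir.E])).length := by
      simp only [List.length_append] at hne ⊢
      omega
    rw [hrv] at hb hlen
    rcases prefix_append_cases hb with h | ⟨c, hc, hc0, rfl⟩
    · rcases eq_nil_or_singleton_of_prefix h with h0 | h0
      · exact absurd h0 hb0
      · refine ⟨Q, [], by simp, ?_, by simp [h0]⟩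
        rintro rfl
        simp [h0] at hlen
    · obtain ⟨s, hs⟩ := hc
      refine ⟨rv s, rv c, ?_, ?_, by simp⟩
      · rw [← rv_append, hs, rv_rv]
      · intro h0
        rw [rv_eq_nil] at h0
        rw [h0] at hs
        simp at hs
        rw [hs] at hlen
        simp at hlen

lemma width_bw_aux {k : ℕ} {P Q t : Word} (hP : IsBr P) (hQ : IsBr Q) (hX : X P = X Q)
    (ht : t <+: bw k P Q) (hne : t.length < (bw k P Q).length) : 0 ≤ X t ∧ X t ≤ X P + 1 := by
  have h0 := hP.X_nonneg
  rcases prefix_bw ht hne with ⟨i, hi, rfl⟩ | ⟨p, hp, hp0, rfl⟩ | ⟨i, hi, rfl⟩ |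
    ⟨q, q', hq, hq0, rfl⟩
  · simp; omega
  · have h1 := hP.nonneg hp
    have h2 := hP.le hp
    simp; omega
  · simp [Dir.dx]; omega
  · have h1 := hQ.nonneg (u := q) ⟨q', hq⟩
    have h2 := hQ.le (u := q) ⟨q', hq⟩
    have h3 := congrArg X hq
    simp at h3
    simp [Dir.dx]; omega

/-- distinct beginnings of the closed word have distinct endpoints -/
lemma bw_inj {k h : ℕ} {P Q t t' : Word} (hP : IsBr P) (hQ : IsBr Q) (hX : X P = X Q)
    (hYP : Y P = 0) (hYQ : Y Q = 0) (hP' : ∀ t, t <+: P → -(h : ℤ) ≤ Y t)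
    (hQ' : ∀ t, t <+: Q → Y t ≤ h) (hk : 2 * h < k)
    (ht : t <+: bw k P Q) (hne : t.length < (bw k P Q).length)
    (ht' : t' <+: bw k P Q) (hne' : t'.length < (bw k P Q).length)
    (ex : X t = X t') (ey : Y t = Y t') : t.length = t'.length := by
  have h0 := hP.X_nonneg
  -- data of the four regions
  rcases prefix_bw ht hne with ⟨i, hi, rfl⟩ | ⟨p, hp, hp0, rfl⟩ | ⟨i, hi, rfl⟩ |
    ⟨q, q', hq, hq0, rfl⟩ <;>
  rcases prefix_bw ht' hne' with ⟨j, hj, rfl⟩ | ⟨p', hp', hp0', rfl⟩ | ⟨j, hj, rfl⟩ |
    ⟨r, r', hr, hr0, rfl⟩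
  · simp at ey ⊢; omega
  · have h1 := hP.pos hp' hp0'
    simp at ex; omega
  · simp [Dir.dx] at ex; omega
  · have h1 := hQ.pos (u := r) ⟨r', hr⟩ hr0
    have h3 := congrArg X hr
    simp at h3
    simp [Dir.dx] at ex; omega
  · have h1 := hP.pos hp hp0
    simp at ex; omega
  · simp at ex ey
    rw [hP.saw.prefix_eq hp hp' ex ey]
  · have h2 := hP.le hp
    simp [Dir.dx] at ex; omega
  · have h1 := hP' p hp
    have h2 := hQ' r ⟨r', hr⟩
    have h3 := congrArg Y hr
    simp at h3
    simp [Dir.dy] at ey; omega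
  · simp [Dir.dx] at ex; omega
  · have h2 := hP.le hp'
    simp [Dir.dx] at ex; omega
  · simp at ey ⊢; omega
  · have h2 := hQ.le (u := r) ⟨r', hr⟩
    have h3 := congrArg X hr
    simp at h3
    simp [Dir.dx] at ex; omega
  · have h1 := hQ.pos (u := q) ⟨q', hq⟩ hq0
    have h3 := congrArg X hq
    simp at h3
    simp [Dir.dx] at ex; omega
  · have h1 := hP' p' hp'
    have h2 := hQ' q ⟨q', hq⟩
    have h3 := congrArg Y hq
    simp at h3
    simp [Dir.dy] at ey; omega
  · have h2 := hQ.le (u := q) ⟨q', hq⟩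
    have h3 := congrArg X hq
    simp at h3
    simp [Dir.dx] at ex; omega
  · have e1 := congrArg X hq
    have e2 := congrArg X hr
    have e3 := congrArg Y hq
    have e4 := congrArg Y hr
    have l1 := congrArg List.length hq
    have l2 := congrArg List.length hr
    simp at e1 e2 e3 e4 l1 l2
    simp at ex ey
    have := hQ.saw.prefix_eq (p := q) (q := r) ⟨q', hq⟩ ⟨r', hr⟩ (by omega) (by omega)
    rw [this] at l1
    simp
    omega

lemma loop_step {m : ℕ} [NeZero m] {W : Word} (hl : W.length = m) (hx : X W = 0) (hy : Y W = 0)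
    (i : ZMod m) : loop m W (i + 1) - loop m W i ∈
      ({(1, 0), (0, 1), (-1, 0), (0, -1)} : Set (ℤ × ℤ)) := by
  have hi : i.val < m := ZMod.val_lt i
  have key : loop m W (i + 1) = (X (W.take (i.val + 1)), Y (W.take (i.val + 1))) := by
    rcases Nat.lt_or_ge (i.val + 1) m with h | h
    · have : (i + 1).val = i.val + 1 := by
        rcases Nat.lt_or_ge 1 m with h1 | h1
        · have : Fact (1 < m) := ⟨h1⟩
          rw [ZMod.val_add_of_lt]
          · rw [ZMod.val_one]
          · rw [ZMod.val_one]; exact h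
        · omega
      unfold loop
      rw [this]
    · have hm : i.val + 1 = m := by omega
      have : i + 1 = 0 := by
        have h2 : ((i.val + 1 : ℕ) : ZMod m) = 0 := by rw [hm]; exact ZMod.natCast_self m
        push_cast at h2
        rwa [ZMod.natCast_zmod_val] at h2
      unfold loop
      rw [this, ZMod.val_zero, hm, ← hl]
      simp [hx, hy]
  have hW : i.val < W.length := by omega
  rw [key]
  unfold loop
  rw [List.take_succ_eq_append_getElem hW]
  cases W[i.val] <;> simp [Dir.dx, Dir.dy]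

theorem build_sap {n k h : ℕ} {P Q : Word} (hP : IsBr P) (hQ : IsBr Q) (hX : X P = X Q)
    (hYP : Y P = 0) (hYQ : Y Q = 0) (hP' : ∀ t, t <+: P → -(h : ℤ) ≤ Y t)
    (hQ' : ∀ t, t <+: Q → Y t ≤ h) (hk : 2 * h < k)
    (hlen : P.length + Q.length + 2 * k + 2 = 2 * n) :
    let W := List.replicate k Dir.N ++ P ++ [Dir.E] ++ List.replicate k Dir.S ++ rv (Q ++ [Dir.E])
    IsSAP (2 * n) (loop (2 * n) W) ∧ width (loop (2 * n) W) = X P + 1 := by
  intro W
  have hW : W = bw k P Q := rfl
  have hl : (bw k P Q).length = 2 * n := by rw [length_bw, hlen]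
  have : NeZero (2 * n) := ⟨by omega⟩
  have hpre : ∀ i : ZMod (2 * n), (bw k P Q).take i.val <+: bw k P Q ∧
      ((bw k P Q).take i.val).length = i.val ∧ i.val < (bw k P Q).length := by
    intro i
    have hi : i.val < 2 * n := ZMod.val_lt i
    refine ⟨List.take_prefix _ _, ?_, by omega⟩
    rw [List.length_take]
    omega
  rw [hW]
  refine ⟨⟨?_, ?_, ?_⟩, ?_⟩
  · simp [loop]
  · intro i j hij
    obtain ⟨a1, a2, a3⟩ := hpre i
    obtain ⟨b1, b2, b3⟩ := hpre j
    simp only [loop, Prod.mk.injEq] at hij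
    have := bw_inj hP hQ hX hYP hYQ hP' hQ' hk a1 (by omega) b1 (by omega) hij.1 hij.2
    apply ZMod.val_injective
    omega
  · intro i
    exact loop_step hl (X_bw k hX) (Y_bw k hYP hYQ) i
  · unfold width
    have hb : ∀ i : ZMod (2 * n), 0 ≤ (loop (2 * n) (bw k P Q) i).1 ∧
        (loop (2 * n) (bw k P Q) i).1 ≤ X P + 1 := by
      intro i
      obtain ⟨a1, a2, a3⟩ := hpre i
      exact width_bw_aux hP hQ hX a1 (by omega)
    have hmem : X P + 1 ∈ {d : ℤ | ∃ i j, d = (loop (2 * n) (bw k P Q) i).1 -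
        (loop (2 * n) (bw k P Q) j).1} := by
      have hc : k + P.length + 1 < 2 * n := by omega
      refine ⟨((k + P.length + 1 : ℕ) : ZMod (2 * n)), 0, ?_⟩
      have hv : ((k + P.length + 1 : ℕ) : ZMod (2 * n)).val = k + P.length + 1 := by
        rw [ZMod.val_natCast, Nat.mod_eq_of_lt hc]
      have ht : (bw k P Q).take (k + P.length + 1) = List.replicate k Dir.N ++ P ++ [Dir.E] := by
        have e1 : bw k P Q = (List.replicate k Dir.N ++ P ++ [Dir.E]) ++
            (List.replicate k Dir.S ++ rv (Q ++ [Dir.E])) := by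
          simp [bw]
        have e2 : k + P.length + 1 = (List.replicate k Dir.N ++ P ++ [Dir.E]).length := by
          simp
          omega
        rw [e1, e2, List.take_left]
      simp only [loop]
      rw [hv, ht]
      simp [Dir.dx]
    apply le_antisymm
    · apply csSup_le ⟨_, hmem⟩
      rintro d ⟨i, j, rfl⟩
      have h1 := hb i
      have h2 := hb j
      omega
    · apply le_csSup _ hmem
      refine ⟨X P + 1, ?_⟩
      rintro d ⟨i, j, rfl⟩
      have h1 := hb i
      have h2 := hb j
      omega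

end Pool.Agent.SAPF
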