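import Pool.Agent.SAPF.Poly

/-!
Unique factorization of bridges into irreducible bridges; masses of lists of pieces.
-/

namespace Pool.Agent.SAPF

open scoped ENNReal

theorem isBr_flatten {ps : List Word} (hp : AllIrr ps) : IsBr ps.flatten := by
  induction ps with
  | nil => exact isBr_nil
  | cons p ps ih =>
    rw [List.flatten_cons]
    exact (hp p (by simp)).br.append (ih fun q hq => hp q (by simp [hq]))

theorem exists_factor_aux (n : ℕ) : ∀ w : Word, w.length ≤ n → IsBr w →
    ∃ ps : List Word, AllIrr ps ∧ ps.flatten = w := by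
  induction n with
  | zero =>
    intro w hw _
    have h0 : w = [] := List.length_eq_zero_iff.1 (by omega)
    exact ⟨[], fun p hp => by simp at hp, by simp [h0]⟩
  | succ n ih =>
    intro w hw h
    by_cases h0 : w = []
    · exact ⟨[], fun p hp => by simp at hp, by simp [h0]⟩
    by_cases hirr : IsIrr w
    · refine ⟨[w], ?_, by simp⟩
      intro p hp
      rw [List.mem_singleton] at hp
      rw [hp]; exact hirr
    · have : ∃ u v, w = u ++ v ∧ IsBr u ∧ IsBr v ∧ u ≠ [] ∧ v ≠ [] := by
        by_contra hcon
        apply hirr
        refine ⟨h, h0, ?_⟩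
        intro u v huv hu hv
        by_contra hne
        rw [not_or] at hne
        exact hcon ⟨u, v, huv, hu, hv, hne.1, hne.2⟩
      obtain ⟨u, v, rfl, hu, hv, hu0, hv0⟩ := this
      have hul := List.length_pos_iff.2 hu0
      have hvl := List.length_pos_iff.2 hv0
      rw [List.length_append] at hw
      obtain ⟨ps, hps, rfl⟩ := ih u (by omega) hu
      obtain ⟨qs, hqs, rfl⟩ := ih v (by omega) hv
      refine ⟨ps ++ qs, ?_, by simp⟩
      intro p hp
      rcases List.mem_append.1 hp with h1 | h1
      · exact hps p h1
      · exact hqs p h1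

/-- every bridge is a product of irreducible bridges -/
theorem exists_factor {w : Word} (h : IsBr w) : ∃ ps : List Word, AllIrr ps ∧ ps.flatten = w :=
  exists_factor_aux w.length w le_rfl h

lemma irr_eq_of_prefix {p q v v' : Word} (hp : IsIrr p) (hq : IsIrr q) (hv : IsBr v)
    (h : p ++ v = q ++ v') (hpq : p <+: q) : p = q := by
  obtain ⟨t, rfl⟩ := hpq
  rw [List.append_assoc] at h
  have h1 := List.append_cancel_left h
  -- v = t ++ v'
  have ht : IsBr t := by
    refine IsBr.of_suffix hq.br ?_
    intro s hs hs0
    exact hv.pos (by rw [h1]; exact hs.trans (List.prefix_append t v')) hs0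
  rcases hq.irr rfl hp.br ht with h2 | h2
  · exact absurd h2 hp.ne
  · simp [h2]

/-- the first irreducible piece is determined -/
lemma irr_append_inj {p q v v' : Word} (hp : IsIrr p) (hq : IsIrr q) (hv : IsBr v)
    (hv' : IsBr v') (h : p ++ v = q ++ v') : p = q ∧ v = v' := by
  have hpq : p = q := by
    rcases prefix_comparable (List.prefix_append p v) (h ▸ List.prefix_append q v') with h1 | h1
    · exact irr_eq_of_prefix hp hq hv h h1
    · exact (irr_eq_of_prefix hq hp hv' h.symm h1).symm
  subst hpq
  exact ⟨rfl, List.append_cancel_left h⟩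

theorem factor_unique {ps qs : List Word} (hp : AllIrr ps) (hq : AllIrr qs)
    (h : ps.flatten = qs.flatten) : ps = qs := by
  induction ps generalizing qs with
  | nil =>
    cases qs with
    | nil => rfl
    | cons q qs =>
      exfalso
      rw [List.flatten_nil, List.flatten_cons] at h
      have := List.append_eq_nil_iff.1 h.symm
      exact (hq q (by simp)).ne this.1
  | cons p ps ih =>
    cases qs with
    | nil =>
      exfalso
      rw [List.flatten_nil, List.flatten_cons] at h
      have := List.append_eq_nil_iff.1 h
      exact (hp p (by simp)).ne this.1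
    | cons q qs =>
      have hp1 : IsIrr p := hp p (by simp)
      have hq1 : IsIrr q := hq q (by simp)
      have hps : AllIrr ps := fun r hr => hp r (by simp [hr])
      have hqs : AllIrr qs := fun r hr => hq r (by simp [hr])
      rw [List.flatten_cons, List.flatten_cons] at h
      obtain ⟨rfl, h2⟩ := irr_append_inj hp1 hq1 (isBr_flatten hps) (isBr_flatten hqs) h
      rw [ih hps hqs h2]

/-- the mass of a set under an injection -/
lemma mass_image {α β : Type*} {φ : β → ℝ≥0∞} {A : Set α} (f : α → β) (hf : Set.InjOn f A) :
    mass φ (f '' A) = mass (fun a => φ (f a)) A := by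
  unfold mass
  exact tsum_image φ hf

theorem mass_lists {u c θ : ℝ} (A : Set Word) (k : ℕ) :
    mass (fun ps : List Word => ex u c θ ps.flatten) {ps | ps.length = k ∧ ∀ p ∈ ps, p ∈ A}
      = (mass (ex u c θ) A) ^ k := by
  induction k with
  | zero =>
    have : {ps : List Word | ps.length = 0 ∧ ∀ p ∈ ps, p ∈ A} = {[]} := by
      ext ps
      simp only [Set.mem_ofPred_eq, Set.mem_singleton_iff, List.length_eq_zero_iff]
      constructor
      · exact fun h => h.1
      · rintro rfl
        exact ⟨rfl, fun p hp => by simp at hp⟩
    rw [this, mass_singleton, pow_zero]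
    simp
  | succ k ih =>
    have hset : {ps : List Word | ps.length = k + 1 ∧ ∀ p ∈ ps, p ∈ A} =
        (fun x : Word × List Word => x.1 :: x.2) ''
          (A ×ˢ {ps : List Word | ps.length = k ∧ ∀ p ∈ ps, p ∈ A}) := by
      ext ps
      simp only [Set.mem_ofPred_eq, Set.mem_image, Set.mem_prod, Prod.exists]
      constructor
      · rintro ⟨h1, h2⟩
        cases ps with
        | nil => simp at h1
        | cons p ps =>
          refine ⟨p, ps, ⟨h2 p (by simp), ?_, fun q hq => h2 q (by simp [hq])⟩, rfl⟩
          simpa using h1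
      · rintro ⟨p, qs, ⟨h1, h2, h3⟩, rfl⟩
        refine ⟨by simp [h2], ?_⟩
        intro q hq
        rcases List.mem_cons.1 hq with rfl | hq
        · exact h1
        · exact h3 q hq
    have hinj : Set.InjOn (fun x : Word × List Word => x.1 :: x.2)
        (A ×ˢ {ps : List Word | ps.length = k ∧ ∀ p ∈ ps, p ∈ A}) := by
      rintro ⟨a, b⟩ _ ⟨a', b'⟩ _ h
      simp only [List.cons.injEq] at h
      exact Prod.ext h.1 h.2
    rw [hset, mass_image _ hinj, pow_succ, mul_comm, ← ih, ← mass_prod]
    refine mass_congr ?_
    rintro ⟨a, b⟩ _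
    simp only [List.flatten_cons]
    exact ex_append u c θ a b.flatten

end Pool.Agent.SAPF
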