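import Pool.Agent.SAPF.Poly

/-!
Anti-concentration for the signs of the flippable pieces.
-/

namespace Pool.Agent.SAPF

open scoped ENNReal

namespace Flip

/-! ### sign lists -/

/-- the sign lists of length `n` -/
def Lst : ℕ → Finset (List Bool)
  | 0 => {[]}
  | n + 1 => (Lst n).image (List.cons true) ∪ (Lst n).image (List.cons false)

lemma mem_Lst {n : ℕ} {b : List Bool} : b ∈ Lst n ↔ b.length = n := by
  induction n generalizing b with
  | zero => simp [Lst]
  | succ n ih =>
    simp only [Lst, Finset.mem_union, Finset.mem_image, ih]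
    constructor
    · rintro (⟨a, ha, rfl⟩ | ⟨a, ha, rfl⟩) <;> simp [ha]
    · intro h
      rcases b with _ | ⟨c, b⟩
      · simp at h
      · simp only [List.length_cons, Nat.add_right_cancel_iff] at h
        cases c
        · right; exact ⟨b, h, rfl⟩
        · left; exact ⟨b, h, rfl⟩

lemma sum_Lst_succ (n : ℕ) (f : List Bool → ℕ) :
    ∑ b ∈ Lst (n + 1), f b = ∑ b ∈ Lst n, (f (true :: b) + f (false :: b)) := by
  rw [Lst, Finset.sum_union, Finset.sum_image, Finset.sum_image, Finset.sum_add_distrib]
  · intro a _ b _ h; exact List.tail_eq_of_cons_eq h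
  · intro a _ b _ h; exact List.tail_eq_of_cons_eq h
  · rw [Finset.disjoint_left]
    rintro a ha hb
    rw [Finset.mem_image] at ha hb
    obtain ⟨c, _, rfl⟩ := ha
    obtain ⟨d, _, hd⟩ := hb
    simp at hd

lemma card_Lst (n : ℕ) : (Lst n).card = 2 ^ n := by
  induction n with
  | zero => simp [Lst]
  | succ n ih =>
    rw [Finset.card_eq_sum_ones, sum_Lst_succ, Finset.sum_const, ih]
    simp [pow_succ]

lemma sum_Lst_add (m n : ℕ) (f : List Bool → ℕ) :
    ∑ b ∈ Lst (m + n), f b = ∑ a ∈ Lst m, ∑ b ∈ Lst n, f (a ++ b) := by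
  induction m generalizing f with
  | zero => simp [Lst]
  | succ m ih =>
    rw [show m + 1 + n = m + n + 1 by ring, sum_Lst_succ, ih, sum_Lst_succ]
    refine Finset.sum_congr rfl fun a _ => ?_
    rw [← Finset.sum_add_distrib]
    rfl

/-- the sign of a boolean -/
def sg (b : Bool) : ℤ := if b then 1 else -1

/-- sum of the signs -/
def ss : List Bool → ℤ
  | [] => 0
  | b :: bs => sg b + ss bs

/-- number of plus signs -/
def tr : List Bool → ℕ
  | [] => 0
  | b :: bs => (if b then 1 else 0) + tr bs

lemma ss_eq (b : List Bool) : ss b = 2 * (tr b : ℤ) - b.length := by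
  induction b with
  | nil => simp [ss, tr]
  | cons a b ih =>
    cases a <;> simp [ss, tr, sg, ih] <;> ring

lemma card_tr (n j : ℕ) : ∑ b ∈ Lst n, (if tr b = j then 1 else 0) = n.choose j := by
  induction n generalizing j with
  | zero =>
    rcases j with _ | j <;> simp [Lst, tr, Finset.filter_singleton]
  | succ n ih =>
    rw [sum_Lst_succ, Finset.sum_add_distrib]
    rcases j with _ | j
    · have h1 : ∑ b ∈ Lst n, (if tr (true :: b) = 0 then 1 else 0) = 0 := by
        refine Finset.sum_eq_zero fun b _ => ?_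
        simp [tr]
      have h2 : ∑ b ∈ Lst n, (if tr (false :: b) = 0 then 1 else 0) =
          ∑ b ∈ Lst n, (if tr b = 0 then 1 else 0) := by
        refine Finset.sum_congr rfl fun b _ => ?_
        simp [tr]
      rw [h1, h2, ih]
      simp
    · have h1 : ∑ b ∈ Lst n, (if tr (true :: b) = j + 1 then 1 else 0) =
          ∑ b ∈ Lst n, (if tr b = j then 1 else 0) := by
        refine Finset.sum_congr rfl fun b _ => ?_
        have : tr (true :: b) = 1 + tr b := by simp [tr]
        rw [this]
        congr 1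
        simp only [eq_iff_iff]
        omega
      have h2 : ∑ b ∈ Lst n, (if tr (false :: b) = j + 1 then 1 else 0) =
          ∑ b ∈ Lst n, (if tr b = j + 1 then 1 else 0) := by
        refine Finset.sum_congr rfl fun b _ => ?_
        simp [tr]
      rw [h1, h2, ih, ih, Nat.choose_succ_succ]

lemma card_ss (q : ℕ) (z : ℤ) :
    ∑ b ∈ Lst (2 * q), (if ss b = z then 1 else 0) ≤ q.centralBinom := by
  by_cases hz : ∃ j : ℕ, z = 2 * (j : ℤ) - 2 * q
  · obtain ⟨j, rfl⟩ := hz
    have h : ∑ b ∈ Lst (2 * q), (if ss b = 2 * (j : ℤ) - 2 * q then 1 else 0) =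
        ∑ b ∈ Lst (2 * q), (if tr b = j then 1 else 0) := by
      refine Finset.sum_congr rfl fun b hb => ?_
      rw [ss_eq, mem_Lst.1 hb]
      congr 1
      simp only [eq_iff_iff]
      push_cast
      omega
    rw [h, card_tr]
    exact Nat.choose_le_centralBinom j q
  · have h : ∑ b ∈ Lst (2 * q), (if ss b = z then 1 else 0) = 0 := by
      refine Finset.sum_eq_zero fun b hb => ?_
      rw [if_neg]
      intro h
      apply hz
      refine ⟨tr b, ?_⟩
      rw [← h, ss_eq, mem_Lst.1 hb]
      push_cast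
      ring
    rw [h]
    exact Nat.zero_le _

lemma centralBinom_sq (n : ℕ) : (2 * n + 1) * n.centralBinom ^ 2 ≤ 16 ^ n := by
  induction n with
  | zero => simp
  | succ n ih =>
    have h := Nat.succ_mul_centralBinom_succ n
    have h2 : ((n + 1) * (n + 1).centralBinom) ^ 2 = (2 * (2 * n + 1) * n.centralBinom) ^ 2 := by
      rw [h]
    have h3 : (n + 1) ^ 2 * ((2 * (n + 1) + 1) * (n + 1).centralBinom ^ 2) ≤
        (n + 1) ^ 2 * 16 ^ (n + 1) := by
      calc (n + 1) ^ 2 * ((2 * (n + 1) + 1) * (n + 1).centralBinom ^ 2)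
          = (2 * n + 3) * ((n + 1) * (n + 1).centralBinom) ^ 2 := by ring
        _ = (4 * (2 * n + 3) * (2 * n + 1)) * ((2 * n + 1) * n.centralBinom ^ 2) := by
            rw [h2]; ring
        _ ≤ (16 * (n + 1) ^ 2) * 16 ^ n := Nat.mul_le_mul (by nlinarith) ih
        _ = (n + 1) ^ 2 * 16 ^ (n + 1) := by ring
    exact Nat.le_of_mul_le_mul_left h3 (by positivity)

/-- number of far indices -/
def farS (r : ℕ) : List (Finset ℤ) → ℤ → List Bool → ℕ
  | D :: Ds, s, b :: bs => (if ∀ d ∈ D, (r : ℤ) ≤ |s - d| then 1 else 0) + farS r Ds (s + sg b) bs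
  | _, _, _ => 0

/-- number of near indices -/
def nearS (r : ℕ) : List (Finset ℤ) → ℤ → List Bool → ℕ
  | D :: Ds, s, b :: bs => (if ∀ d ∈ D, (r : ℤ) ≤ |s - d| then 0 else 1) + nearS r Ds (s + sg b) bs
  | _, _, _ => 0

lemma far_add_near (r : ℕ) (Ds : List (Finset ℤ)) (s : ℤ) (bs : List Bool)
    (h : Ds.length = bs.length) : farS r Ds s bs + nearS r Ds s bs = bs.length := by
  induction Ds generalizing s bs with
  | nil =>
    rw [List.length_nil] at h
    have : bs = [] := List.length_eq_zero_iff.1 h.symm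
    subst this
    simp [farS, nearS]
  | cons D Ds ih =>
    rcases bs with _ | ⟨b, bs⟩
    · simp at h
    · simp only [List.length_cons, Nat.add_right_cancel_iff] at h
      have := ih (s + sg b) bs h
      simp only [farS, nearS, List.length_cons]
      split_ifs <;> omega

lemma farS_append (r : ℕ) (D1 D2 : List (Finset ℤ)) (s : ℤ) (b1 b2 : List Bool)
    (h : D1.length = b1.length) : farS r D2 (s + ss b1) b2 ≤ farS r (D1 ++ D2) s (b1 ++ b2) := by
  induction D1 generalizing s b1 with
  | nil =>
    rw [List.length_nil] at h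
    have : b1 = [] := List.length_eq_zero_iff.1 h.symm
    subst this
    simp [ss]
  | cons D D1 ih =>
    rcases b1 with _ | ⟨b, b1⟩
    · simp at h
    · simp only [List.length_cons, Nat.add_right_cancel_iff] at h
      have h1 := ih (s + sg b) b1 h
      have h2 : s + ss (b :: b1) = s + sg b + ss b1 := by simp [ss, add_assoc]
      rw [h2]
      simp only [List.cons_append, farS]
      exact h1.trans (Nat.le_add_left _ _)

/-- For a fixed second half, the first half makes each index near rarely. -/
lemma sum_near (r l q : ℕ) (D2 : List (Finset ℤ)) (hD : ∀ D ∈ D2, D.card ≤ l) (s : ℤ)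
    (b2 : List Bool) :
    ∑ b1 ∈ Lst (2 * q), nearS r D2 (s + ss b1) b2 ≤ b2.length * (2 * r * l * q.centralBinom) := by
  induction D2 generalizing s b2 with
  | nil => simp [nearS]
  | cons D D2 ih =>
    rcases b2 with _ | ⟨b, b2⟩
    · simp [nearS]
    · have ih' := ih (fun D hD' => hD D (List.mem_cons_of_mem _ hD')) (s + sg b) b2
      have hstep : ∑ b1 ∈ Lst (2 * q), nearS r (D :: D2) (s + ss b1) (b :: b2) =
          ∑ b1 ∈ Lst (2 * q), (if ∀ d ∈ D, (r : ℤ) ≤ |s + ss b1 - d| then 0 else 1) +
          ∑ b1 ∈ Lst (2 * q), nearS r D2 (s + sg b + ss b1) b2 := by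
        rw [← Finset.sum_add_distrib]
        refine Finset.sum_congr rfl fun b1 _ => ?_
        rw [nearS, show s + ss b1 + sg b = s + sg b + ss b1 by ring]
      have hone : ∑ b1 ∈ Lst (2 * q), (if ∀ d ∈ D, (r : ℤ) ≤ |s + ss b1 - d| then 0 else 1) ≤
          2 * r * l * q.centralBinom := by
        have h1 : ∀ b1 ∈ Lst (2 * q), (if ∀ d ∈ D, (r : ℤ) ≤ |s + ss b1 - d| then 0 else 1) ≤
            ∑ d ∈ D, ∑ z ∈ Finset.Ico (-(r : ℤ)) r, (if ss b1 = d - s + z then 1 else 0) := by
          intro b1 _
          split_ifs with h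
          · exact Nat.zero_le _
          · push Not at h
            obtain ⟨d, hd, hlt⟩ := h
            rw [abs_lt] at hlt
            calc 1 = (if ss b1 = d - s + (s + ss b1 - d) then 1 else 0) := by
                  rw [if_pos (by ring)]
              _ ≤ ∑ z ∈ Finset.Ico (-(r : ℤ)) r, (if ss b1 = d - s + z then 1 else 0) :=
                  Finset.single_le_sum (f := fun z : ℤ => (if ss b1 = d - s + z then 1 else 0))
                    (fun _ _ => Nat.zero_le _) (by rw [Finset.mem_Ico]; exact ⟨hlt.1.le, hlt.2⟩)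
              _ ≤ _ := Finset.single_le_sum
                    (f := fun d : ℤ => ∑ z ∈ Finset.Ico (-(r : ℤ)) r,
                      (if ss b1 = d - s + z then 1 else 0)) (fun _ _ => Nat.zero_le _) hd
        calc _ ≤ ∑ b1 ∈ Lst (2 * q), ∑ d ∈ D, ∑ z ∈ Finset.Ico (-(r : ℤ)) r,
              (if ss b1 = d - s + z then 1 else 0) := Finset.sum_le_sum h1
          _ = ∑ d ∈ D, ∑ z ∈ Finset.Ico (-(r : ℤ)) r, ∑ b1 ∈ Lst (2 * q),
              (if ss b1 = d - s + z then 1 else 0) := by
              rw [Finset.sum_comm]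
              refine Finset.sum_congr rfl fun d _ => ?_
              rw [Finset.sum_comm]
          _ ≤ ∑ _d ∈ D, ∑ _z ∈ Finset.Ico (-(r : ℤ)) r, q.centralBinom :=
              Finset.sum_le_sum fun d _ => Finset.sum_le_sum fun z _ => card_ss q _
          _ = D.card * (2 * r * q.centralBinom) := by
              rw [Finset.sum_const, Finset.sum_const, Int.card_Ico, smul_eq_mul, smul_eq_mul]
              congr 2
              omega
          _ ≤ l * (2 * r * q.centralBinom) := Nat.mul_le_mul_right _ (hD D List.mem_cons_self)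
          _ = 2 * r * l * q.centralBinom := by ring
      rw [hstep, List.length_cons]
      calc _ ≤ 2 * r * l * q.centralBinom + b2.length * (2 * r * l * q.centralBinom) :=
            Nat.add_le_add hone ih'
        _ = (b2.length + 1) * (2 * r * l * q.centralBinom) := by ring

/-- Sign lemma. -/
lemma sign_lemma (r l q : ℕ) (hq0 : 0 < q) (hq : 64 * r ^ 2 * l ^ 2 ≤ q)
    (Ds : List (Finset ℤ)) (hDs : Ds.length = 4 * q) (hD : ∀ D ∈ Ds, D.card ≤ l) (s : ℤ) :
    2 * ((Lst (4 * q)).filter (fun b => farS r Ds s b < q)).card ≤ 2 ^ (4 * q) := by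
  set D1 := Ds.take (2 * q) with hD1
  set D2 := Ds.drop (2 * q) with hD2
  have hsplit : Ds = D1 ++ D2 := (List.take_append_drop _ _).symm
  have hl1 : D1.length = 2 * q := by rw [hD1, List.length_take]; omega
  have hl2 : D2.length = 2 * q := by rw [hD2, List.length_drop]; omega
  have hDD2 : ∀ D ∈ D2, D.card ≤ l := fun D h => hD D (by
    rw [hsplit]; exact List.mem_append_right _ h)
  -- Markov
  have hM : ((Lst (4 * q)).filter (fun b => farS r Ds s b < q)).card * (q + 1) ≤
      ∑ b1 ∈ Lst (2 * q), ∑ b2 ∈ Lst (2 * q), nearS r D2 (s + ss b1) b2 := by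
    have e1 : ((Lst (4 * q)).filter (fun b => farS r Ds s b < q)).card * (q + 1) =
        ∑ b ∈ Lst (2 * q + 2 * q), (if farS r Ds s b < q then (q + 1) else 0) := by
      rw [← Finset.sum_filter, Finset.sum_const, smul_eq_mul, show 2 * q + 2 * q = 4 * q by ring]
    rw [e1, sum_Lst_add]
    refine Finset.sum_le_sum fun b1 h1 => Finset.sum_le_sum fun b2 h2 => ?_
    split_ifs with h
    · have hf := farS_append r D1 D2 s b1 b2 (by rw [hl1, mem_Lst.1 h1])
      rw [← hsplit] at hf
      have hn := far_add_near r D2 (s + ss b1) b2 (by rw [hl2, mem_Lst.1 h2])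
      rw [mem_Lst.1 h2] at hn
      omega
    · exact Nat.zero_le _
  have hS : ∑ b1 ∈ Lst (2 * q), ∑ b2 ∈ Lst (2 * q), nearS r D2 (s + ss b1) b2 ≤
      4 ^ q * (2 * q * (2 * r * l * q.centralBinom)) := by
    rw [Finset.sum_comm]
    calc _ ≤ ∑ b2 ∈ Lst (2 * q), 2 * q * (2 * r * l * q.centralBinom) := by
          refine Finset.sum_le_sum fun b2 h2 => ?_
          have := sum_near r l q D2 hDD2 s b2
          rwa [mem_Lst.1 h2] at this
      _ = _ := by
          rw [Finset.sum_const, card_Lst, smul_eq_mul, pow_mul]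
          norm_num
  -- the central binomial coefficient
  have hC : 8 * r * l * q.centralBinom ≤ 4 ^ q := by
    have h1 := centralBinom_sq q
    have h2 : (8 * r * l * q.centralBinom) ^ 2 ≤ (4 ^ q) ^ 2 := by
      calc (8 * r * l * q.centralBinom) ^ 2 = (64 * r ^ 2 * l ^ 2) * q.centralBinom ^ 2 := by ring
        _ ≤ (2 * q + 1) * q.centralBinom ^ 2 := Nat.mul_le_mul_right _ (by omega)
        _ ≤ 16 ^ q := h1
        _ = (4 ^ q) ^ 2 := by rw [← pow_mul, mul_comm q 2, pow_mul]; norm_num
    exact (Nat.pow_le_pow_iff_left (by norm_num)).1 h2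
  have hfin : 2 * ((Lst (4 * q)).filter (fun b => farS r Ds s b < q)).card * (q + 1) ≤
      2 ^ (4 * q) * (q + 1) := by
    calc 2 * ((Lst (4 * q)).filter (fun b => farS r Ds s b < q)).card * (q + 1)
        = 2 * (((Lst (4 * q)).filter (fun b => farS r Ds s b < q)).card * (q + 1)) := by ring
      _ ≤ 2 * (4 ^ q * (2 * q * (2 * r * l * q.centralBinom))) :=
          Nat.mul_le_mul_left _ (hM.trans hS)
      _ = 4 ^ q * (8 * r * l * q.centralBinom) * q := by ring
      _ ≤ 4 ^ q * 4 ^ q * q := by gcongr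
      _ ≤ 4 ^ q * 4 ^ q * (q + 1) := by gcongr; omega
      _ = 2 ^ (4 * q) * (q + 1) := by
          congr 1
          rw [← pow_add, show (4 : ℕ) = 2 ^ 2 by norm_num, ← pow_mul]
          congr 1
          ring
  exact Nat.le_of_mul_le_mul_right hfin (by omega)

/-! ### masses of lists -/

lemma ex_flatten (u c : ℝ) (ps : List Word) :
    ex u c 0 ps.flatten = (ps.map (ex u c 0)).prod := by
  induction ps with
  | nil => simp
  | cons p ps ih => rw [List.flatten_cons, ex_append, ih, List.map_cons, List.prod_cons]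

/-- Masses of lists with entries in a set. -/
lemma mass_lists_le {α : Type*} (φ : α → ℝ≥0∞) (A : Set α) (k : ℕ) :
    mass (fun l : List α => (l.map φ).prod) {l | l.length = k ∧ ∀ a ∈ l, a ∈ A} ≤
      (mass φ A) ^ k := by
  induction k with
  | zero =>
    have h : {l : List α | l.length = 0 ∧ ∀ a ∈ l, a ∈ A} = {[]} := by
      ext l
      simp only [Set.mem_ofPred_eq, Set.mem_singleton_iff]
      constructor
      · rintro ⟨h, _⟩
        exact List.length_eq_zero_iff.1 h
      · rintro rfl
        simp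
    rw [h, mass_singleton]
    simp
  | succ k ih =>
    calc mass (fun l : List α => (l.map φ).prod) {l | l.length = k + 1 ∧ ∀ a ∈ l, a ∈ A}
        ≤ mass (fun p : α × List α => φ p.1 * (p.2.map φ).prod)
            (A ×ˢ {l | l.length = k ∧ ∀ a ∈ l, a ∈ A}) := by
          refine mass_le_of_section (fun p : α × List α => p.1 :: p.2) ?_
          rintro l ⟨hl, hA⟩
          rcases l with _ | ⟨a, l⟩
          · simp at hl
          · simp only [List.length_cons, Nat.add_right_cancel_iff] at hl
            refine ⟨(a, l), ⟨hA a List.mem_cons_self, hl, fun b hb =>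
              hA b (List.mem_cons_of_mem _ hb)⟩, rfl, ?_⟩
            simp
      _ = mass φ A * mass (fun l : List α => (l.map φ).prod)
            {l | l.length = k ∧ ∀ a ∈ l, a ∈ A} :=
          mass_prod φ (fun l : List α => (l.map φ).prod) A _
      _ ≤ mass φ A * (mass φ A) ^ k := by gcongr
      _ = (mass φ A) ^ (k + 1) := by ring

/-- Masses of dependent pairs. -/
lemma mass_sigma_le {α β : Type*} (φ : α → ℝ≥0∞) (ψ : β → ℝ≥0∞) (A : Set α) (B : α → Set β)
    (M : ℝ≥0∞) (h : ∀ a ∈ A, mass ψ (B a) ≤ M) :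
    mass (fun p : α × β => φ p.1 * ψ p.2) {p | p.1 ∈ A ∧ p.2 ∈ B p.1} ≤ mass φ A * M := by
  rw [mass_eq_indicator, mass_eq_indicator, ENNReal.tsum_prod', ← ENNReal.tsum_mul_right]
  refine ENNReal.tsum_le_tsum fun a => ?_
  by_cases ha : a ∈ A
  · have e : ∀ b, ({p : α × β | p.1 ∈ A ∧ p.2 ∈ B p.1} : Set (α × β)).indicator
        (fun p : α × β => φ p.1 * ψ p.2) (a, b) = φ a * (B a).indicator ψ b := by
      intro b
      by_cases hb : b ∈ B a <;> simp [ha, hb]
    calc _ = ∑' b, φ a * (B a).indicator ψ b := tsum_congr e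
      _ = φ a * mass ψ (B a) := by rw [ENNReal.tsum_mul_left, ← mass_eq_indicator]
      _ ≤ φ a * M := by gcongr; exact h a ha
      _ = _ := by rw [Set.indicator_of_mem ha]
  · have e : ∀ b, ({p : α × β | p.1 ∈ A ∧ p.2 ∈ B p.1} : Set (α × β)).indicator
        (fun p : α × β => φ p.1 * ψ p.2) (a, b) = 0 := by
      intro b
      simp [ha]
    simp [e]

/-! ### blocks -/

/-- the flippable piece of a sign -/
def Fp (b : Bool) : Word := if b then [Dir.E, Dir.N] else [Dir.E, Dir.S]

lemma flp_Fp (b : Bool) : Flp (Fp b) := by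
  cases b
  · right; rfl
  · left; rfl

lemma flp_iff {p : Word} : Flp p ↔ ∃ b, p = Fp b := by
  constructor
  · rintro (h | h)
    · exact ⟨true, h⟩
    · exact ⟨false, h⟩
  · rintro ⟨b, rfl⟩
    exact flp_Fp b

lemma X_Fp (b : Bool) : X (Fp b) = 1 := by cases b <;> simp [Fp, Dir.dx]
lemma Y_Fp (b : Bool) : Y (Fp b) = sg b := by cases b <;> simp [Fp, Dir.dy, sg]
lemma ex_Fp (u c : ℝ) (b : Bool) : ex u c 0 (Fp b) = ex u c 0 [Dir.E, Dir.N] := by
  unfold ex
  rw [X_Fp]
  cases b <;> simp [Fp, Dir.dx]

/-- lists of pieces that are not flippable -/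
def Nf : Set (List Word) := {ns | ∀ p ∈ ns, p ∈ Irr \ {p | Flp p}}

/-- the list of pieces with given skeleton and signs -/
def build : List (List Word) → List Bool → List Word
  | ns :: ks, b :: bs => ns ++ Fp b :: build ks bs
  | _, _ => []

lemma farP_append (r : ℕ) (D : ℤ → Finset ℤ) (x y : ℤ) (a b : List Word) :
    farP r D x y (a ++ b) = farP r D x y a + farP r D (x + X a.flatten) (y + Y a.flatten) b := by
  induction a generalizing x y with
  | nil => simp [farP]
  | cons p a ih =>
    simp only [List.cons_append, farP, ih, List.flatten_cons, X_append, Y_append, add_assoc]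

lemma farP_Nf (r : ℕ) (D : ℤ → Finset ℤ) (x y : ℤ) {ns : List Word} (h : ns ∈ Nf) :
    farP r D x y ns = 0 := by
  induction ns generalizing x y with
  | nil => rfl
  | cons p ns ih =>
    have h1 : ¬ Flp p := (h p List.mem_cons_self).2
    have h2 : ns ∈ Nf := fun q hq => h q (List.mem_cons_of_mem _ hq)
    simp only [farP, ih _ _ h2]
    rw [if_neg (fun h => h1 h.1)]

/-- the shifted obstacle sets -/
def Dl (D : ℤ → Finset ℤ) : ℤ → ℤ → List (List Word) → List (Finset ℤ)
  | _, _, [] => []
  | x, y, ns :: ks =>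
      ((D (x + X ns.flatten)).image (fun d => d - (y + Y ns.flatten))) ::
        Dl D (x + X ns.flatten + 1) (y + Y ns.flatten) ks

lemma length_Dl (D : ℤ → Finset ℤ) (x y : ℤ) (ks : List (List Word)) :
    (Dl D x y ks).length = ks.length := by
  induction ks generalizing x y with
  | nil => rfl
  | cons ns ks ih => simp [Dl, ih]

lemma card_Dl {D : ℤ → Finset ℤ} {l : ℕ} (hD : ∀ x, (D x).card ≤ l) (x y : ℤ)
    (ks : List (List Word)) : ∀ F ∈ Dl D x y ks, F.card ≤ l := by
  induction ks generalizing x y with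
  | nil => simp [Dl]
  | cons ns ks ih =>
    intro F hF
    simp only [Dl, List.mem_cons] at hF
    rcases hF with rfl | hF
    · exact Finset.card_image_le.trans (hD _)
    · exact ih _ _ F hF

lemma farP_build (r : ℕ) (D : ℤ → Finset ℤ) (x y s : ℤ) {ks : List (List Word)}
    (hks : ∀ ns ∈ ks, ns ∈ Nf) (bs : List Bool) :
    farP r D x (y + s) (build ks bs) = farS r (Dl D x y ks) s bs := by
  induction ks generalizing x y s bs with
  | nil => cases bs <;> simp [build, farP, Dl, farS]
  | cons ns ks ih =>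
    rcases bs with _ | ⟨b, bs⟩
    · simp [build, farP, Dl, farS]
    · have h1 := farP_Nf r D x (y + s) (hks ns List.mem_cons_self)
      have h2 := ih (x + X ns.flatten + 1) (y + Y ns.flatten) (s + sg b)
        (fun n hn => hks n (List.mem_cons_of_mem _ hn)) bs
      simp only [build, farP_append, h1, farP, Dl, farS, zero_add, X_Fp, Y_Fp]
      congr 1
      · congr 1
        simp only [flp_Fp, true_and, eq_iff_iff, Finset.mem_image, forall_exists_index, and_imp,
          forall_apply_eq_imp_iff₂]
        constructor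
        · intro h d hd
          have := h d hd
          rwa [show s - (d - (y + Y ns.flatten)) = y + s + Y ns.flatten - d by ring]
        · intro h d hd
          have := h d hd
          rwa [show s - (d - (y + Y ns.flatten)) = y + s + Y ns.flatten - d by ring] at this
      · rw [← h2]
        congr 1
        ring

lemma ex_build (u c : ℝ) (ks : List (List Word)) (bs : List Bool) (h : ks.length = bs.length) :
    ex u c 0 (build ks bs).flatten =
      (ks.map (fun ns => ex u c 0 ns.flatten)).prod * (ex u c 0 [Dir.E, Dir.N]) ^ bs.length := by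
  induction ks generalizing bs with
  | nil =>
    rw [List.length_nil] at h
    have : bs = [] := List.length_eq_zero_iff.1 h.symm
    subst this
    simp [build]
  | cons ns ks ih =>
    rcases bs with _ | ⟨b, bs⟩
    · simp at h
    · simp only [List.length_cons, Nat.add_right_cancel_iff] at h
      rw [build, List.flatten_append, List.flatten_cons, ex_append, ex_append, ex_Fp, ih bs h,
        List.map_cons, List.prod_cons, List.length_cons, pow_succ]
      ring

/-- total mass of the flippable and the other pieces -/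
lemma split_irr (φ : Word → ℝ≥0∞) (hirr : ∀ b, IsIrr (Fp b)) :
    mass φ Irr = mass φ (Irr \ {p | Flp p}) + (φ (Fp true) + φ (Fp false)) := by
  have h1 : mass φ Irr = mass φ (Irr \ {p | Flp p}) + mass φ {p | Flp p} := by
    rw [mass_eq_indicator, mass_eq_indicator, mass_eq_indicator, ← ENNReal.tsum_add]
    refine tsum_congr fun p => ?_
    by_cases hp : Flp p
    · obtain ⟨b, rfl⟩ := flp_iff.1 hp
      have hb : Fp b ∈ Irr := hirr b
      simp [hb, flp_Fp]
    · by_cases hq : p ∈ Irr <;> simp [hp, hq]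
  have h2 : mass φ {p | Flp p} = φ (Fp true) + φ (Fp false) := by
    have hset : {p : Word | Flp p} = ↑({Fp true, Fp false} : Finset Word) := by
      ext p
      simp only [Set.mem_ofPred_eq, Finset.coe_insert, Finset.coe_singleton,
        Set.mem_insert_iff, Set.mem_singleton_iff]
      rfl
    rw [hset]
    have hne : Fp true ≠ Fp false := by simp [Fp]
    rw [mass, Finset.tsum_subtype' ({Fp true, Fp false} : Finset Word) φ, Finset.sum_pair hne]
  rw [h1, h2]

lemma split_mass {u c : ℝ} (hirr : ∀ b, IsIrr (Fp b)) (hone : mass (ex u c 0) Irr = 1) :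
    mass (ex u c 0) (Irr \ {p | Flp p}) + 2 * ex u c 0 [Dir.E, Dir.N] = 1 := by
  have h := split_irr (ex u c 0) hirr
  rw [hone, ex_Fp, ex_Fp, ← two_mul] at h
  exact h.symm

lemma infix_pair {t : Word} {a b : Dir} (h : t <:+: [a, b]) :
    t = [] ∨ t = [a] ∨ t = [b] ∨ t = [a, b] := by
  obtain ⟨p, q, hpq⟩ := h
  rcases p with _ | ⟨p1, p⟩
  · rcases t with _ | ⟨t1, t⟩
    · exact Or.inl rfl
    · rcases t with _ | ⟨t2, t⟩
      · simp at hpq
        right; left; rw [hpq.1]
      · rcases t with _ | ⟨t3, t⟩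
        · simp at hpq
          right; right; right; rw [hpq.1, hpq.2.1]
        · simp at hpq
  · rcases p with _ | ⟨p2, p⟩
    · rcases t with _ | ⟨t1, t⟩
      · exact Or.inl rfl
      · rcases t with _ | ⟨t2, t⟩
        · simp at hpq
          right; right; left; rw [hpq.2.1]
        · simp at hpq
    · rcases t with _ | ⟨t1, t⟩
      · exact Or.inl rfl
      · simp at hpq

lemma irr_pair {d : Dir} (hx : d.dx = 0) (hy : d.dy ≠ 0) : IsIrr [Dir.E, d] := by
  have hE : Dir.E.dx = 1 := rfl
  refine ⟨⟨?_, ?_, ?_⟩, by simp, ?_⟩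
  · intro t ht h1 h2
    rcases infix_pair ht with h | h | h | h
    · exact h
    · rw [h] at h1; simp [Dir.dx] at h1
    · rw [h] at h2; simp at h2; exact absurd h2 hy
    · rw [h] at h1; simp [hE, hx] at h1
  · intro t ht h0
    have ht' := ht
    rcases infix_pair ht.isInfix with h | h | h | h
    · exact absurd h h0
    · rw [h]; simp [Dir.dx]
    · rw [h] at ht'
      have : d = Dir.E := by
        obtain ⟨q, hq⟩ := ht'
        simp at hq
        exact hq.1
      rw [this] at hx; simp [Dir.dx] at hx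
    · rw [h]; simp [hE, hx]
  · intro t ht
    rcases infix_pair ht.isInfix with h | h | h | h
    · rw [h]; simp
    · rw [h]; simp [Dir.dx]
    · rw [h]; simp [hx]
    · rw [h]; simp [hE, hx]
  · intro a b hab ha hb
    rcases a with _ | ⟨a1, a⟩
    · exact Or.inl rfl
    · rcases a with _ | ⟨a2, a⟩
      · exfalso
        simp at hab
        have h1 := hb.pos (List.prefix_refl b) (by rw [← hab.2]; simp)
        rw [← hab.2] at h1
        simp [hx] at h1
      · right
        simp at hab
        exact hab.2.2.2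

lemma irr_Fp (b : Bool) : IsIrr (Fp b) := by
  cases b
  · exact irr_pair (d := Dir.S) rfl (by simp [Dir.dy])
  · exact irr_pair (d := Dir.N) rfl (by simp [Dir.dy])

/-- weight of a list of pieces -/
noncomputable def wt (u c : ℝ) (ps : List Word) : ℝ≥0∞ := ex u c 0 ps.flatten

lemma mass_Nf {u c : ℝ} (hone : mass (ex u c 0) Irr = 1) :
    mass (wt u c) Nf * (2 * ex u c 0 [Dir.E, Dir.N]) ≤ 1 := by
  set α := mass (ex u c 0) (Irr \ {p | Flp p}) with hα
  set w := ex u c 0 [Dir.E, Dir.N] with hw
  have hsplit : α + 2 * w = 1 := split_mass irr_Fp hone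
  have hw0 : 2 * w ≠ 0 := mul_ne_zero two_ne_zero (ex_pos u c 0 _).ne'
  have hwt : 2 * w ≠ ∞ := ENNReal.mul_ne_top ENNReal.ofNat_ne_top (ex_ne_top u c 0 _)
  have hαt : α ≠ ∞ := by
    intro h
    rw [h] at hsplit
    simp at hsplit
  have h1α : 1 - α = 2 * w := by
    rw [← hsplit]
    exact ENNReal.add_sub_cancel_left hαt
  have hN : mass (wt u c) Nf ≤ (1 - α)⁻¹ := by
    rw [← ENNReal.tsum_geometric]
    have hset : (Nf : Set (List Word)) = ⋃ k : ℕ, {l : List Word | l.length = k ∧
        ∀ a ∈ l, a ∈ Irr \ {p | Flp p}} := by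
      ext l
      simp only [Set.mem_iUnion, Set.mem_ofPred_eq]
      constructor
      · intro h
        exact ⟨l.length, rfl, h⟩
      · rintro ⟨k, _, h⟩
        exact h
    rw [hset]
    refine (mass_iUnion_le _ _).trans (ENNReal.tsum_le_tsum fun k => ?_)
    have := mass_lists_le (ex u c 0) (Irr \ {p | Flp p}) k
    refine le_trans (le_of_eq ?_) this
    refine mass_congr fun l _ => ?_
    exact ex_flatten u c l
  calc mass (wt u c) Nf * (2 * w) ≤ (1 - α)⁻¹ * (2 * w) := by gcongr
    _ = (2 * w)⁻¹ * (2 * w) := by rw [h1α]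
    _ = 1 := ENNReal.inv_mul_cancel hw0 hwt

/-- blocks with `m` flippable pieces, the last piece being flippable -/
def Blk (m : ℕ) : Set (List Word) :=
  {ps | ∃ (ks : List (List Word)) (bs : List Bool), ks.length = m ∧ bs.length = m ∧
    (∀ ns ∈ ks, ns ∈ Nf) ∧ ps = build ks bs}

lemma mass_bad {u c : ℝ} (hone : mass (ex u c 0) Irr = 1) (D : ℤ → Finset ℤ)
    (l r q : ℕ) (hq0 : 0 < q) (hD : ∀ x, (D x).card ≤ l) (hq : 64 * r ^ 2 * l ^ 2 ≤ q) (x y : ℤ) :
    mass (wt u c) {ps | ps ∈ Blk (4 * q) ∧ farP r D x y ps < q} ≤ 1 / 2 := by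
  set w := ex u c 0 [Dir.E, Dir.N] with hw
  have hwt : w ≠ ∞ := ex_ne_top u c 0 _
  set Sk : Set (List (List Word)) := {ks | ks.length = 4 * q ∧ ∀ ns ∈ ks, ns ∈ Nf} with hSk
  set B : List (List Word) → Set (List Bool) := fun ks =>
    {bs | bs.length = 4 * q ∧ farP r D x y (build ks bs) < q} with hB
  have h1 : mass (wt u c) {ps | ps ∈ Blk (4 * q) ∧ farP r D x y ps < q} ≤
      mass (fun p : List (List Word) × List Bool =>
        (p.1.map (wt u c)).prod * (fun _ : List Bool => w ^ (4 * q)) p.2)
        {p | p.1 ∈ Sk ∧ p.2 ∈ B p.1} := by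
    refine mass_le_of_section (fun p : List (List Word) × List Bool => build p.1 p.2) ?_
    rintro ps ⟨⟨ks, bs, hk, hb, hN, rfl⟩, hf⟩
    refine ⟨(ks, bs), ⟨⟨hk, hN⟩, hb, hf⟩, rfl, ?_⟩
    have := ex_build u c ks bs (by rw [hk, hb])
    rw [wt, this, hb]
    rfl
  have h2 : mass (fun p : List (List Word) × List Bool =>
        (p.1.map (wt u c)).prod * (fun _ : List Bool => w ^ (4 * q)) p.2)
        {p | p.1 ∈ Sk ∧ p.2 ∈ B p.1} ≤
      mass (fun ks : List (List Word) => (ks.map (wt u c)).prod) Sk *
        ((2 : ℝ≥0∞) ^ (4 * q) / 2 * w ^ (4 * q)) := by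
    refine mass_sigma_le (fun ks : List (List Word) => (ks.map (wt u c)).prod)
      (fun _ : List Bool => w ^ (4 * q)) Sk B _ ?_
    rintro ks ⟨hk, hN⟩
    have hsub : B ks ⊆ ↑((Lst (4 * q)).filter (fun b => farS r (Dl D x y ks) 0 b < q)) := by
      rintro bs ⟨hb, hf⟩
      rw [Finset.mem_coe, Finset.mem_filter, mem_Lst]
      refine ⟨hb, ?_⟩
      rw [← farP_build r D x y 0 hN bs, add_zero]
      exact hf
    have hcard := sign_lemma r l q hq0 hq (Dl D x y ks) (by rw [length_Dl, hk])
      (card_Dl hD x y ks) 0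
    refine (mass_mono hsub).trans ?_
    rw [mass, Finset.tsum_subtype' _ (fun _ : List Bool => w ^ (4 * q)), Finset.sum_const,
      nsmul_eq_mul]
    gcongr
    rw [ENNReal.le_div_iff_mul_le (Or.inl two_ne_zero) (Or.inl ENNReal.ofNat_ne_top)]
    have : ((((Lst (4 * q)).filter (fun b => farS r (Dl D x y ks) 0 b < q)).card * 2 : ℕ) : ℝ≥0∞) ≤
        ((2 ^ (4 * q) : ℕ) : ℝ≥0∞) := by
      exact_mod_cast (by rw [mul_comm]; exact hcard)
    simpa using this
  have h3 : mass (fun ks : List (List Word) => (ks.map (wt u c)).prod) Sk ≤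
      (mass (wt u c) Nf) ^ (4 * q) := mass_lists_le (wt u c) Nf (4 * q)
  calc _ ≤ _ := h1.trans h2
    _ ≤ (mass (wt u c) Nf) ^ (4 * q) * ((2 : ℝ≥0∞) ^ (4 * q) / 2 * w ^ (4 * q)) := by gcongr
    _ = (mass (wt u c) Nf * (2 * w)) ^ (4 * q) / 2 := by
        rw [mul_pow, mul_pow]
        simp only [div_eq_mul_inv]
        ring
    _ ≤ 1 ^ (4 * q) / 2 := by
        gcongr
        exact mass_Nf hone
    _ = 1 / 2 := by rw [one_pow]

lemma split_first {ps : List Word} (h : AllIrr ps)
    (hc : 1 ≤ ps.countP (fun p => decide (Flp p))) :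
    ∃ ns b rest, ps = ns ++ Fp b :: rest ∧ ns ∈ Nf := by
  induction ps with
  | nil => simp at hc
  | cons p ps ih =>
    by_cases hp : Flp p
    · obtain ⟨b, rfl⟩ := flp_iff.1 hp
      exact ⟨[], b, ps, rfl, fun q hq => by simp at hq⟩
    · have hc' : 1 ≤ ps.countP (fun p => decide (Flp p)) := by
        rw [List.countP_cons_of_neg (by simpa using hp)] at hc
        exact hc
      obtain ⟨ns, b, rest, rfl, hns⟩ := ih (fun q hq => h q (List.mem_cons_of_mem _ hq)) hc'
      refine ⟨p :: ns, b, rest, rfl, ?_⟩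
      intro q hq
      rcases List.mem_cons.1 hq with rfl | hq
      · exact ⟨h q List.mem_cons_self, hp⟩
      · exact hns q hq

lemma countP_Nf {ns : List Word} (h : ns ∈ Nf) : ns.countP (fun p => decide (Flp p)) = 0 := by
  rw [List.countP_eq_zero]
  intro p hp
  simpa using (h p hp).2

lemma split_block (m : ℕ) {ps : List Word} (h : AllIrr ps)
    (hc : m ≤ ps.countP (fun p => decide (Flp p))) :
    ∃ b rest, ps = b ++ rest ∧ b ∈ Blk m ∧
      ps.countP (fun p => decide (Flp p)) = m + rest.countP (fun p => decide (Flp p)) := by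
  induction m generalizing ps with
  | zero =>
    refine ⟨[], ps, rfl, ⟨[], [], rfl, rfl, by simp, rfl⟩, by simp⟩
  | succ m ih =>
    obtain ⟨ns, b, rest, rfl, hns⟩ := split_first h (by omega)
    have hcnt : (ns ++ Fp b :: rest).countP (fun p => decide (Flp p)) =
        1 + rest.countP (fun p => decide (Flp p)) := by
      rw [List.countP_append, countP_Nf hns, List.countP_cons_of_pos (by simpa using flp_Fp b)]
      omega
    have hrest : AllIrr rest := fun q hq => h q (by simp [hq])
    obtain ⟨b', rest', rfl, ⟨ks, bs, hk, hb, hN, rfl⟩, hcnt'⟩ := ih hrest (by omega)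
    refine ⟨build (ns :: ks) (b :: bs), rest', ?_, ⟨ns :: ks, b :: bs, ?_, ?_, ?_, rfl⟩, ?_⟩
    · simp [build]
    · simp [hk]
    · simp [hb]
    · intro n hn
      rcases List.mem_cons.1 hn with rfl | hn
      · exact hns
      · exact hN n hn
    · rw [hcnt, hcnt']
      ring

/-- The set of `flip_bound` with an arbitrary starting point. -/
def Bad (D : ℤ → Finset ℤ) (r q J k : ℕ) (x y : ℤ) : Set (List Word) :=
  {ps | ps.length = k ∧ AllIrr ps ∧ J * (4 * q) ≤ ps.countP (fun p => decide (Flp p)) ∧
        farP r D x y ps < q}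

lemma bad_bound {u c : ℝ} (hone : mass (ex u c 0) Irr = 1) (D : ℤ → Finset ℤ)
    (l r q : ℕ) (hD : ∀ x, (D x).card ≤ l) (hq : 64 * r ^ 2 * l ^ 2 ≤ q) (J k : ℕ) (x y : ℤ) :
    mass (wt u c) (Bad D r q J k x y) ≤ (1 / 2) ^ J := by
  induction J generalizing k x y with
  | zero =>
    rw [pow_zero]
    have h1 : Bad D r q 0 k x y ⊆ {l : List Word | l.length = k ∧ ∀ a ∈ l, a ∈ Irr} :=
      fun ps h => ⟨h.1, h.2.1⟩
    refine (mass_mono h1).trans ?_
    have h2 := mass_lists_le (ex u c 0) Irr k
    rw [hone, one_pow] at h2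
    refine le_trans (le_of_eq ?_) h2
    refine mass_congr fun l _ => ?_
    exact ex_flatten u c l
  | succ J ih =>
    rcases Nat.eq_zero_or_pos q with hq0 | hq0
    · have : Bad D r q (J + 1) k x y = ∅ := by
        ext ps
        simp only [Set.mem_empty_iff_false, iff_false]
        rintro ⟨_, _, _, h⟩
        omega
      rw [this, mass_empty]
      exact zero_le
    · have h1 : mass (wt u c) (Bad D r q (J + 1) k x y) ≤
          mass (fun p : List Word × List Word => wt u c p.1 * wt u c p.2)
            {p | p.1 ∈ {ps | ps ∈ Blk (4 * q) ∧ farP r D x y ps < q} ∧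
              p.2 ∈ Bad D r q J (k - p.1.length) (x + X p.1.flatten) (y + Y p.1.flatten)} := by
        refine mass_le_of_section (fun p : List Word × List Word => p.1 ++ p.2) ?_
        rintro ps ⟨hk, hirr, hcnt, hfar⟩
        obtain ⟨b, rest, rfl, hb, hcnt'⟩ := split_block (4 * q) hirr (by
          have : 4 * q ≤ (J + 1) * (4 * q) := Nat.le_mul_of_pos_left _ (by omega)
          omega)
        rw [farP_append] at hfar
        have hf1 : farP r D x y b < q := by omega
        have hf2 : farP r D (x + X b.flatten) (y + Y b.flatten) rest < q := by omega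
        refine ⟨(b, rest), ⟨⟨hb, hf1⟩, ?_, fun p hp => hirr p (List.mem_append_right _ hp),
          ?_, hf2⟩, rfl, ?_⟩
        · rw [List.length_append] at hk
          show rest.length = k - b.length
          omega
        · show J * (4 * q) ≤ rest.countP (fun p => decide (Flp p))
          have : (J + 1) * (4 * q) = J * (4 * q) + 4 * q := by ring
          omega
        · show wt u c (b ++ rest) ≤ wt u c b * wt u c rest
          unfold wt
          rw [List.flatten_append, ex_append]
      refine h1.trans ?_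
      refine (mass_sigma_le (wt u c) (wt u c) {ps | ps ∈ Blk (4 * q) ∧ farP r D x y ps < q}
        (fun p => Bad D r q J (k - p.length) (x + X p.flatten) (y + Y p.flatten)) ((1 / 2) ^ J)
        (fun a _ => ih _ _ _)).trans ?_
      rw [pow_succ, mul_comm]
      gcongr
      exact mass_bad hone D l r q hq0 hD hq x y

end Flip

theorem flip_bound {u c : ℝ} (hone : mass (ex u c 0) Irr = 1) (D : ℤ → Finset ℤ)
    (l r q J k : ℕ) (hD : ∀ x, (D x).card ≤ l) (hq : 64 * r ^ 2 * l ^ 2 ≤ q) :
    mass (fun ps : List Word => ex u c 0 ps.flatten)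
      {ps | ps.length = k ∧ AllIrr ps ∧ J * (4 * q) ≤ ps.countP (fun p => decide (Flp p)) ∧
        farP r D 0 0 ps < q} ≤ (1 / 2) ^ J :=
  Flip.bad_bound hone D l r q hD hq J k 0 0

open Flip in
theorem few_flips {u c : ℝ} (h : Params u c) : ∃ ε > 0, ∃ ρ < 1, 0 < ρ ∧ ∀ k : ℕ,
    mass (fun ps : List Word => ex u c 0 ps.flatten)
      {ps | ps.length = k ∧ AllIrr ps ∧ (ps.countP (fun p => decide (Flp p)) : ℝ) < ε * k} ≤
        ENNReal.ofReal (ρ ^ k) := by
  set w : ℝ := Real.exp (-u * 2 + c) with hw
  have hw0 : 0 < w := Real.exp_pos _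
  have hexw : ex u c 0 [Dir.E, Dir.N] = ENNReal.ofReal w := by
    unfold ex
    congr 2
    simp [Dir.dx]
  set α := mass (ex u c 0) (Irr \ {p | Flp p}) with hα
  have hsplit : α + 2 * ENNReal.ofReal w = 1 := by
    rw [← hexw]
    exact split_mass irr_Fp h.one
  have hαt : α ≠ ∞ := by
    intro h'
    rw [h'] at hsplit
    simp at hsplit
  have hreal : α.toReal + 2 * w = 1 := by
    have h1 := congrArg ENNReal.toReal hsplit
    rw [ENNReal.toReal_add hαt (ENNReal.mul_ne_top ENNReal.ofNat_ne_top ENNReal.ofReal_ne_top),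
      ENNReal.toReal_mul, ENNReal.toReal_ofReal hw0.le] at h1
    simpa using h1
  have hα0 : 0 ≤ α.toReal := ENNReal.toReal_nonneg
  have hw1 : w ≤ 1 / 2 := by linarith
  have hαeq : α = ENNReal.ofReal (1 - 2 * w) := by
    rw [← ENNReal.ofReal_toReal hαt]
    congr 1
    linarith
  set L : ℝ := Real.log (1 - w) with hL
  have hL0 : L < 0 := Real.log_neg (by linarith) (by linarith)
  have hexpL : Real.exp L = 1 - w := Real.exp_log (by linarith)
  have hlog2 : 0 < Real.log 2 := Real.log_pos (by norm_num)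
  refine ⟨-L / (2 * Real.log 2), by apply div_pos <;> linarith, Real.exp (L / 2), ?_,
    Real.exp_pos _, fun k => ?_⟩
  · rw [Real.exp_lt_one_iff]
    linarith
  classical
  set φ : Word → ℝ≥0∞ := fun p => if Flp p then ENNReal.ofReal (w / 2) else ex u c 0 p with hφ
  have hφirr : mass φ Irr = ENNReal.ofReal (1 - w) := by
    rw [split_irr φ irr_Fp]
    have h1 : mass φ (Irr \ {p | Flp p}) = α := by
      refine mass_congr fun p hp => ?_
      have hp' : ¬ Flp p := hp.2
      simp only [hφ]
      rw [if_neg hp']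
    have h2 : ∀ b, φ (Fp b) = ENNReal.ofReal (w / 2) := fun b => by
      simp only [hφ]
      rw [if_pos (flp_Fp b)]
    rw [h1, h2, h2, hαeq, ← ENNReal.ofReal_add (by linarith) (by linarith),
      ← ENNReal.ofReal_add (by linarith) (by linarith)]
    congr 1
    ring
  have hpt : ∀ ps : List Word, (ps.map (ex u c 0)).prod ≤
      (ps.map φ).prod * 2 ^ ps.countP (fun p => decide (Flp p)) := by
    intro ps
    induction ps with
    | nil => simp
    | cons p ps ih =>
      by_cases hp : Flp p
      · rw [List.map_cons, List.prod_cons, List.map_cons, List.prod_cons,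
          List.countP_cons_of_pos (by simpa using hp), pow_succ]
        have h1 : ex u c 0 p = φ p * 2 := by
          obtain ⟨b, rfl⟩ := flp_iff.1 hp
          simp only [hφ]
          rw [if_pos (flp_Fp b), ex_Fp, hexw]
          have h2 : (2 : ℝ≥0∞) = ENNReal.ofReal 2 := by simp
          rw [h2, ← ENNReal.ofReal_mul (by linarith)]
          congr 1
          ring
        calc ex u c 0 p * (ps.map (ex u c 0)).prod
            ≤ (φ p * 2) * ((ps.map φ).prod * 2 ^ ps.countP (fun p => decide (Flp p))) := by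
              rw [h1]; gcongr
          _ = _ := by ring
      · rw [List.map_cons, List.prod_cons, List.map_cons, List.prod_cons,
          List.countP_cons_of_neg (by simpa using hp)]
        have h1 : ex u c 0 p = φ p := by
          simp only [hφ]
          rw [if_neg hp]
        calc ex u c 0 p * (ps.map (ex u c 0)).prod
            ≤ φ p * ((ps.map φ).prod * 2 ^ ps.countP (fun p => decide (Flp p))) := by
              rw [h1]; gcongr
          _ = _ := by ring
  set ε : ℝ := -L / (2 * Real.log 2) with hε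
  calc mass (fun ps : List Word => ex u c 0 ps.flatten)
        {ps | ps.length = k ∧ AllIrr ps ∧ (ps.countP (fun p => decide (Flp p)) : ℝ) < ε * k}
      ≤ mass (fun ps : List Word => ENNReal.ofReal (2 ^ (ε * k)) * (ps.map φ).prod)
        {ps | ps.length = k ∧ AllIrr ps ∧ (ps.countP (fun p => decide (Flp p)) : ℝ) < ε * k} := by
        refine mass_mono_fun ?_
        rintro ps ⟨_, _, hc⟩
        rw [ex_flatten, mul_comm]
        refine (hpt ps).trans ?_
        gcongr
        rw [show (2 : ℝ≥0∞) = ENNReal.ofReal 2 by simp, ← ENNReal.ofReal_pow (by norm_num)]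
        apply ENNReal.ofReal_le_ofReal
        rw [← Real.rpow_natCast]
        exact Real.rpow_le_rpow_of_exponent_le (by norm_num) hc.le
    _ = ENNReal.ofReal (2 ^ (ε * k)) * mass (fun ps : List Word => (ps.map φ).prod)
        {ps | ps.length = k ∧ AllIrr ps ∧ (ps.countP (fun p => decide (Flp p)) : ℝ) < ε * k} :=
        mass_const_mul _ _ _
    _ ≤ ENNReal.ofReal (2 ^ (ε * k)) * mass (fun ps : List Word => (ps.map φ).prod)
        {l : List Word | l.length = k ∧ ∀ a ∈ l, a ∈ Irr} := by
        gcongr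
        exact mass_mono fun ps hps => ⟨hps.1, hps.2.1⟩
    _ ≤ ENNReal.ofReal (2 ^ (ε * k)) * (mass φ Irr) ^ k := by
        gcongr
        exact mass_lists_le φ Irr k
    _ = ENNReal.ofReal (Real.exp (L / 2) ^ k) := by
        rw [hφirr, ← ENNReal.ofReal_pow (by linarith), ← ENNReal.ofReal_mul (by positivity)]
        congr 1
        rw [← hexpL, ← Real.exp_nat_mul, ← Real.exp_nat_mul, Real.rpow_def_of_pos (by norm_num),
          ← Real.exp_add]
        congr 1
        rw [hε]
        field_simp
        ring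

end Pool.Agent.SAPF
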