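import Pool.Agent.SAPF.Surgery

/-!
Irreducible bridges of span `s` are exponentially rarer than bridges of span `s`.
-/

namespace Pool.Agent.SAPF
open scoped ENNReal

lemma mass_le_of_rel {α β : Type*} {φ : α → ℝ≥0∞} {ψ : β → ℝ≥0∞} {A : Set α} {B : Set β}
    (R : α → β → Prop) (h : ∀ a ∈ A, ∃ b ∈ B, R a b ∧ φ a ≤ ψ b)
    (hu : ∀ a a' b, R a b → R a' b → a = a') : mass φ A ≤ mass ψ B := by
  classical
  choose s hs hg hle using h
  let i : A → B := fun a => ⟨s a.1 a.2, hs a.1 a.2⟩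
  have hi : Function.Injective i := by
    intro a b hab
    have h1 : s a.1 a.2 = s b.1 b.2 := congrArg Subtype.val hab
    have h2 := hg a.1 a.2
    rw [h1] at h2
    exact Subtype.ext (hu _ _ _ h2 (hg b.1 b.2))
  calc mass φ A = ∑' a : A, φ a := rfl
    _ ≤ ∑' a : A, ψ (i a) := ENNReal.tsum_le_tsum fun a => hle a.1 a.2
    _ ≤ ∑' b : B, ψ b := ENNReal.tsum_comp_le_tsum_of_injective hi fun b : B => ψ b

lemma sum_mass {α ι : Type*} (φ : α → ℝ≥0∞) (A : Set α) (I : Finset ι) (p : ι → α → Prop)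
    [∀ i a, Decidable (p i a)] :
    ∑ i ∈ I, mass φ {a | a ∈ A ∧ p i a}
      = mass (fun a => ((I.filter (fun i => p i a)).card : ℝ≥0∞) * φ a) A := by
  simp_rw [mass_eq_indicator]
  rw [← (Summable.tsum_finsetSum fun i _ => ENNReal.summable)]
  refine tsum_congr fun a => ?_
  by_cases ha : a ∈ A
  · rw [Set.indicator_of_mem ha, Finset.card_filter, Nat.cast_sum, Finset.sum_mul]
    refine Finset.sum_congr rfl fun i _ => ?_
    by_cases hp : p i a
    · rw [Set.indicator_of_mem (show a ∈ {a | a ∈ A ∧ p i a} from ⟨ha, hp⟩)]; simp [hp]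
    · rw [Set.indicator_of_notMem (show a ∉ {a | a ∈ A ∧ p i a} from fun h => hp h.2)]; simp [hp]
  · rw [Set.indicator_of_notMem ha]
    exact Finset.sum_eq_zero fun i _ => Set.indicator_of_notMem (fun h => ha h.1) _

open Classical in
/-- number of cut centres -/
noncomputable def ncut (L q : ℕ) (w : Word) : ℕ :=
  ((Finset.range q).filter (fun i : ℕ => Cut L (3 * i + 1) w)).card

open Classical in
/-- number of good centres -/
noncomputable def ngc (L q : ℕ) (w : Word) : ℕ :=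
  ((Finset.range q).filter (fun i : ℕ => GC L (3 * i + 1) w)).card

/-- bridges with few cuts and many good centres -/
def Sk (L q g s : ℕ) (k : ℕ) : Set Word :=
  {w | w ∈ BrS s ∧ ncut L q w ≤ k ∧ g ≤ ngc L q w}

lemma surg_mem {L q g s k : ℕ} (hL : 0 < L) {i : ℕ} (_hi : i < q) {A V Z : Word}
    (h : Win L (3 * i + 1) A V Z) (hw : A ++ (V ++ Z) ∈ Sk L q g s k) :
    A ++ (seg L ++ Z) ∈ Sk L q g s (k + 1) := by
  classical
  obtain ⟨⟨-, hX⟩, hk, hg⟩ := hw
  refine ⟨⟨h.br', by rw [h.X', hX]⟩, ?_, ?_⟩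
  · refine le_trans ?_ (Nat.succ_le_succ hk)
    unfold ncut
    rw [Nat.succ_eq_add_one]
    refine le_trans (Finset.card_le_card (t := insert i ((Finset.range q).filter
      (fun i : ℕ => Cut L (3 * i + 1) (A ++ (V ++ Z))))) ?_) (Finset.card_insert_le _ _)
    intro i' hi'
    rw [Finset.mem_filter] at hi'
    rw [Finset.mem_insert, Finset.mem_filter]
    by_cases hii : i' = i
    · exact Or.inl hii
    · refine Or.inr ⟨hi'.1, h.cut_of_cut hL ?_ hi'.2⟩
      rcases Nat.lt_or_gt_of_ne hii with h1 | h1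
      · left; omega
      · right; omega
  · refine hg.trans ?_
    unfold ngc
    refine Finset.card_le_card fun i' hi' => ?_
    rw [Finset.mem_filter] at hi' ⊢
    exact ⟨hi'.1, h.gc hL hi'.2⟩

/-- the surgery inequality at one centre -/
lemma surg_one {u : ℝ} {L q g s k : ℕ} (hL : 0 < L) (hs : 3 * q * L ≤ s) {i : ℕ} (hi : i < q) :
    mass (ex u 0 0) {w | w ∈ Sk L q g s k ∧ (GC L (3 * i + 1) w ∧ ¬ Cut L (3 * i + 1) w)} ≤
      (ENNReal.ofReal (Real.exp (u * L)) * chi u) *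
        mass (ex u 0 0) {w | w ∈ Sk L q g s (k + 1) ∧ Cut L (3 * i + 1) w} := by
  have key : mass (ex u 0 0) {w | w ∈ Sk L q g s k ∧ (GC L (3 * i + 1) w ∧
      ¬ Cut L (3 * i + 1) w)} ≤ mass (fun p : Word × Word =>
        (ENNReal.ofReal (Real.exp (u * L)) * ex u 0 0 p.1) * ex u 0 0 p.2)
        ({w | w ∈ Sk L q g s (k + 1) ∧ Cut L (3 * i + 1) w} ×ˢ {w | SAW w}) := by
    refine mass_le_of_rel (Rel L (3 * i + 1)) ?_ fun a a' b h h' => h.unique h'
    rintro w ⟨hw, hgc, -⟩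
    have hX : X w = s := hw.1.2
    have hi3 : (3 * (i : ℤ) + 1 + 1) * L < X w := by
      rw [hX]
      have h1 : (3 * i + 1 + 1) * L < 3 * q * L := Nat.mul_lt_mul_of_pos_right (by omega) hL
      have h2 : (3 * i + 1 + 1) * L < s := by omega
      exact_mod_cast h2
    obtain ⟨A, V, Z, rfl, hW⟩ := exists_win hL (by omega) hw.1.1 hi3 hgc
    refine ⟨(A ++ (seg L ++ Z), V), ⟨⟨surg_mem hL hi hW hw, hW.cut⟩, ?_⟩,
      ⟨A, Z, rfl, rfl, hW.XA, hW.first⟩, ?_⟩
    · exact hW.br.saw.right.left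
    · simp only [ex_append]
      have hseg : ENNReal.ofReal (Real.exp (u * L)) * ex u 0 0 (seg L) = 1 := by
        unfold ex
        rw [← ENNReal.ofReal_mul (Real.exp_pos _).le, ← Real.exp_add]
        simp
      calc ex u 0 0 A * (ex u 0 0 V * ex u 0 0 Z)
          = (ENNReal.ofReal (Real.exp (u * L)) * ex u 0 0 (seg L)) *
            (ex u 0 0 A * (ex u 0 0 V * ex u 0 0 Z)) := by rw [hseg, one_mul]
        _ ≤ _ := le_of_eq (by ring)
  refine key.trans (le_of_eq ?_)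
  rw [mass_prod (fun w => ENNReal.ofReal (Real.exp (u * L)) * ex u 0 0 w) (ex u 0 0),
    mass_const_mul, chi]
  ring

/-- the summed surgery inequality -/
lemma surg_sum {u : ℝ} {L q g s k : ℕ} (hL : 0 < L) (hs : 3 * q * L ≤ s) :
    ((g - k : ℕ) : ℝ≥0∞) * mass (ex u 0 0) (Sk L q g s k) ≤
      (ENNReal.ofReal (Real.exp (u * L)) * chi u) *
        (((k + 1 : ℕ) : ℝ≥0∞) * mass (ex u 0 0) (Sk L q g s (k + 1))) := by
  classical
  calc ((g - k : ℕ) : ℝ≥0∞) * mass (ex u 0 0) (Sk L q g s k)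
      = mass (fun w => ((g - k : ℕ) : ℝ≥0∞) * ex u 0 0 w) (Sk L q g s k) :=
        (mass_const_mul _ _ _).symm
    _ ≤ mass (fun w => (((Finset.range q).filter (fun i : ℕ => GC L (3 * i + 1) w ∧
          ¬ Cut L (3 * i + 1) w)).card : ℝ≥0∞) * ex u 0 0 w) (Sk L q g s k) := by
        refine mass_mono_fun fun w hw => mul_le_mul' (Nat.cast_le.2 ?_) le_rfl
        have h1 : ncut L q w ≤ k := hw.2.1
        have h2 : g ≤ ngc L q w := hw.2.2
        have h3 : ngc L q w ≤ ((Finset.range q).filter (fun i : ℕ => GC L (3 * i + 1) w ∧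
          ¬ Cut L (3 * i + 1) w)).card + ncut L q w := by
          unfold ngc ncut
          rw [← Finset.card_union_of_disjoint]
          · refine Finset.card_le_card fun i hi => ?_
            simp only [Finset.mem_filter, Finset.mem_union] at hi ⊢
            tauto
          · rw [Finset.disjoint_left]
            intro i hi hi'
            simp only [Finset.mem_filter] at hi hi'
            exact hi.2.2 hi'.2
        omega
    _ = ∑ i ∈ Finset.range q, mass (ex u 0 0) {w | w ∈ Sk L q g s k ∧ (GC L (3 * i + 1) w ∧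
          ¬ Cut L (3 * i + 1) w)} :=
        (sum_mass _ _ _ (fun (i : ℕ) w => GC L (3 * i + 1) w ∧ ¬ Cut L (3 * i + 1) w)).symm
    _ ≤ ∑ i ∈ Finset.range q, (ENNReal.ofReal (Real.exp (u * L)) * chi u) *
        mass (ex u 0 0) {w | w ∈ Sk L q g s (k + 1) ∧ Cut L (3 * i + 1) w} :=
        Finset.sum_le_sum fun i hi => surg_one hL hs (Finset.mem_range.1 hi)
    _ = (ENNReal.ofReal (Real.exp (u * L)) * chi u) * mass (fun w =>
          (((Finset.range q).filter (fun i : ℕ => Cut L (3 * i + 1) w)).card : ℝ≥0∞) *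
            ex u 0 0 w) (Sk L q g s (k + 1)) := by
        rw [← Finset.mul_sum, sum_mass _ _ _ (fun (i : ℕ) w => Cut L (3 * i + 1) w)]
    _ ≤ (ENNReal.ofReal (Real.exp (u * L)) * chi u) * mass (fun w =>
          ((k + 1 : ℕ) : ℝ≥0∞) * ex u 0 0 w) (Sk L q g s (k + 1)) := by
        refine mul_le_mul' le_rfl ?_
        exact mass_mono_fun fun w hw => mul_le_mul' (Nat.cast_le.2 hw.2.1) le_rfl
    _ = _ := by rw [mass_const_mul]

/-- one halving step -/
lemma surg_half {u : ℝ} {L q g s k K : ℕ} (hL : 0 < L) (hs : 3 * q * L ≤ s)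
    (hK : ENNReal.ofReal (Real.exp (u * L)) * chi u ≤ K) (hK0 : 0 < K)
    (hk : 2 * K * (k + 1) + k ≤ g) :
    2 * mass (ex u 0 0) (Sk L q g s k) ≤ mass (ex u 0 0) (Sk L q g s (k + 1)) := by
  have h := surg_sum (u := u) (g := g) (k := k) hL hs
  have h1 : (((K * (k + 1) : ℕ) : ℝ≥0∞)) * (2 * mass (ex u 0 0) (Sk L q g s k)) ≤
      ((K * (k + 1) : ℕ) : ℝ≥0∞) * mass (ex u 0 0) (Sk L q g s (k + 1)) := by
    calc (((K * (k + 1) : ℕ) : ℝ≥0∞)) * (2 * mass (ex u 0 0) (Sk L q g s k))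
        = ((2 * K * (k + 1) : ℕ) : ℝ≥0∞) * mass (ex u 0 0) (Sk L q g s k) := by
          push_cast; ring
      _ ≤ ((g - k : ℕ) : ℝ≥0∞) * mass (ex u 0 0) (Sk L q g s k) := by
          gcongr
          omega
      _ ≤ _ := h
      _ ≤ (K : ℝ≥0∞) * (((k + 1 : ℕ) : ℝ≥0∞) * mass (ex u 0 0) (Sk L q g s (k + 1))) := by
          gcongr
      _ = _ := by push_cast; ring
  have h2 : ((K * (k + 1) : ℕ) : ℝ≥0∞) ≠ 0 := by
    have : K * (k + 1) ≠ 0 := by positivity
    exact_mod_cast this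
  exact (ENNReal.mul_le_mul_iff_right h2 (ENNReal.natCast_ne_top _)).1 h1

lemma surg_pow {u : ℝ} {L q g s K : ℕ} (hL : 0 < L) (hs : 3 * q * L ≤ s)
    (hK : ENNReal.ofReal (Real.exp (u * L)) * chi u ≤ K) (hK0 : 0 < K) (r : ℕ)
    (hr : (2 * K + 1) * r ≤ g) :
    2 ^ r * mass (ex u 0 0) (Sk L q g s 0) ≤ mass (ex u 0 0) (Sk L q g s r) := by
  induction r with
  | zero => simp
  | succ r ih =>
    have h1 := ih (by nlinarith)
    have h2 := surg_half (u := u) (g := g) (k := r) hL hs hK hK0 (by nlinarith)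
    calc (2 : ℝ≥0∞) ^ (r + 1) * mass (ex u 0 0) (Sk L q g s 0)
        = 2 * (2 ^ r * mass (ex u 0 0) (Sk L q g s 0)) := by ring
      _ ≤ 2 * mass (ex u 0 0) (Sk L q g s r) := by gcongr
      _ ≤ _ := h2

/-- irreducible bridges have no cut -/
lemma ncut_irr {L q : ℕ} (hL : 0 < L) {w : Word} (hw : IsIrr w) : ncut L q w = 0 := by
  classical
  have hL' : (0 : ℤ) < L := by exact_mod_cast hL
  unfold ncut
  rw [Finset.card_eq_zero, Finset.filter_eq_empty_iff]
  rintro i - ⟨P, Q, rfl, hP, hQ, hX⟩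
  rcases hw.irr rfl hP ((isBr_replicate_E L).append hQ) with h | h
  · rw [h, X_nil] at hX
    have : 0 < (3 * (i : ℤ) + 1) * L := by positivity
    omega
  · have h1 := congrArg List.length h
    simp at h1
    omega

/-- few bad slabs give many good centres -/
lemma le_ngc {L q m : ℕ} {w : Word}
    (h : ¬ m ≤ {i : ℕ | i < 3 * q ∧ ¬ Gd L i w}.ncard) : q + 1 ≤ ngc L q w + m := by
  classical
  have hfin : {i : ℕ | i < 3 * q ∧ ¬ Gd L i w}.Finite :=
    (Set.finite_lt_nat (3 * q)).subset fun i hi => hi.1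
  have h1 : q ≤ ngc L q w + ((Finset.range q).filter (fun i : ℕ => ¬ GC L (3 * i + 1) w)).card := by
    unfold ngc
    rw [Finset.card_filter_add_card_filter_not, Finset.card_range]
  have h2 : ((Finset.range q).filter (fun i : ℕ => ¬ GC L (3 * i + 1) w)).card ≤
      {i : ℕ | i < 3 * q ∧ ¬ Gd L i w}.ncard := by
    rw [Set.ncard_eq_toFinset_card _ hfin]
    refine Finset.card_le_card_of_injOn
      (fun i => if Gd L ((3 * i : ℕ) : ℤ) w then 3 * i + 2 else 3 * i) ?_ ?_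
    · intro i hi
      rw [Finset.mem_coe, Finset.mem_filter, Finset.mem_range] at hi
      rw [Set.Finite.coe_toFinset]
      obtain ⟨hi, hg⟩ := hi
      by_cases hg0 : Gd L ((3 * i : ℕ) : ℤ) w
      · simp only [hg0, if_true]
        refine ⟨by omega, fun h => hg ⟨?_, ?_⟩⟩
        · convert hg0 using 1; push_cast; ring
        · convert h using 1; push_cast; ring
      · simp only [hg0, if_false]
        exact ⟨by omega, hg0⟩
    · intro i _ i' _ hii
      simp only at hii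
      split_ifs at hii <;> omega
  omega


/-- many bad slabs -/
lemma mass_bad {u c : ℝ} (h1 : ∀ s : ℕ, mass (ex u c 0) (BrS s) ≤ 1)
    {L : ℕ} (hL : 0 < L) {s q : ℕ} (hq : q * L ≤ s) (m : ℕ)
    (hβ : 2 * chi u ^ 2 * ENNReal.ofReal (Real.exp (-c * L)) ≤ 1) :
    mass (ex u 0 0) {w | w ∈ BrS s ∧ m ≤ {i : ℕ | i < q ∧ ¬ Gd L i w}.ncard} ≤
      chi u * (2 * chi u ^ 2 * ENNReal.ofReal (Real.exp (-c * L))) ^ (q + 2 * m) := by
  have hqs : q ≤ s / L := (Nat.le_div_iff_mul_le hL).2 hq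
  have h2 := mass_bads_le h1 L hL s m
  rw [show -(c * (L : ℝ)) = -c * L by ring] at h2
  refine (mass_mono ?_).trans (h2.trans ?_)
  · rintro w ⟨hw, hm⟩
    refine ⟨hw, hm.trans ?_⟩
    rw [← Set.ncard_coe_finset]
    refine Set.ncard_le_ncard ?_ (Finset.finite_toSet _)
    rintro i ⟨hi, hg⟩
    rw [Finset.mem_coe, mem_bads]
    exact ⟨by omega, fun h => hg h⟩
  · rw [mul_comm]
    gcongr 1
    exact pow_le_pow_of_le_one zero_le hβ (by omega)

/-- bound for one span -/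
lemma irr_span {u c : ℝ} (h1 : ∀ s : ℕ, mass (ex u c 0) (BrS s) ≤ 1)
    {L K : ℕ} (hL : 0 < L) (hK : ENNReal.ofReal (Real.exp (u * L)) * chi u ≤ K) (hK0 : 0 < K)
    (hβ : 2 * chi u ^ 2 * ENNReal.ofReal (Real.exp (-c * L)) ≤ 1) (s : ℕ) :
    mass (ex u 0 0) {w | w ∈ Irr ∧ X w = s} ≤
      chi u * (2 * chi u ^ 2 * ENNReal.ofReal (Real.exp (-c * L))) ^ (4 * (s / (3 * L))) +
        (2⁻¹) ^ (s / (3 * L) / (4 * K + 2)) * mass (ex u 0 0) (BrS s) := by
  set q := s / (3 * L) with hq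
  set r := q / (4 * K + 2) with hr
  have hs : 3 * q * L ≤ s := by
    have := Nat.mul_div_le s (3 * L)
    rw [← hq] at this
    nlinarith
  have hsub : {w | w ∈ Irr ∧ X w = s} ⊆
      {w | w ∈ BrS s ∧ (q + 1) / 2 ≤ {i : ℕ | i < 3 * q ∧ ¬ Gd L i w}.ncard} ∪
        Sk L q (q / 2) s 0 := by
    rintro w ⟨hw, hX⟩
    by_cases hb : (q + 1) / 2 ≤ {i : ℕ | i < 3 * q ∧ ¬ Gd L i w}.ncard
    · exact Or.inl ⟨⟨hw.br, hX⟩, hb⟩
    · have h2 := le_ngc hb
      exact Or.inr ⟨⟨hw.br, hX⟩, (ncut_irr hL hw).le, by omega⟩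
  refine (mass_mono hsub).trans ((mass_union_le _ _ _).trans (add_le_add ?_ ?_))
  · refine (mass_bad h1 hL hs _ hβ).trans ?_
    gcongr 1
    exact pow_le_pow_of_le_one zero_le hβ (by omega)
  · have h2 : (2 * K + 1) * r ≤ q / 2 := by
      have h3 : (4 * K + 2) * r ≤ q := Nat.mul_div_le _ _
      rw [Nat.le_div_iff_mul_le (by norm_num)]
      nlinarith
    have h3 := surg_pow (u := u) (g := q / 2) hL hs hK hK0 r h2
    have h4 : mass (ex u 0 0) (Sk L q (q / 2) s r) ≤ mass (ex u 0 0) (BrS s) :=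
      mass_mono fun w hw => hw.1
    calc mass (ex u 0 0) (Sk L q (q / 2) s 0)
        = (2⁻¹) ^ r * (2 ^ r * mass (ex u 0 0) (Sk L q (q / 2) s 0)) := by
          rw [← mul_assoc, ← mul_pow, ENNReal.inv_mul_cancel (by norm_num) (by norm_num),
            one_pow, one_mul]
      _ ≤ (2⁻¹) ^ r * mass (ex u 0 0) (BrS s) := by
          gcongr
          exact h3.trans h4

lemma ex_split {u c : ℝ} {w : Word} {s : ℕ} (h : X w = s) :
    ex u c 0 w = ENNReal.ofReal (Real.exp (c * s)) * ex u 0 0 w := by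
  unfold ex
  rw [← ENNReal.ofReal_mul (Real.exp_pos _).le, ← Real.exp_add, h]
  congr 2
  push_cast
  ring

/-- the numerical estimate -/
lemma real_est {x c : ℝ} (hx : 0 ≤ x) (hc : 0 < c) {L K : ℕ} (hL : 0 < L)
    (h : (2 * x ^ 2) ^ 4 * Real.exp (-c * L) ≤ 1 / 2) (s : ℕ) :
    Real.exp ((c + Real.log 2 / (2 * (3 * L * (4 * K + 2) : ℕ))) * s) *
      (x * (2 * x ^ 2 * Real.exp (-c * L)) ^ (4 * (s / (3 * L))) +
        (2⁻¹) ^ (s / (3 * L) / (4 * K + 2)) * Real.exp (-c * s)) ≤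
      2 * (x * Real.exp (3 * c * L) + 1) *
        Real.exp (-(Real.log 2 / (2 * (3 * L * (4 * K + 2) : ℕ)))) ^ s := by
  set M : ℕ := 3 * L * (4 * K + 2) with hM
  set ε : ℝ := Real.log 2 / (2 * (M : ℕ)) with hε
  have hM0 : 0 < M := by positivity
  have hlog : 0 < Real.log 2 := Real.log_pos (by norm_num)
  have hr' : s / (3 * L) / (4 * K + 2) = s / M := by rw [Nat.div_div_eq_div_mul]
  rw [hr']
  set q := s / (3 * L) with hq
  set r := s / M with hr
  have hrq : r ≤ q := by rw [← hr']; exact Nat.div_le_self _ _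
  have hsM : s < M * (r + 1) := Nat.lt_mul_div_succ s hM0
  have hsL : s < 3 * L * (q + 1) := Nat.lt_mul_div_succ s (by positivity)
  have hεM : 2 * ε * M = Real.log 2 := by
    rw [hε]; field_simp
  have hM0' : (0 : ℝ) < M := by exact_mod_cast hM0
  have hε0 : 0 < ε := by rw [hε]; positivity
  have hL0 : (0 : ℝ) < L := by exact_mod_cast hL
  -- the power of one half
  have hhalf : ((2 : ℝ)⁻¹) ^ r ≤ 2 * Real.exp (-(2 * ε * s)) := by
    have h1 : ((2 : ℝ)⁻¹) ^ r = 2 * Real.exp (-((r + 1 : ℕ) * Real.log 2)) := by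
      rw [Real.exp_neg, Real.exp_nat_mul, Real.exp_log (by norm_num), pow_succ, inv_pow]
      field_simp
    rw [h1]
    have h2 : 2 * ε * s ≤ (r + 1 : ℕ) * Real.log 2 := by
      rw [← hεM]
      have h3 : (s : ℝ) ≤ (M : ℝ) * ((r + 1 : ℕ) : ℝ) := by exact_mod_cast hsM.le
      nlinarith
    gcongr
  -- the first term
  have hfirst : Real.exp (c * s) * (2 * x ^ 2 * Real.exp (-c * L)) ^ (4 * q) ≤
      Real.exp (3 * c * L) * (2⁻¹) ^ r := by
    have h1 : Real.exp (c * s) ≤ Real.exp (3 * c * L) * Real.exp (3 * c * L) ^ q := by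
      rw [← Real.exp_nat_mul, ← Real.exp_add]
      refine Real.exp_le_exp.2 ?_
      have h3 : (s : ℝ) ≤ 3 * L * (q + 1) := by exact_mod_cast hsL.le
      nlinarith
    have h2 : (2 * x ^ 2 * Real.exp (-c * L)) ^ (4 * q) =
        (((2 * x ^ 2) ^ 4) * Real.exp (-c * L) ^ 4) ^ q := by
      rw [pow_mul, mul_pow]
    have h3 : Real.exp (3 * c * L) * Real.exp (-c * L) ^ 4 = Real.exp (-c * L) := by
      rw [← Real.exp_nat_mul, ← Real.exp_add]
      congr 1
      push_cast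
      ring
    calc Real.exp (c * s) * (2 * x ^ 2 * Real.exp (-c * L)) ^ (4 * q)
        ≤ (Real.exp (3 * c * L) * Real.exp (3 * c * L) ^ q) *
          (2 * x ^ 2 * Real.exp (-c * L)) ^ (4 * q) := by gcongr
      _ = Real.exp (3 * c * L) *
          ((2 * x ^ 2) ^ 4 * (Real.exp (3 * c * L) * Real.exp (-c * L) ^ 4)) ^ q := by
          rw [h2, mul_assoc, ← mul_pow]
          congr 2
          ring
      _ = Real.exp (3 * c * L) * ((2 * x ^ 2) ^ 4 * Real.exp (-c * L)) ^ q := by rw [h3]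
      _ ≤ Real.exp (3 * c * L) * (2⁻¹) ^ q := by
          gcongr
          rw [← one_div]; exact h
      _ ≤ Real.exp (3 * c * L) * (2⁻¹) ^ r := by
          have : ((2 : ℝ)⁻¹) ^ q ≤ 2⁻¹ ^ r :=
            pow_le_pow_of_le_one (by norm_num) (by norm_num) hrq
          gcongr
  have hsplit : Real.exp ((c + ε) * s) = Real.exp (ε * s) * Real.exp (c * s) := by
    rw [← Real.exp_add]; congr 1; ring
  have hsec : Real.exp (c * s) * Real.exp (-c * s) = 1 := by
    rw [← Real.exp_add]; simp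
  calc Real.exp ((c + ε) * s) * (x * (2 * x ^ 2 * Real.exp (-c * L)) ^ (4 * q) +
        (2⁻¹) ^ r * Real.exp (-c * s))
      = Real.exp (ε * s) * (x * (Real.exp (c * s) *
          (2 * x ^ 2 * Real.exp (-c * L)) ^ (4 * q)) +
          (2⁻¹) ^ r * (Real.exp (c * s) * Real.exp (-c * s))) := by rw [hsplit]; ring
    _ ≤ Real.exp (ε * s) * (x * (Real.exp (3 * c * L) * (2⁻¹) ^ r) + (2⁻¹) ^ r * 1) := by
        rw [hsec]; gcongr
    _ = Real.exp (ε * s) * (x * Real.exp (3 * c * L) + 1) * (2⁻¹) ^ r := by ring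
    _ ≤ Real.exp (ε * s) * (x * Real.exp (3 * c * L) + 1) * (2 * Real.exp (-(2 * ε * s))) := by
        gcongr
    _ = 2 * (x * Real.exp (3 * c * L) + 1) * (Real.exp (ε * s) * Real.exp (-(2 * ε * s))) := by
        ring
    _ = 2 * (x * Real.exp (3 * c * L) + 1) * Real.exp (-ε) ^ s := by
        rw [← Real.exp_add, ← Real.exp_nat_mul]
        congr 2
        ring

lemma ofReal_comb {a x y z : ℝ} (ha : 0 ≤ a) (hx : 0 ≤ x) (hy : 0 ≤ y) (hz : 0 ≤ z) (m n : ℕ) :
    ENNReal.ofReal (a * (x * y ^ m + (2⁻¹) ^ n * z)) =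
      ENNReal.ofReal a * (ENNReal.ofReal x * ENNReal.ofReal y ^ m +
        (2⁻¹) ^ n * ENNReal.ofReal z) := by
  have h2 : ENNReal.ofReal ((2 : ℝ)⁻¹) = 2⁻¹ := by
    rw [ENNReal.ofReal_inv_of_pos (by norm_num)]; simp
  rw [ENNReal.ofReal_mul ha, ENNReal.ofReal_add (by positivity) (by positivity),
    ENNReal.ofReal_mul hx, ENNReal.ofReal_pow hy, ENNReal.ofReal_mul (by positivity),
    ENNReal.ofReal_pow (by norm_num), h2]

theorem mass_gap {u c : ℝ} (hc : 0 < c) (hchi : chi u ≠ ∞)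
    (h1 : ∀ s : ℕ, mass (ex u c 0) (BrS s) ≤ 1) : ∃ ε > 0, mass (ex u (c + ε) 0) Irr ≠ ∞ := by
  set x : ℝ := (chi u).toReal with hx
  have hx0 : 0 ≤ x := ENNReal.toReal_nonneg
  have hxc : ENNReal.ofReal x = chi u := ENNReal.ofReal_toReal hchi
  -- choice of L
  have hlim : Filter.Tendsto (fun L : ℕ => Real.exp (-c * L)) Filter.atTop (nhds 0) := by
    have h2 : Filter.Tendsto (fun L : ℕ => -(c * L)) Filter.atTop Filter.atBot :=
      Filter.tendsto_neg_atTop_atBot.comp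
        (tendsto_natCast_atTop_atTop.const_mul_atTop hc)
    have h3 := Real.tendsto_exp_atBot.comp h2
    refine h3.congr fun L => ?_
    simp
  have hlim1 : Filter.Tendsto (fun L : ℕ => (2 * x ^ 2) ^ 4 * Real.exp (-c * L)) Filter.atTop
      (nhds 0) := by simpa using hlim.const_mul ((2 * x ^ 2) ^ 4)
  have hlim2 : Filter.Tendsto (fun L : ℕ => (2 * x ^ 2) * Real.exp (-c * L)) Filter.atTop
      (nhds 0) := by simpa using hlim.const_mul (2 * x ^ 2)
  obtain ⟨L, ⟨hL1, hL2⟩, hL⟩ := (((hlim1.eventually_le_const (show (0 : ℝ) < 1 / 2 by norm_num)).and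
    (hlim2.eventually_le_const (show (0 : ℝ) < 1 by norm_num))).and
    (Filter.eventually_gt_atTop 0)).exists
  -- choice of K
  obtain ⟨K, hK⟩ : ∃ K : ℕ, ENNReal.ofReal (Real.exp (u * L)) * chi u ≤ K ∧ 0 < K := by
    obtain ⟨K, hK⟩ := ENNReal.exists_nat_gt (ENNReal.mul_ne_top ENNReal.ofReal_ne_top hchi :
      ENNReal.ofReal (Real.exp (u * L)) * chi u ≠ ∞)
    exact ⟨K + 1, by push_cast; exact hK.le.trans le_self_add, Nat.succ_pos K⟩
  have hβeq : 2 * chi u ^ 2 * ENNReal.ofReal (Real.exp (-c * L)) =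
      ENNReal.ofReal (2 * x ^ 2 * Real.exp (-c * L)) := by
    rw [ENNReal.ofReal_mul (by positivity), ENNReal.ofReal_mul (by norm_num),
      ENNReal.ofReal_pow hx0, hxc]
    simp
  have hβ : 2 * chi u ^ 2 * ENNReal.ofReal (Real.exp (-c * L)) ≤ 1 := by
    rw [hβeq]
    exact ENNReal.ofReal_le_one.2 hL2
  set M : ℕ := 3 * L * (4 * K + 2) with hM
  have hM0 : 0 < M := by positivity
  have hlog : 0 < Real.log 2 := Real.log_pos (by norm_num)
  refine ⟨Real.log 2 / (2 * (M : ℕ)), by positivity, ?_⟩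
  set ε : ℝ := Real.log 2 / (2 * (M : ℕ)) with hε
  have hε0 : 0 < ε := by rw [hε]; positivity
  have hterm : ∀ s : ℕ, mass (ex u (c + ε) 0) {w | w ∈ Irr ∧ X w = s} ≤
      ENNReal.ofReal (2 * (x * Real.exp (3 * c * L) + 1) * Real.exp (-ε) ^ s) := by
    intro s
    have e1 : mass (ex u (c + ε) 0) {w | w ∈ Irr ∧ X w = s} =
        ENNReal.ofReal (Real.exp ((c + ε) * s)) * mass (ex u 0 0) {w | w ∈ Irr ∧ X w = s} := by
      rw [← mass_const_mul]
      exact mass_congr fun w hw => ex_split hw.2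
    have e2 : mass (ex u 0 0) (BrS s) ≤ ENNReal.ofReal (Real.exp (-c * s)) := by
      have e3 : mass (ex u c 0) (BrS s) =
          ENNReal.ofReal (Real.exp (c * s)) * mass (ex u 0 0) (BrS s) := by
        rw [← mass_const_mul]
        exact mass_congr fun w hw => ex_split hw.2
      have e4 := h1 s
      rw [e3] at e4
      calc mass (ex u 0 0) (BrS s)
          = ENNReal.ofReal (Real.exp (-c * s)) *
            (ENNReal.ofReal (Real.exp (c * s)) * mass (ex u 0 0) (BrS s)) := by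
            rw [← mul_assoc, ← ENNReal.ofReal_mul (Real.exp_pos _).le, ← Real.exp_add]
            simp
        _ ≤ ENNReal.ofReal (Real.exp (-c * s)) * 1 := by gcongr
        _ = _ := mul_one _
    have e5 := irr_span h1 hL hK.1 hK.2 hβ s
    rw [e1]
    calc ENNReal.ofReal (Real.exp ((c + ε) * s)) * mass (ex u 0 0) {w | w ∈ Irr ∧ X w = s}
        ≤ ENNReal.ofReal (Real.exp ((c + ε) * s)) *
          (ENNReal.ofReal x * ENNReal.ofReal (2 * x ^ 2 * Real.exp (-c * L)) ^ (4 * (s / (3 * L))) +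
            (2⁻¹) ^ (s / (3 * L) / (4 * K + 2)) * ENNReal.ofReal (Real.exp (-c * s))) := by
          gcongr
          refine e5.trans ?_
          rw [hβeq, hxc]
          gcongr
      _ = ENNReal.ofReal (Real.exp ((c + ε) * s) *
          (x * (2 * x ^ 2 * Real.exp (-c * L)) ^ (4 * (s / (3 * L))) +
            (2⁻¹) ^ (s / (3 * L) / (4 * K + 2)) * Real.exp (-c * s))) := by
          exact (ofReal_comb (Real.exp_pos _).le hx0 (by positivity) (Real.exp_pos _).le _ _).symm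
      _ ≤ _ := ENNReal.ofReal_le_ofReal (real_est hx0 hc hL hL1 s)
  have hsub : Irr ⊆ ⋃ s : ℕ, {w | w ∈ Irr ∧ X w = s} := by
    intro w hw
    rw [Set.mem_iUnion]
    exact ⟨(X w).toNat, hw, (Int.toNat_of_nonneg hw.br.X_nonneg).symm⟩
  have hsum : Summable fun s : ℕ => 2 * (x * Real.exp (3 * c * L) + 1) * Real.exp (-ε) ^ s :=
    (summable_geometric_of_lt_one (Real.exp_pos _).le
      (Real.exp_lt_one_iff.2 (by linarith))).mul_left _
  have hfin : ∑' s : ℕ, ENNReal.ofReal (2 * (x * Real.exp (3 * c * L) + 1) * Real.exp (-ε) ^ s)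
      ≠ ∞ := by
    rw [← ENNReal.ofReal_tsum_of_nonneg (fun s => by positivity) hsum]
    exact ENNReal.ofReal_ne_top
  refine ne_top_of_le_ne_top hfin ?_
  calc mass (ex u (c + ε) 0) Irr
      ≤ mass (ex u (c + ε) 0) (⋃ s : ℕ, {w | w ∈ Irr ∧ X w = s}) := mass_mono hsub
    _ ≤ ∑' s : ℕ, mass (ex u (c + ε) 0) {w | w ∈ Irr ∧ X w = s} := mass_iUnion_le _ _
    _ ≤ _ := ENNReal.tsum_le_tsum hterm

end Pool.Agent.SAPF
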