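import Pool.Agent.SAPF.Basic

/-!
Coarse graining of bridges: slabs of width `L` that are crossed from right to left are rare.
-/

namespace Pool.Agent.SAPF

open scoped ENNReal

/-- slab `i` (between the levels `i L` and `(i + 1) L`) is never crossed from right to left -/
def Good (L i : ℕ) (w : Word) : Prop :=
  ∀ a b : Word, a <+: b → b <+: w → X a = ((i : ℤ) + 1) * L → X b ≠ (i : ℤ) * L

open Classical in
/-- the slabs that are not good -/
noncomputable def bads (L q : ℕ) (w : Word) : Finset ℕ :=
  (Finset.range q).filter (fun i => ¬ Good L i w)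

lemma mem_bads {L q i : ℕ} {w : Word} : i ∈ bads L q w ↔ i < q ∧ ¬ Good L i w := by
  classical
  simp [bads]

/-! ### the coarse path -/

/-- the coarse path of a word: the successive signs of the displacements by `L`, where `x` is the
displacement since the last coarse point -/
def cz (L : ℤ) : ℤ → Word → List ℤ
  | _, [] => []
  | x, d :: w =>
      if x + d.dx = L then 1 :: cz L 0 w
      else if x + d.dx = -L then (-1) :: cz L 0 w
      else cz L (x + d.dx) w

lemma cz_append (L : ℤ) (v : Word) : ∀ (u : Word) (x : ℤ),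
    cz L x (u ++ v) = cz L x u ++ cz L (x + X u - L * (cz L x u).sum) v := by
  intro u
  induction u with
  | nil => intro x; simp [cz]
  | cons d u ih =>
    intro x
    simp only [List.cons_append, cz]
    split_ifs with h1 h2
    · rw [ih, List.cons_append, List.sum_cons, X_cons]
      congr 3
      linarith
    · rw [ih, List.cons_append, List.sum_cons, X_cons]
      congr 3
      linarith
    · rw [ih, X_cons]
      congr 3
      ring

lemma abs_resid_lt {L : ℤ} (hL : 0 < L) : ∀ (u : Word) (x : ℤ), |x| < L →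
    |x + X u - L * (cz L x u).sum| < L := by
  intro u
  induction u with
  | nil => intro x hx; simpa [cz] using hx
  | cons d u ih =>
    intro x hx
    simp only [cz]
    split_ifs with h1 h2
    · have := ih 0 (by simpa using hL)
      rw [List.sum_cons, X_cons]
      have e : x + (d.dx + X u) - L * (1 + (cz L 0 u).sum) = 0 + X u - L * (cz L 0 u).sum := by
        linarith
      rw [e]; exact this
    · have := ih 0 (by simpa using hL)
      rw [List.sum_cons, X_cons]
      have e : x + (d.dx + X u) - L * (-1 + (cz L 0 u).sum) = 0 + X u - L * (cz L 0 u).sum := by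
        linarith
      rw [e]; exact this
    · have hx' : |x + d.dx| < L := by
        have h3 := dx_le d
        have h4 := neg_le_dx d
        rw [abs_lt] at hx ⊢
        constructor <;> omega
      have := ih (x + d.dx) hx'
      rw [X_cons]
      have e : x + (d.dx + X u) - L * (cz L (x + d.dx) u).sum
          = x + d.dx + X u - L * (cz L (x + d.dx) u).sum := by ring
      rw [e]; exact this

/-- at a multiple of `L` the coarse path is exactly at that multiple -/
lemma sum_cz_eq {L : ℤ} (hL : 0 < L) {u : Word} {j : ℤ} (h : X u = j * L) :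
    (cz L 0 u).sum = j := by
  have := abs_resid_lt hL u 0 (by simpa using hL)
  rw [h, abs_lt] at this
  obtain ⟨h1, h2⟩ := this
  have h3 : L * (j - (cz L 0 u).sum) < L * 1 := by linarith
  have h4 : L * (-1) < L * (j - (cz L 0 u).sum) := by linarith
  have h5 := lt_of_mul_lt_mul_left h3 hL.le
  have h6 := lt_of_mul_lt_mul_left h4 hL.le
  omega

lemma le_sum_cz {L : ℤ} (hL : 0 < L) {u : Word} {q : ℤ} (h : q * L ≤ X u) :
    q ≤ (cz L 0 u).sum := by
  have := abs_resid_lt hL u 0 (by simpa using hL)
  rw [abs_lt] at this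
  obtain ⟨h1, h2⟩ := this
  have h3 : L * (q - (cz L 0 u).sum) < L * 1 := by linarith
  have h5 := lt_of_mul_lt_mul_left h3 hL.le
  omega

/-! ### crossings of a nearest neighbour path on the integers -/

/-- number of crossings of the slab `i` (between `i` and `i + 1`) of the path with steps `ys`
started at `a` -/
def cr (i : ℤ) : ℤ → List ℤ → ℕ
  | _, [] => 0
  | a, y :: ys => (if min a (a + y) = i then 1 else 0) + cr i (a + y) ys

lemma cr_append (i : ℤ) (zs : List ℤ) : ∀ (ys : List ℤ) (a : ℤ),
    cr i a (ys ++ zs) = cr i a ys + cr i (a + ys.sum) zs := by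
  intro ys
  induction ys with
  | nil => intro a; simp [cr]
  | cons y ys ih =>
    intro a
    simp only [List.cons_append, cr, List.sum_cons]
    rw [ih, add_assoc, add_assoc]

/-- all steps of the coarse path are `1` or `-1` -/
lemma cz_steps (L : ℤ) : ∀ (u : Word) (x : ℤ), ∀ y ∈ cz L x u, y = 1 ∨ y = -1 := by
  intro u
  induction u with
  | nil => intro x y hy; simp [cz] at hy
  | cons d u ih =>
    intro x y hy
    simp only [cz] at hy
    split_ifs at hy with h1 h2
    · rcases List.mem_cons.1 hy with h | h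
      · exact Or.inl h
      · exact ih _ _ h
    · rcases List.mem_cons.1 hy with h | h
      · exact Or.inr h
      · exact ih _ _ h
    · exact ih _ _ hy

lemma one_le_cr {i : ℤ} : ∀ (ys : List ℤ) (a : ℤ), (∀ y ∈ ys, y = 1 ∨ y = -1) →
    (a ≤ i ∧ i + 1 ≤ a + ys.sum) ∨ (i + 1 ≤ a ∧ a + ys.sum ≤ i) → 1 ≤ cr i a ys := by
  intro ys
  induction ys with
  | nil =>
    intro a _ h
    simp at h
    omega
  | cons y ys ih =>
    intro a hy h
    simp only [cr]
    by_cases hm : min a (a + y) = i
    · rw [if_pos hm]; omega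
    · rw [if_neg hm, zero_add]
      refine ih (a + y) (fun z hz => hy z (List.mem_cons_of_mem _ hz)) ?_
      rw [List.sum_cons] at h
      have h1 := hy y (List.mem_cons_self)
      rcases h1 with h1 | h1
      · rw [h1] at h hm ⊢
        have h2 : min a (a + 1) = a := by omega
        rw [h2] at hm
        omega
      · rw [h1] at h hm ⊢
        have h2 : min a (a + -1) = a + -1 := by omega
        rw [h2] at hm
        omega

lemma sum_cr_le (F : Finset ℤ) : ∀ (ys : List ℤ) (a : ℤ), ∑ i ∈ F, cr i a ys ≤ ys.length := by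
  intro ys
  induction ys with
  | nil => intro a; simp [cr]
  | cons y ys ih =>
    intro a
    simp only [cr, List.length_cons]
    rw [Finset.sum_add_distrib, add_comm ys.length 1]
    refine add_le_add ?_ (ih (a + y))
    rw [Finset.sum_ite_eq]
    split_ifs <;> simp

/-! ### the number of steps of the coarse path -/

lemma le_length_cz {L s : ℕ} (hL : 0 < L) {w : Word} (hw : IsBr w) (hX : X w = s) :
    s / L + 2 * (bads L (s / L) w).card ≤ (cz L 0 w).length := by
  classical
  set q := s / L with hq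
  have hL' : (0 : ℤ) < (L : ℤ) := by exact_mod_cast hL
  have hqL : ((q : ℤ)) * (L : ℤ) ≤ X w := by
    rw [hX]
    exact_mod_cast Nat.div_mul_le_self s L
  -- lower bounds for the crossings
  have h1 : ∀ i : ℕ, i < q → 1 ≤ cr (i : ℤ) 0 (cz L 0 w) := by
    intro i hi
    refine one_le_cr _ _ (cz_steps _ _ _) (Or.inl ⟨by positivity, ?_⟩)
    have := le_sum_cz hL' hqL
    omega
  have h3 : ∀ i ∈ bads L q w, 3 ≤ cr (i : ℤ) 0 (cz L 0 w) := by
    intro i hi
    obtain ⟨hi, hg⟩ := mem_bads.1 hi
    unfold Good at hg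
    push Not at hg
    obtain ⟨a, b, ⟨b', rfl⟩, ⟨w', rfl⟩, ha, hb⟩ := hg
    have hsa := sum_cz_eq hL' ha
    have hsb := sum_cz_eq hL' hb
    have hsw := le_sum_cz hL' hqL
    have e1 := cz_append L b' a 0
    have e2 := cz_append L w' (a ++ b') 0
    have st1 : ∀ y ∈ cz L 0 a, y = 1 ∨ y = -1 := cz_steps _ _ _
    set B := cz L (0 + X a - L * (cz L 0 a).sum) b' with hB
    have st2 : ∀ y ∈ B, y = 1 ∨ y = -1 := cz_steps _ _ _
    set C := cz L (0 + X (a ++ b') - L * (cz L 0 (a ++ b')).sum) w' with hC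
    have st3 : ∀ y ∈ C, y = 1 ∨ y = -1 := cz_steps _ _ _
    rw [e2] at hsw ⊢
    rw [e1] at hsw hsb ⊢
    rw [List.sum_append] at hsb
    rw [List.sum_append, List.sum_append] at hsw
    rw [cr_append, cr_append, List.sum_append]
    have c1 : 1 ≤ cr (i : ℤ) 0 (cz L 0 a) := one_le_cr _ _ st1 (Or.inl ⟨by positivity, by omega⟩)
    have c2 : 1 ≤ cr (i : ℤ) (0 + (cz L 0 a).sum) B :=
      one_le_cr _ _ st2 (Or.inr ⟨by omega, by omega⟩)
    have c3 : 1 ≤ cr (i : ℤ) (0 + ((cz L 0 a).sum + B.sum)) C :=
      one_le_cr _ _ st3 (Or.inl ⟨by omega, by omega⟩)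
    omega
  have h4 := sum_cr_le ((Finset.range q).map Nat.castEmbedding) (cz L 0 w) 0
  rw [Finset.sum_map] at h4
  refine le_trans ?_ h4
  have h5 : ∀ i ∈ Finset.range q,
      1 + (if i ∈ bads L q w then 2 else 0) ≤ cr (Nat.castEmbedding (R := ℤ) i) 0 (cz L 0 w) := by
    intro i hi
    split_ifs with hb
    · exact h3 i hb
    · exact h1 i (Finset.mem_range.1 hi)
  refine le_trans (le_of_eq ?_) (Finset.sum_le_sum h5)
  rw [Finset.sum_add_distrib, ← Finset.sum_filter]
  have h6 : (Finset.range q).filter (fun i => i ∈ bads L q w) = bads L q w := by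
    ext i
    simp only [Finset.mem_filter, Finset.mem_range, mem_bads]
    tauto
  rw [h6]
  simp
  ring

/-! ### masses -/

lemma mass_BrS_le {u c : ℝ} (h1 : ∀ s : ℕ, mass (ex u c 0) (BrS s) ≤ 1) (s : ℕ) :
    mass (ex u 0 0) (BrS s) ≤ ENNReal.ofReal (Real.exp (-(c * s))) := by
  have h : mass (ex u 0 0) (BrS s)
      = ENNReal.ofReal (Real.exp (-(c * s))) * mass (ex u c 0) (BrS s) := by
    rw [← mass_const_mul]
    refine mass_congr fun w hw => ?_
    have hX : X w = s := hw.2
    unfold ex
    rw [← ENNReal.ofReal_mul (Real.exp_pos _).le, ← Real.exp_add, hX]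
    congr 2
    push_cast
    ring
  rw [h]
  calc ENNReal.ofReal (Real.exp (-(c * s))) * mass (ex u c 0) (BrS s)
      ≤ ENNReal.ofReal (Real.exp (-(c * s))) * 1 := by gcongr; exact h1 s
    _ = _ := mul_one _

/-- self-avoiding words of horizontal displacement `L` or `-L` -/
def TL (L : ℤ) : Set Word := {w | SAW w ∧ (X w = L ∨ X w = -L)}

lemma mass_pos_TL (u : ℝ) (L : ℕ) (hL : 0 < L) :
    mass (ex u 0 0) {w | SAW w ∧ X w = L} ≤ chi u * (mass (ex u 0 0) (BrS L) * chi u) := by
  have step : mass (ex u 0 0) {w | SAW w ∧ X w = L} ≤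
      mass (ex u 0 0) {w | SAW w} *
        mass (ex u 0 0) {w | ∃ b ∈ BrS L, ∃ z ∈ {w | SAW w}, w = b ++ z} := by
    refine mass_le_mul (fun a _ b _ => (ex_append _ _ _ _ _).le) ?_
    rintro w ⟨hs, hX⟩
    obtain ⟨a, v, rfl, ha, hv⟩ := exists_last_le w 0 le_rfl (by rw [hX]; exact_mod_cast hL)
    have hXv : X v = L := by rw [X_append, ha] at hX; simpa using hX
    obtain ⟨b, z, rfl, hb, hlt⟩ := exists_first_ge v L (by exact_mod_cast hL)
      ⟨v, List.prefix_refl v, by rw [hXv]⟩
    refine ⟨a, hs.left, b ++ z, ⟨b, ⟨⟨hs.right.left, ?_, ?_⟩, hb⟩, z, hs.right.right, rfl⟩, rfl⟩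
    · intro t ht h0
      exact hv t (ht.trans (List.prefix_append b z)) h0
    · rintro t ⟨p, rfl⟩
      rw [X_append] at hb
      rcases eq_or_ne t [] with h0 | h0
      · simp [h0]
      · have := hlt p (List.prefix_append p t) (by
          intro h
          apply h0
          have := congrArg List.length h
          simp at this
          exact this)
        omega
  refine step.trans ?_
  unfold chi
  gcongr
  exact mass_le_mul (fun a _ b _ => (ex_append _ _ _ _ _).le) (fun w hw => hw)

lemma mass_TL_le {u c : ℝ} (h1 : ∀ s : ℕ, mass (ex u c 0) (BrS s) ≤ 1) (L : ℕ) (hL : 0 < L) :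
    mass (ex u 0 0) (TL L) ≤ 2 * chi u ^ 2 * ENNReal.ofReal (Real.exp (-(c * L))) := by
  have hp : mass (ex u 0 0) {w | SAW w ∧ X w = L} ≤
      chi u ^ 2 * ENNReal.ofReal (Real.exp (-(c * L))) := by
    refine (mass_pos_TL u L hL).trans ?_
    calc chi u * (mass (ex u 0 0) (BrS L) * chi u)
        ≤ chi u * (ENNReal.ofReal (Real.exp (-(c * L))) * chi u) := by
          gcongr; exact mass_BrS_le h1 L
      _ = _ := by ring
  have hm : mass (ex u 0 0) {w | SAW w ∧ X w = -(L : ℤ)} ≤
      mass (ex u 0 0) {w | SAW w ∧ X w = L} := by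
    refine mass_le_of_injOn flipX ?_ ?_ ?_
    · intro a _ b _ h
      have := congrArg flipX h
      simpa using this
    · rintro w ⟨hs, hX⟩
      exact ⟨hs.flipX, by rw [X_flipX, hX]; ring⟩
    · intro w _
      rw [ex_flipX]
      simp
  have hU : TL L = {w | SAW w ∧ X w = L} ∪ {w | SAW w ∧ X w = -(L : ℤ)} := by
    ext w
    simp only [TL, Set.mem_ofPred_eq, Set.mem_union]
    tauto
  rw [hU]
  refine (mass_union_le _ _ _).trans ?_
  calc _ ≤ chi u ^ 2 * ENNReal.ofReal (Real.exp (-(c * L))) +
        chi u ^ 2 * ENNReal.ofReal (Real.exp (-(c * L))) := add_le_add hp (hm.trans hp)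
    _ = _ := by ring

/-- splitting off the first coarse step -/
lemma cz_split {L : ℤ} : ∀ (w : Word) (x : ℤ), cz L x w ≠ [] →
    ∃ u v, w = u ++ v ∧ (x + X u = L ∨ x + X u = -L) ∧
      (cz L x w).length = (cz L 0 v).length + 1 := by
  intro w
  induction w with
  | nil => intro x h; simp [cz] at h
  | cons d w ih =>
    intro x h
    simp only [cz] at h ⊢
    split_ifs with h1 h2
    · exact ⟨[d], w, rfl, Or.inl (by simpa using h1), by simp⟩
    · exact ⟨[d], w, rfl, Or.inr (by simpa using h2), by simp⟩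
    · rw [if_neg h1, if_neg h2] at h
      obtain ⟨u, v, rfl, hu, hl⟩ := ih _ h
      refine ⟨d :: u, v, rfl, ?_, hl⟩
      rw [X_cons]
      rcases hu with hu | hu
      · left; linarith
      · right; linarith

lemma mass_coarse_le (u : ℝ) (L : ℤ) (n : ℕ) :
    mass (ex u 0 0) {w | SAW w ∧ n ≤ (cz L 0 w).length} ≤
      mass (ex u 0 0) (TL L) ^ n * chi u := by
  induction n with
  | zero =>
    rw [pow_zero, one_mul]
    exact mass_mono fun w hw => hw.1
  | succ n ih =>
    rw [pow_succ', mul_assoc]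
    refine le_trans (mass_le_mul (B := TL L) (C := {w | SAW w ∧ n ≤ (cz L 0 w).length})
      (fun a _ b _ => (ex_append _ _ _ _ _).le) ?_) (by gcongr)
    rintro w ⟨hs, hl⟩
    obtain ⟨a, b, rfl, ha, hb⟩ := cz_split w 0 (by
      intro h
      rw [h] at hl
      simp at hl)
    simp only [zero_add] at ha
    exact ⟨a, ⟨hs.left, ha⟩, b, ⟨hs.right, by omega⟩, rfl⟩

/-- many bad slabs are unlikely -/
theorem mass_bads_le {u c : ℝ} (h1 : ∀ s : ℕ, mass (ex u c 0) (BrS s) ≤ 1) (L : ℕ) (hL : 0 < L)
    (s m : ℕ) :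
    mass (ex u 0 0) {w | w ∈ BrS s ∧ m ≤ (bads L (s / L) w).card} ≤
      (2 * chi u ^ 2 * ENNReal.ofReal (Real.exp (-(c * L)))) ^ (s / L + 2 * m) * chi u := by
  have h2 : {w | w ∈ BrS s ∧ m ≤ (bads L (s / L) w).card} ⊆
      {w | SAW w ∧ s / L + 2 * m ≤ (cz L 0 w).length} := by
    rintro w ⟨⟨hw, hX⟩, hm⟩
    have := le_length_cz hL hw hX
    exact ⟨hw.saw, by omega⟩
  refine (mass_mono h2).trans ((mass_coarse_le u L _).trans ?_)
  gcongr
  exact mass_TL_le h1 L hL

end Pool.Agent.SAPF
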