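import Mathlib

/-!
Numerical choices of the parameters in the tail estimates.
-/

namespace Pool.Agent.SAPF

open Filter

lemma eventually_log_ge (B : ℝ) : ∀ᶠ n : ℕ in atTop, B ≤ Real.log n :=
  (Real.tendsto_log_atTop.comp tendsto_natCast_atTop_atTop).eventually_ge_atTop B

lemma eventually_pow_log_le (B : ℝ) (p : ℕ) : ∀ᶠ n : ℕ in atTop, B * Real.log n ^ p ≤ n := by
  have h1 : (fun x : ℝ => Real.log x ^ p) =o[atTop] id := Real.isLittleO_pow_log_id_atTop
  have h2 := (h1.bound (c := 1 / (|B| + 1)) (by positivity))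
  have h3 := tendsto_natCast_atTop_atTop (R := ℝ) |>.eventually h2
  filter_upwards [h3, eventually_log_ge 0, eventually_ge_atTop 1] with n hn hl hn1
  simp only [id, Real.norm_eq_abs] at hn
  have h4 : (0 : ℝ) ≤ Real.log n ^ p := by positivity
  rw [abs_of_nonneg h4, abs_of_nonneg (by positivity : (0 : ℝ) ≤ (n : ℝ))] at hn
  rw [div_mul_eq_mul_div, one_mul, le_div_iff₀ (by positivity)] at hn
  have h5 : B ≤ |B| + 1 := by linarith [le_abs_self B]
  nlinarith

lemma eventually_nat_ge (B : ℝ) : ∀ᶠ n : ℕ in atTop, B ≤ (n : ℝ) :=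
  tendsto_natCast_atTop_atTop.eventually_ge_atTop B

set_option maxHeartbeats 1000000 in
lemma numerics {A A' ε : ℝ} (hA : 0 < A) (hA' : 0 < A') (hε : 0 < ε) :
    ∀ᶠ n : ℕ in atTop, ∃ l J k0 q r : ℕ,
      1 ≤ l ∧ A * Real.log n ≤ l ∧ (l : ℝ) ≤ 2 * A * Real.log n ∧ A' * Real.log n ≤ J ∧
      (∀ k : ℕ, n + 1 ≤ k * l → k0 ≤ k) ∧
      1 ≤ r ∧ ((J * (4 * q) : ℕ) : ℝ) ≤ ε * k0 ∧ 64 * r ^ 2 * l ^ 2 ≤ q ∧
      (n : ℝ) ^ (3 / 2 : ℝ) / Real.log n ^ (5 : ℝ) < ((r * q : ℕ) : ℝ) ∧ Real.sqrt n ≤ k0 := by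
  set c' : ℝ := ε / (64 * A * A') with hc'
  have hc'pos : 0 < c' := by positivity
  have e1 := eventually_log_ge (1 + 1 / A + 1 / A' + 32 * A / (c' * Real.sqrt c'))
  have e2 := eventually_pow_log_le (4 * A) 1
  have e3 := eventually_pow_log_le (16 * A ^ 2) 2
  have e4 := eventually_pow_log_le (64 * A * A' / ε) 2
  have e5 := eventually_pow_log_le ((32 * A) ^ 2 / c') 4
  filter_upwards [e1, e2, e3, e4, e5, eventually_ge_atTop 2] with n h1 h2 h3 h4 h5 hn2
  set L := Real.log n with hL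
  have hn : (0 : ℝ) < n := by
    have : 0 < n := by omega
    exact_mod_cast this
  have hAi : 0 < 1 / A := by positivity
  have hA'i : 0 < 1 / A' := by positivity
  have hci : 0 < 32 * A / (c' * Real.sqrt c') := by positivity
  have hL1 : 1 ≤ L := by linarith
  have hLpos : 0 < L := by linarith
  have hAL : 1 ≤ A * L := by
    have : 1 / A ≤ L := by linarith
    rw [div_le_iff₀ hA] at this
    linarith
  have hA'L : 1 ≤ A' * L := by
    have : 1 / A' ≤ L := by linarith
    rw [div_le_iff₀ hA'] at this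
    linarith
  set l := ⌈A * L⌉₊ with hl
  set J := ⌈A' * L⌉₊ with hJ
  have hl1 : A * L ≤ l := Nat.le_ceil _
  have hl2 : (l : ℝ) ≤ 2 * A * L := by
    have := Nat.ceil_lt_add_one (by positivity : 0 ≤ A * L)
    linarith
  have hJ1 : A' * L ≤ J := Nat.le_ceil _
  have hJ2 : (J : ℝ) ≤ 2 * A' * L := by
    have := Nat.ceil_lt_add_one (by positivity : 0 ≤ A' * L)
    linarith
  have hlpos : (0 : ℝ) < l := by linarith
  have hJpos : (0 : ℝ) < J := by linarith
  have hlnat : 1 ≤ l := by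
    have : (1 : ℝ) ≤ l := by linarith
    exact_mod_cast this
  set k0 := (n + 1) / l with hk0
  have hk0' : (n : ℝ) / (4 * A * L) ≤ k0 := by
    have hd : (n + 1) < (k0 + 1) * l := by
      rw [hk0]
      have := Nat.lt_div_mul_add (a := n + 1) (b := l) (by omega)
      nlinarith
    have hd' : (n : ℝ) + 1 < (k0 + 1) * l := by exact_mod_cast hd
    have h6 : (n : ℝ) < (k0 + 1) * (2 * A * L) := by
      have : ((k0 : ℝ) + 1) * l ≤ (k0 + 1) * (2 * A * L) := by gcongr
      linarith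
    rw [div_le_iff₀ (by positivity)]
    rw [pow_one] at h2
    nlinarith
  have hk0n : (0 : ℝ) ≤ k0 := by positivity
  set y : ℝ := ε * k0 / (4 * J) with hy
  have hy1 : 2 * c' * n / L ^ 2 ≤ y := by
    rw [hy, le_div_iff₀ (by positivity)]
    have h6 : 2 * c' * n / L ^ 2 * (4 * J) ≤ 2 * c' * n / L ^ 2 * (4 * (2 * A' * L)) := by gcongr
    refine h6.trans ?_
    have h7 : 2 * c' * n / L ^ 2 * (4 * (2 * A' * L)) = ε * (n / (4 * A * L)) := by
      rw [hc']; field_simp; ring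
    rw [h7]
    gcongr
  have hy2 : 2 ≤ y := by
    refine le_trans ?_ hy1
    rw [le_div_iff₀ (by positivity)]
    have : 64 * A * A' / ε = 1 / c' := by rw [hc']; field_simp
    rw [this, div_mul_eq_mul_div, one_mul, div_le_iff₀ hc'pos] at h4
    linarith
  set q := ⌊y⌋₊ with hq
  have hq1 : (q : ℝ) ≤ y := Nat.floor_le (by linarith)
  have hq2 : c' * n / L ^ 2 ≤ q := by
    have h6 := Nat.lt_floor_add_one y
    have h7 : c' * n / L ^ 2 = (2 * c' * n / L ^ 2) / 2 := by ring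
    rw [h7]
    have : y / 2 ≤ q := by
      have h8 : y < q + 1 := h6
      linarith
    linarith
  have hqpos : (0 : ℝ) < q := lt_of_lt_of_le (by positivity) hq2
  set z : ℝ := Real.sqrt q / (8 * l) with hz
  have hsq : Real.sqrt (c' * n) / L ≤ Real.sqrt q := by
    rw [div_le_iff₀ hLpos]
    calc Real.sqrt (c' * n) ≤ Real.sqrt (q * L ^ 2) := by
          apply Real.sqrt_le_sqrt
          rw [div_le_iff₀ (by positivity)] at hq2
          exact hq2
      _ = Real.sqrt q * L := by rw [Real.sqrt_mul hqpos.le, Real.sqrt_sq hLpos.le]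
  have hz1 : Real.sqrt (c' * n) / (16 * A * L ^ 2) ≤ z := by
    rw [hz, le_div_iff₀ (by positivity)]
    calc Real.sqrt (c' * n) / (16 * A * L ^ 2) * (8 * l)
        ≤ Real.sqrt (c' * n) / (16 * A * L ^ 2) * (8 * (2 * A * L)) := by gcongr
      _ = Real.sqrt (c' * n) / L := by field_simp; ring
      _ ≤ Real.sqrt q := hsq
  have hz2 : 2 ≤ z := by
    refine le_trans ?_ hz1
    rw [le_div_iff₀ (by positivity)]
    apply Real.le_sqrt_of_sq_le
    rw [div_mul_eq_mul_div, div_le_iff₀ hc'pos] at h5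
    nlinarith
  set r := ⌊z⌋₊ with hr
  have hr1 : (r : ℝ) ≤ z := Nat.floor_le (by linarith)
  have hr2 : Real.sqrt (c' * n) / (32 * A * L ^ 2) ≤ r := by
    have h6 := Nat.lt_floor_add_one z
    have h7 : Real.sqrt (c' * n) / (32 * A * L ^ 2) =
        (Real.sqrt (c' * n) / (16 * A * L ^ 2)) / 2 := by ring
    rw [h7]
    have : z / 2 ≤ r := by
      have h8 : z < r + 1 := h6
      linarith
    linarith
  refine ⟨l, J, k0, q, r, hlnat, hl1, hl2, hJ1, ?_, ?_, ?_, ?_, ?_, ?_⟩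
  · intro k hk
    rw [hk0]
    exact Nat.div_le_of_le_mul (by rw [mul_comm]; exact hk)
  · have : (1 : ℝ) ≤ z := by linarith
    exact Nat.le_floor (by simpa using this)
  · push_cast
    have : (J : ℝ) * (4 * q) ≤ J * (4 * y) := by gcongr
    refine this.trans (le_of_eq ?_)
    rw [hy]; field_simp
  · have h6 : 8 * (r : ℝ) * l ≤ Real.sqrt q := by
      rw [hz, le_div_iff₀ (by positivity)] at hr1
      linarith
    have h7 : (8 * (r : ℝ) * l) ^ 2 ≤ (q : ℝ) := by
      have h71 : (8 * (r : ℝ) * l) ^ 2 ≤ Real.sqrt (q : ℝ) ^ 2 :=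
        pow_le_pow_left₀ (by positivity) h6 2
      rwa [Real.sq_sqrt hqpos.le] at h71
    have h8 : ((64 * r ^ 2 * l ^ 2 : ℕ) : ℝ) ≤ (q : ℝ) := by
      push_cast
      have h81 : (8 * (r : ℝ) * l) ^ 2 = 64 * (r : ℝ) ^ 2 * (l : ℝ) ^ 2 := by ring
      rw [← h81]
      exact h7
    exact_mod_cast h8
  · push_cast
    have h6 : Real.sqrt (c' * n) / (32 * A * L ^ 2) * (c' * n / L ^ 2) ≤ r * q := by gcongr
    refine lt_of_lt_of_le ?_ h6
    have h7 : (n : ℝ) ^ (3 / 2 : ℝ) = n * Real.sqrt n := by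
      rw [Real.sqrt_eq_rpow]
      nth_rewrite 2 [← Real.rpow_one (n : ℝ)]
      rw [← Real.rpow_add hn]
      norm_num
    have h8 : L ^ (5 : ℝ) = L ^ 4 * L := by
      rw [show (5 : ℝ) = ((5 : ℕ) : ℝ) by norm_num, Real.rpow_natCast]; ring
    rw [h7, h8, Real.sqrt_mul hc'pos.le]
    have h9 : Real.sqrt c' * Real.sqrt n / (32 * A * L ^ 2) * (c' * n / L ^ 2) =
        (c' * Real.sqrt c' / (32 * A)) * (n * Real.sqrt n / L ^ 4) := by
      field_simp
    rw [h9, ← div_div]
    have h10 : 32 * A / (c' * Real.sqrt c') < L := by linarith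
    have hp : 0 < (n : ℝ) * Real.sqrt n / L ^ 4 := by positivity
    have h11 : 1 / L < c' * Real.sqrt c' / (32 * A) := by
      rw [div_lt_div_iff₀ hLpos (by positivity)]
      rw [div_lt_iff₀ (by positivity)] at h10
      linarith
    calc (n : ℝ) * Real.sqrt n / L ^ 4 / L = 1 / L * (n * Real.sqrt n / L ^ 4) := by ring
      _ < _ := by gcongr
  · refine le_trans ?_ hk0'
    rw [le_div_iff₀ (by positivity)]
    have h6 : 4 * A * L ≤ Real.sqrt n := by
      apply Real.le_sqrt_of_sq_le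
      nlinarith
    calc Real.sqrt n * (4 * A * L) ≤ Real.sqrt n * Real.sqrt n := by gcongr
      _ = n := Real.mul_self_sqrt hn.le

end Pool.Agent.SAPF
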