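import Pool.Agent.SAPF.TailsA
import Pool.Agent.SAPF.Numerics

/-!
Tail estimates, part B: the two tail bounds for pairs of bridges.
-/

namespace Pool.Agent.SAPF

open scoped ENNReal
open Filter


lemma ofReal_combo {a b x : ℝ} (ha : 0 ≤ a) (hb : 0 ≤ b) (hx : 0 ≤ x) :
    ENNReal.ofReal a * ENNReal.ofReal b * ENNReal.ofReal a +
      ENNReal.ofReal (2 * a * x) * ENNReal.ofReal a = ENNReal.ofReal (a * b * a + 2 * a * x * a) := by
  rw [ENNReal.ofReal_add (by positivity) (by positivity), ENNReal.ofReal_mul (p := a * b)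
    (by positivity), ENNReal.ofReal_mul ha, ENNReal.ofReal_mul (p := 2 * a * x) (by positivity)]

lemma final_bound {n Mr G : ℝ} {k : ℕ} (hn : 0 < n) (hM3 : Mr ≤ 3 * n)
    (hG : 0 ≤ G) (h2 : 54 * G ≤ n) (hn1 : 1 ≤ n) :
    (3 * n) ^ 2 * (G * (1 / n ^ (k + 5))) * Mr ≤ 1 / n ^ k / 2 := by
  have h8 : (3 * n) ^ 2 * (G * (1 / n ^ (k + 5))) * Mr ≤
      (3 * n) ^ 2 * (G * (1 / n ^ (k + 5))) * (3 * n) := by gcongr
  refine h8.trans ?_
  have h9 : (3 * n) ^ 2 * (G * (1 / n ^ (k + 5))) * (3 * n) =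
      (27 * G) * (1 / n ^ 2) * (1 / n ^ k) := by
    rw [pow_add]
    field_simp
    ring
  rw [h9]
  have h10 : (27 * G) * (1 / n ^ 2) ≤ 1 / 2 := by
    rw [mul_one_div, div_le_div_iff₀ (by positivity) (by norm_num)]
    nlinarith
  have h11 : (0 : ℝ) ≤ 1 / n ^ k := by positivity
  nlinarith

set_option maxHeartbeats 1000000 in
theorem upper_tail {u c : ℝ} (h : Params u c) (K : ℕ) : ∀ᶠ n : ℕ in atTop,
    mass (pw u c) {p | p ∈ Pairs n ∧ ∃ t, (t <+: p.1 ∨ t <+: p.2) ∧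
      Real.sqrt n * (Real.log n) ^ (3 : ℝ) < |(Y t : ℝ)|} ≤
        ENNReal.ofReal (1 / (n : ℝ) ^ K) := by
  obtain ⟨δ, hδ, B, hB, hLP⟩ := exists_LP_bound h
  set A : ℝ := (K + 5) / δ with hA
  have hApos : 0 < A := by positivity
  have e1 := eventually_log_ge (1 + 1 / A + 4 * A * (K + 6))
  have e2 := eventually_nat_ge (54 * (B + 2 * Real.exp 1) + 4)
  filter_upwards [e1, e2, eventually_ge_atTop 3] with n h1 h2 hn3
  set L := Real.log n with hL
  have hn : (0 : ℝ) < n := by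
    have : 0 < n := by omega
    exact_mod_cast this
  have hn1 : (1 : ℝ) ≤ n := by
    have : 1 ≤ n := by omega
    exact_mod_cast this
  have hAi : 0 < 1 / A := by positivity
  have hAK : 0 ≤ 4 * A * (K + 6) := by positivity
  have hL1 : 1 ≤ L := by linarith
  have hLpos : 0 < L := by linarith
  have hAL : 1 ≤ A * L := by
    have : 1 / A ≤ L := by linarith
    rw [div_le_iff₀ hApos] at this
    linarith
  set l := ⌈A * L⌉₊ with hl
  have hl1 : A * L ≤ l := Nat.le_ceil _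
  have hl2 : (l : ℝ) ≤ 2 * A * L := by
    have := Nat.ceil_lt_add_one (by positivity : 0 ≤ A * L)
    linarith
  have hlpos : (0 : ℝ) < l := by linarith
  set M := 2 * n + 2 with hM
  set hh : ℝ := Real.sqrt n * L ^ (3 : ℝ) with hhh
  -- reduction to one component
  have hsub : {p : Word × Word | p ∈ Pairs n ∧ ∃ t, (t <+: p.1 ∨ t <+: p.2) ∧ hh < |(Y t : ℝ)|} ⊆
      (HighW M hh ×ˢ BM M) ∪ (BM M ×ˢ HighW M hh) := by
    rintro ⟨α, β⟩ ⟨⟨hα, hβ, hlen⟩, t, ht, hht⟩
    simp only at hα hβ hlen ht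
    have hαM : α ∈ BM M := ⟨hα, by omega⟩
    have hβM : β ∈ BM M := ⟨hβ, by omega⟩
    rcases ht with ht | ht
    · left; exact ⟨⟨hαM, t, ht, hht⟩, hβM⟩
    · right; exact ⟨hαM, ⟨hβM, t, ht, hht⟩⟩
  refine (mass_mono hsub).trans ((mass_union_le _ _ _).trans ?_)
  have hp1 : mass (pw u c) (HighW M hh ×ˢ BM M) =
      mass (ex u c 0) (HighW M hh) * mass (ex u c 0) (BM M) :=
    mass_prod (ex u c 0) (ex u c 0) _ _
  have hp2 : mass (pw u c) (BM M ×ˢ HighW M hh) =
      mass (ex u c 0) (BM M) * mass (ex u c 0) (HighW M hh) :=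
    mass_prod (ex u c 0) (ex u c 0) _ _
  rw [hp1, hp2]
  set θ : ℝ := 1 / (l * Real.sqrt M) with hθ
  have hMpos : (0 : ℝ) < (M : ℝ) := by rw [hM]; positivity
  have hsM : 0 < Real.sqrt M := Real.sqrt_pos.2 hMpos
  have hHigh := mass_HighW_le h M l θ hh (by positivity)
  have hLong := mass_LongW_le h M l
  have hBM := mass_BM_le h M
  have hLPl := hLP l
  -- exponents
  have hexp1 : (M : ℝ) * ((θ * l) ^ 2 / 2) = 1 / 2 := by
    rw [hθ]
    field_simp
    rw [Real.sq_sqrt hMpos.le]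
  have hM3 : ((M : ℝ) + 1) ≤ 3 * n := by
    rw [hM]; push_cast
    have : (3 : ℝ) ≤ n := by exact_mod_cast hn3
    linarith
  have hsM2 : Real.sqrt M ≤ 2 * Real.sqrt n := by
    have : (2 : ℝ) * Real.sqrt n = Real.sqrt (4 * n) := by
      rw [Real.sqrt_mul (by norm_num)]
      congr 1
      rw [show (4 : ℝ) = 2 ^ 2 by norm_num, Real.sqrt_sq (by norm_num)]
    rw [this]
    apply Real.sqrt_le_sqrt
    rw [hM]; push_cast
    have : (3 : ℝ) ≤ n := by exact_mod_cast hn3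
    linarith
  have hsn1 : 1 ≤ Real.sqrt n := by
    rw [show (1 : ℝ) = Real.sqrt 1 by simp]
    exact Real.sqrt_le_sqrt hn1
  have hL3 : L ^ (3 : ℝ) = L ^ 3 := by
    rw [show (3 : ℝ) = ((3 : ℕ) : ℝ) by norm_num, Real.rpow_natCast]
  have hexp2 : (K + 5) * L ≤ θ * (hh - l) - 1 / 2 := by
    -- θ (hh - l) >= hh/(4 A L sqrt n) - 1/2 >= L^2/(4A) - 1
    have h3 : θ * l ≤ 1 / 2 := by
      rw [hθ]
      have : 1 / ((l : ℝ) * Real.sqrt M) * l = 1 / Real.sqrt M := by field_simp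
      rw [this]
      have h4 : 2 ≤ Real.sqrt M := by
        apply Real.le_sqrt_of_sq_le
        rw [hM]; push_cast
        nlinarith
      rw [div_le_div_iff₀ hsM (by norm_num)]
      linarith
    have h4 : L ^ 2 / (4 * A) ≤ θ * hh := by
      rw [hθ, hhh, hL3, div_mul_eq_mul_div, one_mul, div_le_div_iff₀ (by positivity) (by positivity)]
      calc L ^ 2 * (l * Real.sqrt M) ≤ L ^ 2 * ((2 * A * L) * (2 * Real.sqrt n)) := by gcongr
        _ = Real.sqrt n * L ^ 3 * (4 * A) := by ring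
    have h5 : (K + 6) * L ≤ L ^ 2 / (4 * A) := by
      rw [le_div_iff₀ (by positivity)]
      have : 4 * A * (K + 6) ≤ L := by linarith
      nlinarith
    have h6 : θ * (hh - l) = θ * hh - θ * l := by ring
    rw [h6]
    linarith
  have hnK : Real.exp (-((K : ℝ) + 5) * L) = 1 / (n : ℝ) ^ (K + 5) := by
    rw [hL, show -((K : ℝ) + 5) * Real.log n = Real.log n * (-((K + 5 : ℕ) : ℝ)) by push_cast; ring,
      Real.exp_mul, Real.exp_log hn, Real.rpow_neg hn.le, Real.rpow_natCast, one_div]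
  have hE1 : Real.exp (-δ * l) ≤ 1 / (n : ℝ) ^ (K + 5) := by
    rw [← hnK]
    apply Real.exp_le_exp.2
    have : δ * (A * L) ≤ δ * l := by gcongr
    have h7 : δ * (A * L) = (K + 5) * L := by rw [hA]; field_simp
    linarith
  have hE2 : Real.exp ((M : ℝ) * ((θ * l) ^ 2 / 2) - θ * (hh - l)) ≤
      Real.exp 1 * (1 / (n : ℝ) ^ (K + 5)) := by
    rw [← hnK, ← Real.exp_add]
    apply Real.exp_le_exp.2
    rw [hexp1]
    linarith
  have hnn : (0 : ℝ) ≤ 1 / (n : ℝ) ^ (K + 5) := by positivity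
  have hcast : ((M + 1 : ℕ) : ℝ≥0∞) = ENNReal.ofReal ((M : ℝ) + 1) := by
    rw [show ((M : ℝ) + 1) = ((M + 1 : ℕ) : ℝ) by push_cast; ring, ENNReal.ofReal_natCast]
  have hbound : mass (ex u c 0) (HighW M hh) ≤
      ENNReal.ofReal ((3 * n) ^ 2 * ((B + 2 * Real.exp 1) * (1 / (n : ℝ) ^ (K + 5)))) := by
    calc mass (ex u c 0) (HighW M hh)
        ≤ ENNReal.ofReal ((M : ℝ) + 1) * ENNReal.ofReal (B * Real.exp (-δ * l)) *
            ENNReal.ofReal ((M : ℝ) + 1) +
          ENNReal.ofReal (2 * (M + 1) * Real.exp (M * ((θ * l) ^ 2 / 2) - θ * (hh - l))) *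
            ENNReal.ofReal ((M : ℝ) + 1) := by
          rw [← hcast]
          refine hHigh.trans ?_
          gcongr
          exact hLong.trans (by gcongr)
      _ = ENNReal.ofReal (((M : ℝ) + 1) * (B * Real.exp (-δ * l)) * ((M : ℝ) + 1) +
          2 * (M + 1) * Real.exp (M * ((θ * l) ^ 2 / 2) - θ * (hh - l)) * ((M : ℝ) + 1)) := by
          exact ofReal_combo (by positivity) (by positivity) (by positivity)
      _ ≤ _ := by
          apply ENNReal.ofReal_le_ofReal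
          calc ((M : ℝ) + 1) * (B * Real.exp (-δ * l)) * ((M : ℝ) + 1) +
                2 * (M + 1) * Real.exp (M * ((θ * l) ^ 2 / 2) - θ * (hh - l)) * ((M : ℝ) + 1)
              ≤ (3 * n) * (B * (1 / (n : ℝ) ^ (K + 5))) * (3 * n) +
                2 * (3 * n) * (Real.exp 1 * (1 / (n : ℝ) ^ (K + 5))) * (3 * n) := by gcongr
            _ = _ := by ring
  have hfin : ∀ x : ℝ≥0∞, x ≤ ENNReal.ofReal ((3 * n) ^ 2 * ((B + 2 * Real.exp 1) *
      (1 / (n : ℝ) ^ (K + 5)))) → x * mass (ex u c 0) (BM M) ≤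
      ENNReal.ofReal (1 / (n : ℝ) ^ K / 2) := by
    intro x hx
    calc x * mass (ex u c 0) (BM M) ≤ ENNReal.ofReal ((3 * n) ^ 2 * ((B + 2 * Real.exp 1) *
      (1 / (n : ℝ) ^ (K + 5)))) * ENNReal.ofReal ((M : ℝ) + 1) := by
          rw [← hcast]; gcongr
      _ = ENNReal.ofReal ((3 * n) ^ 2 * ((B + 2 * Real.exp 1) *
      (1 / (n : ℝ) ^ (K + 5))) * ((M : ℝ) + 1)) := by
          rw [← ENNReal.ofReal_mul (by positivity)]
      _ ≤ _ := by
          apply ENNReal.ofReal_le_ofReal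
          exact final_bound hn hM3 (by positivity)
            (by linarith) hn1
  rw [mul_comm (mass (ex u c 0) (BM M)) (mass (ex u c 0) (HighW M hh))]
  calc _ ≤ ENNReal.ofReal (1 / (n : ℝ) ^ K / 2) + ENNReal.ofReal (1 / (n : ℝ) ^ K / 2) := by
        gcongr <;> exact hfin _ hbound
    _ = _ := by
        rw [← ENNReal.ofReal_add (by positivity) (by positivity)]
        congr 1; ring

/-! ### lower tail -/

lemma mass_sigma_leT {α β : Type*} {φ : α → ℝ≥0∞} {ψ : β → ℝ≥0∞} {A : Set α} {B : α → Set β}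
    {M : ℝ≥0∞} (h : ∀ a ∈ A, mass ψ (B a) ≤ M) :
    mass (fun p : α × β => φ p.1 * ψ p.2) {p | p.1 ∈ A ∧ p.2 ∈ B p.1} ≤ mass φ A * M := by
  rw [mass_eq_indicator, mass_eq_indicator, ENNReal.tsum_prod', ← ENNReal.tsum_mul_right]
  refine ENNReal.tsum_le_tsum fun a => ?_
  by_cases ha : a ∈ A
  · rw [Set.indicator_of_mem ha]
    have h1 : ∀ b, ({p : α × β | p.1 ∈ A ∧ p.2 ∈ B p.1}).indicator
        (fun p : α × β => φ p.1 * ψ p.2) (a, b) = φ a * (B a).indicator ψ b := by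
      intro b
      by_cases hb : b ∈ B a
      · rw [Set.indicator_of_mem hb, Set.indicator_of_mem
          (show (a, b) ∈ {p : α × β | p.1 ∈ A ∧ p.2 ∈ B p.1} from ⟨ha, hb⟩)]
      · rw [Set.indicator_of_notMem hb, mul_zero, Set.indicator_of_notMem]
        intro hc; exact hb hc.2
    simp only [h1]
    rw [ENNReal.tsum_mul_left, ← mass_eq_indicator]
    exact mul_le_mul_right (h a ha) _
  · rw [Set.indicator_of_notMem ha, zero_mul]
    refine le_of_eq (ENNReal.tsum_eq_zero.2 fun b => ?_)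
    rw [Set.indicator_of_notMem]
    intro hc; exact ha hc.1

/-- bridges `β` with many short pieces and small far functional relative to `D` -/
def RW (M l n : ℕ) (D : ℤ → Finset ℤ) (a : ℝ) : Set Word :=
  {w | ∃ ps : List Word, ps.length ≤ M ∧ AllIrr ps ∧ ps.flatten = w ∧ n + 1 ≤ ps.length * l ∧
    ∀ r : ℕ, 1 ≤ r → ((r * farP r D 0 0 ps : ℕ) : ℝ) ≤ a}

lemma mass_RW_le {u c : ℝ} (hp : Params u c) {ε ρ : ℝ} (hρ1 : ρ < 1) (hρ0 : 0 < ρ)
    (hε : 0 < ε)
    (hfew : ∀ k : ℕ, mass (fun ps : List Word => ex u c 0 ps.flatten)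
      {ps | ps.length = k ∧ AllIrr ps ∧ (ps.countP (fun p => decide (Flp p)) : ℝ) < ε * k} ≤
        ENNReal.ofReal (ρ ^ k)) (D : ℤ → Finset ℤ) (a : ℝ)
    (M l n J k0 q r : ℕ) (hD : ∀ x, (D x).card ≤ l) (hk0 : ∀ k : ℕ, n + 1 ≤ k * l → k0 ≤ k)
    (hr : 1 ≤ r) (hJ : ((J * (4 * q) : ℕ) : ℝ) ≤ ε * k0) (hq : 64 * r ^ 2 * l ^ 2 ≤ q)
    (ha : a < ((r * q : ℕ) : ℝ)) :
    mass (ex u c 0) (RW M l n D a) ≤
      (M + 1 : ℕ) * (ENNReal.ofReal (ρ ^ k0) + (1 / 2) ^ J) := by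
  have h1 : mass (ex u c 0) (RW M l n D a) ≤ mass (fun ps : List Word => ex u c 0 ps.flatten)
      (⋃ j : Fin (M + 1), {ps | ps.length = (j : ℕ) ∧ AllIrr ps ∧ n + 1 ≤ (j : ℕ) * l ∧
        ∀ r : ℕ, 1 ≤ r → ((r * farP r D 0 0 ps : ℕ) : ℝ) ≤ a}) := by
    refine mass_le_of_section List.flatten ?_
    rintro w ⟨ps, hlen, hps, rfl, hl, hc⟩
    refine ⟨ps, ?_, rfl, le_rfl⟩
    rw [Set.mem_iUnion]
    exact ⟨⟨ps.length, by omega⟩, rfl, hps, hl, hc⟩
  refine h1.trans ((mass_iUnion_le _ _).trans ?_)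
  rw [tsum_fintype]
  calc _ ≤ ∑ _j : Fin (M + 1), (ENNReal.ofReal (ρ ^ k0) + (1 / 2) ^ J) := by
        refine Finset.sum_le_sum fun j _ => ?_
        by_cases hj : n + 1 ≤ (j : ℕ) * l
        · have hkj := hk0 _ hj
          have h2 : {ps : List Word | ps.length = (j : ℕ) ∧ AllIrr ps ∧ n + 1 ≤ (j : ℕ) * l ∧
              ∀ r : ℕ, 1 ≤ r → ((r * farP r D 0 0 ps : ℕ) : ℝ) ≤ a} ⊆
              {ps | ps.length = (j : ℕ) ∧ AllIrr ps ∧
                (ps.countP (fun p => decide (Flp p)) : ℝ) < ε * (j : ℕ)} ∪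
              {ps | ps.length = (j : ℕ) ∧ AllIrr ps ∧
                J * (4 * q) ≤ ps.countP (fun p => decide (Flp p)) ∧ farP r D 0 0 ps < q} := by
            rintro ps ⟨hlen, hps, -, hc⟩
            by_cases hcount : (ps.countP (fun p => decide (Flp p)) : ℝ) < ε * (j : ℕ)
            · left; exact ⟨hlen, hps, hcount⟩
            · right
              refine ⟨hlen, hps, ?_, ?_⟩
              · have h3 : ((J * (4 * q) : ℕ) : ℝ) ≤ (ps.countP (fun p => decide (Flp p)) : ℝ) := by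
                  refine hJ.trans (le_trans ?_ (not_lt.1 hcount))
                  gcongr
                exact_mod_cast h3
              · have h3 := lt_of_le_of_lt (hc r hr) ha
                have h4 : r * farP r D 0 0 ps < r * q := by exact_mod_cast h3
                exact Nat.lt_of_mul_lt_mul_left h4
          refine (mass_mono h2).trans ((mass_union_le _ _ _).trans ?_)
          refine add_le_add ((hfew _).trans (ENNReal.ofReal_le_ofReal ?_))
            (flip_bound hp.one D l r q J _ hD hq)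
          exact pow_le_pow_of_le_one hρ0.le hρ1.le hkj
        · have h2 : {ps : List Word | ps.length = (j : ℕ) ∧ AllIrr ps ∧ n + 1 ≤ (j : ℕ) * l ∧
              ∀ r : ℕ, 1 ≤ r → ((r * farP r D 0 0 ps : ℕ) : ℝ) ≤ a} = ∅ := by
            refine Set.eq_empty_of_forall_notMem ?_
            rintro ps ⟨-, -, h3, -⟩
            exact hj h3
          rw [h2, mass_empty]
          exact zero_le
    _ = _ := by
        rw [Finset.sum_const, Finset.card_univ, Fintype.card_fin, nsmul_eq_mul]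

/-- the bad pairs whose second component is long -/
def BadL (n : ℕ) (a : ℝ) : Set (Word × Word) :=
  {p | p ∈ Pairs n ∧ n + 1 ≤ p.2.length ∧ ∀ r : ℕ, 1 ≤ r → ∀ ps, AllIrr ps → ps.flatten = p.2 →
    ((r * farP r (colH p.1) 0 0 ps : ℕ) : ℝ) ≤ a}

lemma mass_BadL_le {u c : ℝ} (hp : Params u c) {ε ρ : ℝ} (hρ1 : ρ < 1) (hρ0 : 0 < ρ)
    (hε : 0 < ε)
    (hfew : ∀ k : ℕ, mass (fun ps : List Word => ex u c 0 ps.flatten)
      {ps | ps.length = k ∧ AllIrr ps ∧ (ps.countP (fun p => decide (Flp p)) : ℝ) < ε * k} ≤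
        ENNReal.ofReal (ρ ^ k)) (a : ℝ)
    (l n J k0 q r : ℕ) (hk0 : ∀ k : ℕ, n + 1 ≤ k * l → k0 ≤ k)
    (hr : 1 ≤ r) (hJ : ((J * (4 * q) : ℕ) : ℝ) ≤ ε * k0) (hq : 64 * r ^ 2 * l ^ 2 ≤ q)
    (ha : a < ((r * q : ℕ) : ℝ)) :
    mass (pw u c) (BadL n a) ≤
      2 * ((2 * n + 2 + 1 : ℕ) * mass (ex u c 0) (LongW (2 * n + 2) l)) +
      (2 * n + 2 + 1 : ℕ) * ((2 * n + 2 + 1 : ℕ) * (ENNReal.ofReal (ρ ^ k0) + (1 / 2) ^ J)) := by
  set M := 2 * n + 2 with hM
  have hsub : BadL n a ⊆ ((LongW M l ×ˢ BM M) ∪ (BM M ×ˢ LongW M l)) ∪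
      {p | p.1 ∈ BM M \ LongW M l ∧ p.2 ∈ RW M l n (colH p.1) a} := by
    rintro ⟨α, β⟩ ⟨⟨hα, hβ, hlen⟩, hlong, hc⟩
    simp only at hα hβ hlen hlong hc
    have hαM : α ∈ BM M := ⟨hα, by omega⟩
    have hβM : β ∈ BM M := ⟨hβ, by omega⟩
    by_cases h1 : α ∈ LongW M l
    · left; left; exact ⟨h1, hβM⟩
    by_cases h2 : β ∈ LongW M l
    · left; right; exact ⟨hαM, h2⟩
    right
    refine ⟨⟨hαM, h1⟩, ?_⟩
    obtain ⟨ps, hps, hfl⟩ := exists_factor hβ
    have hl : ∀ p ∈ ps, p.length ≤ l := by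
      by_contra hcon
      push Not at hcon
      exact h2 ⟨hβM, ps, hps, hfl, hcon⟩
    have h3 : ps.flatten.length ≤ ps.length * l := by
      clear hfl hc
      induction ps with
      | nil => simp
      | cons p ps ih =>
        have h4 := ih (fun q hq => hps q (by simp [hq])) (fun q hq => hl q (by simp [hq]))
        have h5 := hl p (by simp)
        simp only [List.flatten_cons, List.length_append, List.length_cons, add_mul, one_mul]
        omega
    have h4 := length_le_of_allIrr hps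
    refine ⟨ps, ?_, hps, hfl, ?_, fun r hr => hc r hr ps hps hfl⟩
    · rw [hfl] at h4; omega
    · rw [hfl] at h3; omega
  refine (mass_mono hsub).trans ((mass_union_le _ _ _).trans ?_)
  have hp1 : mass (pw u c) (LongW M l ×ˢ BM M) =
      mass (ex u c 0) (LongW M l) * mass (ex u c 0) (BM M) :=
    mass_prod (ex u c 0) (ex u c 0) _ _
  have hp2 : mass (pw u c) (BM M ×ˢ LongW M l) =
      mass (ex u c 0) (BM M) * mass (ex u c 0) (LongW M l) :=
    mass_prod (ex u c 0) (ex u c 0) _ _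
  have hBM := mass_BM_le hp M
  have hp3 : mass (pw u c) {p | p.1 ∈ BM M \ LongW M l ∧ p.2 ∈ RW M l n (colH p.1) a} ≤
      mass (ex u c 0) (BM M \ LongW M l) *
        ((M + 1 : ℕ) * (ENNReal.ofReal (ρ ^ k0) + (1 / 2) ^ J)) := by
    refine mass_sigma_leT (φ := ex u c 0) (ψ := ex u c 0) (B := fun α => RW M l n (colH α) a) ?_
    intro α hα
    refine mass_RW_le hp hρ1 hρ0 hε hfew _ a M l n J k0 q r ?_ hk0 hr hJ hq ha
    intro x
    obtain ⟨ps, hps, hfl⟩ := exists_factor hα.1.1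
    rw [← hfl]
    refine card_colH_le hps ?_ x
    by_contra hcon
    push Not at hcon
    exact hα.2 ⟨hα.1, ps, hps, hfl, hcon⟩
  refine add_le_add ?_ (hp3.trans ?_)
  · refine (mass_union_le _ _ _).trans ?_
    rw [hp1, hp2, two_mul]
    refine add_le_add ?_ ?_
    · rw [mul_comm]; gcongr
    · gcongr
  · gcongr
    exact (mass_mono Set.sdiff_subset).trans hBM

set_option maxHeartbeats 1000000 in
theorem lower_tail {u c : ℝ} (h : Params u c) (K : ℕ) : ∀ᶠ n : ℕ in atTop,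
    mass (pw u c) {p | p ∈ Pairs n ∧
      (∀ r : ℕ, 1 ≤ r → ∀ ps, AllIrr ps → ps.flatten = p.2 →
        ((r * farP r (colH p.1) 0 0 ps : ℕ) : ℝ) ≤ (n : ℝ) ^ (3 / 2 : ℝ) / (Real.log n) ^ (5 : ℝ)) ∧
      (∀ r : ℕ, 1 ≤ r → ∀ ps, AllIrr ps → ps.flatten = p.1 →
        ((r * farP r (colH p.2) 0 0 ps : ℕ) : ℝ) ≤ (n : ℝ) ^ (3 / 2 : ℝ) / (Real.log n) ^ (5 : ℝ))} ≤
      ENNReal.ofReal (1 / (n : ℝ) ^ K) := by
  obtain ⟨δ, hδ, B, hB, hLP⟩ := exists_LP_bound h
  obtain ⟨ε, hε, ρ, hρ1, hρ0, hfew⟩ := few_flips h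
  set A : ℝ := (K + 5) / δ with hA
  have hApos : 0 < A := by positivity
  set A' : ℝ := (K + 5) / Real.log 2 with hA'
  have hlog2 : 0 < Real.log 2 := Real.log_pos (by norm_num)
  have hA'pos : 0 < A' := by positivity
  have hlr : 0 < -Real.log ρ := by
    have := Real.log_neg hρ0 hρ1
    linarith
  have e0 := numerics hApos hA'pos hε
  have e1 := eventually_log_ge 1
  have e2 := eventually_nat_ge (54 * (4 * B + 4) + 4)
  have e3 := eventually_pow_log_le (((K + 5) / (-Real.log ρ)) ^ 2) 2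
  filter_upwards [e0, e1, e2, e3, eventually_ge_atTop 3] with n h0 h1 h2 h3 hn3
  obtain ⟨l, J, k0, q, r, hl1, hAl, hl2, hJ1, hk0, hr, hJ, hq, ha, hsk⟩ := h0
  set L := Real.log n with hL
  have hn : (0 : ℝ) < n := by
    have : 0 < n := by omega
    exact_mod_cast this
  have hn1 : (1 : ℝ) ≤ n := by
    have : 1 ≤ n := by omega
    exact_mod_cast this
  have hLpos : 0 < L := by linarith
  set a : ℝ := (n : ℝ) ^ (3 / 2 : ℝ) / L ^ (5 : ℝ) with hadef
  have hb := mass_BadL_le h hρ1 hρ0 hε hfew a l n J k0 q r hk0 hr hJ hq ha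
  have hsub : {p : Word × Word | p ∈ Pairs n ∧
      (∀ r : ℕ, 1 ≤ r → ∀ ps, AllIrr ps → ps.flatten = p.2 →
        ((r * farP r (colH p.1) 0 0 ps : ℕ) : ℝ) ≤ a) ∧
      (∀ r : ℕ, 1 ≤ r → ∀ ps, AllIrr ps → ps.flatten = p.1 →
        ((r * farP r (colH p.2) 0 0 ps : ℕ) : ℝ) ≤ a)} ⊆
      BadL n a ∪ {p | p.swap ∈ BadL n a} := by
    rintro ⟨α, β⟩ ⟨⟨hα, hβ, hlen⟩, hc1, hc2⟩
    simp only at hα hβ hlen hc1 hc2
    by_cases h4 : n + 1 ≤ β.length
    · left; exact ⟨⟨hα, hβ, hlen⟩, h4, hc1⟩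
    · right
      refine ⟨⟨hβ, hα, ?_⟩, ?_, hc2⟩
      · simp only [Prod.fst_swap, Prod.snd_swap]; omega
      · simp only [Prod.snd_swap]; omega
  have hswap : mass (pw u c) {p | p.swap ∈ BadL n a} ≤ mass (pw u c) (BadL n a) := by
    refine mass_le_of_injOn Prod.swap (Prod.swap_injective.injOn) (fun p hp => hp) ?_
    intro p _
    unfold pw
    rw [Prod.fst_swap, Prod.snd_swap, mul_comm]
  refine (mass_mono hsub).trans ((mass_union_le _ _ _).trans ?_)
  have hnK : Real.exp (-((K : ℝ) + 5) * L) = 1 / (n : ℝ) ^ (K + 5) := by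
    rw [hL, show -((K : ℝ) + 5) * Real.log n = Real.log n * (-((K + 5 : ℕ) : ℝ)) by push_cast; ring,
      Real.exp_mul, Real.exp_log hn, Real.rpow_neg hn.le, Real.rpow_natCast, one_div]
  set e : ℝ := 1 / (n : ℝ) ^ (K + 5) with he
  have hepos : 0 ≤ e := by positivity
  have hE1 : Real.exp (-δ * l) ≤ e := by
    rw [← hnK]
    apply Real.exp_le_exp.2
    have : δ * (A * L) ≤ δ * l := by gcongr
    have h7 : δ * (A * L) = (K + 5) * L := by rw [hA]; field_simp
    linarith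
  have hE2 : (ρ : ℝ) ^ k0 ≤ e := by
    have hρk : ρ ^ k0 = Real.exp (k0 * Real.log ρ) := by
      rw [Real.exp_nat_mul, Real.exp_log hρ0]
    rw [← hnK, hρk]
    apply Real.exp_le_exp.2
    have h8 : (K + 5) / (-Real.log ρ) * L ≤ Real.sqrt n := by
      apply Real.le_sqrt_of_sq_le
      rw [mul_pow]; exact h3
    have h9 : (K + 5) / (-Real.log ρ) * L ≤ k0 := h8.trans hsk
    rw [div_mul_eq_mul_div, div_le_iff₀ hlr] at h9
    linarith
  have hE3 : ((1 : ℝ) / 2) ^ J ≤ e := by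
    rw [← hnK, show ((1 : ℝ) / 2) = Real.exp (-Real.log 2) by
      rw [Real.exp_neg, Real.exp_log (by norm_num)]; norm_num, ← Real.exp_nat_mul]
    apply Real.exp_le_exp.2
    have : A' * L * Real.log 2 ≤ J * Real.log 2 := by gcongr
    have h7 : A' * L * Real.log 2 = (K + 5) * L := by rw [hA']; field_simp
    linarith
  have hM3 : ((2 * n + 2 + 1 : ℕ) : ℝ) ≤ 3 * n := by
    push_cast
    have : (3 : ℝ) ≤ n := by exact_mod_cast hn3
    linarith
  set m : ℝ := ((2 * n + 2 + 1 : ℕ) : ℝ) with hm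
  have hmpos : 0 ≤ m := by positivity
  have hcast : ((2 * n + 2 + 1 : ℕ) : ℝ≥0∞) = ENNReal.ofReal m := by
    rw [hm, ENNReal.ofReal_natCast]
  have hLong := mass_LongW_le h (2 * n + 2) l
  rw [hcast] at hb hLong
  have hhalf : ((1 : ℝ≥0∞) / 2) ^ J = ENNReal.ofReal ((1 / 2 : ℝ) ^ J) := by
    rw [ENNReal.ofReal_pow (by norm_num), ENNReal.ofReal_div_of_pos (by norm_num)]
    simp
  have hBadL : mass (pw u c) (BadL n a) ≤ ENNReal.ofReal (m ^ 3 * ((2 * B + 2) * e)) := by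
    refine hb.trans ?_
    rw [hhalf]
    calc _ ≤ 2 * (ENNReal.ofReal m * (ENNReal.ofReal m * ENNReal.ofReal (B * Real.exp (-δ * l)) *
            ENNReal.ofReal m)) +
          ENNReal.ofReal m * (ENNReal.ofReal m *
            (ENNReal.ofReal (ρ ^ k0) + ENNReal.ofReal ((1 / 2) ^ J))) := by
          gcongr
          exact hLong.trans (by gcongr; exact hLP l)
      _ = ENNReal.ofReal (2 * (m * (m * (B * Real.exp (-δ * l)) * m)) +
          m * (m * (ρ ^ k0 + (1 / 2) ^ J))) := by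
          have hb1 : 0 ≤ B * Real.exp (-δ * l) := by positivity
          have hb2 : 0 ≤ ρ ^ k0 := by positivity
          have hb3 : (0 : ℝ) ≤ (1 / 2) ^ J := by positivity
          rw [ENNReal.ofReal_add (by positivity) (by positivity),
            ENNReal.ofReal_mul (p := 2) (by norm_num), ENNReal.ofReal_mul hmpos,
            ENNReal.ofReal_mul (p := m * (B * Real.exp (-δ * l))) (by positivity),
            ENNReal.ofReal_mul hmpos, ENNReal.ofReal_mul (q := m * (ρ ^ k0 + (1 / 2) ^ J)) hmpos,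
            ENNReal.ofReal_mul (q := ρ ^ k0 + (1 / 2) ^ J) hmpos, ENNReal.ofReal_add hb2 hb3]
          simp
      _ ≤ _ := by
          apply ENNReal.ofReal_le_ofReal
          have hm1 : 1 ≤ m := by
            rw [hm]; push_cast; linarith
          calc 2 * (m * (m * (B * Real.exp (-δ * l)) * m)) + m * (m * (ρ ^ k0 + (1 / 2) ^ J))
              ≤ 2 * (m * (m * (B * e) * m)) + m * (m * (e + e)) * m := by
                have : m * (m * (ρ ^ k0 + (1 / 2) ^ J)) ≤ m * (m * (e + e)) := by gcongr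
                have h8 : m * (m * (e + e)) ≤ m * (m * (e + e)) * m :=
                  le_mul_of_one_le_right (by positivity) hm1
                have h9 : 2 * (m * (m * (B * Real.exp (-δ * l)) * m)) ≤
                    2 * (m * (m * (B * e) * m)) := by gcongr
                linarith
            _ = m ^ 3 * ((2 * B + 2) * e) := by ring
  have hfinal : m ^ 3 * ((2 * B + 2) * e) ≤ 1 / (n : ℝ) ^ K / 2 := by
    have h8 := final_bound (n := (n : ℝ)) (Mr := m) (G := 2 * B + 2) (k := K) hn hM3 (by positivity)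
      (by linarith) hn1
    refine le_trans ?_ h8
    calc m ^ 3 * ((2 * B + 2) * e) = m ^ 2 * ((2 * B + 2) * e) * m := by ring
      _ ≤ (3 * n) ^ 2 * ((2 * B + 2) * e) * m := by gcongr
  calc _ ≤ ENNReal.ofReal (1 / (n : ℝ) ^ K / 2) + ENNReal.ofReal (1 / (n : ℝ) ^ K / 2) :=
        add_le_add (hBadL.trans (ENNReal.ofReal_le_ofReal hfinal))
          (hswap.trans (hBadL.trans (ENNReal.ofReal_le_ofReal hfinal)))
    _ = _ := by
        rw [← ENNReal.ofReal_add (by positivity) (by positivity)]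
        congr 1; ring

end Pool.Agent.SAPF
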