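import Pool.Agent.SAPF.Renew
import Pool.Agent.SAPF.Build

/-!
Lower bound for the partition function of the stretched self-avoiding polygons.
-/

namespace Pool.Agent.SAPF

open scoped ENNReal
open Filter

namespace ZLow

/-! ### generalities -/

lemma isIrr_flipY {p : Word} (h : IsIrr p) : IsIrr (flipY p) := by
  refine ⟨h.br.flipY, by rw [Ne, flipY_eq_nil]; exact h.ne, ?_⟩
  intro u v huv hu hv
  have h1 : p = flipY u ++ flipY v := by rw [← flipY_append, ← huv, flipY_flipY]
  rcases h.irr h1 hu.flipY hv.flipY with h2 | h2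
  · exact Or.inl (flipY_eq_nil.1 h2)
  · exact Or.inr (flipY_eq_nil.1 h2)

lemma flatten_map_flipY (ps : List Word) : (ps.map flipY).flatten = flipY ps.flatten := by
  induction ps with
  | nil => rfl
  | cons p ps ih => simp [ih]

lemma allIrr_map_flipY {ps : List Word} (h : AllIrr ps) : AllIrr (ps.map flipY) := by
  intro p hp
  obtain ⟨q, hq, rfl⟩ := List.mem_map.1 hp
  exact isIrr_flipY (h q hq)

lemma ex_flipY0 (u c : ℝ) (w : Word) : ex u c 0 (flipY w) = ex u c 0 w := by
  rw [ex_flipY, neg_zero]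

lemma mass_mul_fiber {φ : Word → ℝ≥0∞} (hφ : ∀ u v, φ (u ++ v) = φ u * φ v) {A B : Set Word}
    {C : Word → Set Word} {M : ℝ≥0∞} (hC : ∀ u ∈ B, mass φ (C u) ≤ M)
    (h : ∀ w ∈ A, ∃ u ∈ B, ∃ v ∈ C u, w = u ++ v) : mass φ A ≤ mass φ B * M := by
  have h1 : mass φ A ≤ mass (fun p : Word × Word => φ p.1 * φ p.2) {p | p.1 ∈ B ∧ p.2 ∈ C p.1} := by
    refine mass_le_of_section (fun p : Word × Word => p.1 ++ p.2) ?_
    intro w hw
    obtain ⟨u, hu, v, hv, rfl⟩ := h w hw
    exact ⟨(u, v), ⟨hu, hv⟩, rfl, (hφ u v).le⟩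
  refine h1.trans ?_
  rw [mass_eq_indicator, mass_eq_indicator, ENNReal.tsum_prod', ← ENNReal.tsum_mul_right]
  refine ENNReal.tsum_le_tsum fun a => ?_
  by_cases ha : a ∈ B
  · rw [Set.indicator_of_mem ha]
    have h2 : ∀ b, Set.indicator {p : Word × Word | p.1 ∈ B ∧ p.2 ∈ C p.1}
        (fun p : Word × Word => φ p.1 * φ p.2) (a, b) = φ a * (C a).indicator φ b := by
      intro b
      by_cases hb : b ∈ C a
      · rw [Set.indicator_of_mem (by exact ⟨ha, hb⟩), Set.indicator_of_mem hb]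
      · rw [Set.indicator_of_notMem (by rintro ⟨_, h⟩; exact hb h), Set.indicator_of_notMem hb,
          mul_zero]
    rw [tsum_congr h2, ENNReal.tsum_mul_left, ← mass_eq_indicator]
    gcongr
    exact hC a ha
  · have h2 : ∀ b, Set.indicator {p : Word × Word | p.1 ∈ B ∧ p.2 ∈ C p.1}
        (fun p : Word × Word => φ p.1 * φ p.2) (a, b) = 0 := by
      intro b
      rw [Set.indicator_of_notMem (by rintro ⟨h, _⟩; exact ha h)]
    rw [tsum_congr h2]; simp

/-- finite unions -/
lemma mass_le_sum_of_cover {α ι : Type*} {φ : α → ℝ≥0∞} {A : Set α} (s : Finset ι)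
    (B : ι → Set α) (h : ∀ a ∈ A, ∃ i ∈ s, a ∈ B i) : mass φ A ≤ ∑ i ∈ s, mass φ (B i) := by
  classical
  induction s using Finset.induction_on generalizing A with
  | empty =>
    have : A = ∅ := by
      rw [Set.eq_empty_iff_forall_notMem]
      intro a ha
      obtain ⟨i, hi, _⟩ := h a ha
      simp at hi
    simp [this]
  | insert j s hj ih =>
    rw [Finset.sum_insert hj]
    have h1 : A ⊆ B j ∪ (A \ B j) := by
      intro a ha
      by_cases hb : a ∈ B j
      · exact Or.inl hb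
      · exact Or.inr ⟨ha, hb⟩
    refine (mass_mono h1).trans ((mass_union_le _ _ _).trans ?_)
    gcongr
    apply ih
    rintro a ⟨ha, hb⟩
    obtain ⟨i, hi, hai⟩ := h a ha
    rcases Finset.mem_insert.1 hi with h2 | h2
    · rw [h2] at hai; exact absurd hai hb
    · exact ⟨i, h2, hai⟩

/-! ### long pieces -/

lemma tail_bound {u c δ : ℝ} (hδ : 0 < δ) (l : ℕ) :
    mass (ex u c 0) {p | IsIrr p ∧ l < p.length} ≤
      ENNReal.ofReal (Real.exp (-δ * l)) * mass (ex (u - δ) c 0) Irr := by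
  rw [← mass_const_mul]
  refine le_trans ?_ (mass_mono (A := {p | IsIrr p ∧ l < p.length}) ?_)
  · refine mass_mono_fun ?_
    rintro p ⟨_, hp⟩
    unfold ex
    rw [← ENNReal.ofReal_mul (Real.exp_pos _).le, ← Real.exp_add]
    apply ENNReal.ofReal_le_ofReal
    apply Real.exp_le_exp.2
    have h1 : (l : ℝ) ≤ p.length := by exact_mod_cast hp.le
    nlinarith
  · rintro p ⟨hp, _⟩
    exact hp

/-- lists of short pieces with total length `N` -/
def Gd (l N : ℕ) : Set (List Word) :=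
  {ps | AllIrr ps ∧ (∀ p ∈ ps, p.length ≤ l) ∧ ps.flatten.length = N}

noncomputable def wt (u c : ℝ) (ps : List Word) : ℝ≥0∞ := ex u c 0 ps.flatten

lemma wt_append (u c : ℝ) (ps qs : List Word) : wt u c (ps ++ qs) = wt u c ps * wt u c qs := by
  unfold wt; rw [List.flatten_append, ex_append]

lemma allIrr_append {ps qs : List Word} : AllIrr (ps ++ qs) ↔ AllIrr ps ∧ AllIrr qs := by
  unfold AllIrr
  constructor
  · intro h
    exact ⟨fun p hp => h p (List.mem_append_left _ hp), fun p hp => h p (List.mem_append_right _ hp)⟩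
  · rintro ⟨h1, h2⟩ p hp
    rcases List.mem_append.1 hp with h | h
    · exact h1 p h
    · exact h2 p h

lemma mass_short {u c : ℝ} (h : Params u c) (l N : ℕ) :
    mass (ex u c 0) {w | IsBr w ∧ w.length = N} ≤ mass (wt u c) (Gd l N) +
      (N + 1 : ℕ) * mass (ex u c 0) {p | IsIrr p ∧ l < p.length} := by
  set T := mass (ex u c 0) {p | IsIrr p ∧ l < p.length} with hT
  let A1 : Set Word := {w | ∃ ps ∈ Gd l N, ps.flatten = w}
  let A2 : Set Word := {w | ∃ a p b : Word, IsBr a ∧ IsIrr p ∧ IsBr b ∧ l < p.length ∧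
    w = a ++ (p ++ b) ∧ w.length = N}
  have h1 : {w | IsBr w ∧ w.length = N} ⊆ A1 ∪ A2 := by
    rintro w ⟨hw, hl⟩
    obtain ⟨ps, hps, rfl⟩ := exists_factor hw
    by_cases hs : ∀ p ∈ ps, p.length ≤ l
    · left
      exact ⟨ps, ⟨hps, hs, hl⟩, rfl⟩
    · right
      push Not at hs
      obtain ⟨p, hp, hlp⟩ := hs
      obtain ⟨a, b, rfl⟩ := List.append_of_mem hp
      have ha := (allIrr_append.1 hps).1
      have hb := (allIrr_append.1 hps).2
      have hb' : AllIrr b := fun q hq => hb q (List.mem_cons_of_mem _ hq)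
      exact ⟨a.flatten, p, b.flatten, isBr_flatten ha, hb p (by simp), isBr_flatten hb', hlp,
        by simp, hl⟩
  refine (mass_mono h1).trans ((mass_union_le _ _ _).trans ?_)
  gcongr
  · refine mass_le_of_section (fun ps => ps.flatten) ?_
    rintro w ⟨ps, hps, rfl⟩
    exact ⟨ps, hps, rfl, le_rfl⟩
  · have h2 : mass (ex u c 0) A2 ≤ mass (ex u c 0) {a | IsBr a ∧ a.length ≤ N} * (T * 1) := by
      refine mass_mul_fiber (fun _ _ => ex_append _ _ _ _ _)
        (C := fun a => {w | ∃ p b : Word, IsIrr p ∧ IsBr b ∧ l < p.length ∧ w = p ++ b ∧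
          w.length = N - a.length}) ?_ ?_
      · rintro a ⟨ha, hal⟩
        refine mass_mul_fiber (fun _ _ => ex_append _ _ _ _ _)
          (C := fun p => {b | IsBr b ∧ b.length = N - a.length - p.length}) ?_ ?_
        · rintro p hp
          exact h.up _
        · rintro w ⟨p, b, hp, hb, hlp, rfl, hl⟩
          refine ⟨p, ⟨hp, hlp⟩, b, ⟨hb, ?_⟩, rfl⟩
          simp at hl
          omega
      · rintro w ⟨a, p, b, ha, hp, hb, hlp, rfl, hl⟩
        simp at hl
        refine ⟨a, ⟨ha, by omega⟩, p ++ b, ⟨p, b, hp, hb, hlp, rfl, ?_⟩, rfl⟩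
        simp
        omega
    refine h2.trans ?_
    rw [mul_one]
    gcongr
    refine (mass_le_sum_of_cover (Finset.range (N + 1))
      (fun i => {a | IsBr a ∧ a.length = i}) ?_).trans ?_
    · rintro a ⟨ha, hal⟩
      exact ⟨a.length, by simp; omega, ha, rfl⟩
    · refine (Finset.sum_le_sum (fun i _ => h.up i)).trans ?_
      simp

/-! ### pigeonhole and concatenation -/

/-- lists of short pieces with prescribed length and displacement -/
def Gsh (l N : ℕ) (s h : ℤ) : Set (List Word) :=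
  {ps | ps ∈ Gd l N ∧ X ps.flatten = s ∧ Y ps.flatten = h}

lemma pigeon {u c : ℝ} (l N : ℕ) : ∃ s h : ℤ,
    mass (wt u c) (Gd l N) ≤ ((2 * N + 1) * (2 * N + 1) : ℕ) * mass (wt u c) (Gsh l N s h) := by
  classical
  let F : Finset (ℤ × ℤ) := (Finset.Icc (-(N : ℤ)) N) ×ˢ (Finset.Icc (-(N : ℤ)) N)
  have hcard : F.card = (2 * N + 1) * (2 * N + 1) := by
    simp only [F, Finset.card_product, Int.card_Icc]
    have : ((N : ℤ) + 1 - -(N : ℤ)).toNat = 2 * N + 1 := by omega
    rw [this]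
  have hne : F.Nonempty := ⟨(0, 0), by simp [F]⟩
  obtain ⟨p, hp, hmax⟩ := Finset.exists_max_image F (fun p => mass (wt u c) (Gsh l N p.1 p.2)) hne
  refine ⟨p.1, p.2, ?_⟩
  refine (mass_le_sum_of_cover F (fun p => Gsh l N p.1 p.2) ?_).trans ?_
  · intro ps hps
    have hl := hps.2.2
    have hX := abs_X_le ps.flatten
    have hY := abs_Y_le ps.flatten
    rw [hl] at hX hY
    refine ⟨(X ps.flatten, Y ps.flatten), ?_, hps, rfl, rfl⟩
    simp only [F, Finset.mem_product, Finset.mem_Icc]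
    exact ⟨abs_le.1 hX, abs_le.1 hY⟩
  · refine (Finset.sum_le_card_nsmul F _ _ hmax).trans ?_
    rw [nsmul_eq_mul, hcard]

/-- closed lists: length `2N`, span `2s`, height `0` -/
def Z0 (l N : ℕ) (s : ℤ) : Set (List Word) :=
  {ps | ps ∈ Gd l (2 * N) ∧ X ps.flatten = 2 * s ∧ Y ps.flatten = 0}

lemma concat {u c : ℝ} (l N : ℕ) (s h : ℤ) :
    mass (wt u c) (Gsh l N s h) * mass (wt u c) (Gsh l N s h) ≤ mass (wt u c) (Z0 l N s) := by
  rw [← mass_prod]
  refine mass_le_of_injOn (fun p : List Word × List Word => p.1 ++ p.2.map flipY) ?_ ?_ ?_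
  · rintro ⟨a, b⟩ ⟨ha, hb⟩ ⟨a', b'⟩ ⟨ha', hb'⟩ hab
    simp only at ha hb ha' hb' hab
    have h1 : a.flatten ++ (b.map flipY).flatten = a'.flatten ++ (b'.map flipY).flatten := by
      rw [← List.flatten_append, ← List.flatten_append, hab]
    have h2 : a.flatten = a'.flatten :=
      (List.append_inj h1 (by rw [ha.1.2.2, ha'.1.2.2])).1
    have h3 : a = a' := factor_unique ha.1.1 ha'.1.1 h2
    subst h3
    have h4 : b.map flipY = b'.map flipY := List.append_cancel_left hab
    have h5 : Function.Injective flipY := fun x y hxy => by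
      rw [← flipY_flipY x, hxy, flipY_flipY]
    have h6 : b = b' := List.map_injective_iff.2 h5 h4
    rw [h6]
  · rintro ⟨a, b⟩ ⟨ha, hb⟩
    simp only at ha hb
    obtain ⟨⟨ha1, ha2, ha3⟩, hax, hay⟩ := ha
    obtain ⟨⟨hb1, hb2, hb3⟩, hbx, hby⟩ := hb
    refine ⟨⟨?_, ?_, ?_⟩, ?_, ?_⟩
    · exact allIrr_append.2 ⟨ha1, allIrr_map_flipY hb1⟩
    · intro p hp
      rcases List.mem_append.1 hp with h | h
      · exact ha2 p h
      · obtain ⟨q, hq, rfl⟩ := List.mem_map.1 h
        rw [length_flipY]; exact hb2 q hq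
    · rw [List.flatten_append, flatten_map_flipY, List.length_append, length_flipY, ha3, hb3]; ring
    · rw [List.flatten_append, flatten_map_flipY, X_append, X_flipY, hax, hbx]; ring
    · rw [List.flatten_append, flatten_map_flipY, Y_append, Y_flipY, hay, hby]; ring
  · rintro ⟨a, b⟩ _
    simp only
    rw [wt_append]
    unfold wt
    rw [flatten_map_flipY, ex_flipY0]

/-! ### rotation -/

/-- all partial heights at the ends of pieces are nonnegative -/
def Top (l N : ℕ) (s : ℤ) : Set (List Word) :=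
  {ps | ps ∈ Z0 l N s ∧ ∀ qs, qs <+: ps → 0 ≤ Y qs.flatten}

lemma length_le_flatten {ps : List Word} (h : AllIrr ps) : ps.length ≤ ps.flatten.length := by
  induction ps with
  | nil => simp
  | cons p ps ih =>
    have h1 := ih (fun q hq => h q (List.mem_cons_of_mem _ hq))
    have h2 := List.length_pos_iff.2 (h p (by simp)).ne
    simp only [List.length_cons, List.flatten_cons, List.length_append]
    omega

lemma rotate_top {u c : ℝ} (l N : ℕ) (s : ℤ) :
    mass (wt u c) (Z0 l N s) ≤ (2 * N + 1 : ℕ) * mass (wt u c) (Top l N s) := by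
  classical
  refine (mass_le_sum_of_cover (Finset.range (2 * N + 1))
    (fun i => {ps | i ≤ ps.length ∧ ps.rotate i ∈ Top l N s}) ?_).trans ?_
  · intro ps hps
    obtain ⟨⟨h1, h2, h3⟩, h4, h5⟩ := hps
    obtain ⟨i, hi, hmin⟩ := Finset.exists_min_image (Finset.range (ps.length + 1))
      (fun i => Y (ps.take i).flatten) ⟨0, by simp⟩
    have hi' : i ≤ ps.length := by simp at hi; omega
    refine ⟨i, ?_, hi', ?_⟩
    · have := length_le_flatten h1
      simp; omega
    · rw [List.rotate_eq_drop_append_take hi']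
      have hsplit : (ps.take i).flatten ++ (ps.drop i).flatten = ps.flatten := by
        rw [← List.flatten_append, List.take_append_drop]
      have hYs : Y (ps.take i).flatten + Y (ps.drop i).flatten = 0 := by
        rw [← Y_append, hsplit, h5]
      refine ⟨⟨⟨?_, ?_, ?_⟩, ?_, ?_⟩, ?_⟩
      · intro p hp
        rcases List.mem_append.1 hp with h | h
        · exact h1 p (List.mem_of_mem_drop h)
        · exact h1 p (List.mem_of_mem_take h)
      · intro p hp
        rcases List.mem_append.1 hp with h | h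
        · exact h2 p (List.mem_of_mem_drop h)
        · exact h2 p (List.mem_of_mem_take h)
      · rw [List.flatten_append, List.length_append, add_comm, ← List.length_append, hsplit, h3]
      · rw [List.flatten_append, X_append, add_comm, ← X_append, hsplit, h4]
      · rw [List.flatten_append, Y_append, add_comm, ← Y_append, hsplit, h5]
      · intro qs hqs
        have key : ∀ rs : List Word, rs <+: ps → Y (ps.take i).flatten ≤ Y rs.flatten := by
          intro rs hrs
          have hr : rs = ps.take rs.length := List.prefix_iff_eq_take.1 hrs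
          have := hmin rs.length (by simp; exact hrs.length_le)
          rw [← hr] at this
          exact this
        obtain ⟨t, ht⟩ := hqs
        rcases List.append_eq_append_iff.1 ht with ⟨e, he, _⟩ | ⟨e, he, hte⟩
        · -- drop = qs ++ e
          have h6 : ps.take i ++ qs <+: ps := by
            refine ⟨e, ?_⟩
            rw [List.append_assoc, ← he, List.take_append_drop]
          have h7 := key _ h6
          rw [List.flatten_append, Y_append] at h7
          omega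
        · -- qs = drop ++ e, take = e ++ t
          have h6 : e <+: ps := by
            refine ⟨t ++ ps.drop i, ?_⟩
            rw [← List.append_assoc, ← hte, List.take_append_drop]
          have h7 := key _ h6
          rw [he, List.flatten_append, Y_append]
          omega
  · refine (Finset.sum_le_card_nsmul (Finset.range (2 * N + 1)) _ (mass (wt u c) (Top l N s))
      ?_).trans ?_
    · intro i _
      refine mass_le_of_injOn (fun ps => ps.rotate i) ?_ ?_ ?_
      · exact fun x _ y _ hxy => List.rotate_injective i hxy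
      · intro ps hps; exact hps.2
      · intro ps hps
        have h7 : ps.rotate i = ps.drop i ++ ps.take i := List.rotate_eq_drop_append_take hps.1
        rw [h7, wt_append, mul_comm, ← wt_append, List.take_append_drop]
    · rw [nsmul_eq_mul]; simp

/-! ### back to words -/

/-- words -/
def TopW (l N : ℕ) (s : ℤ) : Set Word :=
  {w | IsBr w ∧ w.length = 2 * N ∧ X w = 2 * s ∧ Y w = 0 ∧ ∀ t, t <+: w → -(l : ℤ) ≤ Y t}
def BotW (l N : ℕ) (s : ℤ) : Set Word :=
  {w | IsBr w ∧ w.length = 2 * N ∧ X w = 2 * s ∧ Y w = 0 ∧ ∀ t, t <+: w → Y t ≤ l}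

lemma prefix_flatten {ps : List Word} {t : Word} (h : t <+: ps.flatten) :
    ∃ qs t', qs <+: ps ∧ t = qs.flatten ++ t' ∧ (t' = [] ∨ ∃ p ∈ ps, t' <+: p) := by
  induction ps generalizing t with
  | nil =>
    refine ⟨[], [], List.prefix_refl _, ?_, Or.inl rfl⟩
    simpa using h
  | cons p ps ih =>
    rw [List.flatten_cons] at h
    rcases prefix_append_cases h with h1 | ⟨b, hb, _, rfl⟩
    · exact ⟨[], t, List.nil_prefix, by simp, Or.inr ⟨p, by simp, h1⟩⟩
    · obtain ⟨qs, t', h2, h3, h4⟩ := ih hb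
      refine ⟨p :: qs, t', ?_, ?_, ?_⟩
      · obtain ⟨r, hr⟩ := h2
        exact ⟨r, by simp [hr]⟩
      · rw [h3]; simp
      · rcases h4 with h4 | ⟨q, hq, h5⟩
        · exact Or.inl h4
        · exact Or.inr ⟨q, List.mem_cons_of_mem _ hq, h5⟩

lemma top_le_topW {u c : ℝ} (l N : ℕ) (s : ℤ) :
    mass (wt u c) (Top l N s) ≤ mass (ex u c 0) (TopW l N s) := by
  refine mass_le_of_injOn (fun ps => ps.flatten) ?_ ?_ (fun _ _ => le_rfl)
  · intro a ha b hb hab
    exact factor_unique ha.1.1.1 hb.1.1.1 hab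
  · intro ps hps
    obtain ⟨⟨⟨h1, h2, h3⟩, h4, h5⟩, h6⟩ := hps
    refine ⟨isBr_flatten h1, h3, h4, h5, ?_⟩
    intro t ht
    obtain ⟨qs, t', hq, rfl, h7⟩ := prefix_flatten ht
    have h8 := h6 qs hq
    have h9 := abs_le.1 (abs_Y_le t')
    have h10 : t'.length ≤ l := by
      rcases h7 with rfl | ⟨p, hp, htp⟩
      · simp
      · exact htp.length_le.trans (h2 p hp)
    rw [Y_append]
    have h11 : ((t'.length : ℕ) : ℤ) ≤ l := by exact_mod_cast h10
    omega

lemma topW_le_botW {u c : ℝ} (l N : ℕ) (s : ℤ) :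
    mass (ex u c 0) (TopW l N s) ≤ mass (ex u c 0) (BotW l N s) := by
  refine mass_le_of_injOn flipY ?_ ?_ ?_
  · intro x _ y _ hxy
    rw [← flipY_flipY x, hxy, flipY_flipY]
  · rintro w ⟨h1, h2, h3, h4, h5⟩
    refine ⟨h1.flipY, by simpa using h2, by simpa using h3, by simp [h4], ?_⟩
    intro t ht
    have := h5 _ (prefix_flipY.1 ht)
    rw [Y_flipY] at this
    omega
  · intro w _
    rw [ex_flipY0]

/-! ### injectivity of the loop -/

lemma dir_ext {d e : Dir} (hx : d.dx = e.dx) (hy : d.dy = e.dy) : d = e := by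
  cases d <;> cases e <;> simp_all [Dir.dx, Dir.dy]

lemma word_ext : ∀ {w w' : Word}, w.length = w'.length →
    (∀ j, j ≤ w.length → X (w.take j) = X (w'.take j) ∧ Y (w.take j) = Y (w'.take j)) → w = w' := by
  intro w
  induction w with
  | nil =>
    intro w' hl _
    exact (List.length_eq_zero_iff.1 (by simpa using hl.symm)).symm
  | cons d w ih =>
    intro w' hl h
    rcases w' with _ | ⟨e, w'⟩
    · simp at hl
    · have h1 := h 1 (by simp)
      simp at h1
      have hde : d = e := dir_ext h1.1 h1.2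
      subst hde
      congr 1
      apply ih
      · simpa using hl
      · intro j hj
        have := h (j + 1) (by simpa using hj)
        simpa using this

lemma loop_inj {m : ℕ} {w w' : Word} (hm : 0 < m) (hl : w.length = m) (hl' : w'.length = m)
    (hx : X w = X w') (hy : Y w = Y w') (h : loop m w = loop m w') : w = w' := by
  apply word_ext (by rw [hl, hl'])
  intro j hj
  rw [hl] at hj
  rcases hj.eq_or_lt with h1 | h1
  · rw [List.take_of_length_le (by omega), List.take_of_length_le (by omega)]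
    exact ⟨hx, hy⟩
  · have : NeZero m := ⟨by omega⟩
    have h2 := congrFun h (j : ZMod m)
    unfold loop at h2
    rw [ZMod.val_natCast_of_lt h1] at h2
    exact ⟨congrArg Prod.fst h2, congrArg Prod.snd h2⟩

/-! ### polygons from pairs of bridges -/

/-- the closed word -/
def clos (k : ℕ) (P Q : Word) : Word :=
  List.replicate k Dir.N ++ P ++ [Dir.E] ++ List.replicate k Dir.S ++ rv (Q ++ [Dir.E])

lemma X_replicate_N (k : ℕ) : X (List.replicate k Dir.N) = 0 := by simp [X, Dir.dx]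
lemma X_replicate_S (k : ℕ) : X (List.replicate k Dir.S) = 0 := by simp [X, Dir.dx]
lemma Y_replicate_N (k : ℕ) : Y (List.replicate k Dir.N) = k := by simp [Y, Dir.dy]
lemma Y_replicate_S (k : ℕ) : Y (List.replicate k Dir.S) = -k := by simp [Y, Dir.dy]

lemma clos_facts {n k l N : ℕ} {s : ℤ} {P Q : Word} (hP : P ∈ TopW l N s) (hQ : Q ∈ BotW l N s)
    (hn : 2 * N + k + 1 = n) :
    (clos k P Q).length = 2 * n ∧ X (clos k P Q) = 0 ∧ Y (clos k P Q) = 0 := by
  obtain ⟨_, hP2, hP3, hP4, _⟩ := hP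
  obtain ⟨_, hQ2, hQ3, hQ4, _⟩ := hQ
  refine ⟨?_, ?_, ?_⟩
  · simp [clos, hP2, hQ2]; omega
  · simp [clos, X_replicate_N, X_replicate_S, hP3, hQ3]
  · simp [clos, Y_replicate_N, Y_replicate_S, hP4, hQ4, Dir.dy]

lemma clos_inj {k N : ℕ} {P Q P' Q' : Word} (h1 : P.length = 2 * N) (h2 : P'.length = 2 * N)
    (h : clos k P Q = clos k P' Q') : P = P' ∧ Q = Q' := by
  unfold clos at h
  simp only [List.append_assoc] at h
  have h3 := List.append_cancel_left h
  have h4 := List.append_inj h3 (by rw [h1, h2])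
  have h5 := List.append_cancel_left (List.append_cancel_left h4.2)
  have h6 : Q ++ [Dir.E] = Q' ++ [Dir.E] := by rw [← rv_rv (Q ++ [Dir.E]), h5, rv_rv]
  exact ⟨h4.1, List.append_cancel_right h6⟩

lemma pairs_le {u c : ℝ} {n k l N : ℕ} {s : ℤ} (hk : 2 * l < k) (hn : 2 * N + k + 1 = n) :
    ENNReal.ofReal (Real.exp (2 * c + 4 * u * N)) *
      (mass (ex u c 0) (TopW l N s) * mass (ex u c 0) (BotW l N s)) ≤
      mass (fun v : ZMod (2 * n) → ℤ × ℤ => ENNReal.ofReal (Real.exp (2 * c * width v)))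
        {v | IsSAP (2 * n) v} := by
  rw [← mass_prod, ← mass_const_mul]
  have key : ∀ p ∈ TopW l N s ×ˢ BotW l N s, IsSAP (2 * n) (loop (2 * n) (clos k p.1 p.2)) ∧
      width (loop (2 * n) (clos k p.1 p.2)) = 2 * s + 1 := by
    rintro ⟨P, Q⟩ ⟨hP, hQ⟩
    obtain ⟨hP1, hP2, hP3, hP4, hP5⟩ := hP
    obtain ⟨hQ1, hQ2, hQ3, hQ4, hQ5⟩ := hQ
    have hlen : P.length + Q.length + 2 * k + 2 = 2 * n := by
      have e1 : P.length = 2 * N := hP2
      have e2 : Q.length = 2 * N := hQ2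
      omega
    have := build_sap (n := n) (k := k) (h := l) hP1 hQ1 (by rw [hP3, hQ3]) hP4 hQ4 hP5 hQ5 hk hlen
    rw [hP3] at this
    exact this
  refine mass_le_of_injOn (fun p : Word × Word => loop (2 * n) (clos k p.1 p.2)) ?_ ?_ ?_
  · rintro ⟨P, Q⟩ ⟨hP, hQ⟩ ⟨P', Q'⟩ ⟨hP', hQ'⟩ hab
    simp only at hP hQ hP' hQ' hab
    obtain ⟨e1, e2, e3⟩ := clos_facts hP hQ hn
    obtain ⟨f1, f2, f3⟩ := clos_facts hP' hQ' hn
    have h1 := loop_inj (by omega) e1 f1 (by rw [e2, f2]) (by rw [e3, f3]) hab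
    obtain ⟨h2, h3⟩ := clos_inj hP.2.1 hP'.2.1 h1
    rw [h2, h3]
  · intro p hp
    exact (key p hp).1
  · intro p hp
    have hw := (key p hp).2
    obtain ⟨hP, hQ⟩ := hp
    rw [hw]
    unfold ex
    rw [hP.2.1, hQ.2.1, hP.2.2.1, hQ.2.2.1, ← ENNReal.ofReal_mul (Real.exp_pos _).le,
      ← ENNReal.ofReal_mul (Real.exp_pos _).le, ← Real.exp_add, ← Real.exp_add]
    apply ENNReal.ofReal_le_ofReal
    apply Real.exp_le_exp.2
    push_cast
    apply le_of_eq
    ring

/-! ### arithmetic -/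

lemma div_step {x y : ℝ} {m : ℕ} {b : ℝ≥0∞} (hy : 0 < y) (hm : (m : ℝ) ≤ y)
    (h : ENNReal.ofReal x ≤ (m : ℝ≥0∞) * b) : ENNReal.ofReal (x / y) ≤ b := by
  rw [ENNReal.ofReal_div_of_pos hy]
  apply ENNReal.div_le_of_le_mul
  refine h.trans ?_
  rw [mul_comm]
  gcongr
  rw [← ENNReal.ofReal_natCast]
  exact ENNReal.ofReal_le_ofReal hm

lemma half_step {κ t : ℝ} {a : ℝ≥0∞} {b : ℝ≥0∞} (hb : b ≤ ENNReal.ofReal t) (ht : t ≤ κ / 2)
    (h : ENNReal.ofReal κ ≤ a + b) : ENNReal.ofReal (κ / 2) ≤ a := by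
  have h1 : ENNReal.ofReal κ ≤ a + ENNReal.ofReal (κ / 2) :=
    h.trans (by gcongr; exact hb.trans (ENNReal.ofReal_le_ofReal ht))
  have h2 : ENNReal.ofReal κ - ENNReal.ofReal (κ / 2) ≤ a := tsub_le_iff_right.2 h1
  rcases le_or_gt 0 κ with hκ | hκ
  · rw [← ENNReal.ofReal_sub _ (by linarith)] at h2
    have : κ - κ / 2 = κ / 2 := by ring
    rwa [this] at h2
  · rw [ENNReal.ofReal_of_nonpos (by linarith)]
    exact zero_le

/-- the lower bound for the mass of the half polygons -/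
lemma mass_topW {u c : ℝ} (h : Params u c) {κ δ M' : ℝ} (hκ : 0 < κ) (hδ : 0 < δ)
    (hlow : ∀ n : ℕ, ENNReal.ofReal κ ≤ mass (ex u c 0) {w | IsBr w ∧ w.length = n})
    (hM : mass (ex (u - δ) c 0) Irr ≤ ENNReal.ofReal M') {l N n : ℕ} (hn : 1 ≤ n)
    (hN : 2 * N + 1 ≤ n) (hl : (n : ℝ) * (Real.exp (-δ * l) * M') ≤ κ / 2) :
    ∃ s : ℤ, ENNReal.ofReal ((κ / 2) ^ 2 / (n : ℝ) ^ 5) ≤ mass (ex u c 0) (TopW l N s) := by
  have hn0 : (0 : ℝ) < n := by exact_mod_cast hn
  have hNn : ((2 * N + 1 : ℕ) : ℝ) ≤ n := by exact_mod_cast hN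
  have h1 : ENNReal.ofReal (κ / 2) ≤ mass (wt u c) (Gd l N) := by
    refine half_step ?_ hl ((hlow N).trans (mass_short h l N))
    rw [ENNReal.ofReal_mul hn0.le, ENNReal.ofReal_mul (Real.exp_pos _).le]
    have h2 : ((N + 1 : ℕ) : ℝ≥0∞) ≤ ENNReal.ofReal (n : ℝ) := by
      rw [ENNReal.ofReal_natCast]
      exact_mod_cast (by omega : N + 1 ≤ n)
    gcongr
    refine (tail_bound hδ l).trans ?_
    gcongr
  obtain ⟨s, hh, hp⟩ := pigeon (u := u) (c := c) l N
  refine ⟨s, ?_⟩
  have h2 : ENNReal.ofReal (κ / 2 / (n : ℝ) ^ 2) ≤ mass (wt u c) (Gsh l N s hh) := by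
    refine div_step (by positivity) ?_ (h1.trans hp)
    push_cast at hNn ⊢
    nlinarith
  have h3 : ENNReal.ofReal ((κ / 2 / (n : ℝ) ^ 2) * (κ / 2 / (n : ℝ) ^ 2)) ≤
      mass (wt u c) (Z0 l N s) := by
    rw [ENNReal.ofReal_mul (by positivity)]
    exact le_trans (mul_le_mul' h2 h2) (concat l N s hh)
  have h4 : ENNReal.ofReal ((κ / 2 / (n : ℝ) ^ 2) * (κ / 2 / (n : ℝ) ^ 2) / n) ≤
      mass (wt u c) (Top l N s) := div_step hn0 hNn (h3.trans (rotate_top l N s))
  have h5 : (κ / 2 / (n : ℝ) ^ 2) * (κ / 2 / (n : ℝ) ^ 2) / n = (κ / 2) ^ 2 / (n : ℝ) ^ 5 := by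
    field_simp
  rw [h5] at h4
  exact h4.trans (top_le_topW l N s)

end ZLow

open ZLow

/-- the partition function of stretched polygons is at least `exp (2 u n)` up to a power of `n` -/
theorem Z_lower {u c : ℝ} (h : Params u c) : ∃ K : ℕ, ∀ᶠ n : ℕ in atTop,
    ENNReal.ofReal (Real.exp (2 * u * n) / (n : ℝ) ^ K) ≤
      mass (fun v : ZMod (2 * n) → ℤ × ℤ => ENNReal.ofReal (Real.exp (2 * c * width v)))
        {v | IsSAP (2 * n) v} := by
  obtain ⟨κ, hκ, hlow⟩ := h.low
  obtain ⟨δ, hδ, hM⟩ := h.tail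
  set M' := (mass (ex (u - δ) c 0) Irr).toReal with hM'def
  have hM' : 0 ≤ M' := ENNReal.toReal_nonneg
  have hMle : mass (ex (u - δ) c 0) Irr ≤ ENNReal.ofReal M' := by
    rw [hM'def, ENNReal.ofReal_toReal hM]
  have hu := h.u_pos
  have hc := h.c_pos
  let C : ℝ := 2 / δ
  have hC : 0 < C := by positivity
  refine ⟨11 + ⌈4 * u * C⌉₊, ?_⟩
  have E1 : ∀ᶠ n : ℕ in atTop, 2 * C * Real.log n ≤ (n : ℝ) / 2 := by
    have h1 := (Real.isLittleO_log_id_atTop.const_mul_left (2 * C)).def (c := 1 / 2) (by norm_num)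
    have h2 := tendsto_natCast_atTop_atTop (R := ℝ) |>.eventually h1
    filter_upwards [h2] with n hn
    simp only [id, Real.norm_eq_abs] at hn
    rw [abs_of_nonneg (by positivity : (0 : ℝ) ≤ (n : ℝ))] at hn
    exact (le_abs_self _).trans (hn.trans (by linarith))
  have E2 : ∀ᶠ n : ℕ in atTop, 2 * M' / κ ≤ (n : ℝ) :=
    tendsto_natCast_atTop_atTop.eventually_ge_atTop _
  have E3 : ∀ᶠ n : ℕ in atTop, Real.exp (10 * u) / (κ / 2) ^ 4 ≤ (n : ℝ) :=
    tendsto_natCast_atTop_atTop.eventually_ge_atTop _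
  have E4 : ∀ᶠ n : ℕ in atTop, 20 ≤ n := eventually_ge_atTop _
  filter_upwards [E1, E2, E3, E4] with n e1 e2 e3 e4
  have hn1 : (1 : ℝ) ≤ n := by exact_mod_cast (by omega : 1 ≤ n)
  have hn20 : (20 : ℝ) ≤ n := by exact_mod_cast e4
  have hn0 : (0 : ℝ) < n := by linarith
  have hlog : 0 ≤ Real.log n := Real.log_nonneg hn1
  set l : ℕ := ⌈C * Real.log n⌉₊ with hl
  have hl1 : C * Real.log n ≤ l := Nat.le_ceil _
  have hl2 : (l : ℝ) < C * Real.log n + 1 := Nat.ceil_lt_add_one (by positivity)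
  have hln : (2 * (l : ℝ)) + 3 ≤ n := by linarith
  have hln' : 2 * l + 3 ≤ n := by exact_mod_cast hln
  obtain ⟨k, N, hk1, hk2, hkN⟩ : ∃ k N : ℕ, 2 * l < k ∧ k ≤ 2 * l + 2 ∧ 2 * N + k + 1 = n := by
    rcases Nat.even_or_odd' (n - (2 * l + 2)) with ⟨N, hN | hN⟩
    · exact ⟨2 * l + 1, N, by omega, by omega, by omega⟩
    · exact ⟨2 * l + 2, N, by omega, by omega, by omega⟩
  have hexp : Real.exp (-δ * l) ≤ 1 / (n : ℝ) ^ 2 := by
    have h1 : -δ * l ≤ -(2 * Real.log n) := by
      have : δ * (C * Real.log n) ≤ δ * l := by gcongr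
      have h2 : δ * (C * Real.log n) = 2 * Real.log n := by
        simp only [C]; field_simp
      linarith
    calc Real.exp (-δ * l) ≤ Real.exp (-(2 * Real.log n)) := Real.exp_le_exp.2 h1
      _ = 1 / (n : ℝ) ^ 2 := by
        rw [Real.exp_neg, one_div, ← Nat.cast_ofNat (R := ℝ), ← Real.log_pow, Real.exp_log (by positivity)]
  obtain ⟨s, hs⟩ := mass_topW h hκ hδ hlow hMle (l := l) (N := N) (n := n) (by omega) (by omega)
    (by
      calc (n : ℝ) * (Real.exp (-δ * l) * M') ≤ n * (1 / (n : ℝ) ^ 2 * M') := by gcongr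
        _ = M' / n := by field_simp
        _ ≤ κ / 2 := by
          rw [div_le_iff₀ hn0]
          rw [div_le_iff₀ hκ] at e2
          linarith)
  have hs' := hs.trans (topW_le_botW (u := u) (c := c) l N s)
  refine le_trans ?_ (pairs_le (u := u) (c := c) hk1 hkN (s := s))
  have h6 : ENNReal.ofReal (Real.exp (2 * c + 4 * u * N) *
      ((κ / 2) ^ 2 / (n : ℝ) ^ 5 * ((κ / 2) ^ 2 / (n : ℝ) ^ 5))) ≤
      ENNReal.ofReal (Real.exp (2 * c + 4 * u * N)) *
      (mass (ex u c 0) (TopW l N s) * mass (ex u c 0) (BotW l N s)) := by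
    rw [ENNReal.ofReal_mul (Real.exp_pos _).le, ENNReal.ofReal_mul (by positivity)]
    gcongr
  refine le_trans (ENNReal.ofReal_le_ofReal ?_) h6
  -- real inequality
  have hNr : (N : ℝ) * 2 = n - k - 1 := by
    have : ((2 * N + k + 1 : ℕ) : ℝ) = n := by rw [hkN]
    push_cast at this; linarith
  have hkr : (k : ℝ) ≤ 2 * l + 2 := by exact_mod_cast hk2
  have h7 : Real.exp (2 * u * n) * (Real.exp (-(10 * u)) * Real.exp (-(4 * u * C * Real.log n))) ≤
      Real.exp (2 * c + 4 * u * N) := by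
    rw [← Real.exp_add, ← Real.exp_add]
    apply Real.exp_le_exp.2
    have h8 : 4 * u * N = 2 * u * (n - k - 1) := by rw [← hNr]; ring
    rw [h8]
    have h9 : u * (k : ℝ) ≤ u * (2 * (C * Real.log n + 1) + 2) := by
      gcongr; linarith
    nlinarith
  have h10 : Real.exp (-(4 * u * C * Real.log n)) ≥ 1 / (n : ℝ) ^ ⌈4 * u * C⌉₊ := by
    rw [ge_iff_le, one_div, ← Real.exp_log (x := (n : ℝ) ^ ⌈4 * u * C⌉₊) (by positivity),
      ← Real.exp_neg, Real.log_pow]
    apply Real.exp_le_exp.2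
    have := Nat.le_ceil (4 * u * C)
    nlinarith
  have h11 : 1 / (n : ℝ) ≤ Real.exp (-(10 * u)) * (κ / 2) ^ 4 := by
    rw [div_le_iff₀ (by positivity)] at e3
    rw [Real.exp_neg, div_le_iff₀ hn0]
    have h12 := Real.exp_pos (10 * u)
    have h13 : 1 ≤ (Real.exp (10 * u))⁻¹ * ((n : ℝ) * (κ / 2) ^ 4) := by
      rw [inv_mul_eq_div, le_div_iff₀ h12]
      linarith
    linarith
  calc Real.exp (2 * u * n) / (n : ℝ) ^ (11 + ⌈4 * u * C⌉₊)
      = Real.exp (2 * u * n) * (1 / (n : ℝ) ^ ⌈4 * u * C⌉₊) * (1 / n) / (n : ℝ) ^ 10 := by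
        rw [pow_add]; field_simp
    _ ≤ Real.exp (2 * u * n) * (Real.exp (-(4 * u * C * Real.log n))) *
        (Real.exp (-(10 * u)) * (κ / 2) ^ 4) / (n : ℝ) ^ 10 := by
        gcongr
    _ = Real.exp (2 * u * n) * (Real.exp (-(10 * u)) * Real.exp (-(4 * u * C * Real.log n))) *
        ((κ / 2) ^ 2 / (n : ℝ) ^ 5 * ((κ / 2) ^ 2 / (n : ℝ) ^ 5)) := by
        field_simp
    _ ≤ _ := by gcongr

end Pool.Agent.SAPF
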