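import Pool.Agent.SAPF.Params
import Pool.Agent.SAPF.Arcs
import Pool.Agent.SAPF.AreaB
import Pool.Agent.SAPF.ZLow
import Pool.Agent.SAPF.TailsB
import Pool.Agent.SAPF.Gap

/-!
Transfer from polygons to pairs of bridges, and the final assembly.
-/

namespace Pool.Agent.SAPF

open scoped ENNReal
open Filter

/-- weight of a polygon -/
noncomputable def wv (c : ℝ) {m : ℕ} (v : ZMod m → ℤ × ℤ) : ℝ≥0∞ :=
  ENNReal.ofReal (Real.exp (2 * c * width v))

lemma finite_words (m : ℕ) : {w : Word | w.length = m}.Finite := List.finite_length_eq Dir m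

lemma finite_SAP {n : ℕ} (hn : 2 ≤ n) : {v : ZMod (2 * n) → ℤ × ℤ | IsSAP (2 * n) v}.Finite := by
  have : NeZero (2 * n) := ⟨by omega⟩
  have hf : ((Set.univ : Set (ZMod (2 * n))) ×ˢ {w : Word | w.length = 2 * n}).Finite :=
    Set.finite_univ.prod (finite_words (2 * n))
  refine (hf.image (fun p : ZMod (2 * n) × Word => rot p.1 (loop (2 * n) p.2))).subset ?_
  intro v hv
  obtain ⟨i, a, b, h⟩ := exists_arcs hn hv
  refine ⟨(i, a ++ rv b), ⟨Set.mem_univ _, ?_⟩, h.eq.symm⟩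
  simpa using h.len

/-- transfer inequality -/
lemma transfer {u c : ℝ} {n : ℕ} (hn : 2 ≤ n) (A : Set (ZMod (2 * n) → ℤ × ℤ))
    (bad : Word × Word → Prop) (hA : ∀ v ∈ A, IsSAP (2 * n) v)
    (hbad : ∀ v ∈ A, ∀ i a b, IsArcs n v i a b → bad (Dir.E :: a, Dir.E :: b)) :
    mass (wv c) A ≤ (2 * n : ℕ) * ENNReal.ofReal (Real.exp (u * (2 * n + 2) - 2 * c)) *
      mass (pw u c) {p | p ∈ Pairs n ∧ bad p} := by
  have : NeZero (2 * n) := ⟨by omega⟩
  have h1 : mass (wv c) A ≤ mass (fun q : ZMod (2 * n) × (Word × Word) =>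
      (1 : ℝ≥0∞) * (ENNReal.ofReal (Real.exp (u * (2 * n + 2) - 2 * c)) * pw u c q.2))
      ((Set.univ : Set (ZMod (2 * n))) ×ˢ {p | p ∈ Pairs n ∧ bad p}) := by
    refine mass_le_of_section
      (fun q => rot q.1 (loop (2 * n) (q.2.1.tail ++ rv q.2.2.tail))) ?_
    intro v hv
    obtain ⟨i, a, b, h⟩ := exists_arcs hn (hA v hv)
    refine ⟨(i, (Dir.E :: a, Dir.E :: b)), ⟨Set.mem_univ _, ⟨?_, ?_⟩⟩, h.eq.symm, ?_⟩
    · refine ⟨h.bra, h.brb, ?_⟩
      have := h.len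
      simp only [List.length_cons]
      omega
    · exact hbad v hv i a b h
    · rw [one_mul]
      unfold wv pw ex
      rw [← ENNReal.ofReal_mul (Real.exp_pos _).le, ← ENNReal.ofReal_mul (Real.exp_pos _).le,
        ← Real.exp_add, ← Real.exp_add]
      apply ENNReal.ofReal_le_ofReal
      apply Real.exp_le_exp.2
      have hl : (a.length : ℝ) + b.length = 2 * n := by exact_mod_cast h.len
      have hXa : ((X a : ℤ) : ℝ) = width v := by rw [h.Xa]
      have hXb : ((X b : ℤ) : ℝ) = width v := by rw [h.Xb]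
      simp only [List.length_cons, X_cons, Y_cons, Dir.dx, Dir.dy]
      push_cast
      rw [hXa, hXb]
      have hu : u * ((a.length : ℝ) + b.length) = u * (2 * n) := by rw [hl]
      linarith
  refine h1.trans ?_
  rw [mass_prod (fun _ : ZMod (2 * n) => (1 : ℝ≥0∞))
    (fun p => ENNReal.ofReal (Real.exp (u * (2 * n + 2) - 2 * c)) * pw u c p), mass_const_mul]
  have : mass (fun _ : ZMod (2 * n) => (1 : ℝ≥0∞)) Set.univ = (2 * n : ℕ) := by
    rw [mass_eq_indicator]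
    simp [tsum_fintype, ZMod.card]
  rw [this, mul_assoc]

/-- mean area of the polygons of perimeter `2 n` under the force `f` -/
noncomputable def meanArea (f : ℝ) (n : ℕ) : ℝ :=
  (∑ᶠ v ∈ {v : ZMod (2 * n) → ℤ × ℤ | IsSAP (2 * n) v}, (area v : ℝ) * Real.exp (f * width v)) /
    ∑ᶠ v ∈ {v : ZMod (2 * n) → ℤ × ℤ | IsSAP (2 * n) v}, Real.exp (f * width v)

/-- abstract averaging lemma -/
lemma average_bounds {V : Type*} (F : Finset V) (e a : V → ℝ) (he : ∀ v ∈ F, 0 < e v)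
    (ha : ∀ v ∈ F, 0 ≤ a v) (P Q : V → Prop) (hne : F.Nonempty) {η U M A : ℝ} (hM : 0 ≤ M)
    (hU : 0 ≤ U) (hA : 0 ≤ A)
    [DecidablePred P] [DecidablePred Q]
    (hP : ∑ v ∈ F.filter P, e v ≤ η * ∑ v ∈ F, e v)
    (hQ : ∑ v ∈ F.filter Q, e v ≤ η * ∑ v ∈ F, e v)
    (h1 : ∀ v ∈ F, ¬ P v → a v ≤ U) (h2 : ∀ v ∈ F, a v ≤ M) (h3 : ∀ v ∈ F, ¬ Q v → A ≤ a v) :
    A * (1 - η) ≤ (∑ v ∈ F, a v * e v) / ∑ v ∈ F, e v ∧
      (∑ v ∈ F, a v * e v) / ∑ v ∈ F, e v ≤ U + M * η := by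
  have hW : 0 < ∑ v ∈ F, e v := Finset.sum_pos he hne
  constructor
  · rw [le_div_iff₀ hW]
    have hs : ∑ v ∈ F, e v = ∑ v ∈ F.filter Q, e v + ∑ v ∈ F.filter (fun v => ¬ Q v), e v :=
      (Finset.sum_filter_add_sum_filter_not F Q e).symm
    have h4 : ∑ v ∈ F.filter (fun v => ¬ Q v), A * e v ≤ ∑ v ∈ F, a v * e v := by
      calc ∑ v ∈ F.filter (fun v => ¬ Q v), A * e v
          ≤ ∑ v ∈ F.filter (fun v => ¬ Q v), a v * e v := by
            refine Finset.sum_le_sum fun v hv => ?_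
            rw [Finset.mem_filter] at hv
            exact mul_le_mul_of_nonneg_right (h3 v hv.1 hv.2) (he v hv.1).le
        _ ≤ _ := Finset.sum_le_sum_of_subset_of_nonneg (Finset.filter_subset _ _)
            fun v hv _ => mul_nonneg (ha v hv) (he v hv).le
    rw [← Finset.mul_sum] at h4
    nlinarith
  · rw [div_le_iff₀ hW]
    have hs : ∑ v ∈ F, a v * e v = ∑ v ∈ F.filter P, a v * e v +
        ∑ v ∈ F.filter (fun v => ¬ P v), a v * e v :=
      (Finset.sum_filter_add_sum_filter_not F P _).symm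
    have h4 : ∑ v ∈ F.filter P, a v * e v ≤ M * ∑ v ∈ F.filter P, e v := by
      rw [Finset.mul_sum]
      refine Finset.sum_le_sum fun v hv => ?_
      rw [Finset.mem_filter] at hv
      exact mul_le_mul_of_nonneg_right (h2 v hv.1) (he v hv.1).le
    have h5 : ∑ v ∈ F.filter (fun v => ¬ P v), a v * e v ≤ U * ∑ v ∈ F, e v := by
      calc ∑ v ∈ F.filter (fun v => ¬ P v), a v * e v
          ≤ ∑ v ∈ F.filter (fun v => ¬ P v), U * e v := by
            refine Finset.sum_le_sum fun v hv => ?_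
            rw [Finset.mem_filter] at hv
            exact mul_le_mul_of_nonneg_right (h1 v hv.1 hv.2) (he v hv.1).le
        _ ≤ ∑ v ∈ F, U * e v := Finset.sum_le_sum_of_subset_of_nonneg (Finset.filter_subset _ _)
            fun v hv _ => mul_nonneg hU (he v hv).le
        _ = U * ∑ v ∈ F, e v := by rw [Finset.mul_sum]
    rw [hs]
    nlinarith

lemma IsArcs.width_le {n : ℕ} {v : ZMod (2 * n) → ℤ × ℤ} {i : ZMod (2 * n)} {a b : Word}
    (h : IsArcs n v i a b) : width v ≤ n := by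
  have h1 := (abs_le.1 (abs_X_le a)).2
  have h2 := (abs_le.1 (abs_X_le b)).2
  have h3 := h.len
  rw [h.Xa] at h1
  rw [h.Xb] at h2
  omega

lemma IsArcs.width_nonneg {n : ℕ} {v : ZMod (2 * n) → ℤ × ℤ} {i : ZMod (2 * n)} {a b : Word}
    (h : IsArcs n v i a b) : 0 ≤ width v := by
  have := h.bra.pos (List.prefix_refl _) (by simp)
  rw [X_cons, h.Xa] at this
  simp only [Dir.dx] at this
  omega

set_option maxHeartbeats 1000000 in
theorem main {f : ℝ} (hf : 0 < f) : ∃ n₀ : ℕ, ∀ n ≥ n₀,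
    (n : ℝ) ^ (3 / 2 : ℝ) / (Real.log n) ^ 6 ≤ meanArea f n ∧
      meanArea f n ≤ (n : ℝ) ^ (3 / 2 : ℝ) * (Real.log n) ^ 4 := by
  classical
  obtain ⟨u, u', hu', hu, hchi, h1, h2⟩ := exists_uc (f / 2) (by positivity)
  have hchiu : chi u ≠ ∞ := by
    refine ne_top_of_le_ne_top hchi ?_
    refine mass_mono_fun fun w _ => ?_
    unfold ex
    apply ENNReal.ofReal_le_ofReal
    apply Real.exp_le_exp.2
    have : (0 : ℝ) ≤ w.length := by positivity
    nlinarith
  have hP : Params u (f / 2) := params_of (by positivity) hu' hu hchi h1 h2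
    (mass_gap (by positivity) hchiu h1)
  set c := f / 2 with hc
  have hfc : f = 2 * c := by rw [hc]; ring
  obtain ⟨K, hK⟩ := Z_lower hP
  have hC1 := upper_tail hP (K + 6)
  have hC2 := lower_tail hP (K + 6)
  have hη : ∀ᶠ n : ℕ in atTop, 2 * Real.exp (2 * u) / (n : ℝ) ^ 5 ≤ 1 / 2 ∧
      4 * (n : ℝ) ^ 2 * (2 * Real.exp (2 * u) / (n : ℝ) ^ 5) ≤ 1 := by
    have hlim : ∀ᶠ n : ℕ in atTop, 8 * Real.exp (2 * u) + 1 ≤ (n : ℝ) :=
      (tendsto_natCast_atTop_atTop).eventually_ge_atTop _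
    filter_upwards [hlim] with n hn
    have he : 0 < Real.exp (2 * u) := Real.exp_pos _
    have hn1 : (1 : ℝ) ≤ n := by linarith
    have hn3 : (n : ℝ) ≤ (n : ℝ) ^ 3 := by
      calc (n : ℝ) = (n : ℝ) ^ 1 := (pow_one _).symm
        _ ≤ (n : ℝ) ^ 3 := pow_le_pow_right₀ hn1 (by norm_num)
    have hn5 : (n : ℝ) ≤ (n : ℝ) ^ 5 := by
      calc (n : ℝ) = (n : ℝ) ^ 1 := (pow_one _).symm
        _ ≤ (n : ℝ) ^ 5 := pow_le_pow_right₀ hn1 (by norm_num)
    have hp : (0 : ℝ) < (n : ℝ) ^ 5 := by positivity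
    constructor
    · rw [div_le_div_iff₀ hp (by norm_num)]
      linarith
    · have : 4 * (n : ℝ) ^ 2 * (2 * Real.exp (2 * u) / (n : ℝ) ^ 5) =
          8 * Real.exp (2 * u) / (n : ℝ) ^ 3 := by
        field_simp
        ring
      rw [this, div_le_one (by positivity)]
      linarith
  have hlog : ∀ᶠ n : ℕ in atTop, 3 ≤ Real.log n :=
    (Real.tendsto_log_atTop.comp tendsto_natCast_atTop_atTop).eventually_ge_atTop _
  have hev := (((hK.and hC1).and hC2).and (hη.and hlog)).and (eventually_ge_atTop 2)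
  rw [eventually_atTop] at hev
  obtain ⟨n₀, hn₀⟩ := hev
  refine ⟨n₀, fun n hn => ?_⟩
  obtain ⟨⟨⟨⟨hZ, hT1⟩, hT2⟩, ⟨⟨hη1, hη2⟩, hlog3⟩⟩, hn2⟩ := hn₀ n hn
  have : NeZero (2 * n) := ⟨by omega⟩
  have hnpos : (0 : ℝ) < n := by
    have : 0 < n := by omega
    exact_mod_cast this
  set η : ℝ := 2 * Real.exp (2 * u) / (n : ℝ) ^ 5 with hηdef
  set Sn : Set (ZMod (2 * n) → ℤ × ℤ) := {v | IsSAP (2 * n) v} with hSn
  have hfin : Sn.Finite := finite_SAP hn2
  set F : Finset (ZMod (2 * n) → ℤ × ℤ) := hfin.toFinset with hF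
  have hmemF : ∀ v, v ∈ F ↔ IsSAP (2 * n) v := fun v => by rw [hF, Set.Finite.mem_toFinset]; rfl
  set e : (ZMod (2 * n) → ℤ × ℤ) → ℝ := fun v => Real.exp (f * width v) with he
  have hepos : ∀ v, 0 < e v := fun v => Real.exp_pos _
  have hmassF : ∀ (R : (ZMod (2 * n) → ℤ × ℤ) → Prop) [DecidablePred R],
      mass (wv c) {v | IsSAP (2 * n) v ∧ R v} = ENNReal.ofReal (∑ v ∈ F.filter R, e v) := by
    intro R _
    rw [mass_eq_indicator, tsum_eq_sum (s := F.filter R), ENNReal.ofReal_sum_of_nonneg]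
    · refine Finset.sum_congr rfl fun v hv => ?_
      rw [Finset.mem_filter, hmemF] at hv
      rw [Set.indicator_of_mem (show v ∈ {v | IsSAP (2 * n) v ∧ R v} from hv)]
      simp only [wv, he, hfc]
    · exact fun v _ => (hepos v).le
    · intro v hv
      rw [Finset.mem_filter, hmemF] at hv
      exact Set.indicator_of_notMem (show v ∉ {v | IsSAP (2 * n) v ∧ R v} from hv) _
  have hZ' : Real.exp (2 * u * n) / (n : ℝ) ^ K ≤ ∑ v ∈ F, e v := by
    have h3 := hmassF (fun _ => True)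
    have h4 : {v : ZMod (2 * n) → ℤ × ℤ | IsSAP (2 * n) v ∧ True} = {v | IsSAP (2 * n) v} := by
      ext v; simp
    rw [h4, Finset.filter_true_of_mem (fun _ _ => trivial)] at h3
    have h6 : ENNReal.ofReal (Real.exp (2 * u * n) / (n : ℝ) ^ K) ≤
        ENNReal.ofReal (∑ v ∈ F, e v) := by
      rw [← h3]; exact hZ
    exact (ENNReal.ofReal_le_ofReal_iff (Finset.sum_nonneg fun v _ => (hepos v).le)).1 h6
  have hWpos : 0 < ∑ v ∈ F, e v := lt_of_lt_of_le (by positivity) hZ'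
  have hne : F.Nonempty := by
    by_contra h
    rw [Finset.not_nonempty_iff_eq_empty] at h
    rw [h] at hWpos
    simp at hWpos
  -- the bad sets
  have hbad : ∀ (R : (ZMod (2 * n) → ℤ × ℤ) → Prop) [DecidablePred R] (bad : Word × Word → Prop),
      (∀ v, IsSAP (2 * n) v → R v → ∀ i a b, IsArcs n v i a b → bad (Dir.E :: a, Dir.E :: b)) →
      mass (pw u c) {p | p ∈ Pairs n ∧ bad p} ≤ ENNReal.ofReal (1 / (n : ℝ) ^ (K + 6)) →
      ∑ v ∈ F.filter R, e v ≤ η * ∑ v ∈ F, e v := by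
    intro R _ bad hR hm
    have h3 := transfer (u := u) (c := c) hn2 {v | IsSAP (2 * n) v ∧ R v} bad
      (fun v hv => hv.1) (fun v hv => hR v hv.1 hv.2)
    rw [hmassF] at h3
    have h4 := h3.trans (mul_le_mul_right hm _)
    rw [show ((2 * n : ℕ) : ℝ≥0∞) = ENNReal.ofReal ((2 * n : ℕ) : ℝ) by
        rw [ENNReal.ofReal_natCast], ← ENNReal.ofReal_mul (by positivity),
      ← ENNReal.ofReal_mul (by positivity), ENNReal.ofReal_le_ofReal_iff (by positivity)] at h4
    refine h4.trans ?_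
    calc ((2 * n : ℕ) : ℝ) * Real.exp (u * (2 * n + 2) - 2 * c) * (1 / (n : ℝ) ^ (K + 6))
        ≤ ((2 * n : ℕ) : ℝ) * Real.exp (2 * u * n + 2 * u) * (1 / (n : ℝ) ^ (K + 6)) := by
          have hc0 : 0 < c := hP.c_pos
          gcongr
          linarith
      _ = η * (Real.exp (2 * u * n) / (n : ℝ) ^ K) := by
          rw [hηdef, Real.exp_add]
          push_cast
          field_simp
          ring
      _ ≤ _ := by gcongr
  have hnum : (∑ᶠ v ∈ {v : ZMod (2 * n) → ℤ × ℤ | IsSAP (2 * n) v},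
      (area v : ℝ) * Real.exp (f * width v)) = ∑ v ∈ F, (area v : ℝ) * e v :=
    finsum_mem_eq_finite_toFinset_sum _ hfin
  have hden : (∑ᶠ v ∈ {v : ZMod (2 * n) → ℤ × ℤ | IsSAP (2 * n) v},
      Real.exp (f * width v)) = ∑ v ∈ F, e v :=
    finsum_mem_eq_finite_toFinset_sum _ hfin
  have hmean : meanArea f n = (∑ v ∈ F, (area v : ℝ) * e v) / ∑ v ∈ F, e v := by
    unfold meanArea; rw [hnum, hden]
  set hh : ℝ := Real.sqrt n * (Real.log n) ^ (3 : ℝ) with hhdef
  have hhnn : 0 ≤ hh := by positivity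
  set A : ℝ := (n : ℝ) ^ (3 / 2 : ℝ) / (Real.log n) ^ (5 : ℝ) with hAdef
  have hAnn : 0 ≤ A := by positivity
  let P : (ZMod (2 * n) → ℤ × ℤ) → Prop := fun v => ∀ i a b, IsArcs n v i a b →
    ∃ t, (t <+: Dir.E :: a ∨ t <+: Dir.E :: b) ∧ hh < |(Y t : ℝ)|
  let Q : (ZMod (2 * n) → ℤ × ℤ) → Prop := fun v => (area v : ℝ) ≤ A
  have key := average_bounds F e (fun v => (area v : ℝ)) (fun v _ => hepos v)
    (fun v _ => by positivity) P Q hne (η := η) (U := 2 * n * hh) (M := 4 * (n : ℝ) ^ 2) (A := A)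
    (by positivity) (by positivity) hAnn
    (hbad P (fun p => ∃ t, (t <+: p.1 ∨ t <+: p.2) ∧ hh < |(Y t : ℝ)|)
      (fun v _ hPv i a b hab => hPv i a b hab) hT1)
    (hbad Q (fun p => (∀ r : ℕ, 1 ≤ r → ∀ ps, AllIrr ps → ps.flatten = p.2 →
        ((r * farP r (colH p.1) 0 0 ps : ℕ) : ℝ) ≤ A) ∧
      (∀ r : ℕ, 1 ≤ r → ∀ ps, AllIrr ps → ps.flatten = p.1 →
        ((r * farP r (colH p.2) 0 0 ps : ℕ) : ℝ) ≤ A))
      (fun v _ hQv i a b hab => by
        refine ⟨fun r hr ps hps hfl => ?_, fun r hr ps hps hfl => ?_⟩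
        · have := le_area_b hn2 hab hr hps hfl
          exact le_trans (by exact_mod_cast this) hQv
        · have := le_area_a hn2 hab hr hps hfl
          exact le_trans (by exact_mod_cast this) hQv) hT2)
    (by
      intro v hv hPv
      have hPv' : ∃ i a b, IsArcs n v i a b ∧
          ∀ t, (t <+: Dir.E :: a ∨ t <+: Dir.E :: b) → |(Y t : ℝ)| ≤ hh := by
        by_contra hcon
        apply hPv
        intro i a b hab
        by_contra hno
        apply hcon
        refine ⟨i, a, b, hab, fun t ht => ?_⟩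
        by_contra hlt
        exact hno ⟨t, ht, not_le.1 hlt⟩
      obtain ⟨i, a, b, hab, hall⟩ := hPv'
      have hH : ∀ t, (t <+: Dir.E :: a ∨ t <+: Dir.E :: b) → |Y t| ≤ (⌊hh⌋₊ : ℤ) := by
        intro t ht
        have h3 := hall t ht
        have h4 : ((|Y t|).toNat : ℝ) ≤ hh := by
          have : (((|Y t|).toNat : ℤ) : ℝ) = |(Y t : ℝ)| := by
            rw [Int.toNat_of_nonneg (abs_nonneg _)]; push_cast; rfl
          rw [← this] at h3
          exact_mod_cast h3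
        have h5 := Nat.le_floor h4
        have h6 : ((|Y t|).toNat : ℤ) = |Y t| := Int.toNat_of_nonneg (abs_nonneg _)
        rw [← h6]
        exact_mod_cast h5
      have h7 := area_le hn2 hab (H := ⌊hh⌋₊)
        (fun t ht => by
          have := hH (Dir.E :: t) (Or.inl (List.cons_prefix_cons.2 ⟨rfl, ht⟩))
          simpa [Dir.dy] using this)
        (fun t ht => by
          have := hH (Dir.E :: t) (Or.inr (List.cons_prefix_cons.2 ⟨rfl, ht⟩))
          simpa [Dir.dy] using this)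
      have h8 : ((area v : ℤ) : ℝ) ≤ (width v : ℝ) * (2 * (⌊hh⌋₊ : ℝ)) := by exact_mod_cast h7
      have h9 : (width v : ℝ) ≤ n := by exact_mod_cast hab.width_le
      have h10 : (0 : ℝ) ≤ width v := by exact_mod_cast hab.width_nonneg
      have h11 := Nat.floor_le hhnn
      have h12 : (0 : ℝ) ≤ (⌊hh⌋₊ : ℝ) := by positivity
      calc (area v : ℝ) = ((area v : ℤ) : ℝ) := by push_cast; rfl
        _ ≤ (width v : ℝ) * (2 * (⌊hh⌋₊ : ℝ)) := h8
        _ ≤ (n : ℝ) * (2 * hh) := by gcongr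
        _ = 2 * n * hh := by ring)
    (by
      intro v hv
      obtain ⟨i, a, b, hab⟩ := exists_arcs hn2 ((hmemF v).1 hv)
      have hl := hab.len
      have h7 := area_le hn2 hab (H := 2 * n)
        (fun t ht => by
          have h3 := abs_Y_le t
          have h4 := ht.length_le
          push_cast
          omega)
        (fun t ht => by
          have h3 := abs_Y_le t
          have h4 := ht.length_le
          push_cast
          omega)
      have h8 : ((area v : ℤ) : ℝ) ≤ (width v : ℝ) * (2 * ((2 * n : ℕ) : ℝ)) := by exact_mod_cast h7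
      have h9 : (width v : ℝ) ≤ n := by exact_mod_cast hab.width_le
      calc (area v : ℝ) = ((area v : ℤ) : ℝ) := by push_cast; rfl
        _ ≤ (width v : ℝ) * (2 * ((2 * n : ℕ) : ℝ)) := h8
        _ ≤ (n : ℝ) * (2 * ((2 * n : ℕ) : ℝ)) := by gcongr
        _ = 4 * (n : ℝ) ^ 2 := by push_cast; ring)
    (by
      intro v hv hQv
      exact (not_le.1 hQv).le)
  rw [hmean]
  have hlpos : 0 < Real.log n := by linarith
  have hl1 : 1 ≤ Real.log n := by linarith
  have hn32 : (0 : ℝ) ≤ (n : ℝ) ^ (3 / 2 : ℝ) := by positivity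
  have hn321 : (1 : ℝ) ≤ (n : ℝ) ^ (3 / 2 : ℝ) := by
    apply Real.one_le_rpow _ (by norm_num)
    have : 1 ≤ n := by omega
    exact_mod_cast this
  constructor
  · refine le_trans ?_ key.1
    have h3 : A / 2 ≤ A * (1 - η) := by nlinarith
    refine le_trans ?_ h3
    have hL5 : (Real.log n) ^ (5 : ℝ) = (Real.log n) ^ 5 := by
      rw [show (5 : ℝ) = ((5 : ℕ) : ℝ) by norm_num, Real.rpow_natCast]
    rw [hAdef, div_div, hL5]
    apply div_le_div_of_nonneg_left hn32 (by positivity)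
    calc (Real.log n) ^ 5 * 2 ≤ (Real.log n) ^ 5 * Real.log n := by gcongr; linarith
      _ = (Real.log n) ^ 6 := by ring
  · refine key.2.trans ?_
    have hsq : (n : ℝ) * Real.sqrt n = (n : ℝ) ^ (3 / 2 : ℝ) := by
      rw [Real.sqrt_eq_rpow]
      nth_rewrite 1 [← Real.rpow_one (n : ℝ)]
      rw [← Real.rpow_add hnpos]
      norm_num
    have hL3 : (Real.log n) ^ (3 : ℝ) = (Real.log n) ^ 3 := by
      rw [show (3 : ℝ) = ((3 : ℕ) : ℝ) by norm_num, Real.rpow_natCast]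
    have h3 : 2 * n * hh = 2 * ((n : ℝ) ^ (3 / 2 : ℝ) * (Real.log n) ^ 3) := by
      rw [hhdef, ← hsq, hL3]; ring
    rw [h3]
    have h5 : (1 : ℝ) ≤ (Real.log n) ^ 3 := one_le_pow₀ hl1
    calc 2 * ((n : ℝ) ^ (3 / 2 : ℝ) * (Real.log n) ^ 3) + 4 * (n : ℝ) ^ 2 * η
        ≤ 2 * ((n : ℝ) ^ (3 / 2 : ℝ) * (Real.log n) ^ 3) +
          1 * ((n : ℝ) ^ (3 / 2 : ℝ) * (Real.log n) ^ 3) := by
          refine add_le_add le_rfl ?_
          refine hη2.trans ?_
          rw [one_mul]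
          nlinarith
      _ = (n : ℝ) ^ (3 / 2 : ℝ) * ((Real.log n) ^ 3 * 3) := by ring
      _ ≤ (n : ℝ) ^ (3 / 2 : ℝ) * ((Real.log n) ^ 3 * Real.log n) := by gcongr
      _ = (n : ℝ) ^ (3 / 2 : ℝ) * (Real.log n) ^ 4 := by ring

end Pool.Agent.SAPF
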