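import Pool.Agent.SAPF.Poly

/-!
The bridge decay rate takes every positive value at a step weight where walks are still summable
(Hammersley-Welsh unfolding, submultiplicativity, interpolation).
-/

namespace Pool.Agent.SAPF
namespace Prm

open scoped ENNReal Topology
open Filter

/-! ### monotonicity and continuity in the step weight -/

lemma ex_anti {u v : ℝ} (h : u ≤ v) (c θ : ℝ) (w : Word) : ex v c θ w ≤ ex u c θ w := by
  unfold ex
  apply ENNReal.ofReal_le_ofReal
  apply Real.exp_le_exp.2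
  have h1 : (0 : ℝ) ≤ w.length := Nat.cast_nonneg _
  have h2 := mul_le_mul_of_nonneg_right h h1
  linarith

lemma chi_anti {u v : ℝ} (h : u ≤ v) : chi v ≤ chi u :=
  mass_mono_fun fun w _ => ex_anti h 0 0 w

lemma continuous_ex (c θ : ℝ) (w : Word) : Continuous fun u : ℝ => ex u c θ w := by
  unfold ex
  refine ENNReal.continuous_ofReal.comp ?_
  fun_prop

lemma mass_le_of_nhdsGT {u₀ c : ℝ} {A : Set Word} {M : ℝ≥0∞}
    (h : ∀ᶠ u in 𝓝[>] u₀, mass (ex u c 0) A ≤ M) : mass (ex u₀ c 0) A ≤ M := by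
  refine mass_le_of_finset fun s hs => ?_
  have hc : Continuous fun u : ℝ => ∑ a ∈ s, ex u c 0 a :=
    continuous_finsetSum _ fun a _ => continuous_ex c 0 a
  have ht : Tendsto (fun u : ℝ => ∑ a ∈ s, ex u c 0 a) (𝓝[>] u₀) (𝓝 (∑ a ∈ s, ex u₀ c 0 a)) :=
    (hc.tendsto u₀).mono_left nhdsWithin_le_nhds
  refine le_of_tendsto ht ?_
  filter_upwards [h] with u hu
  exact (sum_le_mass hs).trans hu

/-! ### walks of a given length -/

lemma exists_nat_lt_of_ne_top {x : ℝ≥0∞} (h : x ≠ ∞) : ∃ n : ℕ, x < n := ENNReal.exists_nat_gt h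

lemma chi_pos {u : ℝ} (h : chi u ≠ ∞) : 0 < u := by
  by_contra hu
  push Not at hu
  obtain ⟨n, hn⟩ := ENNReal.exists_nat_gt h
  have key : (n : ℝ≥0∞) ≤ chi u := by
    let s : Finset Word := (Finset.range n).image (fun k => List.replicate k Dir.E)
    have hs : (↑s : Set Word) ⊆ {w | SAW w} := by
      intro w hw
      simp only [s, Finset.coe_image, Set.mem_image, Finset.mem_coe, Finset.mem_range] at hw
      obtain ⟨k, -, rfl⟩ := hw
      exact (isBr_replicate_E k).saw
    have hcard : s.card = n := by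
      rw [Finset.card_image_of_injective, Finset.card_range]
      intro a b hab
      have := congrArg List.length hab
      simpa using this
    calc (n : ℝ≥0∞) = ∑ a ∈ s, 1 := by rw [Finset.sum_const, hcard]; simp
      _ ≤ ∑ a ∈ s, ex u 0 0 a := by
        refine Finset.sum_le_sum fun a _ => ?_
        unfold ex
        rw [← ENNReal.ofReal_one]
        apply ENNReal.ofReal_le_ofReal
        rw [← Real.exp_zero]
        apply Real.exp_le_exp.2
        have h1 : (0 : ℝ) ≤ a.length := Nat.cast_nonneg _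
        have h2 : 0 ≤ (-u) * a.length := mul_nonneg (by linarith) h1
        linarith
      _ ≤ chi u := sum_le_mass hs
  exact absurd key (not_le.2 hn)

/-- self-avoiding words of length `N` -/
def SN (N : ℕ) : Set Word := {w | SAW w ∧ w.length = N}

lemma SN_finite (N : ℕ) : (SN N).Finite :=
  (List.finite_length_eq Dir N).subset fun _ hw => hw.2

lemma mass_SN (u : ℝ) (N : ℕ) : mass (ex u 0 0) (SN N) =
    ENNReal.ofReal (Real.exp (-u * N)) * mass (fun _ => 1) (SN N) := by
  rw [← mass_const_mul]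
  refine mass_congr fun w hw => ?_
  rw [mul_one]
  unfold ex
  rw [hw.2]
  congr 2
  ring

lemma card_ne_top (N : ℕ) : mass (fun _ => 1) (SN N) ≠ ∞ :=
  mass_lt_top_of_finite (SN_finite N) fun _ _ => ENNReal.one_ne_top

lemma chi_ne_top_of {u : ℝ} {N : ℕ} (hN : 0 < N) (h : mass (ex u 0 0) (SN N) < 1) :
    chi u ≠ ∞ := by
  set M : ℝ≥0∞ := mass (ex u 0 0) {w | SAW w ∧ w.length < N} with hM
  have hMtop : M ≠ ∞ :=
    mass_lt_top_of_finite ((List.finite_length_lt Dir N).subset fun _ hw => hw.2)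
      fun w _ => ex_ne_top u 0 0 w
  have step : ∀ k : ℕ, mass (ex u 0 0) {w | SAW w ∧ w.length / N = k} ≤
      (mass (ex u 0 0) (SN N)) ^ k * M := by
    intro k
    induction k with
    | zero =>
      rw [pow_zero, one_mul, hM]
      refine mass_mono ?_
      rintro w ⟨h1, h2⟩
      exact ⟨h1, by
        rcases Nat.div_eq_zero_iff.1 h2 with h3 | h3
        · omega
        · exact h3⟩
    | succ k ih =>
      have h1 : mass (ex u 0 0) {w | SAW w ∧ w.length / N = k + 1} ≤
          mass (ex u 0 0) (SN N) * mass (ex u 0 0) {w | SAW w ∧ w.length / N = k} := by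
        refine mass_le_mul (fun a _ b _ => (ex_append u 0 0 a b).le) ?_
        rintro w ⟨h1, h2⟩
        have hle : N ≤ w.length := by
          by_contra hlt
          rw [Nat.div_eq_of_lt (by omega)] at h2
          omega
        have hw : w = w.take N ++ w.drop N := (List.take_append_drop N w).symm
        have h1' := h1
        rw [hw] at h1'
        refine ⟨w.take N, ⟨h1'.left, by simp [hle]⟩, w.drop N, ⟨h1'.right, ?_⟩, hw⟩
        rw [List.length_drop]
        have := Nat.div_eq_sub_div hN hle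
        omega
      calc _ ≤ _ := h1
        _ ≤ mass (ex u 0 0) (SN N) * ((mass (ex u 0 0) (SN N)) ^ k * M) := by gcongr
        _ = _ := by rw [pow_succ]; ring
  have hsub : {w : Word | SAW w} ⊆ ⋃ k : ℕ, {w | SAW w ∧ w.length / N = k} := by
    intro w hw
    exact Set.mem_iUnion.2 ⟨w.length / N, hw, rfl⟩
  have hle : chi u ≤ ∑' k : ℕ, (mass (ex u 0 0) (SN N)) ^ k * M :=
    (mass_mono hsub).trans ((mass_iUnion_le _ _).trans (ENNReal.tsum_le_tsum step))
  rw [ENNReal.tsum_mul_right, ENNReal.tsum_geometric] at hle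
  refine ne_top_of_le_ne_top ?_ hle
  refine ENNReal.mul_ne_top ?_ hMtop
  rw [Ne, ENNReal.inv_eq_top, tsub_eq_zero_iff_le, not_le]
  exact h

/-- for large step weights the walks are summable -/
lemma exists_chi : ∃ u : ℝ, chi u ≠ ∞ := by
  obtain ⟨n, hn⟩ := ENNReal.exists_nat_gt (card_ne_top 1)
  refine ⟨Real.log (n + 1), chi_ne_top_of (N := 1) one_pos ?_⟩
  rw [mass_SN]
  have hpos : (0 : ℝ) < n + 1 := by positivity
  have h1 : Real.exp (-Real.log (n + 1) * (1 : ℕ)) = (n + 1 : ℝ)⁻¹ := by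
    rw [Nat.cast_one, mul_one, Real.exp_neg, Real.exp_log hpos]
  rw [h1]
  calc ENNReal.ofReal ((n + 1 : ℝ)⁻¹) * mass (fun _ => 1) (SN 1)
      ≤ ENNReal.ofReal ((n + 1 : ℝ)⁻¹) * (n : ℝ≥0∞) := by gcongr
    _ = ENNReal.ofReal ((n + 1 : ℝ)⁻¹ * n) := by
      rw [ENNReal.ofReal_mul (by positivity), ENNReal.ofReal_natCast]
    _ < 1 := by
      rw [ENNReal.ofReal_lt_one, inv_mul_lt_iff₀ hpos]
      linarith

/-- the walks of some positive length have mass below one -/
lemma exists_SN_lt {u : ℝ} (h : chi u ≠ ∞) : ∃ N : ℕ, 0 < N ∧ mass (ex u 0 0) (SN N) < 1 := by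
  by_contra hcon
  push Not at hcon
  apply h
  have h1 : ∑' N : ℕ, mass (ex u 0 0) (SN N) ≤ chi u := by
    simp only [chi, mass_eq_indicator]
    rw [ENNReal.tsum_comm]
    refine ENNReal.tsum_le_tsum fun w => ?_
    rw [tsum_eq_single w.length]
    · refine Set.indicator_le_indicator_of_subset ?_ (fun _ => zero_le) w
      intro v hv
      exact hv.1
    · intro N hN
      refine Set.indicator_of_notMem ?_ _
      intro hw
      exact hN hw.2.symm
  have h2 : ∑' N : ℕ, (1 : ℝ≥0∞) ≤ ∑' N : ℕ, mass (ex u 0 0) (SN (N + 1)) :=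
    ENNReal.tsum_le_tsum fun N => hcon (N + 1) (Nat.succ_pos N)
  have h3 : ∑' N : ℕ, mass (ex u 0 0) (SN (N + 1)) ≤ ∑' N : ℕ, mass (ex u 0 0) (SN N) :=
    ENNReal.tsum_comp_le_tsum_of_injective (f := fun N : ℕ => N + 1)
      (fun a b hab => Nat.succ_injective hab) fun N => mass (ex u 0 0) (SN N)
  have h4 : ∑' N : ℕ, (1 : ℝ≥0∞) = ∞ := ENNReal.tsum_const_eq_top_of_ne_zero one_ne_zero
  rw [h4] at h2
  exact top_le_iff.1 (h2.trans (h3.trans h1))

/-- openness -/
lemma exists_lt_chi {u : ℝ} (h : chi u ≠ ∞) : ∃ u' < u, chi u' ≠ ∞ := by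
  obtain ⟨N, hN, hlt⟩ := exists_SN_lt h
  set C : ℝ := (mass (fun _ => 1) (SN N)).toReal with hC
  have hCeq : mass (fun _ => 1) (SN N) = ENNReal.ofReal C :=
    (ENNReal.ofReal_toReal (card_ne_top N)).symm
  have key : ∀ v : ℝ, mass (ex v 0 0) (SN N) < 1 ↔ Real.exp (-v * N) * C < 1 := by
    intro v
    rw [mass_SN, hCeq, ← ENNReal.ofReal_mul (Real.exp_pos _).le, ENNReal.ofReal_lt_one]
  have hc : Continuous fun v : ℝ => Real.exp (-v * N) * C := by fun_prop
  have hev : ∀ᶠ v in 𝓝 u, Real.exp (-v * N) * C < 1 :=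
    (hc.tendsto u).eventually (gt_mem_nhds ((key u).1 hlt))
  have hev' : ∀ᶠ v in 𝓝[<] u, Real.exp (-v * N) * C < 1 := hev.filter_mono nhdsWithin_le_nhds
  obtain ⟨v, hv1, hv2⟩ := (hev'.and self_mem_nhdsWithin).exists
  exact ⟨v, hv2, chi_ne_top_of hN ((key v).2 hv1)⟩

/-! ### Hammersley-Welsh -/

/-- half-space walks of height at most `s` -/
def Hs (s : ℕ) : Set Word :=
  {w | SAW w ∧ (∀ t, t <+: w → t ≠ [] → 0 < X t) ∧ ∀ t, t <+: w → X t ≤ s}

lemma Hs_mono {s t : ℕ} (h : s ≤ t) : Hs s ⊆ Hs t := by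
  intro w hw
  refine ⟨hw.1, hw.2.1, fun a ha => (hw.2.2 a ha).trans ?_⟩
  exact_mod_cast h

lemma mass_Hs_zero (u : ℝ) : mass (ex u 0 0) (Hs 0) ≤ 1 := by
  have h : Hs 0 ⊆ {[]} := by
    intro w hw
    by_contra h0
    have h1 := hw.2.1 w (List.prefix_refl w) h0
    have h2 := hw.2.2 w (List.prefix_refl w)
    simp at h2
    omega
  refine (mass_mono h).trans ?_
  rw [mass_singleton, ex_nil]

lemma mass_Hs_succ (u : ℝ) (s : ℕ) : mass (ex u 0 0) (Hs (s + 1)) ≤
    (1 + mass (ex u 0 0) (BrS ((s + 1 : ℕ) : ℤ))) * mass (ex u 0 0) (Hs s) := by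
  have h1 : Hs (s + 1) ⊆ Hs s ∪ {w | w ∈ Hs (s + 1) ∧ ∃ t, t <+: w ∧ (s : ℤ) + 1 ≤ X t} := by
    intro w hw
    by_cases h : ∃ t, t <+: w ∧ (s : ℤ) + 1 ≤ X t
    · exact Or.inr ⟨hw, h⟩
    · left
      refine ⟨hw.1, hw.2.1, fun t ht => ?_⟩
      push Not at h
      have := h t ht
      omega
  refine (mass_mono h1).trans ((mass_union_le _ _ _).trans ?_)
  rw [add_mul, one_mul]
  gcongr
  rw [← mass_prod]
  refine mass_le_of_section (fun p : Word × Word => p.1 ++ flipX p.2) ?_
  rintro w ⟨⟨hsaw, hpos, hle⟩, t, ht, hXt⟩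
  obtain ⟨a, v, rfl, ha, hv⟩ := exists_longest_prefix w
    (fun x => x = [] ∨ (s : ℤ) + 1 ≤ X x) (Or.inl rfl)
  have hXa : X a = (s : ℤ) + 1 := by
    have h2 := hle a (List.prefix_append a v)
    rcases ha with rfl | ha
    · exfalso
      have ht0 : t ≠ [] := by
        rintro rfl
        simp at hXt
        omega
      exact hv t (by simpa using ht) ht0 (Or.inr (by simpa using hXt))
    · push_cast at h2
      omega
  have hv' : ∀ t, t <+: v → t ≠ [] → X t < 0 := by
    intro t ht h0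
    have h2 := hv t ht h0
    push Not at h2
    have h3 := h2.2
    rw [X_append] at h3
    omega
  refine ⟨(a, flipX v), ⟨⟨⟨hsaw.left, ?_, ?_⟩, ?_⟩, ⟨hsaw.right.flipX, ?_, ?_⟩⟩, ?_, ?_⟩
  · intro p hp h0
    exact hpos p (hp.trans (List.prefix_append a v)) h0
  · rintro q ⟨p, hp⟩
    have hp' : p ++ q = a := hp
    have h2 := hle p (by rw [← hp', List.append_assoc]; exact List.prefix_append p _)
    have h3 := congrArg X hp'
    rw [X_append] at h3
    push_cast at h2
    omega
  · rw [hXa]; push_cast; ring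
  · intro p hp h0
    have h2 := hv' _ (prefix_flipX.1 hp) (by rwa [Ne, flipX_eq_nil])
    rw [X_flipX] at h2
    omega
  · intro p hp
    rcases eq_or_ne p [] with h0 | h0
    · rw [h0]; simp
    · have h2 := hpos (a ++ flipX p)
        ((List.prefix_append_right_inj a).2 (prefix_flipX.1 hp))
        (by simp [flipX_eq_nil, h0])
      rw [X_append, X_flipX] at h2
      omega
  · simp
  · show ex u 0 0 (a ++ v) ≤ ex u 0 0 a * ex u 0 0 (flipX v)
    rw [ex_append, ex_flipX, neg_zero]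

/-- the bound for half-space walks -/
lemma mass_Hs_le {u c : ℝ} (h : ∀ s : ℕ, mass (ex u c 0) (BrS s) ≤ 1) (s : ℕ) :
    mass (ex u 0 0) (Hs s) ≤
      ENNReal.ofReal (Real.exp (∑ k ∈ Finset.range s, Real.exp (-c * (k + 1)))) := by
  have hB : ∀ k : ℕ, mass (ex u 0 0) (BrS (k : ℤ)) ≤ ENNReal.ofReal (Real.exp (-c * k)) := by
    intro k
    have h1 : mass (ex u 0 0) (BrS (k : ℤ)) =
        ENNReal.ofReal (Real.exp (-c * k)) * mass (ex u c 0) (BrS (k : ℤ)) := by
      rw [← mass_const_mul]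
      refine mass_congr fun w hw => ?_
      unfold ex
      rw [← ENNReal.ofReal_mul (Real.exp_pos _).le, ← Real.exp_add, hw.2]
      congr 2
      push_cast
      ring
    rw [h1]
    calc _ ≤ ENNReal.ofReal (Real.exp (-c * k)) * 1 := by gcongr; exact h k
      _ = _ := mul_one _
  induction s with
  | zero => simpa using mass_Hs_zero u
  | succ s ih =>
    rw [Finset.sum_range_succ, Real.exp_add, mul_comm, ENNReal.ofReal_mul (Real.exp_pos _).le]
    refine (mass_Hs_succ u s).trans (mul_le_mul' ?_ ih)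
    refine (add_le_add le_rfl (hB (s + 1))).trans ?_
    rw [← ENNReal.ofReal_one, ← ENNReal.ofReal_add zero_le_one (Real.exp_pos _).le]
    apply ENNReal.ofReal_le_ofReal
    have := Real.add_one_le_exp (Real.exp (-c * ((s : ℝ) + 1)))
    push_cast
    linarith

/-- the constant of the Hammersley-Welsh bound -/
noncomputable def KHW (c : ℝ) : ℝ≥0∞ :=
  ENNReal.ofReal (Real.exp (∑' k : ℕ, Real.exp (-c * (k + 1))))

lemma summable_exp {c : ℝ} (hc : 0 < c) : Summable fun k : ℕ => Real.exp (-c * ((k : ℝ) + 1)) := by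
  have h1 : Summable fun k : ℕ => (Real.exp (-c)) ^ k :=
    summable_geometric_of_lt_one (Real.exp_pos _).le (by
      rw [← Real.exp_zero]; exact Real.exp_lt_exp.2 (by linarith))
  have h2 := (summable_nat_add_iff 1).2 h1
  refine h2.congr fun k => ?_
  rw [← Real.exp_nat_mul]
  congr 1
  push_cast
  ring

lemma mass_Hs_le_K {u c : ℝ} (hc : 0 < c) (h : ∀ s : ℕ, mass (ex u c 0) (BrS s) ≤ 1) (s : ℕ) :
    mass (ex u 0 0) (Hs s) ≤ KHW c := by
  refine (mass_Hs_le h s).trans ?_
  unfold KHW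
  apply ENNReal.ofReal_le_ofReal
  apply Real.exp_le_exp.2
  exact (summable_exp hc).sum_le_tsum _ fun k _ => (Real.exp_pos _).le

/-- half-space walks -/
def HH : Set Word := {w | SAW w ∧ ∀ t, t <+: w → t ≠ [] → 0 < X t}

lemma mass_HH_le {u c : ℝ} (hc : 0 < c) (h : ∀ s : ℕ, mass (ex u c 0) (BrS s) ≤ 1) :
    mass (ex u 0 0) HH ≤ KHW c := by
  refine mass_le_of_finset fun F hF => ?_
  obtain ⟨S, hS⟩ : ∃ S : ℕ, ∀ w ∈ F, w.length ≤ S := ⟨F.sup List.length, fun w hw =>
    Finset.le_sup (f := List.length) hw⟩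
  refine (sum_le_mass (A := Hs S) ?_).trans (mass_Hs_le_K hc h S)
  intro w hw
  obtain ⟨h1, h2⟩ := hF hw
  refine ⟨h1, h2, fun t ht => ?_⟩
  have h3 := (abs_le.1 (abs_X_le t)).2
  have h4 := ht.length_le
  have h5 := hS w (by simpa using hw)
  have : (t.length : ℤ) ≤ S := by exact_mod_cast h4.trans h5
  omega

/-- splitting a walk at its last leftmost vertex -/
lemma exists_split (w : Word) : ∃ a b, w = a ++ b ∧ (∀ t, t <:+ a → X t ≤ 0) ∧
    ∀ t, t <+: b → t ≠ [] → 0 < X t := by
  induction w using List.reverseRecOn with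
  | nil =>
    refine ⟨[], [], rfl, ?_, ?_⟩
    · intro t ht; rw [List.suffix_nil.1 ht]; simp
    · intro t ht h0; exact absurd (List.prefix_nil.1 ht) h0
  | append_singleton w d ih =>
    obtain ⟨a, b, rfl, ha, hb⟩ := ih
    have hpre : ∀ t, t <+: b ++ [d] → t <+: b ∨ t = b ++ [d] := by
      intro t ht
      rcases prefix_append_cases ht with h1 | ⟨x, hx, hx0, rfl⟩
      · exact Or.inl h1
      · right
        rcases eq_nil_or_singleton_of_prefix hx with h2 | h2
        · exact absurd h2 hx0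
        · rw [h2]
    by_cases hpos : 0 < X (b ++ [d])
    · refine ⟨a, b ++ [d], by simp, ha, ?_⟩
      intro t ht h0
      rcases hpre t ht with h1 | h1
      · exact hb t h1 h0
      · rw [h1]; exact hpos
    · refine ⟨a ++ (b ++ [d]), [], by simp, ?_, ?_⟩
      · intro t ht
        rcases suffix_append_cases ht with h1 | ⟨x, hx, -, rfl⟩
        · obtain ⟨p, hp⟩ := h1
          have h2 := congrArg X hp
          rw [X_append] at h2
          rcases hpre p ⟨t, hp⟩ with h3 | h3
          · rcases eq_or_ne p [] with h0 | h0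
            · rw [h0] at h2; simp at h2 hpos; omega
            · have := hb p h3 h0
              omega
          · rw [h3] at h2
            omega
        · have := ha x hx
          rw [X_append]
          omega
      · intro t ht h0; exact absurd (List.prefix_nil.1 ht) h0

lemma chi_le {u c : ℝ} (hc : 0 < c) (h : ∀ s : ℕ, mass (ex u c 0) (BrS s) ≤ 1) :
    chi u ≤ ENNReal.ofReal (Real.exp u) * (KHW c * KHW c) := by
  have h1 : chi u ≤ mass (fun p : Word × Word =>
      (ENNReal.ofReal (Real.exp u) * ex u 0 0 p.1) * ex u 0 0 p.2) (HH ×ˢ HH) := by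
    refine mass_le_of_section (fun p : Word × Word => rv p.1.tail ++ p.2) ?_
    intro w hw
    obtain ⟨a, b, rfl, ha, hb⟩ := exists_split w
    have hsaw : SAW (a ++ b) := hw
    have hnn : ∀ t, t <+: rv a → 0 ≤ X t := by
      intro t ht
      have := ha _ (prefix_rv.1 ht)
      rw [X_rv] at this
      omega
    refine ⟨(Dir.E :: rv a, b), ⟨⟨?_, ?_⟩, ⟨hsaw.right, hb⟩⟩, by simp, ?_⟩
    · intro t ht hx hy
      rcases infix_append_cases (u := [Dir.E]) (v := rv a) (by simpa using ht) with h2 | h2 | h2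
      · exact isBr_singleton_E.saw t h2 hx hy
      · exact hsaw.left.rv t h2 hx hy
      · obtain ⟨p, q, hp, hq, hp0, -, rfl⟩ := h2
        exfalso
        have h3 : p = [Dir.E] := by
          obtain ⟨r, hr⟩ := hp
          have h4 := congrArg List.length hr
          have h5 := List.length_pos_iff.2 hp0
          simp at h4
          have h6 : r = [] := List.length_eq_zero_iff.1 (by omega)
          rw [h6] at hr
          simpa using hr
        have h4 := hnn q hq
        rw [h3] at hx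
        simp [Dir.dx] at hx
        omega
    · intro t ht h0
      rcases prefix_append_cases (u := [Dir.E]) (v := rv a) (by simpa using ht) with h2 | h2
      · exact isBr_singleton_E.pos h2 h0
      · obtain ⟨q, hq, -, rfl⟩ := h2
        have h4 := hnn q hq
        simp [Dir.dx]
        omega
    · show ex u 0 0 (a ++ b) ≤
        (ENNReal.ofReal (Real.exp u) * ex u 0 0 (Dir.E :: rv a)) * ex u 0 0 b
      rw [ex_append]
      gcongr
      have h2 : Dir.E :: rv a = [Dir.E] ++ rv a := rfl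
      rw [h2, ex_append, ex_rv, ← mul_assoc]
      have h3 : ENNReal.ofReal (Real.exp u) * ex u 0 0 [Dir.E] = 1 := by
        unfold ex
        rw [← ENNReal.ofReal_mul (Real.exp_pos _).le, ← Real.exp_add]
        simp
      rw [h3, one_mul, neg_zero]
  refine h1.trans ?_
  rw [mass_prod (fun a => ENNReal.ofReal (Real.exp u) * ex u 0 0 a) (ex u 0 0), mass_const_mul,
    mul_assoc]
  gcongr
  · exact mass_HH_le hc h
  · exact mass_HH_le hc h

/-! ### the critical step weight and its vicinity -/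

lemma exists_big (c : ℝ) (hc : 0 < c) : ∃ u : ℝ, chi u ≠ ∞ ∧
    ∃ s : ℕ, 1 < mass (ex u c 0) (BrS s) := by
  by_contra hcon
  push Not at hcon
  set U : Set ℝ := {u | chi u ≠ ∞} with hU
  have hne : U.Nonempty := exists_chi
  have hbd : BddBelow U := ⟨0, fun u hu => (chi_pos hu).le⟩
  set u₀ := sInf U with hu₀
  have hmem : ∀ u, u₀ < u → u ∈ U := by
    intro u hu
    obtain ⟨a, ha, hau⟩ := exists_lt_of_csInf_lt hne hu
    exact ne_top_of_le_ne_top ha (chi_anti hau.le)
  have hle : chi u₀ ≤ ENNReal.ofReal (Real.exp (u₀ + 1)) * (KHW c * KHW c) := by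
    refine mass_le_of_nhdsGT (c := 0) ?_
    filter_upwards [Ioo_mem_nhdsGT (show u₀ < u₀ + 1 by linarith)] with u hu
    refine (chi_le hc (hcon u (hmem u hu.1))).trans ?_
    gcongr
    exact hu.2.le
  have hfin : chi u₀ ≠ ∞ := by
    refine ne_top_of_le_ne_top ?_ hle
    exact ENNReal.mul_ne_top ENNReal.ofReal_ne_top
      (ENNReal.mul_ne_top ENNReal.ofReal_ne_top ENNReal.ofReal_ne_top)
  obtain ⟨v, hv, hv'⟩ := exists_lt_chi hfin
  exact absurd (csInf_le hbd hv') (not_le.2 hv)

/-- supermultiplicativity of bridges -/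
lemma mass_BrS_mul_le (u c : ℝ) (s t : ℤ) :
    mass (ex u c 0) (BrS s) * mass (ex u c 0) (BrS t) ≤ mass (ex u c 0) (BrS (s + t)) := by
  rw [← mass_prod]
  refine mass_le_of_injOn (fun p : Word × Word => p.1 ++ p.2) ?_ ?_ ?_
  · rintro ⟨a, b⟩ ⟨⟨ha, hXa⟩, ⟨hb, hXb⟩⟩ ⟨a', b'⟩ ⟨⟨ha', hXa'⟩, ⟨hb', hXb'⟩⟩ hab
    have hab' : a ++ b = a' ++ b' := hab
    have hXa2 : X a = s := hXa
    have hXa2' : X a' = s := hXa'
    rcases List.append_eq_append_iff.1 hab' with ⟨r, h1, h2⟩ | ⟨r, h1, h2⟩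
    · -- a' = a ++ r, b = r ++ b'
      rcases eq_or_ne r [] with h0 | h0
      · subst h0; simp at h1 h2; rw [h1, h2]
      · exfalso
        have hb2 : IsBr b := hb
        have h3 := hb2.pos (u := r) (by rw [h2]; exact List.prefix_append r b') h0
        rw [h1, X_append] at hXa2'
        omega
    · rcases eq_or_ne r [] with h0 | h0
      · subst h0; simp at h1 h2; rw [h1, h2]
      · exfalso
        have hb2 : IsBr b' := hb'
        have h3 := hb2.pos (u := r) (by rw [h2]; exact List.prefix_append r b) h0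
        rw [h1, X_append] at hXa2
        omega
  · rintro ⟨a, b⟩ ⟨⟨ha, hXa⟩, ⟨hb, hXb⟩⟩
    have hXa2 : X a = s := hXa
    have hXb2 : X b = t := hXb
    exact ⟨IsBr.append ha hb, by rw [X_append, hXa2, hXb2]⟩
  · rintro ⟨a, b⟩ _
    exact (ex_append u c 0 a b).ge

lemma mass_BrS_pow_le (u c : ℝ) (s k : ℕ) :
    (mass (ex u c 0) (BrS s)) ^ k ≤ mass (ex u c 0) (BrS ((k * s : ℕ) : ℤ)) := by
  induction k with
  | zero =>
    have h : ([] : Word) ∈ BrS ((0 * s : ℕ) : ℤ) := ⟨isBr_nil, by simp⟩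
    simpa using le_mass (φ := ex u c 0) h
  | succ k ih =>
    rw [pow_succ]
    refine (mul_le_mul_left ih _).trans ((mass_BrS_mul_le u c _ _).trans ?_)
    refine le_of_eq ?_
    congr 2
    push_cast
    ring

lemma le_one_of_bounded {u c : ℝ} {M : ℝ≥0∞} (hM : M ≠ ∞)
    (h : ∀ s : ℕ, mass (ex u c 0) (BrS s) ≤ M) (s : ℕ) : mass (ex u c 0) (BrS s) ≤ 1 := by
  by_contra hcon
  push Not at hcon
  have h1 : Tendsto (fun k : ℕ => (mass (ex u c 0) (BrS s)) ^ k) atTop (𝓝 ∞) :=
    ENNReal.tendsto_pow_atTop_nhds_top_iff.2 hcon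
  have h2 : ∞ ≤ M := le_of_tendsto' h1 fun k => (mass_BrS_pow_le u c s k).trans (h _)
  exact hM (top_le_iff.1 h2)

/-- bridges of span zero -/
lemma BrS_zero : BrS 0 = {[]} := by
  ext w
  constructor
  · rintro ⟨h1, h2⟩
    by_contra h0
    have := h1.pos (List.prefix_refl w) h0
    omega
  · intro h
    have h' : w = [] := h
    rw [h']
    exact ⟨isBr_nil, by simp⟩

lemma exists_small (c : ℝ) (hc : 0 < c) : ∃ u : ℝ, chi u ≠ ∞ ∧
    ∀ s : ℕ, mass (ex u c 0) (BrS s) ≤ 1 := by
  obtain ⟨u₀, hu₀⟩ := exists_chi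
  obtain ⟨n, hn⟩ := ENNReal.exists_nat_gt hu₀
  set t : ℝ := c + Real.log (n + 1) with ht
  have hn1 : (0 : ℝ) < n + 1 := by positivity
  have hlog : 0 ≤ Real.log (n + 1) := Real.log_nonneg (by linarith [(Nat.cast_nonneg n : (0:ℝ) ≤ n)])
  have hct : c ≤ t := by rw [ht]; linarith
  refine ⟨u₀ + t, ne_top_of_le_ne_top hu₀ (chi_anti (by linarith)), fun s => ?_⟩
  rcases Nat.eq_zero_or_pos s with rfl | hs
  · rw [Nat.cast_zero, BrS_zero, mass_singleton, ex_nil]
  · calc mass (ex (u₀ + t) c 0) (BrS s)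
        ≤ mass (fun w => ENNReal.ofReal (Real.exp (-(t - c))) * ex u₀ 0 0 w) (BrS s) := by
          refine mass_mono_fun fun w hw => ?_
          unfold ex
          rw [← ENNReal.ofReal_mul (Real.exp_pos _).le, ← Real.exp_add]
          apply ENNReal.ofReal_le_ofReal
          apply Real.exp_le_exp.2
          have h1 : (1 : ℝ) ≤ w.length := by
            have h2 : w ≠ [] := by
              rintro rfl
              have := hw.2
              simp at this
              omega
            have := List.length_pos_iff.2 h2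
            exact_mod_cast this
          have h2 : (X w : ℝ) ≤ w.length := by
            have := (abs_le.1 (abs_X_le w)).2
            exact_mod_cast this
          have h3 := mul_le_mul_of_nonneg_left h2 hc.le
          have h4 := mul_le_mul_of_nonneg_left h1 (sub_nonneg.2 hct)
          nlinarith
      _ = ENNReal.ofReal (Real.exp (-(t - c))) * mass (ex u₀ 0 0) (BrS s) := mass_const_mul _ _ _
      _ ≤ ENNReal.ofReal (Real.exp (-(t - c))) * chi u₀ := by
          gcongr
          exact mass_mono fun w hw => hw.1.saw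
      _ ≤ ENNReal.ofReal (Real.exp (-(t - c))) * (n : ℝ≥0∞) := by gcongr
      _ = ENNReal.ofReal ((n + 1 : ℝ)⁻¹ * n) := by
          have : -(t - c) = -Real.log (n + 1) := by rw [ht]; ring
          rw [this, Real.exp_neg, Real.exp_log hn1, ENNReal.ofReal_mul (by positivity),
            ENNReal.ofReal_natCast]
      _ ≤ 1 := by
          rw [← ENNReal.ofReal_one]
          apply ENNReal.ofReal_le_ofReal
          rw [inv_mul_le_iff₀ hn1]
          linarith

/-- interpolation of weights -/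
lemma ex_interp {u v c c' t : ℝ} (ht0 : 0 ≤ t) (ht1 : t ≤ 1) (hcc : (1 - t) * c' = c) (w : Word) :
    ex ((1 - t) * u + t * v) c 0 w ≤ ex u c' 0 w + ex v 0 0 w := by
  have h1 : -((1 - t) * u + t * v) * w.length + c * X w + 0 * Y w =
      (1 - t) * (-u * w.length + c' * X w + 0 * Y w) + t * (-v * w.length + 0 * X w + 0 * Y w) := by
    rw [← hcc]; ring
  rcases le_total (-u * w.length + c' * X w + 0 * Y w) (-v * w.length + 0 * X w + 0 * Y w)
    with h | h
  · refine le_trans ?_ le_add_self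
    unfold ex
    apply ENNReal.ofReal_le_ofReal
    apply Real.exp_le_exp.2
    rw [h1]
    nlinarith
  · refine le_trans ?_ le_self_add
    unfold ex
    apply ENNReal.ofReal_le_ofReal
    apply Real.exp_le_exp.2
    rw [h1]
    nlinarith

end Prm

open scoped ENNReal
open Prm

theorem exists_uc (c : ℝ) (hc : 0 < c) : ∃ u u' : ℝ, 0 < u' ∧ u' < u ∧ chi u' ≠ ∞ ∧
    (∀ s : ℕ, mass (ex u c 0) (BrS s) ≤ 1) ∧
    (∀ c' > c, ∃ s : ℕ, 1 < mass (ex u c' 0) (BrS s)) := by
  obtain ⟨u₁, hu₁, s₁, hs₁⟩ := exists_big c hc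
  obtain ⟨u₂, hu₂, hs₂⟩ := exists_small c hc
  set S : Set ℝ := {u | chi u ≠ ∞ ∧ ∀ s : ℕ, mass (ex u c 0) (BrS s) ≤ 1} with hS
  have hne : S.Nonempty := ⟨u₂, hu₂, hs₂⟩
  have hlb : ∀ u ∈ S, u₁ ≤ u := by
    intro u hu
    by_contra hlt
    push Not at hlt
    have h1 : mass (ex u₁ c 0) (BrS s₁) ≤ mass (ex u c 0) (BrS s₁) :=
      mass_mono_fun fun w _ => ex_anti hlt.le c 0 w
    exact absurd (h1.trans (hu.2 s₁)) (not_le.2 hs₁)
  have hbd : BddBelow S := ⟨u₁, hlb⟩
  set u := sInf S with hu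
  have hmem : ∀ v, u < v → v ∈ S := by
    intro v hv
    obtain ⟨a, ha, hav⟩ := exists_lt_of_csInf_lt hne hv
    exact ⟨ne_top_of_le_ne_top ha.1 (chi_anti hav.le), fun s =>
      (mass_mono_fun fun w _ => ex_anti hav.le c 0 w).trans (ha.2 s)⟩
  have hu1 : u₁ ≤ u := le_csInf hne hlb
  have hchi : chi u ≠ ∞ := ne_top_of_le_ne_top hu₁ (chi_anti hu1)
  have hle : ∀ s : ℕ, mass (ex u c 0) (BrS s) ≤ 1 := by
    intro s
    refine mass_le_of_nhdsGT ?_
    filter_upwards [self_mem_nhdsWithin] with v hv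
    exact (hmem v hv).2 s
  obtain ⟨u', hu', hchi'⟩ := exists_lt_chi hchi
  refine ⟨u, u', chi_pos hchi', hu', hchi', hle, fun c' hc' => ?_⟩
  by_contra hcon
  push Not at hcon
  have hc'0 : 0 < c' := hc.trans hc'
  set t : ℝ := 1 - c / c' with ht
  have ht0 : 0 < t := by
    rw [ht, sub_pos, div_lt_one hc'0]; exact hc'
  have ht1 : t < 1 := by
    rw [ht]; have := div_pos hc hc'0; linarith
  have hcc : (1 - t) * c' = c := by rw [ht]; field_simp; ring
  set v : ℝ := (1 - t) * u + t * u' with hv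
  have hvlt : v < u := by rw [hv]; nlinarith
  have hvge : u' ≤ v := by rw [hv]; nlinarith
  have hvS : v ∈ S := by
    refine ⟨ne_top_of_le_ne_top hchi' (chi_anti hvge), ?_⟩
    refine le_one_of_bounded (M := 1 + chi u') (ENNReal.add_ne_top.2 ⟨ENNReal.one_ne_top, hchi'⟩) ?_
    intro s
    calc mass (ex v c 0) (BrS s) ≤ mass (fun w => ex u c' 0 w + ex u' 0 0 w) (BrS s) :=
          mass_mono_fun fun w _ => ex_interp ht0.le ht1.le hcc w
      _ = mass (ex u c' 0) (BrS s) + mass (ex u' 0 0) (BrS s) := mass_add _ _ _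
      _ ≤ 1 + chi u' := add_le_add (hcon s) (mass_mono fun w hw => hw.1.saw)
  exact absurd (csInf_le hbd hvS) (not_le.2 hvlt)

end Pool.Agent.SAPF
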