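import Pool.Agent.SAPF.Basic

/-!
Definitions shared by the modules: self-avoiding polygons, width, area, and the far functional.
-/

namespace Pool.Agent.SAPF

open scoped ENNReal

/-- rooted oriented self-avoiding polygon with `m` vertices, starting at the origin -/
def IsSAP (m : ℕ) (v : ZMod m → ℤ × ℤ) : Prop :=
  v 0 = 0 ∧ Function.Injective v ∧
    ∀ i, v (i + 1) - v i ∈ ({(1, 0), (0, 1), (-1, 0), (0, -1)} : Set (ℤ × ℤ))

/-- width: largest difference of horizontal coordinates of two vertices -/
noncomputable def width {m : ℕ} (v : ZMod m → ℤ × ℤ) : ℤ :=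
  sSup {d : ℤ | ∃ i j, d = (v i).1 - (v j).1}

/-- the edges from `v i` to `v (i + 1)` that are horizontal and lie above the unit square
`[a, a + 1] × [b, b + 1]`, where `c = (a, b)` -/
def above {m : ℕ} (v : ZMod m → ℤ × ℤ) (c : ℤ × ℤ) : Set (ZMod m) :=
  {i | (v i).2 = (v (i + 1)).2 ∧ min (v i).1 (v (i + 1)).1 = c.1 ∧ c.2 < (v i).2}

/-- area: number of unit squares with an odd number of polygon edges above them -/
noncomputable def area {m : ℕ} (v : ZMod m → ℤ × ℤ) : ℕ :=
  Set.ncard {c : ℤ × ℤ | Odd (above v c).ncard}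

/-- the path of the word `w`, read as a function on `ZMod m` -/
def loop (m : ℕ) (w : Word) (j : ZMod m) : ℤ × ℤ := (X (w.take j.val), Y (w.take j.val))

/-- re-rooting at index `i` -/
def rot {m : ℕ} (i : ZMod m) (v : ZMod m → ℤ × ℤ) (j : ZMod m) : ℤ × ℤ := v (j + i) - v i

/-- horizontal edges of a word started at the origin, as pairs (column, height) -/
def hEdges : Word → List (ℤ × ℤ)
  | [] => []
  | d :: w => (if d = Dir.E then [((0 : ℤ), (0 : ℤ))] else if d = Dir.W then [((-1 : ℤ), (0 : ℤ))]
      else []) ++ (hEdges w).map (fun p => (p.1 + d.dx, p.2 + d.dy))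

/-- heights of the horizontal edges of `w` in column `x` -/
def colH (w : Word) (x : ℤ) : Finset ℤ :=
  (((hEdges w).filter (fun p => p.1 = x)).map Prod.snd).toFinset

/-- flippable pieces -/
def Flp (p : Word) : Prop := p = [Dir.E, Dir.N] ∨ p = [Dir.E, Dir.S]

instance (p : Word) : Decidable (Flp p) := by unfold Flp; infer_instance

/-- number of flippable pieces of a list of pieces, started at `(x, y)`, whose first edge is at
distance at least `r` from `D x` (`x` the current column) -/
def farP (r : ℕ) (D : ℤ → Finset ℤ) : ℤ → ℤ → List Word → ℕ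
  | _, _, [] => 0
  | x, y, p :: ps =>
      (if Flp p ∧ ∀ d ∈ D x, (r : ℤ) ≤ |y - d| then 1 else 0) + farP r D (x + X p) (y + Y p) ps

/-- all pieces are irreducible bridges -/
def AllIrr (ps : List Word) : Prop := ∀ p ∈ ps, IsIrr p

/-- the properties of the parameters that are used for polygons; `exp (-u)` is the weight of a
step, `exp c` the weight of a unit of span -/
structure Params (u c : ℝ) : Prop where
  u_pos : 0 < u
  c_pos : 0 < c
  one : mass (ex u c 0) Irr = 1
  tail : ∃ δ > 0, mass (ex (u - δ) c 0) Irr ≠ ∞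
  low : ∃ κ > 0, ∀ n : ℕ, ENNReal.ofReal κ ≤ mass (ex u c 0) {w | IsBr w ∧ w.length = n}
  up : ∀ n : ℕ, mass (ex u c 0) {w | IsBr w ∧ w.length = n} ≤ 1

end Pool.Agent.SAPF
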