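import Pool.Agent.SAPF.Factor

/-!
Renewal theory for bridges: the irreducible bridges have total mass one, bounds for the bridges of
given length.
-/

namespace Pool.Agent.SAPF

open scoped ENNReal
open Filter

/-- a size function: additive, at least one on the irreducible bridges -/
structure IsSize (sz : Word → ℕ) : Prop where
  add : ∀ {v w : Word}, IsBr v → IsBr w → sz (v ++ w) = sz v + sz w
  nil : sz [] = 0
  pos : ∀ {p : Word}, IsIrr p → 1 ≤ sz p

lemma IsIrr.X_pos {p : Word} (h : IsIrr p) : 0 < X p := h.br.pos (List.prefix_refl p) h.ne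

lemma isSize_length : IsSize List.length :=
  ⟨fun _ _ => List.length_append, rfl, fun h => List.length_pos_iff.2 h.ne⟩

lemma isSize_span : IsSize (fun w => (X w).toNat) := by
  refine ⟨?_, by simp, ?_⟩
  · intro v w hv hw
    have h1 := hv.X_nonneg
    have h2 := hw.X_nonneg
    simp only [X_append]
    omega
  · intro p hp
    have := hp.X_pos
    show 1 ≤ (X p).toNat
    omega

/-- bridges of size `n` -/
def BrZ (sz : Word → ℕ) (n : ℕ) : Set Word := {w | IsBr w ∧ sz w = n}
/-- irreducible bridges of size `n` -/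
def IrrZ (sz : Word → ℕ) (n : ℕ) : Set Word := {w | IsIrr w ∧ sz w = n}

lemma exists_first_irr {w : Word} (h : IsBr w) (h0 : w ≠ []) :
    ∃ p v, w = p ++ v ∧ IsIrr p ∧ IsBr v := by
  obtain ⟨ps, hps, rfl⟩ := exists_factor h
  cases ps with
  | nil => exact absurd rfl h0
  | cons p ps =>
    exact ⟨p, ps.flatten, List.flatten_cons, hps p (by simp),
      isBr_flatten fun q hq => hps q (by simp [hq])⟩

lemma brZ_zero {sz : Word → ℕ} (hs : IsSize sz) : BrZ sz 0 = {[]} := by
  ext w
  simp only [BrZ, Set.mem_ofPred_eq, Set.mem_singleton_iff]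
  constructor
  · rintro ⟨h1, h2⟩
    by_contra h0
    obtain ⟨p, v, rfl, hp, hv⟩ := exists_first_irr h1 h0
    rw [hs.add hp.br hv] at h2
    have := hs.pos hp
    omega
  · rintro rfl
    exact ⟨isBr_nil, hs.nil⟩

lemma irrZ_zero {sz : Word → ℕ} (hs : IsSize sz) : IrrZ sz 0 = ∅ := by
  ext w
  simp only [IrrZ, Set.mem_ofPred_eq, Set.mem_empty_iff_false, iff_false]
  rintro ⟨h1, h2⟩
  have := hs.pos h1
  omega

/-- the irreducible bridges, ordered by size -/
lemma tsum_irrZ (φ : Word → ℝ≥0∞) (sz : Word → ℕ) : ∑' n, mass φ (IrrZ sz n) = mass φ Irr := by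
  simp only [mass_eq_indicator]
  rw [ENNReal.tsum_comm]
  refine tsum_congr fun w => ?_
  rw [tsum_eq_single (sz w)]
  · by_cases h : w ∈ Irr
    · rw [Set.indicator_of_mem h, Set.indicator_of_mem]
      exact ⟨h, rfl⟩
    · rw [Set.indicator_of_notMem h, Set.indicator_of_notMem]
      exact fun hh => h hh.1
  · intro n hn
    rw [Set.indicator_of_notMem]
    exact fun hh => hn hh.2.symm

/-- all bridges, ordered by size -/
lemma tsum_brZ (φ : Word → ℝ≥0∞) (sz : Word → ℕ) : ∑' n, mass φ (BrZ sz n) = mass φ Br := by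
  simp only [mass_eq_indicator]
  rw [ENNReal.tsum_comm]
  refine tsum_congr fun w => ?_
  rw [tsum_eq_single (sz w)]
  · by_cases h : w ∈ Br
    · rw [Set.indicator_of_mem h, Set.indicator_of_mem]
      exact ⟨h, rfl⟩
    · rw [Set.indicator_of_notMem h, Set.indicator_of_notMem]
      exact fun hh => h hh.1
  · intro n hn
    rw [Set.indicator_of_notMem]
    exact fun hh => hn hh.2.symm

section renewal
variable {φ : Word → ℝ≥0∞} {sz : Word → ℕ}

/-- product structure -/
lemma mass_brZ_eq (hφ : ∀ v w, φ (v ++ w) = φ v * φ w) (hs : IsSize sz) {n : ℕ} (hn : 1 ≤ n) :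
    mass φ (BrZ sz n) =
      mass (fun x : Word × Word => φ x.1 * φ x.2) {x | IsIrr x.1 ∧ IsBr x.2 ∧ sz x.1 + sz x.2 = n} := by
  have hset : BrZ sz n = (fun x : Word × Word => x.1 ++ x.2) ''
      {x | IsIrr x.1 ∧ IsBr x.2 ∧ sz x.1 + sz x.2 = n} := by
    ext w
    simp only [BrZ, Set.mem_ofPred_eq, Set.mem_image, Prod.exists]
    constructor
    · rintro ⟨h1, h2⟩
      have h0 : w ≠ [] := by
        rintro rfl
        rw [hs.nil] at h2
        omega
      obtain ⟨p, v, rfl, hp, hv⟩ := exists_first_irr h1 h0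
      exact ⟨p, v, ⟨hp, hv, by rw [← hs.add hp.br hv]; exact h2⟩, rfl⟩
    · rintro ⟨p, v, ⟨hp, hv, h⟩, rfl⟩
      exact ⟨hp.br.append hv, by rw [hs.add hp.br hv]; exact h⟩
  have hinj : Set.InjOn (fun x : Word × Word => x.1 ++ x.2)
      {x | IsIrr x.1 ∧ IsBr x.2 ∧ sz x.1 + sz x.2 = n} := by
    rintro ⟨a, b⟩ ⟨ha, hb, -⟩ ⟨a', b'⟩ ⟨ha', hb', -⟩ h
    have := irr_append_inj ha ha' hb hb' h
    exact Prod.ext this.1 this.2
  rw [hset, mass_image _ hinj]
  exact mass_congr fun x _ => hφ x.1 x.2

/-- the renewal equation -/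
lemma renewal (hφ : ∀ v w, φ (v ++ w) = φ v * φ w) (hs : IsSize sz) {n : ℕ} (hn : 1 ≤ n) :
    mass φ (BrZ sz n) =
      ∑ k ∈ Finset.range (n + 1), mass φ (IrrZ sz k) * mass φ (BrZ sz (n - k)) := by
  rw [mass_brZ_eq hφ hs hn]
  have h1 : ∀ k, mass φ (IrrZ sz k) * mass φ (BrZ sz (n - k)) =
      mass (fun x : Word × Word => φ x.1 * φ x.2) (IrrZ sz k ×ˢ BrZ sz (n - k)) :=
    fun k => (mass_prod _ _ _ _).symm
  rw [Finset.sum_congr rfl fun k _ => h1 k]
  simp only [mass_eq_indicator]
  rw [← Summable.tsum_finsetSum (fun _ _ => ENNReal.summable)]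
  refine tsum_congr fun x => ?_
  by_cases hx : IsIrr x.1 ∧ IsBr x.2 ∧ sz x.1 + sz x.2 = n
  · rw [Set.indicator_of_mem (show x ∈ {x : Word × Word | IsIrr x.1 ∧ IsBr x.2 ∧
      sz x.1 + sz x.2 = n} from hx)]
    rw [Finset.sum_eq_single (sz x.1)]
    · rw [Set.indicator_of_mem]
      exact ⟨⟨hx.1, rfl⟩, ⟨hx.2.1, by omega⟩⟩
    · intro k _ hk
      rw [Set.indicator_of_notMem]
      exact fun hh => hk hh.1.2.symm
    · intro h
      exact absurd (Finset.mem_range.2 (by omega)) h
  · rw [Set.indicator_of_notMem (show x ∉ {x : Word × Word | IsIrr x.1 ∧ IsBr x.2 ∧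
      sz x.1 + sz x.2 = n} from hx)]
    symm
    refine Finset.sum_eq_zero fun k hk => ?_
    rw [Set.indicator_of_notMem]
    intro hh
    have hk' := Finset.mem_range.1 hk
    refine hx ⟨hh.1.1, hh.2.1, ?_⟩
    have e1 := hh.1.2
    have e2 := hh.2.2
    omega

lemma mass_brZ_zero (hs : IsSize sz) (h1 : φ [] = 1) : mass φ (BrZ sz 0) = 1 := by
  rw [brZ_zero hs, mass_singleton, h1]
lemma mass_irrZ_zero (hs : IsSize sz) : mass φ (IrrZ sz 0) = 0 := by
  rw [irrZ_zero hs, mass_empty]

/-- if the irreducible bridges have mass at most one, so have the bridges of each size -/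
lemma mass_brZ_le_one (hφ : ∀ v w, φ (v ++ w) = φ v * φ w) (h1 : φ [] = 1) (hs : IsSize sz)
    (hle : mass φ Irr ≤ 1) (n : ℕ) : mass φ (BrZ sz n) ≤ 1 := by
  induction n using Nat.strong_induction_on with
  | _ n ih =>
    rcases Nat.eq_zero_or_pos n with rfl | hn
    · exact (mass_brZ_zero hs h1).le
    · rw [renewal hφ hs hn]
      calc ∑ k ∈ Finset.range (n + 1), mass φ (IrrZ sz k) * mass φ (BrZ sz (n - k))
          ≤ ∑ k ∈ Finset.range (n + 1), mass φ (IrrZ sz k) := by
            refine Finset.sum_le_sum fun k _ => ?_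
            rcases Nat.eq_zero_or_pos k with rfl | hk
            · rw [mass_irrZ_zero hs]; simp
            · calc mass φ (IrrZ sz k) * mass φ (BrZ sz (n - k)) ≤ mass φ (IrrZ sz k) * 1 := by
                    gcongr
                    exact ih (n - k) (by omega)
                _ = mass φ (IrrZ sz k) := mul_one _
        _ ≤ ∑' k, mass φ (IrrZ sz k) := ENNReal.sum_le_tsum _
        _ = mass φ Irr := tsum_irrZ φ sz
        _ ≤ 1 := hle

/-- all bridges: the empty one, and the products -/
lemma mass_br_ge (hφ : ∀ v w, φ (v ++ w) = φ v * φ w) : mass φ Irr * mass φ Br ≤ mass φ Br := by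
  rw [← mass_prod]
  refine mass_le_of_injOn (fun x : Word × Word => x.1 ++ x.2) ?_ ?_ ?_
  · rintro ⟨a, b⟩ ⟨ha, hb⟩ ⟨a', b'⟩ ⟨ha', hb'⟩ h
    have := irr_append_inj ha ha' hb hb' h
    exact Prod.ext this.1 this.2
  · rintro ⟨a, b⟩ ⟨ha, hb⟩
    exact IsBr.append (IsIrr.br ha) hb
  · rintro ⟨a, b⟩ _
    exact (hφ a b).ge

end renewal

lemma ex_mono_X {u c c' : ℝ} (h : c ≤ c') {w : Word} (hw : 0 ≤ X w) :
    ex u c 0 w ≤ ex u c' 0 w := by
  unfold ex
  apply ENNReal.ofReal_le_ofReal
  apply Real.exp_le_exp.2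
  have : (0 : ℝ) ≤ X w := by exact_mod_cast hw
  nlinarith

lemma BrS_eq (s : ℕ) : BrS (s : ℤ) = BrZ (fun w => (X w).toNat) s := by
  ext w
  simp only [BrS, BrZ, Set.mem_ofPred_eq]
  constructor
  · rintro ⟨h1, h2⟩
    refine ⟨h1, ?_⟩
    omega
  · rintro ⟨h1, h2⟩
    have := h1.X_nonneg
    refine ⟨h1, ?_⟩
    omega

/-- subcritical in the span variable -/
lemma mass_irr_le_of_lt {u c d : ℝ} (hd : 0 < d)
    (h1 : ∀ s : ℕ, mass (ex u c 0) (BrS s) ≤ 1) : mass (ex u (c - d) 0) Irr ≤ 1 := by
  have hB : mass (ex u (c - d) 0) Br ≤ ∑' s : ℕ, ENNReal.ofReal (Real.exp (-d)) ^ s := by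
    rw [← tsum_brZ _ (fun w => (X w).toNat)]
    refine ENNReal.tsum_le_tsum fun s => ?_
    rw [← BrS_eq]
    have : ∀ w ∈ BrS (s : ℤ), ex u (c - d) 0 w = ENNReal.ofReal (Real.exp (-d)) ^ s * ex u c 0 w := by
      intro w hw
      unfold ex
      rw [← ENNReal.ofReal_pow (Real.exp_pos _).le, ← ENNReal.ofReal_mul (by positivity),
        ← Real.exp_nat_mul, ← Real.exp_add]
      congr 2
      have h2 : ((X w : ℤ) : ℝ) = s := by rw [hw.2]; simp
      rw [h2]; ring
    rw [mass_congr this, mass_const_mul]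
    calc ENNReal.ofReal (Real.exp (-d)) ^ s * mass (ex u c 0) (BrS s)
        ≤ ENNReal.ofReal (Real.exp (-d)) ^ s * 1 := by gcongr; exact h1 s
      _ = _ := mul_one _
  have hlt : ENNReal.ofReal (Real.exp (-d)) < 1 := by
    rw [← ENNReal.ofReal_one]
    exact (ENNReal.ofReal_lt_ofReal_iff one_pos).2 (by
      rw [← Real.exp_zero]; exact Real.exp_lt_exp.2 (by linarith))
  have hfin : mass (ex u (c - d) 0) Br ≠ ∞ := by
    refine ne_top_of_le_ne_top ?_ hB
    rw [ENNReal.tsum_geometric]
    exact ENNReal.inv_ne_top.2 (tsub_pos_of_lt hlt).ne'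
  have hpos : mass (ex u (c - d) 0) Br ≠ 0 := by
    have : ex u (c - d) 0 [] ≤ mass (ex u (c - d) 0) Br := le_mass (show [] ∈ Br from isBr_nil)
    rw [ex_nil] at this
    exact (lt_of_lt_of_le one_pos this).ne'
  have h3 := mass_br_ge (φ := ex u (c - d) 0) (ex_append u (c - d) 0)
  by_contra hcon
  rw [not_le] at hcon
  have h4 : 1 * mass (ex u (c - d) 0) Br < mass (ex u (c - d) 0) Irr * mass (ex u (c - d) 0) Br :=
    ENNReal.mul_lt_mul_left hpos hfin hcon
  rw [one_mul] at h4
  exact absurd h3 (not_le.2 h4)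

/-- convexity of the exponential weights -/
lemma ex_convex (u c c' t : ℝ) (ht : 0 ≤ t) (ht1 : t ≤ 1) (w : Word) :
    ex u ((1 - t) * c + t * c') 0 w ≤
      ENNReal.ofReal (1 - t) * ex u c 0 w + ENNReal.ofReal t * ex u c' 0 w := by
  unfold ex
  rw [← ENNReal.ofReal_mul (by linarith), ← ENNReal.ofReal_mul ht,
    ← ENNReal.ofReal_add (by have := Real.exp_pos (-u * w.length + c * X w + 0 * Y w); nlinarith)
      (by positivity)]
  apply ENNReal.ofReal_le_ofReal
  have h := convexOn_exp.2 (Set.mem_univ (-u * w.length + c * X w + 0 * Y w))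
    (Set.mem_univ (-u * w.length + c' * X w + 0 * Y w)) (show 0 ≤ 1 - t by linarith) ht
    (by ring)
  simp only [smul_eq_mul] at h
  refine le_trans (le_of_eq ?_) h
  congr 1
  ring

theorem mass_irr_eq_one {u c : ℝ} (h1 : ∀ s : ℕ, mass (ex u c 0) (BrS s) ≤ 1)
    (h2 : ∀ c' > c, ∃ s : ℕ, 1 < mass (ex u c' 0) (BrS s))
    (h3 : ∃ ε > 0, mass (ex u (c + ε) 0) Irr ≠ ∞) : mass (ex u c 0) Irr = 1 := by
  apply le_antisymm
  · -- finite sums are limits
    refine mass_le_of_finset fun F hF => ?_
    have hcont : Tendsto (fun d : ℝ => ∑ w ∈ F, ex u (c - d) 0 w) (nhdsWithin 0 (Set.Ioi 0))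
        (nhds (∑ w ∈ F, ex u c 0 w)) := by
      apply Tendsto.mono_left _ nhdsWithin_le_nhds
      refine tendsto_finsetSum _ fun w _ => ?_
      have : Continuous fun d : ℝ => ex u (c - d) 0 w := by
        unfold ex
        exact ENNReal.continuous_ofReal.comp (Real.continuous_exp.comp (by fun_prop))
      have h := this.tendsto 0
      simpa using h
    refine le_of_tendsto hcont ?_
    filter_upwards [self_mem_nhdsWithin] with d hd
    exact (sum_le_mass hF).trans (mass_irr_le_of_lt hd h1)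
  · by_contra hcon
    rw [not_le] at hcon
    obtain ⟨ε, hε, hfin⟩ := h3
    -- a convex combination with mass at most one
    set G := mass (ex u c 0) Irr with hG
    set H := mass (ex u (c + ε) 0) Irr with hH
    have hGfin : G ≠ ∞ := (hcon.trans ENNReal.one_lt_top).ne
    obtain ⟨t, ht0, ht1, ht⟩ : ∃ t : ℝ, 0 < t ∧ t ≤ 1 ∧
        ENNReal.ofReal (1 - t) * G + ENNReal.ofReal t * H ≤ 1 := by
      have hGr : G.toReal < 1 := by
        rw [← ENNReal.toReal_one]
        exact (ENNReal.toReal_lt_toReal hGfin ENNReal.one_ne_top).2 hcon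
      have hH0 : 0 ≤ H.toReal := ENNReal.toReal_nonneg
      have hG0 : 0 ≤ G.toReal := ENNReal.toReal_nonneg
      refine ⟨(1 - G.toReal) / (1 + H.toReal), by apply div_pos <;> linarith, ?_, ?_⟩
      · rw [div_le_one (by linarith)]; linarith
      · have ht1 : (1 - G.toReal) / (1 + H.toReal) ≤ 1 := by
          rw [div_le_one (by linarith)]; linarith
        have ht0 : 0 ≤ (1 - G.toReal) / (1 + H.toReal) := by
          apply div_nonneg <;> linarith
        set t := (1 - G.toReal) / (1 + H.toReal) with htdef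
        rw [← ENNReal.ofReal_toReal hGfin, ← ENNReal.ofReal_toReal hfin,
          ← ENNReal.ofReal_mul (by linarith), ← ENNReal.ofReal_mul ht0,
          ← ENNReal.ofReal_add (by apply mul_nonneg <;> linarith) (by positivity),
          ← ENNReal.ofReal_one]
        apply ENNReal.ofReal_le_ofReal
        have h5 : t * (1 + H.toReal) = 1 - G.toReal := by
          rw [htdef]; field_simp
        nlinarith
    have hle : mass (ex u ((1 - t) * c + t * (c + ε)) 0) Irr ≤ 1 := by
      refine le_trans ?_ ht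
      rw [hG, hH, ← mass_const_mul, ← mass_const_mul, ← mass_add]
      exact mass_mono_fun fun w _ => ex_convex u c (c + ε) t ht0.le ht1 w
    obtain ⟨s, hs⟩ := h2 ((1 - t) * c + t * (c + ε)) (by nlinarith)
    rw [BrS_eq] at hs
    exact absurd (mass_brZ_le_one (ex_append _ _ _) (ex_nil _ _ _) isSize_span hle s)
      (not_le.2 hs)

lemma mass_irr_tail {u u' c : ℝ} (hc : 0 < c) (hu : u' < u) (hchi : chi u' ≠ ∞)
    (h3 : ∃ ε > 0, mass (ex u (c + ε) 0) Irr ≠ ∞) :
    ∃ δ > 0, mass (ex (u - δ) c 0) Irr ≠ ∞ := by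
  obtain ⟨ε, hε, hfin⟩ := h3
  have hcε : 0 < c + ε := by linarith
  have ht : 0 < ε / (c + ε) := by positivity
  have ht1 : ε / (c + ε) < 1 := by rw [div_lt_one hcε]; linarith
  refine ⟨ε / (c + ε) * (u - u'), mul_pos ht (by linarith), ?_⟩
  have hle : mass (ex (u - ε / (c + ε) * (u - u')) c 0) Irr ≤
      mass (ex u (c + ε) 0) Irr + mass (ex u' 0 0) Irr := by
    rw [← mass_add]
    refine mass_mono_fun fun w _ => ?_
    unfold ex
    rw [← ENNReal.ofReal_add (Real.exp_pos _).le (Real.exp_pos _).le]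
    apply ENNReal.ofReal_le_ofReal
    set t := ε / (c + ε) with htdef
    have hct : (1 - t) * (c + ε) = c := by
      rw [htdef]; field_simp; ring
    set A : ℝ := -u * w.length + (c + ε) * X w + 0 * Y w with hA
    set B : ℝ := -u' * w.length + 0 * X w + 0 * Y w with hB
    have hexp : -(u - t * (u - u')) * w.length + c * X w + 0 * Y w = (1 - t) * A + t * B := by
      rw [hA, hB]
      nth_rewrite 1 [← hct]
      ring
    rw [hexp]
    rcases le_total A B with h | h
    · have : (1 - t) * A + t * B ≤ B := by nlinarith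
      have h1 := Real.exp_le_exp.2 this
      have h2 := Real.exp_pos A
      linarith
    · have : (1 - t) * A + t * B ≤ A := by nlinarith
      have h1 := Real.exp_le_exp.2 this
      have h2 := Real.exp_pos B
      linarith
  refine ne_top_of_le_ne_top (ENNReal.add_ne_top.2 ⟨hfin, ?_⟩) hle
  refine ne_top_of_le_ne_top hchi ?_
  exact mass_mono fun w hw => (IsIrr.br hw).saw

/-! ### bridges of given length -/

section low
variable {u c : ℝ}

lemma brZ_succ_ge (u c : ℝ) (n : ℕ) :
    ex u c 0 [Dir.E] * mass (ex u c 0) (BrZ List.length n) ≤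
      mass (ex u c 0) (BrZ List.length (n + 1)) := by
  rw [← mass_const_mul]
  refine mass_le_of_injOn (fun w => [Dir.E] ++ w) ?_ ?_ ?_
  · intro a _ b _ h
    exact List.append_cancel_left h
  · rintro w ⟨h1, h2⟩
    refine ⟨isBr_singleton_E.append h1, ?_⟩
    rw [List.length_append, h2]
    simp [Nat.add_comm]
  · intro w _
    exact (ex_append u c 0 [Dir.E] w).ge

lemma brZ_add_ge (u c : ℝ) (n k : ℕ) :
    ex u c 0 [Dir.E] ^ k * mass (ex u c 0) (BrZ List.length n) ≤
      mass (ex u c 0) (BrZ List.length (n + k)) := by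
  induction k with
  | zero => simp
  | succ k ih =>
    calc ex u c 0 [Dir.E] ^ (k + 1) * mass (ex u c 0) (BrZ List.length n)
        = ex u c 0 [Dir.E] * (ex u c 0 [Dir.E] ^ k * mass (ex u c 0) (BrZ List.length n)) := by
          ring
      _ ≤ ex u c 0 [Dir.E] * mass (ex u c 0) (BrZ List.length (n + k)) := by gcongr
      _ ≤ _ := brZ_succ_ge u c (n + k)

/-- the tail of the law of the length of an irreducible bridge -/
noncomputable def tl (u c : ℝ) (n : ℕ) : ℝ≥0∞ := ∑' j, mass (ex u c 0) (IrrZ List.length (j + (n + 1)))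

lemma tl_zero (hone : mass (ex u c 0) Irr = 1) : tl u c 0 = 1 := by
  have h := tsum_irrZ (ex u c 0) List.length
  rw [hone, tsum_eq_zero_add' ENNReal.summable, mass_irrZ_zero isSize_length, zero_add] at h
  exact h

lemma tl_succ (u c : ℝ) (n : ℕ) :
    tl u c n = mass (ex u c 0) (IrrZ List.length (n + 1)) + tl u c (n + 1) := by
  unfold tl
  rw [tsum_eq_zero_add' ENNReal.summable, zero_add]
  congr 1
  refine tsum_congr fun j => ?_
  congr 2
  ring

lemma tl_le_one (hone : mass (ex u c 0) Irr = 1) (n : ℕ) : tl u c n ≤ 1 := by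
  induction n with
  | zero => exact (tl_zero hone).le
  | succ n ih =>
    refine le_trans ?_ ih
    rw [tl_succ u c n]
    exact le_add_self

lemma tl_conv (hone : mass (ex u c 0) Irr = 1) (n : ℕ) :
    ∑ k ∈ Finset.range (n + 1), tl u c k * mass (ex u c 0) (BrZ List.length (n - k)) = 1 := by
  induction n with
  | zero =>
    simp [tl_zero hone, mass_brZ_zero isSize_length (ex_nil u c 0)]
  | succ n ih =>
    rw [Finset.sum_range_succ', tl_zero hone, one_mul]
    have hren := renewal (ex_append u c 0) isSize_length (n := n + 1) (by omega)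
    rw [Finset.sum_range_succ', mass_irrZ_zero isSize_length, zero_mul, add_zero] at hren
    simp only [Nat.sub_zero]
    rw [hren, ← Finset.sum_add_distrib, ← ih]
    refine Finset.sum_congr rfl fun k hk => ?_
    have hk' := Finset.mem_range.1 hk
    have e1 : n + 1 - (k + 1) = n - k := by omega
    rw [e1, tl_succ u c k]
    ring

lemma mass_shift (u δ c : ℝ) (n : ℕ) :
    mass (ex u c 0) (IrrZ List.length n) =
      ENNReal.ofReal (Real.exp (-δ)) ^ n * mass (ex (u - δ) c 0) (IrrZ List.length n) := by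
  rw [← mass_const_mul]
  refine mass_congr fun w hw => ?_
  unfold ex
  rw [← ENNReal.ofReal_pow (Real.exp_pos _).le, ← ENNReal.ofReal_mul (by positivity),
    ← Real.exp_nat_mul, ← Real.exp_add]
  congr 2
  have h2 : ((w.length : ℕ) : ℝ) = n := by rw [hw.2]
  rw [h2]; ring

lemma tl_le {δ : ℝ} (hδ : 0 < δ) (n : ℕ) :
    tl u c n ≤ ENNReal.ofReal (Real.exp (-δ)) ^ n * mass (ex (u - δ) c 0) Irr := by
  have hr : ENNReal.ofReal (Real.exp (-δ)) ≤ 1 := by
    rw [← ENNReal.ofReal_one]
    exact ENNReal.ofReal_le_ofReal (by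
      rw [← Real.exp_zero]; exact Real.exp_le_exp.2 (by linarith))
  calc tl u c n = ∑' j, ENNReal.ofReal (Real.exp (-δ)) ^ (j + (n + 1)) *
          mass (ex (u - δ) c 0) (IrrZ List.length (j + (n + 1))) :=
        tsum_congr fun j => mass_shift u δ c _
    _ ≤ ∑' j, ENNReal.ofReal (Real.exp (-δ)) ^ n *
          mass (ex (u - δ) c 0) (IrrZ List.length (j + (n + 1))) := by
        refine ENNReal.tsum_le_tsum fun j => ?_
        gcongr ?_ * _
        exact pow_le_pow_right_of_le_one' hr (by omega)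
    _ = ENNReal.ofReal (Real.exp (-δ)) ^ n *
          ∑' j, mass (ex (u - δ) c 0) (IrrZ List.length (j + (n + 1))) := ENNReal.tsum_mul_left
    _ ≤ ENNReal.ofReal (Real.exp (-δ)) ^ n * mass (ex (u - δ) c 0) Irr := by
        gcongr
        rw [← tsum_irrZ _ List.length]
        exact ENNReal.tsum_comp_le_tsum_of_injective (f := fun j : ℕ => j + (n + 1))
          (fun a b h => by simpa using h) _

lemma tsum_tl_ne_top (htail : ∃ δ > 0, mass (ex (u - δ) c 0) Irr ≠ ∞) :
    ∑' n, tl u c n ≠ ∞ := by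
  obtain ⟨δ, hδ, hfin⟩ := htail
  refine ne_top_of_le_ne_top ?_ (ENNReal.tsum_le_tsum fun n => tl_le (u := u) (c := c) hδ n)
  rw [ENNReal.tsum_mul_right, ENNReal.tsum_geometric]
  refine ENNReal.mul_ne_top (ENNReal.inv_ne_top.2 (tsub_pos_of_lt ?_).ne') hfin
  rw [← ENNReal.ofReal_one]
  exact (ENNReal.ofReal_lt_ofReal_iff one_pos).2 (by
    rw [← Real.exp_zero]; exact Real.exp_lt_exp.2 (by linarith))

theorem mass_len_low (hone : mass (ex u c 0) Irr = 1)
    (htail : ∃ δ > 0, mass (ex (u - δ) c 0) Irr ≠ ∞) :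
    ∃ κ > 0, ∀ n : ℕ, ENNReal.ofReal κ ≤ mass (ex u c 0) (BrZ List.length n) := by
  have hup := mass_brZ_le_one (ex_append u c 0) (ex_nil u c 0) isSize_length hone.le
  have ht := ENNReal.tendsto_sum_nat_add (tl u c) (tsum_tl_ne_top htail)
  obtain ⟨J, hJ⟩ : ∃ J, ∑' k, tl u c (k + J) < 2⁻¹ := by
    have := ht.eventually (gt_mem_nhds (show (0 : ℝ≥0∞) < 2⁻¹ by simp))
    exact this.exists
  set a := ex u c 0 [Dir.E] with ha
  have ha1 : a ≤ 1 := by
    refine le_trans ?_ (hup 1)
    exact le_mass (show [Dir.E] ∈ BrZ List.length 1 from ⟨isBr_singleton_E, rfl⟩)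
  have ha0 : 0 < a := ex_pos _ _ _ _
  have hatop : a ≠ ∞ := ex_ne_top _ _ _ _
  have key : ∀ n, a ^ J * 2⁻¹ ≤ (J : ℝ≥0∞) * mass (ex u c 0) (BrZ List.length n) := by
    intro n
    set v := fun m => mass (ex u c 0) (BrZ List.length m) with hv
    have hW : ∑ k ∈ Finset.range (n + 1), tl u c k * v (n - k) = 1 := tl_conv hone n
    have hstep : a ^ J ≤ (J : ℝ≥0∞) * v n + a ^ J * 2⁻¹ := by
      calc a ^ J = a ^ J * ∑ k ∈ Finset.range (n + 1), tl u c k * v (n - k) := by
            rw [hW, mul_one]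
        _ ≤ a ^ J * ∑ k ∈ Finset.range (n + 1), ((if k < J then v (n - k) else 0) +
              (if J ≤ k then tl u c k else 0)) := by
            gcongr with k hk
            by_cases hkJ : k < J
            · rw [if_pos hkJ, if_neg (by omega), add_zero]
              calc tl u c k * v (n - k) ≤ 1 * v (n - k) := by gcongr; exact tl_le_one hone k
                _ = _ := one_mul _
            · rw [if_neg hkJ, if_pos (by omega), zero_add]
              calc tl u c k * v (n - k) ≤ tl u c k * 1 := by gcongr; exact hup _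
                _ = _ := mul_one _
        _ = (∑ k ∈ Finset.range (n + 1), a ^ J * (if k < J then v (n - k) else 0)) +
              a ^ J * ∑ k ∈ Finset.range (n + 1), (if J ≤ k then tl u c k else 0) := by
            rw [Finset.sum_add_distrib, mul_add, Finset.mul_sum]
        _ ≤ (J : ℝ≥0∞) * v n + a ^ J * 2⁻¹ := by
            gcongr ?_ + a ^ J * ?_
            · calc ∑ k ∈ Finset.range (n + 1), a ^ J * (if k < J then v (n - k) else 0)
                  ≤ ∑ k ∈ Finset.range (n + 1), (if k ∈ Finset.range J then v n else 0) := by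
                    refine Finset.sum_le_sum fun k hk => ?_
                    by_cases hkJ : k < J
                    · rw [if_pos hkJ, if_pos (Finset.mem_range.2 hkJ)]
                      have hk' := Finset.mem_range.1 hk
                      have h1 := brZ_add_ge u c (n - k) k
                      have e1 : n - k + k = n := by omega
                      rw [e1] at h1
                      refine le_trans ?_ h1
                      gcongr ?_ * _
                      exact pow_le_pow_right_of_le_one' ha1 hkJ.le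
                    · rw [if_neg hkJ]; simp
                _ ≤ ∑ k ∈ Finset.range J, v n := by
                    rw [← Finset.sum_filter]
                    refine Finset.sum_le_sum_of_subset ?_
                    intro k hk
                    exact (Finset.mem_filter.1 hk).2
                _ = (J : ℝ≥0∞) * v n := by simp
            · calc ∑ k ∈ Finset.range (n + 1), (if J ≤ k then tl u c k else 0)
                  ≤ ∑' k, (if J ≤ k then tl u c k else 0) := ENNReal.sum_le_tsum _
                _ = (∑ k ∈ Finset.range J, (if J ≤ k then tl u c k else 0)) +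
                      ∑' k, (if J ≤ k + J then tl u c (k + J) else 0) :=
                    (ENNReal.summable.sum_add_tsum_nat_add' ).symm
                _ = ∑' k, tl u c (k + J) := by
                    rw [Finset.sum_eq_zero, zero_add]
                    · refine tsum_congr fun k => if_pos (by omega)
                    · intro k hk
                      have := Finset.mem_range.1 hk
                      exact if_neg (by omega)
                _ ≤ 2⁻¹ := hJ.le
    have hfin : a ^ J * 2⁻¹ ≠ ∞ :=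
      ENNReal.mul_ne_top (ENNReal.pow_ne_top hatop) (by simp)
    have hsplit : a ^ J * 2⁻¹ + a ^ J * 2⁻¹ = a ^ J := by
      rw [← mul_add, ENNReal.inv_two_add_inv_two, mul_one]
    rw [← hsplit] at hstep
    have h5 : a ^ J * 2⁻¹ + a ^ J * 2⁻¹ ≤ (J : ℝ≥0∞) * v n + a ^ J * 2⁻¹ := by
      simpa [hsplit] using hstep
    exact (ENNReal.add_le_add_iff_right hfin).1 h5
  have haJ : 0 < a ^ J * 2⁻¹ := by
    refine ENNReal.mul_pos (ENNReal.pow_pos ha0 J).ne' (by simp)
  have haJtop : a ^ J * 2⁻¹ ≠ ∞ :=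
    ENNReal.mul_ne_top (ENNReal.pow_ne_top hatop) (by simp)
  refine ⟨(a ^ J * 2⁻¹ / (J + 1)).toReal, ?_, ?_⟩
  · refine ENNReal.toReal_pos ?_ ?_
    · exact (ENNReal.div_pos haJ.ne' (by finiteness)).ne'
    · exact ENNReal.div_ne_top haJtop (by positivity)
  · intro n
    rw [ENNReal.ofReal_toReal (ENNReal.div_ne_top haJtop (by positivity))]
    refine ENNReal.div_le_of_le_mul ?_
    calc a ^ J * 2⁻¹ ≤ (J : ℝ≥0∞) * mass (ex u c 0) (BrZ List.length n) := key n
      _ ≤ mass (ex u c 0) (BrZ List.length n) * (J + 1) := by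
          rw [mul_comm]
          gcongr
          exact le_self_add

end low

theorem params_of {u u' c : ℝ} (hc : 0 < c) (hu' : 0 < u') (hu : u' < u) (hchi : chi u' ≠ ∞)
    (h1 : ∀ s : ℕ, mass (ex u c 0) (BrS s) ≤ 1)
    (h2 : ∀ c' > c, ∃ s : ℕ, 1 < mass (ex u c' 0) (BrS s))
    (h3 : ∃ ε > 0, mass (ex u (c + ε) 0) Irr ≠ ∞) : Params u c := by
  have hone := mass_irr_eq_one h1 h2 h3
  have htail := mass_irr_tail hc hu hchi h3
  exact
    { u_pos := hu'.trans hu
      c_pos := hc
      one := hone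
      tail := htail
      low := mass_len_low hone htail
      up := mass_brZ_le_one (ex_append u c 0) (ex_nil u c 0) isSize_length hone.le }

end Pool.Agent.SAPF
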