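import Pool.Agent.SAPF.GapT

/-!
Surgery on bridges: a window between two good slabs is replaced by a straight segment.
-/

namespace Pool.Agent.SAPF
open scoped ENNReal

lemma ivt_up (w : Word) (m : ℤ) (h0 : 0 ≤ m) (h : m ≤ X w) : ∃ v, v <+: w ∧ X v = m := by
  rcases h0.eq_or_lt with h1 | h1
  · exact ⟨[], List.nil_prefix, by simp [← h1]⟩
  · obtain ⟨u, v, hw, hu, -⟩ := exists_first_ge w m h1 ⟨w, List.prefix_rfl, h⟩
    exact ⟨u, ⟨v, hw.symm⟩, hu⟩

lemma ivt_dn (w : Word) (m : ℤ) (h0 : m ≤ 0) (h : X w ≤ m) : ∃ v, v <+: w ∧ X v = m := by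
  obtain ⟨v, hv, hx⟩ := ivt_up (flipX w) (-m) (by omega) (by rw [X_flipX]; omega)
  exact ⟨flipX v, prefix_flipX.1 hv, by rw [X_flipX]; omega⟩

/-- the straight segment -/
abbrev seg (L : ℕ) : Word := List.replicate L Dir.E

/-- a straight segment from level `j * L` to level `(j + 1) * L` that splits the bridge -/
def Cut (L : ℕ) (j : ℤ) (w : Word) : Prop :=
  ∃ P Q : Word, w = P ++ (seg L ++ Q) ∧ IsBr P ∧ IsBr Q ∧ X P = j * L

/-- slab `i` is good -/
def Gd (L i : ℤ) (w : Word) : Prop :=
  ∀ u u' : Word, u <+: u' → u' <+: w → X u = (i + 1) * L → X u' ≠ i * L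

/-- both neighbouring slabs are good -/
def GC (L : ℕ) (j : ℤ) (w : Word) : Prop := Gd L (j - 1) w ∧ Gd L (j + 1) w

/-- `w = A ++ V ++ Z` with the window `V` -/
structure Win (L : ℕ) (j : ℤ) (A V Z : Word) : Prop where
  br : IsBr (A ++ (V ++ Z))
  brA : IsBr A
  brZ : IsBr Z
  XA : X A = j * L
  XV : X V = L
  first : ∀ t : Word, t <+: A → t ≠ A → X t < j * L
  lo : ∀ t : Word, t <+: V → -(L : ℤ) < X t
  hi : ∀ t : Word, t <+: V → X t < 2 * L

lemma exists_win {L : ℕ} (hL : 0 < L) {j : ℤ} (hj : 1 ≤ j) {w : Word} (hw : IsBr w)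
    (hs : (j + 1) * L < X w) (hg : GC L j w) : ∃ A V Z, w = A ++ (V ++ Z) ∧ Win L j A V Z := by
  have hL' : (0 : ℤ) < L := by exact_mod_cast hL
  have hjL : 0 < j * L := by positivity
  obtain ⟨A, R, rfl, hA, hAf⟩ := exists_first_ge w (j * L) hjL
    ⟨w, List.prefix_rfl, by nlinarith⟩
  have hR : (L : ℤ) < X R := by
    rw [X_append, hA] at hs; linarith
  obtain ⟨V, Z, rfl, hV, hZ⟩ := exists_last_le R L hL'.le hR
  refine ⟨A, V, Z, rfl, hw, ?_, ?_, hA, hV, hAf, ?_, ?_⟩
  · refine hw.of_prefix fun t ht => ?_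
    obtain ⟨t', rfl⟩ := ht
    rw [X_append] at hA
    rcases eq_or_ne t [] with h0 | h0
    · simp [h0]
    · have := hAf t' (List.prefix_append _ _) (by simpa using h0)
      linarith
  · rw [← List.append_assoc] at hw
    exact hw.of_suffix hZ
  · intro t ht
    by_contra hlt
    push Not at hlt
    obtain ⟨v, hv, hx⟩ := ivt_dn t (-(L : ℤ)) (by omega) hlt
    have h1 : A ++ v <+: A ++ (V ++ Z) :=
      (List.prefix_append_right_inj A).2 ((hv.trans ht).trans (List.prefix_append _ _))
    refine hg.1 A (A ++ v) (List.prefix_append _ _) h1 (by rw [hA]; ring) ?_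
    rw [X_append, hA, hx]; ring
  · intro t ht
    by_contra hlt
    push Not at hlt
    obtain ⟨v, hv, hx⟩ := ivt_up t (2 * (L : ℤ)) (by omega) hlt
    have h1 : A ++ v <+: A ++ V := (List.prefix_append_right_inj A).2 (hv.trans ht)
    have h2 : A ++ V <+: A ++ (V ++ Z) :=
      (List.prefix_append_right_inj A).2 (List.prefix_append _ _)
    refine hg.2 (A ++ v) (A ++ V) h1 h2 (by rw [X_append, hA, hx]; ring) ?_
    rw [X_append, hA, hV]; ring

namespace Win
variable {L : ℕ} {j : ℤ} {A V Z : Word}

lemma br' (h : Win L j A V Z) : IsBr (A ++ (seg L ++ Z)) :=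
  h.brA.append ((isBr_replicate_E L).append h.brZ)

lemma X' (h : Win L j A V Z) : X (A ++ (seg L ++ Z)) = X (A ++ (V ++ Z)) := by
  simp only [X_append, h.XV, X_replicate_E]

lemma cut (h : Win L j A V Z) : Cut L j (A ++ (seg L ++ Z)) :=
  ⟨A, Z, rfl, h.brA, h.brZ, h.XA⟩

lemma XAE (h : Win L j A V Z) : X (A ++ seg L) = (j + 1) * L := by
  rw [X_append, h.XA, X_replicate_E]; ring

lemma brAE (h : Win L j A V Z) : IsBr (A ++ seg L) := h.brA.append (isBr_replicate_E L)

lemma good (h : Win L j A V Z) (hL : 0 < L) {i : ℤ} (hg : Gd L i (A ++ (V ++ Z))) :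
    Gd L i (A ++ (seg L ++ Z)) := by
  have hL' : (0 : ℤ) < L := by exact_mod_cast hL
  intro u u' huu hu' hxu hxu'
  rw [← List.append_assoc] at hu'
  have hu : u <+: (A ++ seg L) ++ Z := huu.trans hu'
  rcases prefix_append_cases hu' with h1 | ⟨b, hb, hb0, rfl⟩
  · rcases prefix_append_cases h1 with h2 | ⟨b, hb, hb0, rfl⟩
    · exact hg u u' huu (h2.trans (List.prefix_append _ _)) hxu hxu'
    · have h3 := (isBr_replicate_E L).pos hb hb0
      have h4 := h.brAE.le (huu.trans h1)
      rw [h.XAE, hxu] at h4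
      rw [X_append, h.XA] at hxu'
      have h5 : (i + 1) ≤ (j + 1) := le_of_mul_le_mul_right h4 hL'
      have h6 : j * L < i * L := by linarith
      have h7 : j < i := lt_of_mul_lt_mul_right h6 hL'.le
      omega
  · have h3 := h.brZ.pos hb hb0
    rw [X_append, h.XAE] at hxu'
    have h6 : (j + 1) * L < i * L := by linarith
    have h7 : j + 1 < i := lt_of_mul_lt_mul_right h6 hL'.le
    rcases prefix_append_cases hu with h4 | ⟨b', hb', hb0', rfl⟩
    · have h5 := h.brAE.le h4
      rw [h.XAE, hxu] at h5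
      have h8 : (i + 1) ≤ (j + 1) := le_of_mul_le_mul_right h5 hL'
      omega
    · have hbb : b' <+: b := (List.prefix_append_right_inj _).1 huu
      refine hg (A ++ (V ++ b')) (A ++ (V ++ b)) ?_ ?_ ?_ ?_
      · exact (List.prefix_append_right_inj A).2 ((List.prefix_append_right_inj V).2 hbb)
      · exact (List.prefix_append_right_inj A).2 ((List.prefix_append_right_inj V).2 hb)
      · rw [X_append, h.XAE] at hxu
        rw [X_append, X_append, h.XA, h.XV, ← hxu]; ring
      · rw [X_append, X_append, h.XA, h.XV, ← hxu']; ring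

lemma gc (h : Win L j A V Z) (hL : 0 < L) {i : ℤ} (hg : GC L i (A ++ (V ++ Z))) :
    GC L i (A ++ (seg L ++ Z)) := ⟨h.good hL hg.1, h.good hL hg.2⟩

lemma cut_of_cut (h : Win L j A V Z) (hL : 0 < L) {j' : ℤ} (hne : j' + 3 ≤ j ∨ j + 3 ≤ j')
    (hc : Cut L j' (A ++ (seg L ++ Z))) : Cut L j' (A ++ (V ++ Z)) := by
  have hL' : (0 : ℤ) < L := by exact_mod_cast hL
  obtain ⟨P, Q, hPQ, hP, hQ, hXP⟩ := hc
  rcases hne with hj | hj
  · -- the cut is to the left of the window
    have h1 : P ++ seg L <+: A ++ (seg L ++ Z) := ⟨Q, by rw [hPQ, List.append_assoc]⟩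
    have hXPE : X (P ++ seg L) = (j' + 1) * L := by
      rw [X_append, hXP, X_replicate_E]; ring
    rcases prefix_append_cases h1 with h2 | ⟨b, hb, hb0, hPb⟩
    · obtain ⟨R, hR⟩ := h2
      have hQ' : Q = R ++ (seg L ++ Z) := by
        have h3 : (P ++ seg L) ++ Q = (P ++ seg L) ++ (R ++ (seg L ++ Z)) := by
          rw [← List.append_assoc (P ++ seg L) R, hR, List.append_assoc P, ← hPQ]
        exact List.append_cancel_left h3
      have hXR : X R = (j - (j' + 1)) * L := by
        have := h.XA
        rw [← hR, X_append, hXPE] at this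
        linarith
      refine ⟨P, R ++ (V ++ Z), ?_, hP, ?_, hXP⟩
      · rw [← hR]; simp only [List.append_assoc]
      · have hbr : IsBr ((P ++ seg L) ++ (R ++ (V ++ Z))) := by
          rw [← List.append_assoc (P ++ seg L) R, hR]; exact h.br
        refine hbr.of_suffix fun t ht h0 => ?_
        rcases prefix_append_cases ht with h4 | ⟨b, hb, hb0, rfl⟩
        · exact hQ.pos (by rw [hQ']; exact h4.trans (List.prefix_append _ _)) h0
        · rw [X_append, hXR]
          rcases prefix_append_cases hb with h5 | ⟨b', hb', hb0', rfl⟩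
          · have := h.lo b h5
            nlinarith
          · have := h.brZ.pos hb' hb0'
            rw [X_append, h.XV]
            nlinarith
    · exfalso
      have h3 := ((isBr_replicate_E L).append h.brZ).pos hb hb0
      rw [hPb, X_append, h.XA] at hXPE
      have h6 : j * L < (j' + 1) * L := by linarith
      have h7 : j < (j' + 1) := lt_of_mul_lt_mul_right h6 hL'.le
      omega
  · -- the cut is to the right of the window
    have h1 : P <+: (A ++ seg L) ++ Z := ⟨seg L ++ Q, by rw [← hPQ, List.append_assoc]⟩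
    rcases prefix_append_cases h1 with h2 | ⟨R, hR, hR0, hPR⟩
    · exfalso
      have h5 := h.brAE.le h2
      rw [h.XAE, hXP] at h5
      have h8 : j' ≤ (j + 1) := le_of_mul_le_mul_right h5 hL'
      omega
    · have hZ : Z = R ++ (seg L ++ Q) := by
        have h3 : (A ++ seg L) ++ Z = (A ++ seg L) ++ (R ++ (seg L ++ Q)) := by
          rw [← List.append_assoc (A ++ seg L) R, ← hPR, List.append_assoc A, hPQ]
        exact List.append_cancel_left h3
      refine ⟨A ++ (V ++ R), Q, ?_, ?_, hQ, ?_⟩
      · rw [hZ]; simp only [List.append_assoc]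
      · have hbr : IsBr ((A ++ (V ++ R)) ++ (seg L ++ Q)) := by
          have := h.br
          rw [hZ] at this
          simpa only [List.append_assoc] using this
        refine hbr.of_prefix fun t ht => ?_
        obtain ⟨t', ht'⟩ := ht
        have hX : X (A ++ (V ++ R)) = j' * L := by
          rw [← hXP, hPR]; simp only [X_append, h.XV, X_replicate_E]; ring
        have hle : X t' ≤ j' * L := by
          have hpre : t' <+: A ++ (V ++ R) := ⟨t, ht'⟩
          rcases prefix_append_cases hpre with h4 | ⟨b, hb, hb0, rfl⟩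
          · have := h.brA.le h4
            rw [h.XA] at this
            nlinarith
          · rw [X_append, h.XA]
            rcases prefix_append_cases hb with h5 | ⟨b', hb', hb0', rfl⟩
            · have := h.hi b h5
              nlinarith
            · have h6 : A ++ seg L ++ b' <+: P := by
                rw [hPR]; exact (List.prefix_append_right_inj _).2 hb'
              have h7 := hP.le h6
              rw [X_append, h.XAE, hXP] at h7
              rw [X_append, h.XV]
              linarith
        have : X t' + X t = j' * L := by rw [← X_append, ht', hX]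
        linarith
      · rw [← hXP, hPR]; simp only [X_append, h.XV, X_replicate_E]; ring

end Win

/-- the relation between the old word, the new word and the window -/
def Rel (L : ℕ) (j : ℤ) (w : Word) (p : Word × Word) : Prop :=
  ∃ A Z : Word, w = A ++ (p.2 ++ Z) ∧ p.1 = A ++ (seg L ++ Z) ∧ X A = j * L ∧
    ∀ t : Word, t <+: A → t ≠ A → X t < j * L

lemma Rel.unique {L : ℕ} {j : ℤ} {w w' : Word} {p : Word × Word} (h : Rel L j w p)
    (h' : Rel L j w' p) : w = w' := by
  obtain ⟨A, Z, rfl, hp, hA, hf⟩ := h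
  obtain ⟨A', Z', rfl, hp', hA', hf'⟩ := h'
  have hAA : A = A' := by
    rcases prefix_comparable (w := p.1) (a := A) (b := A') (by rw [hp]; exact List.prefix_append _ _)
      (by rw [hp']; exact List.prefix_append _ _) with h1 | h1
    · by_contra hne
      have := hf' A h1 hne
      omega
    · by_contra hne
      have := hf A' h1 (Ne.symm hne)
      omega
  subst hAA
  rw [hp] at hp'
  have h1 := List.append_cancel_left (List.append_cancel_left hp')
  rw [h1]

end Pool.Agent.SAPF
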