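import Pool.Agent.SAPF.Renew
import Pool.Agent.SAPF.Flip

/-!
Tail estimates, part A: column heights of short pieced bridges, long pieces, heights.
-/

namespace Pool.Agent.SAPF

open scoped ENNReal
open Filter

/-- pairs of bridges of total length `2 n + 2` -/
def Pairs (n : ℕ) : Set (Word × Word) :=
  {p | IsBr p.1 ∧ IsBr p.2 ∧ p.1.length + p.2.length = 2 * n + 2}

/-- weight of a pair -/
noncomputable def pw (u c : ℝ) (p : Word × Word) : ℝ≥0∞ := ex u c 0 p.1 * ex u c 0 p.2

/-! ### horizontal edges -/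

lemma hEdges_appendT (u v : Word) : hEdges (u ++ v) =
    hEdges u ++ (hEdges v).map (fun p => (p.1 + X u, p.2 + Y u)) := by
  induction u with
  | nil => simp [hEdges]
  | cons d u ih =>
    have h1 : (d :: u) ++ v = d :: (u ++ v) := rfl
    rw [h1]
    simp only [hEdges, ih, List.map_append, List.map_map, List.append_assoc]
    congr 3
    funext p
    simp only [Function.comp, X_cons, Y_cons, Prod.mk.injEq]
    constructor <;> ring

lemma length_hEdges_le (w : Word) : (hEdges w).length ≤ w.length := by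
  induction w with
  | nil => simp [hEdges]
  | cons d w ih =>
    simp only [hEdges, List.length_append, List.length_map, List.length_cons]
    have : (if d = Dir.E then [((0 : ℤ), (0 : ℤ))] else if d = Dir.W then [((-1 : ℤ), (0 : ℤ))]
      else []).length ≤ 1 := by split_ifs <;> simp
    omega

/-- the column of an edge is the smaller of the levels of two consecutive beginnings -/
lemma exists_of_mem_hEdgesT {w : Word} {p : ℤ × ℤ} (h : p ∈ hEdges w) :
    ∃ t d, t ++ [d] <+: w ∧ ((d = Dir.E ∧ p.1 = X t) ∨ (d = Dir.W ∧ p.1 = X t - 1)) ∧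
      p.2 = Y t := by
  induction w generalizing p with
  | nil => simp [hEdges] at h
  | cons e w ih =>
    simp only [hEdges, List.mem_append, List.mem_map] at h
    rcases h with h | ⟨p', hp', rfl⟩
    · refine ⟨[], e, by simp, ?_⟩
      split_ifs at h with h1 h2
      · simp at h; simp [h, h1]
      · simp at h; simp [h, h2]
      · simp at h
    · obtain ⟨t, d, ht, hd, hy⟩ := ih hp'
      refine ⟨e :: t, d, ?_, ?_, ?_⟩
      · rw [List.cons_append]; exact List.cons_prefix_cons.2 ⟨rfl, ht⟩
      · rcases hd with ⟨h1, h2⟩ | ⟨h1, h2⟩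
        · left; refine ⟨h1, ?_⟩; simp only [X_cons]; omega
        · right; refine ⟨h1, ?_⟩; simp only [X_cons]; omega
      · simp only [Y_cons]; omega

lemma IsBr.col_bounds {w : Word} (hw : IsBr w) {p : ℤ × ℤ} (h : p ∈ hEdges w) :
    0 ≤ p.1 ∧ p.1 < X w := by
  obtain ⟨t, d, ht, hd, -⟩ := exists_of_mem_hEdgesT h
  have h1 : t <+: w := (List.prefix_append t [d]).trans ht
  have h2 := hw.nonneg h1
  have h3 := hw.le h1
  have h4 := hw.le ht
  have h5 := hw.pos ht (by simp)
  rw [X_append, X_cons, X_nil] at h4 h5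
  rcases hd with ⟨rfl, h6⟩ | ⟨rfl, h6⟩ <;> simp only [Dir.dx] at h4 h5 <;> omega

lemma mem_colHT {w : Word} {x y : ℤ} : y ∈ colH w x ↔ (x, y) ∈ hEdges w := by
  simp [colH]

lemma card_colH_le_lengthT (w : Word) (x : ℤ) : (colH w x).card ≤ w.length := by
  unfold colH
  calc _ ≤ (((hEdges w).filter (fun p => p.1 = x)).map Prod.snd).length := List.toFinset_card_le _
    _ = ((hEdges w).filter (fun p => p.1 = x)).length := List.length_map _
    _ ≤ (hEdges w).length := List.length_filter_le _ _
    _ ≤ w.length := length_hEdges_le w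

lemma card_colH_le {ps : List Word} (hps : AllIrr ps) {l : ℕ} (hl : ∀ p ∈ ps, p.length ≤ l)
    (x : ℤ) : (colH ps.flatten x).card ≤ l := by
  induction ps generalizing x with
  | nil => simp [colH, hEdges]
  | cons p ps ih =>
    have hp : IsIrr p := hps p (by simp)
    have hps' : AllIrr ps := fun q hq => hps q (by simp [hq])
    have hbr := isBr_flatten hps'
    rw [List.flatten_cons]
    by_cases hx : x < X p
    · have : colH (p ++ ps.flatten) x ⊆ colH p x := by
        intro y hy
        rw [mem_colHT, hEdges_appendT, List.mem_append, List.mem_map] at hy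
        rcases hy with hy | ⟨q, hq, hqe⟩
        · exact mem_colHT.2 hy
        · exfalso
          have := (hbr.col_bounds hq).1
          have h2 := congrArg Prod.fst hqe
          simp at h2
          omega
      exact (Finset.card_le_card this).trans ((card_colH_le_lengthT p x).trans (hl p (by simp)))
    · have : colH (p ++ ps.flatten) x ⊆ (colH ps.flatten (x - X p)).image (fun y => y + Y p) := by
        intro y hy
        rw [mem_colHT, hEdges_appendT, List.mem_append, List.mem_map] at hy
        rcases hy with hy | ⟨q, hq, hqe⟩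
        · exfalso
          have := (hp.br.col_bounds hy).2
          simp at this
          omega
        · rw [Finset.mem_image]
          refine ⟨q.2, mem_colHT.2 ?_, ?_⟩
          · have h2 := congrArg Prod.fst hqe
            simp at h2
            have : x - X p = q.1 := by omega
            rw [this]; exact hq
          · have h3 := congrArg Prod.snd hqe
            simpa using h3
      refine (Finset.card_le_card this).trans (Finset.card_image_le.trans ?_)
      exact ih hps' (fun q hq => hl q (by simp [hq])) _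

/-! ### mirror image of pieces -/

lemma IsIrr.flipY {p : Word} (h : IsIrr p) : IsIrr (flipY p) := by
  refine ⟨h.br.flipY, ?_, ?_⟩
  · rw [Ne, flipY_eq_nil]; exact h.ne
  · intro a b hab ha hb
    have h1 : p = SAPF.flipY a ++ SAPF.flipY b := by
      rw [← flipY_append, ← hab, flipY_flipY]
    rcases h.irr h1 ha.flipY hb.flipY with h2 | h2
    · left; exact flipY_eq_nil.1 h2
    · right; exact flipY_eq_nil.1 h2

/-- irreducible pieces of length at most `l` -/
def AL (l : ℕ) : Set Word := {p | IsIrr p ∧ p.length ≤ l}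

lemma mass_AL_symm (u c θ : ℝ) (l : ℕ) : mass (ex u c θ) (AL l) ≤ mass (ex u c (-θ)) (AL l) := by
  refine mass_le_of_injOn flipY ?_ ?_ ?_
  · intro a _ b _ hab
    have := congrArg flipY hab
    simpa using this
  · intro a ha
    exact ⟨ha.1.flipY, by simpa using ha.2⟩
  · intro a _
    rw [ex_flipY, neg_neg]

lemma mass_AL_le {u c : ℝ} (hone : mass (ex u c 0) Irr = 1) (θ : ℝ) (l : ℕ) :
    mass (ex u c θ) (AL l) ≤ ENNReal.ofReal (Real.exp ((θ * l) ^ 2 / 2)) := by
  have h1 : mass (ex u c θ) (AL l) + mass (ex u c (-θ)) (AL l) ≤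
      ENNReal.ofReal (2 * Real.cosh (θ * l)) * mass (ex u c 0) (AL l) := by
    rw [← mass_add, ← mass_const_mul]
    refine mass_mono_fun fun p hp => ?_
    unfold ex
    rw [← ENNReal.ofReal_add (Real.exp_pos _).le (Real.exp_pos _).le,
      ← ENNReal.ofReal_mul (by positivity)]
    apply ENNReal.ofReal_le_ofReal
    have h2 : Real.exp (-u * p.length + c * X p + θ * Y p) +
        Real.exp (-u * p.length + c * X p + -θ * Y p) =
        2 * Real.cosh (θ * Y p) * Real.exp (-u * p.length + c * X p + 0 * Y p) := by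
      rw [Real.cosh_eq, Real.exp_add, Real.exp_add (-u * p.length + c * X p) (-θ * Y p),
        Real.exp_add (-u * p.length + c * X p) (0 * Y p)]
      simp
      ring
    rw [h2]
    have h3 : Real.cosh (θ * Y p) ≤ Real.cosh (θ * l) := by
      rw [Real.cosh_le_cosh, abs_mul, abs_mul]
      apply mul_le_mul_of_nonneg_left _ (abs_nonneg _)
      have h4 : |(Y p : ℝ)| ≤ p.length := by exact_mod_cast abs_Y_le p
      have h5 : (p.length : ℝ) ≤ l := by exact_mod_cast hp.2
      rw [abs_of_nonneg (by positivity : (0 : ℝ) ≤ (l : ℝ))]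
      linarith
    gcongr
  have h2 : mass (ex u c 0) (AL l) ≤ 1 := by
    rw [← hone]
    exact mass_mono fun p hp => hp.1
  have h3 : mass (ex u c (-θ)) (AL l) = mass (ex u c θ) (AL l) := by
    refine le_antisymm ?_ (mass_AL_symm u c θ l)
    have := mass_AL_symm u c (-θ) l
    rwa [neg_neg] at this
  rw [h3] at h1
  have h4 : 2 * mass (ex u c θ) (AL l) ≤ 2 * ENNReal.ofReal (Real.cosh (θ * l)) := by
    calc 2 * mass (ex u c θ) (AL l) = mass (ex u c θ) (AL l) + mass (ex u c θ) (AL l) := two_mul _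
      _ ≤ ENNReal.ofReal (2 * Real.cosh (θ * l)) * mass (ex u c 0) (AL l) := h1
      _ ≤ ENNReal.ofReal (2 * Real.cosh (θ * l)) * 1 := by gcongr
      _ = 2 * ENNReal.ofReal (Real.cosh (θ * l)) := by
        rw [mul_one, ENNReal.ofReal_mul (by norm_num)]; simp
  have h5 : mass (ex u c θ) (AL l) ≤ ENNReal.ofReal (Real.cosh (θ * l)) := by
    rw [ENNReal.mul_le_mul_iff_right (by norm_num) (by norm_num)] at h4
    exact h4
  refine h5.trans (ENNReal.ofReal_le_ofReal ?_)
  exact Real.cosh_le_exp_half_sq _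

/-! ### short bridges, long pieces -/

/-- bridges of length at most `M` -/
def BM (M : ℕ) : Set Word := {w | IsBr w ∧ w.length ≤ M}

lemma mass_BM_le {u c : ℝ} (h : Params u c) (M : ℕ) : mass (ex u c 0) (BM M) ≤ (M + 1 : ℕ) := by
  have h1 : BM M ⊆ ⋃ i : Fin (M + 1), {w | IsBr w ∧ w.length = i} := by
    intro w hw
    rw [Set.mem_iUnion]
    exact ⟨⟨w.length, by have := hw.2; omega⟩, hw.1, rfl⟩
  refine (mass_mono h1).trans ((mass_iUnion_le _ _).trans ?_)
  rw [tsum_fintype]
  calc ∑ i : Fin (M + 1), mass (ex u c 0) {w | IsBr w ∧ w.length = i}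
      ≤ ∑ _i : Fin (M + 1), 1 := Finset.sum_le_sum fun i _ => h.up i
    _ = (M + 1 : ℕ) := by simp

/-- irreducible pieces longer than `l` -/
def LP (l : ℕ) : Set Word := {p | IsIrr p ∧ l < p.length}

lemma exists_LP_bound {u c : ℝ} (h : Params u c) : ∃ δ > 0, ∃ B : ℝ, 0 < B ∧ ∀ l : ℕ,
    mass (ex u c 0) (LP l) ≤ ENNReal.ofReal (B * Real.exp (-δ * l)) := by
  obtain ⟨δ, hδ, hfin⟩ := h.tail
  refine ⟨δ, hδ, (mass (ex (u - δ) c 0) Irr).toReal + 1, by positivity, fun l => ?_⟩
  have h1 : mass (ex u c 0) (LP l) ≤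
      mass (fun p => ENNReal.ofReal (Real.exp (-δ * l)) * ex (u - δ) c 0 p) (LP l) := by
    refine mass_mono_fun fun p hp => ?_
    unfold ex
    rw [← ENNReal.ofReal_mul (Real.exp_pos _).le, ← Real.exp_add]
    apply ENNReal.ofReal_le_ofReal
    apply Real.exp_le_exp.2
    have h2 : (l : ℝ) ≤ p.length := by exact_mod_cast hp.2.le
    nlinarith
  refine h1.trans ?_
  rw [mass_const_mul]
  have h2 : mass (ex (u - δ) c 0) (LP l) ≤ ENNReal.ofReal ((mass (ex (u - δ) c 0) Irr).toReal + 1) := by
    calc mass (ex (u - δ) c 0) (LP l) ≤ mass (ex (u - δ) c 0) Irr := mass_mono fun p hp => hp.1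
      _ = ENNReal.ofReal (mass (ex (u - δ) c 0) Irr).toReal := (ENNReal.ofReal_toReal hfin).symm
      _ ≤ _ := ENNReal.ofReal_le_ofReal (by linarith)
  calc ENNReal.ofReal (Real.exp (-δ * l)) * mass (ex (u - δ) c 0) (LP l)
      ≤ ENNReal.ofReal (Real.exp (-δ * l)) *
        ENNReal.ofReal ((mass (ex (u - δ) c 0) Irr).toReal + 1) := by gcongr
    _ = _ := by rw [← ENNReal.ofReal_mul (Real.exp_pos _).le, mul_comm]

/-- bridges of length at most `M` with a piece longer than `l` -/
def LongW (M l : ℕ) : Set Word :=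
  {w | w ∈ BM M ∧ ∃ ps, AllIrr ps ∧ ps.flatten = w ∧ ∃ p ∈ ps, l < p.length}

lemma mass_LongW_le {u c : ℝ} (h : Params u c) (M l : ℕ) :
    mass (ex u c 0) (LongW M l) ≤ (M + 1 : ℕ) * mass (ex u c 0) (LP l) * (M + 1 : ℕ) := by
  have h1 : mass (ex u c 0) (LongW M l) ≤
      mass (ex u c 0) {w | ∃ a ∈ BM M, ∃ p ∈ LP l, w = a ++ p} * mass (ex u c 0) (BM M) := by
    refine mass_le_mul (fun a _ b _ => (ex_append _ _ _ _ _).le) ?_
    rintro w ⟨⟨hbr, hlen⟩, ps, hps, rfl, p, hp, hl⟩
    obtain ⟨s, t, rfl⟩ := List.append_of_mem hp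
    have hs : AllIrr s := fun q hq => hps q (by simp [hq])
    have ht : AllIrr t := fun q hq => hps q (by simp [hq])
    have hpi : IsIrr p := hps p (by simp)
    rw [List.flatten_append, List.flatten_cons, List.length_append, List.length_append] at hlen
    refine ⟨s.flatten ++ p, ⟨s.flatten, ⟨isBr_flatten hs, by omega⟩, p, ⟨hpi, hl⟩, rfl⟩,
      t.flatten, ⟨isBr_flatten ht, by omega⟩, by simp⟩
  have h2 : mass (ex u c 0) {w | ∃ a ∈ BM M, ∃ p ∈ LP l, w = a ++ p} ≤
      mass (ex u c 0) (BM M) * mass (ex u c 0) (LP l) := by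
    refine mass_le_mul (fun a _ b _ => (ex_append _ _ _ _ _).le) ?_
    rintro w ⟨a, ha, p, hp, rfl⟩
    exact ⟨a, ha, p, hp, rfl⟩
  have h3 := mass_BM_le h M
  calc _ ≤ _ := h1
    _ ≤ mass (ex u c 0) (BM M) * mass (ex u c 0) (LP l) * mass (ex u c 0) (BM M) := by gcongr
    _ ≤ _ := by gcongr

/-! ### high words made of short pieces -/

/-- products of at most `M` pieces of length at most `l` -/
def SW (M l : ℕ) : Set Word :=
  {w | ∃ ps : List Word, ps.length ≤ M ∧ (∀ p ∈ ps, p ∈ AL l) ∧ ps.flatten = w}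

lemma mass_SW_le {u c : ℝ} (hone : mass (ex u c 0) Irr = 1) (θ : ℝ) (M l : ℕ) :
    mass (ex u c θ) (SW M l) ≤
      ENNReal.ofReal ((M + 1) * Real.exp (M * ((θ * l) ^ 2 / 2))) := by
  have h1 : mass (ex u c θ) (SW M l) ≤ mass (fun ps : List Word => ex u c θ ps.flatten)
      (⋃ j : Fin (M + 1), {ps | ps.length = (j : ℕ) ∧ ∀ p ∈ ps, p ∈ AL l}) := by
    refine mass_le_of_section List.flatten ?_
    rintro w ⟨ps, hlen, hps, rfl⟩
    refine ⟨ps, ?_, rfl, le_rfl⟩
    rw [Set.mem_iUnion]
    exact ⟨⟨ps.length, by omega⟩, rfl, hps⟩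
  refine h1.trans ((mass_iUnion_le _ _).trans ?_)
  rw [tsum_fintype]
  have hM := mass_AL_le hone θ l
  have hexp1 : 1 ≤ Real.exp ((θ * l) ^ 2 / 2) := Real.one_le_exp (by positivity)
  calc ∑ j : Fin (M + 1), mass (fun ps : List Word => ex u c θ ps.flatten)
        {ps | ps.length = (j : ℕ) ∧ ∀ p ∈ ps, p ∈ AL l}
      ≤ ∑ _j : Fin (M + 1), ENNReal.ofReal (Real.exp (M * ((θ * l) ^ 2 / 2))) := by
        refine Finset.sum_le_sum fun j _ => ?_
        rw [mass_lists]
        calc mass (ex u c θ) (AL l) ^ (j : ℕ)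
            ≤ ENNReal.ofReal (Real.exp ((θ * l) ^ 2 / 2)) ^ (j : ℕ) := by gcongr
          _ = ENNReal.ofReal (Real.exp ((θ * l) ^ 2 / 2) ^ (j : ℕ)) :=
            (ENNReal.ofReal_pow (Real.exp_pos _).le _).symm
          _ ≤ ENNReal.ofReal (Real.exp ((θ * l) ^ 2 / 2) ^ M) := by
            apply ENNReal.ofReal_le_ofReal
            exact pow_le_pow_right₀ hexp1 (by have := j.2; omega)
          _ = _ := by rw [← Real.exp_nat_mul]
    _ = _ := by
        rw [Finset.sum_const, Finset.card_univ, Fintype.card_fin, nsmul_eq_mul,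
          ENNReal.ofReal_mul (by positivity)]
        congr 1
        rw [show ((M : ℝ) + 1) = ((M + 1 : ℕ) : ℝ) by push_cast; ring, ENNReal.ofReal_natCast]

lemma mass_high_le {u c : ℝ} (hone : mass (ex u c 0) Irr = 1) (M l : ℕ) (θ h : ℝ) (hθ : 0 ≤ θ) :
    mass (ex u c 0) {w | w ∈ SW M l ∧ h ≤ |(Y w : ℝ)|} ≤
      ENNReal.ofReal (2 * (M + 1) * Real.exp (M * ((θ * l) ^ 2 / 2) - θ * h)) := by
  have h1 : mass (ex u c 0) {w | w ∈ SW M l ∧ h ≤ |(Y w : ℝ)|} ≤
      mass (fun w => ENNReal.ofReal (Real.exp (-θ * h)) * (ex u c θ w + ex u c (-θ) w)) (SW M l) := by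
    refine (mass_mono_fun fun w hw => ?_).trans (mass_mono fun w hw => hw.1)
    have h2 : ex u c 0 w ≤ ENNReal.ofReal (Real.exp (-θ * h)) * ex u c θ w ∨
        ex u c 0 w ≤ ENNReal.ofReal (Real.exp (-θ * h)) * ex u c (-θ) w := by
      rcases le_abs'.1 hw.2 with h3 | h3
      · right
        unfold ex
        rw [← ENNReal.ofReal_mul (Real.exp_pos _).le, ← Real.exp_add]
        apply ENNReal.ofReal_le_ofReal
        apply Real.exp_le_exp.2
        nlinarith
      · left
        unfold ex
        rw [← ENNReal.ofReal_mul (Real.exp_pos _).le, ← Real.exp_add]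
        apply ENNReal.ofReal_le_ofReal
        apply Real.exp_le_exp.2
        nlinarith
    rw [mul_add]
    rcases h2 with h2 | h2
    · exact h2.trans le_self_add
    · exact h2.trans le_add_self
  refine h1.trans ?_
  rw [mass_const_mul, mass_add]
  have h2 := mass_SW_le hone θ M l (c := c)
  have h3 := mass_SW_le hone (-θ) M l (c := c)
  rw [show ((-θ) * (l : ℝ)) ^ 2 = (θ * l) ^ 2 by ring] at h3
  calc ENNReal.ofReal (Real.exp (-θ * h)) * (mass (ex u c θ) (SW M l) + mass (ex u c (-θ)) (SW M l))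
      ≤ ENNReal.ofReal (Real.exp (-θ * h)) *
        (ENNReal.ofReal ((M + 1) * Real.exp (M * ((θ * l) ^ 2 / 2))) +
          ENNReal.ofReal ((M + 1) * Real.exp (M * ((θ * l) ^ 2 / 2)))) := by gcongr
    _ = ENNReal.ofReal (2 * (M + 1) * Real.exp (M * ((θ * l) ^ 2 / 2) - θ * h)) := by
        rw [← ENNReal.ofReal_add (by positivity) (by positivity),
          ← ENNReal.ofReal_mul (Real.exp_pos _).le]
        congr 1
        rw [sub_eq_add_neg, Real.exp_add, show -θ * h = -(θ * h) by ring]
        ring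

/-- a beginning of a product of short pieces is close to a product of pieces -/
lemma exists_piece_prefix {l : ℕ} {ps : List Word} (hl : ∀ p ∈ ps, p.length ≤ l) {t : Word}
    (ht : t <+: ps.flatten) : ∃ as bs, ps = as ++ bs ∧ |Y t| ≤ |Y as.flatten| + l := by
  induction ps generalizing t with
  | nil =>
    simp only [List.flatten_nil, List.prefix_nil] at ht
    exact ⟨[], [], rfl, by simp [ht]⟩
  | cons p ps ih =>
    rw [List.flatten_cons] at ht
    rcases prefix_append_cases ht with h | ⟨b, hb, hb0, rfl⟩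
    · refine ⟨[], p :: ps, rfl, ?_⟩
      have h1 := abs_Y_le t
      have h2 := h.length_le
      have h3 := hl p (by simp)
      simp
      omega
    · have hl' : ∀ q ∈ ps, q.length ≤ l := fun q hq => hl q (by simp [hq])
      -- apply the induction hypothesis to a statement with an offset
      have key : ∀ (qs : List Word) (z : ℤ) (b : Word), (∀ q ∈ qs, q.length ≤ l) →
          b <+: qs.flatten → ∃ as bs, qs = as ++ bs ∧ |z + Y b| ≤ |z + Y as.flatten| + l := by
        intro qs
        induction qs with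
        | nil =>
          intro z b _ hb
          simp only [List.flatten_nil, List.prefix_nil] at hb
          exact ⟨[], [], rfl, by simp [hb]⟩
        | cons q qs ihq =>
          intro z b hq hb
          rw [List.flatten_cons] at hb
          rcases prefix_append_cases hb with h | ⟨b', hb', -, rfl⟩
          · refine ⟨[], q :: qs, rfl, ?_⟩
            have h1 := abs_Y_le b
            have h2 := h.length_le
            have h3 := hq q (by simp)
            have h4 := abs_add_le z (Y b)
            simp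
            omega
          · obtain ⟨as, bs, h1, h2⟩ := ihq (z + Y q) b' (fun r hr => hq r (by simp [hr])) hb'
            refine ⟨q :: as, bs, by simp [h1], ?_⟩
            simp only [Y_append, List.flatten_cons]
            rw [← add_assoc, ← add_assoc]
            exact h2
      obtain ⟨as, bs, h1, h2⟩ := key ps (Y p) b hl' hb
      refine ⟨p :: as, bs, by simp [h1], ?_⟩
      simpa using h2

lemma length_le_of_allIrr {ps : List Word} (h : AllIrr ps) : ps.length ≤ ps.flatten.length := by
  induction ps with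
  | nil => simp
  | cons p ps ih =>
    have h1 := ih (fun q hq => h q (by simp [hq]))
    have h2 : 0 < p.length := List.length_pos_iff.2 (h p (by simp)).ne
    simp only [List.flatten_cons, List.length_append, List.length_cons]
    omega

/-- bridges of length at most `M` that go higher than `h` -/
def HighW (M : ℕ) (h : ℝ) : Set Word :=
  {w | w ∈ BM M ∧ ∃ t, t <+: w ∧ h < |(Y t : ℝ)|}

lemma mass_HighW_le {u c : ℝ} (hp : Params u c) (M l : ℕ) (θ h : ℝ) (hθ : 0 ≤ θ) :
    mass (ex u c 0) (HighW M h) ≤ mass (ex u c 0) (LongW M l) +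
      ENNReal.ofReal (2 * (M + 1) * Real.exp (M * ((θ * l) ^ 2 / 2) - θ * (h - l))) *
        (M + 1 : ℕ) := by
  have h1 : HighW M h ⊆ LongW M l ∪
      {w | ∃ a ∈ {w | w ∈ SW M l ∧ h - l ≤ |(Y w : ℝ)|}, ∃ b ∈ BM M, w = a ++ b} := by
    rintro w ⟨⟨hbr, hlen⟩, t, ht, hht⟩
    obtain ⟨ps, hps, rfl⟩ := exists_factor hbr
    by_cases hl : ∃ p ∈ ps, l < p.length
    · left; exact ⟨⟨hbr, hlen⟩, ps, hps, rfl, hl⟩
    · right
      push Not at hl
      obtain ⟨as, bs, rfl, hab⟩ := exists_piece_prefix hl ht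
      have has : AllIrr as := fun q hq => hps q (by simp [hq])
      have hbs : AllIrr bs := fun q hq => hps q (by simp [hq])
      rw [List.flatten_append, List.length_append] at hlen
      have hla := length_le_of_allIrr has
      refine ⟨as.flatten, ⟨⟨as, by omega, fun p hp => ⟨has p hp, hl p (by simp [hp])⟩, rfl⟩, ?_⟩,
        bs.flatten, ⟨isBr_flatten hbs, by omega⟩, by simp⟩
      have : |(Y t : ℝ)| ≤ |(Y as.flatten : ℝ)| + l := by exact_mod_cast hab
      linarith
  refine (mass_mono h1).trans ((mass_union_le _ _ _).trans ?_)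
  gcongr
  refine (mass_le_mul (B := {w | w ∈ SW M l ∧ h - l ≤ |(Y w : ℝ)|}) (C := BM M)
    (φ₁ := ex u c 0) (φ₂ := ex u c 0)
    (fun a _ b _ => (ex_append _ _ _ _ _).le) (fun w hw => hw)).trans ?_
  have h2 := mass_high_le hp.one M l θ (h - l) hθ (c := c)
  have h3 := mass_BM_le hp M
  gcongr

end Pool.Agent.SAPF
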